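import Pool.Agent.ISO.Lift

/-!
# BAS/BCap: pushing a diameter off the centre   (difficulty 2)

`ISO.carries_arc` with `E = ℂ × ℝ`, `k s l = (-2 (l - l₀) + i s β (l - l₀), 0)`, `τ = 0`, `a₁ = l₀ - ε`, `a' = l₀ - ε/2`,
`b' = l₀ + ε/2`, `b₁ = l₀ + ε`, `a₀ = l₀ - 2ε`, `b₀ = l₀ + 2ε`.  Injective and immersed: real part.
-/

open scoped Manifold ContDiff Topology
open Set Filter
open Complex (I)

namespace Pool.Agent.BAS

open Pool.Agent.RSG (E4)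
open Pool.Agent.PTH (Carries Act)
open Pool.Agent.ISO (EChart Lat)

/-- the group `0 × Z` -/
def Lam1 : AddSubgroup (ℂ × ℝ) where
  carrier := {x | x.1 = 0 ∧ ∃ i : ℤ, x.2 = i}
  zero_mem' := ⟨rfl, 0, by simp⟩
  add_mem' := by
    rintro a b ⟨h1, i, hi⟩ ⟨h1', i', hi'⟩
    exact ⟨by simp [h1, h1'], ⟨i + i', by simp [hi, hi']⟩⟩
  neg_mem' := by
    rintro a ⟨h1, i, hi⟩
    exact ⟨by simp [h1], ⟨-i, by simp [hi]⟩⟩

theorem Lam1_lat : Lat Lam1 := by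
  intro R
  have hfin : (Set.Icc (-⌈R⌉) ⌈R⌉ : Set ℤ).Finite := Set.finite_Icc _ _
  refine (hfin.image fun i : ℤ => ((0 : ℂ), (i : ℝ))).subset ?_
  rintro ⟨z, y⟩ ⟨⟨h1, i, hi⟩, hn⟩
  simp only at h1 hi
  have h2 : |(i : ℝ)| ≤ R := by
    rw [← hi, ← Real.norm_eq_abs]
    exact (norm_snd_le (z, y)).trans hn
  rw [abs_le] at h2
  refine ⟨i, ⟨?_, ?_⟩, ?_⟩
  · have h3 : (-(⌈R⌉ : ℝ)) ≤ (i : ℝ) := by linarith [Int.le_ceil R, h2.1]
    exact_mod_cast h3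
  · have h3 : (i : ℝ) ≤ (⌈R⌉ : ℝ) := by linarith [Int.le_ceil R, h2.2]
    exact_mod_cast h3
  · simp only [h1, hi]

/-- the family of arcs -/
noncomputable def BCap_k (l₀ : ℝ) (β : ℝ → ℝ) (s l : ℝ) : ℂ × ℝ :=
  ((((-2 * (l - l₀) : ℝ) : ℂ) + ((s * β (l - l₀) : ℝ) : ℂ) * I), 0)

theorem BCap_re (l₀ : ℝ) (β : ℝ → ℝ) (s l : ℝ) : (BCap_k l₀ β s l).1.re = -2 * (l - l₀) := by
  simp [BCap_k]

theorem BCap_im (l₀ : ℝ) (β : ℝ → ℝ) (s l : ℝ) : (BCap_k l₀ β s l).1.im = s * β (l - l₀) := by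
  simp [BCap_k]

theorem BCap_smooth (l₀ : ℝ) {β : ℝ → ℝ} (hβ : ContDiff ℝ ∞ β) :
    ContDiff ℝ ∞ fun q : ℝ × ℝ => BCap_k l₀ β q.1 q.2 := by
  unfold BCap_k
  have h1 : ContDiff ℝ ∞ fun q : ℝ × ℝ => q.2 - l₀ := contDiff_snd.sub contDiff_const
  have h2 : ContDiff ℝ ∞ fun q : ℝ × ℝ => ((-2 * (q.2 - l₀) : ℝ) : ℂ) :=
    Complex.ofRealCLM.contDiff.comp (contDiff_const.mul h1)
  have h3 : ContDiff ℝ ∞ fun q : ℝ × ℝ => ((q.1 * β (q.2 - l₀) : ℝ) : ℂ) :=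
    Complex.ofRealCLM.contDiff.comp (contDiff_fst.mul (hβ.comp h1))
  exact (h2.add (h3.mul contDiff_const)).prodMk contDiff_const

theorem BCap_norm {ε : ℝ} (h0 : 0 < ε) {l₀ : ℝ} {β : ℝ → ℝ}
    (hβn : ∀ l, |l| ≤ ε / 2 → 4 * l ^ 2 + β l ^ 2 < 4 * ε ^ 2) {s l : ℝ} (hs : s ∈ Icc (0 : ℝ) 1)
    (hl : |l - l₀| ≤ ε / 2) : ‖(BCap_k l₀ β s l).1‖ < 2 * ε := by
  have h1 : ‖(BCap_k l₀ β s l).1‖ ^ 2 < (2 * ε) ^ 2 := by
    rw [Complex.sq_norm, Complex.normSq_apply, BCap_re, BCap_im]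
    have h2 := hβn _ hl
    have h3 : s ^ 2 ≤ 1 := by nlinarith [hs.1, hs.2]
    have h4 := mul_nonneg (sub_nonneg.2 h3) (sq_nonneg (β (l - l₀)))
    nlinarith
  exact lt_of_pow_lt_pow_left₀ 2 (by positivity) h1

theorem BCap_norm' {ε : ℝ} (h0 : 0 < ε) {l₀ : ℝ} {β : ℝ → ℝ} (hβs : ∀ l, ε / 2 ≤ |l| → β l = 0)
    (hβn : ∀ l, |l| ≤ ε / 2 → 4 * l ^ 2 + β l ^ 2 < 4 * ε ^ 2) {s l : ℝ} (hs : s ∈ Icc (0 : ℝ) 1)
    (hl : |l - l₀| ≤ ε) : ‖(BCap_k l₀ β s l).1‖ ≤ 2 * ε := by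
  rcases le_or_gt |l - l₀| (ε / 2) with h | h
  · exact (BCap_norm h0 hβn hs h).le
  · have h1 : ‖(BCap_k l₀ β s l).1‖ ^ 2 ≤ (2 * ε) ^ 2 := by
      rw [Complex.sq_norm, Complex.normSq_apply, BCap_re, BCap_im, hβs _ h.le]
      have h2 : (l - l₀) ^ 2 ≤ ε ^ 2 := by
        rw [← sq_abs (l - l₀)]
        exact pow_le_pow_left₀ (abs_nonneg _) hl 2
      nlinarith
    exact le_of_sq_le_sq h1 (by positivity)

theorem BCap_imm (l₀ : ℝ) {β : ℝ → ℝ} (hβ : ContDiff ℝ ∞ β) (s l : ℝ) : deriv (BCap_k l₀ β s) l ≠ 0 := by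
  intro h
  have h1 : ContDiff ℝ ∞ (BCap_k l₀ β s) :=
    (BCap_smooth l₀ hβ).comp (contDiff_const.prodMk contDiff_id : ContDiff ℝ ∞ fun l : ℝ => (s, l))
  have h2 : HasDerivAt (BCap_k l₀ β s) (deriv (BCap_k l₀ β s) l) l :=
    (h1.differentiable (by simp)).differentiableAt.hasDerivAt
  rw [h] at h2
  have h3 : HasDerivAt (fun l => (Complex.reCLM.comp (ContinuousLinearMap.fst ℝ ℂ ℝ)) (BCap_k l₀ β s l))
      ((Complex.reCLM.comp (ContinuousLinearMap.fst ℝ ℂ ℝ)) 0) l :=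
    (Complex.reCLM.comp (ContinuousLinearMap.fst ℝ ℂ ℝ)).hasFDerivAt.comp_hasDerivAt l h2
  rw [map_zero] at h3
  have h4 : (fun l => (Complex.reCLM.comp (ContinuousLinearMap.fst ℝ ℂ ℝ)) (BCap_k l₀ β s l)) =
      fun l => -2 * (l - l₀) := by
    funext l'
    exact BCap_re l₀ β s l'
  rw [h4] at h3
  have h5 : HasDerivAt (fun l : ℝ => -2 * (l - l₀)) (-2 * 1) l :=
    ((hasDerivAt_id l).sub_const l₀).const_mul (-2)
  have h6 := h3.unique h5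
  norm_num at h6

theorem cap {EP : Type*} [NormedAddCommGroup EP] [NormedSpace ℝ EP] {HP : Type*} [TopologicalSpace HP]
    {IP : ModelWithCorners ℝ EP HP} {P : Type*} [TopologicalSpace P] [ChartedSpace HP P] [T2Space P]
    {a : ℝ → P → P} (ha : Act IP a) {r ε : ℝ} {C : (ℂ × ℝ) × ℝ → P}
    (hC : EChart IP a Lam1 {x : ℂ × ℝ | ‖x.1‖ < r} C) (h0 : 0 < ε) (h1 : 2 * ε < r) (h2 : ε < 1 / 4)
    {K K' : ℝ → P} (hKc : Continuous K) (hKp : ∀ l, K (l + 1) = K l) (hKp' : ∀ l, K' (l + 1) = K' l) {l₀ : ℝ}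
    (hK : ∀ l, |l| ≤ ε → K (l₀ + l) = C ((((-2 * l : ℝ) : ℂ), 0), 0))
    (hrest : ∀ l, ε ≤ l → l ≤ 1 - ε → ∀ z Y t, ‖z‖ < 2 * ε → K (l₀ + l) ≠ C ((z, Y), t))
    {β : ℝ → ℝ} (hβ : ContDiff ℝ ∞ β) (hβs : ∀ l, ε / 2 ≤ |l| → β l = 0)
    (hβn : ∀ l, |l| ≤ ε / 2 → 4 * l ^ 2 + β l ^ 2 < 4 * ε ^ 2)
    (hK' : ∀ l, |l| ≤ ε → K' (l₀ + l) = C ((⟨-2 * l, β l⟩, 0), 0))
    (hr' : ∀ l, ε ≤ l → l ≤ 1 - ε → K' (l₀ + l) = K (l₀ + l))
    (n : ℤ) (Y : Type*) [TopologicalSpace Y] [ChartedSpace E4 Y] :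
    Carries IP a n K Y ↔ Carries IP a n K' Y := by
  have hshift : ∀ l, l₀ + (l - l₀) = l := fun l => by ring
  refine ISO.carries_arc (k := BCap_k l₀ β) (τ := fun _ _ => 0) (a₀ := l₀ - 2 * ε) (a₁ := l₀ - ε)
    (a' := l₀ - ε / 2) (b' := l₀ + ε / 2) (b₁ := l₀ + ε) (b₀ := l₀ + 2 * ε) ha Lam1_lat hC (by linarith)
    (by linarith) (by linarith) (by linarith) (by linarith) (by linarith) ?_ ?_ ?_ ?_ ?_ ?_ hKc hKp hKp'
    ?_ ?_ ?_ ?_ n Y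
  · intro s _ l _
    exact (BCap_smooth l₀ hβ).contDiffAt
  · intro s _ l _
    exact contDiffAt_const
  · intro s _ l _ h
    refine ⟨?_, rfl⟩
    have h3 : ε / 2 ≤ |l - l₀| := by
      rcases h with h | h
      · exact le_abs.2 (Or.inr (by linarith))
      · exact le_abs.2 (Or.inl (by linarith))
    simp only [BCap_k]
    rw [hβs _ h3]
    simp
  · intro s hs l hl
    have h3 : |l - l₀| ≤ ε := by
      rw [abs_le]
      exact ⟨by linarith [hl.1], by linarith [hl.2]⟩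
    exact (BCap_norm' h0 hβs hβn hs h3).trans_lt h1
  · intro s _ l _
    exact BCap_imm l₀ hβ s l
  · intro s _ l _ l' _ m hm h
    have h3 : (BCap_k l₀ β s l).1.re = (BCap_k l₀ β s l').1.re + m.1.re := by
      rw [h]
      rfl
    have h4 : m.1 = 0 := hm.1
    rw [h4, BCap_re, BCap_re, Complex.zero_re] at h3
    linarith
  · intro l hl
    have h3 : |l - l₀| ≤ ε := by
      rw [abs_le]
      exact ⟨by linarith [hl.1], by linarith [hl.2]⟩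
    have h4 := hK _ h3
    rw [hshift] at h4
    rw [h4]
    simp [BCap_k]
  · intro l hl
    have h3 : |l - l₀| ≤ ε := by
      rw [abs_le]
      exact ⟨by linarith [hl.1], by linarith [hl.2]⟩
    have h4 := hK' _ h3
    rw [hshift] at h4
    rw [h4]
    congr 2
    refine Prod.ext ?_ rfl
    apply Complex.ext
    · rw [BCap_re]
    · rw [BCap_im, one_mul]
  · intro l h3 h4
    have h5 := hr' (l - l₀) (by linarith) (by linarith)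
    rw [hshift] at h5
    exact h5
  · intro s hs l hl l' h3 h4 t
    have h5 := hrest (l' - l₀) (by linarith) (by linarith) (BCap_k l₀ β s l).1 0 t (BCap_norm h0 hβn hs (by
      rw [abs_le]
      exact ⟨by linarith [hl.1], by linarith [hl.2]⟩))
    rw [hshift] at h5
    exact h5

end Pool.Agent.BAS
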