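import Pool.Agent.RBM.Defs
import Pool.Agent.RSG.GcM

/-!
# BAS/BCg: a twin structure from data which agree on a collar   (difficulty 3)

`Out κ r p` : `p` is outside the closed tube of radius `r`.
Put `A p = Q (Gc n j (l, v, t))` if `p = κ (l, v, t)` with `0 < ‖v‖ < 1` (choose `l, v, t`), and `A p = A₁ p` otherwise.
* well defined: `hκ.inj` gives `v`, and `l, t` modulo 1; `Gc n j (l + m, v, t + m') = Gc n j (l, v, t)` (`ex` of integers).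
  So `A (κ (l, v, t)) = Q (Gc n j (l, v, t))` for `0 < ‖v‖ < 1`.
* for `r₀ < ‖v‖ < 1`: `Q (Gc n j (l, v, t)) = A₁ (κ (l, v, t))` by `glue` (`RSG.Gc_spec`, `v = ‖v‖ ex m`).  So `A p = A₁ p`
  for every `p` with `Out κ r₀ p`.
* `A_loc`: `p` not on the torus.  If `p = κ (l, v, t)`, `0 < ‖v‖ < 1`: `A ∘ κ = Q ∘ Gc n j` near `(l, v, t)`, `κ` and `Gc` (`RSG.Gc_ld`)
  are local diffeos: `CSG.ld_of_comp_left`.  Otherwise `Out κ r₀ p`, the closed tube of radius `r₀` is closed in `P`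
  (compact: `κ` of `[0,1] × closedBall × [0,1]`, `T2Space`), so `A = A₁` near `p`.
* `A_inj`: both in the tube: `Gc` is injective (as `Q_inj`; use `RSG.Gc_spec` and `hκ.perl, pert`), both `Out`: `A_inj₁`;
  one `κ (l, v, t)` with `‖v‖ ≤ r₀`, the other one `Out`: `disj`.
* `glue`: `RSG.Gc_eq` (`z = Gc n j (l, 2|c1||c2| ex m, t)`).  `disj`: `c1 z = 0` or `c2 z = 0`: if `p` is in the tube then
  `Q_inj` (`c1, c2` of `Gc` are nonzero), else `disj` (`2·0 ≤ r₀`).  `cover`: from `cover`; `p` with `Out κ r₀ p` is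
  not on the torus and `A p = A₁ p`.
-/

open scoped Manifold ContDiff Topology
open Set Filter
open Complex (I)

namespace Pool.Agent.BAS

open Pool.Agent.RSG (E4 S3 S4 pS3 pS4 ex c1 c2 ht fh Thick)
open Pool.Agent.RBM (ThickT TwinP OnT)

/-- `p` is outside the closed tube of radius `r` -/
def Out {P : Type*} (κ : ℝ × ℂ × ℝ → P) (r : ℝ) (p : P) : Prop :=
  ∀ (l : ℝ) (v : ℂ) (t : ℝ), ‖v‖ ≤ r → p ≠ κ (l, v, t)

section aux

variable {E : Type*} [NormedAddCommGroup E] [NormedSpace ℝ E] {H : Type*} [TopologicalSpace H]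
  {J : ModelWithCorners ℝ E H} {P : Type*} [TopologicalSpace P] [ChartedSpace H P]
  {κ : ℝ × ℂ × ℝ → P} {n j : ℤ} {X : Type*} {A₁ : P → X} {Q : S4 → X} {r₀ : ℝ}

theorem BCg_per (hκ : ThickT J κ) (l t : ℝ) (v : ℂ) (a c : ℤ) : κ (l + a, v, t + c) = κ (l, v, t) := by
  have h1 : Function.Periodic (fun l => κ (l, v, t + c)) 1 := fun l => hκ.perl l v _
  have h2 : Function.Periodic (fun t => κ (l, v, t)) 1 := fun t => hκ.pert l v t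
  have h3 := h1.int_mul a l
  have h4 := h2.int_mul c t
  rw [mul_one] at h3 h4
  exact h3.trans h4

theorem BCg_Gc_inj (hκ : ThickT J κ) {l t l' t' : ℝ} {v v' : ℂ} (h0 : v ≠ 0) (h1 : ‖v‖ < 1) (h0' : v' ≠ 0)
    (h1' : ‖v'‖ < 1) (h : RSG.Gc n j (l, v, t) = RSG.Gc n j (l', v', t')) :
    κ (l, v, t) = κ (l', v', t') := by
  obtain ⟨hf, hc1, hc2, hr, e1, e2, e3⟩ := RSG.Gc_spec n j (l := l) (t := t) h0 h1
  obtain ⟨-, -, -, hr', e1', e2', e3'⟩ := RSG.Gc_spec n j (l := l') (t := t') h0' h1'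
  rw [← h] at hr' e1' e2' e3'
  obtain ⟨z, hz⟩ : ∃ z, z = RSG.Gc n j (l, v, t) := ⟨_, rfl⟩
  rw [← hz] at hf hc1 hc2 hr e1 e2 e3 hr' e1' e2' e3'
  have hv : 0 < ‖v‖ := norm_pos_iff.2 h0
  have hv' : 0 < ‖v'‖ := norm_pos_iff.2 h0'
  have hu : ‖v / (‖v‖ : ℂ)‖ = 1 := by
    rw [norm_div, Complex.norm_real, norm_norm, div_self hv.ne']
  have hu' : ‖v' / (‖v'‖ : ℂ)‖ = 1 := by
    rw [norm_div, Complex.norm_real, norm_norm, div_self hv'.ne']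
  have P0 := RSG.GcM_prod hu e1 e2
  have P1 := RSG.GcM_prod hu' e1' e2'
  have ht0 : ∀ t : ℝ, (1 - (j : ℝ)) * t - -(j : ℝ) * t = t := fun t => by ring
  rw [ht0] at P0 P1
  have p1 : 0 < ‖c1 z‖ := norm_pos_iff.2 hc1
  have p2 : 0 < ‖c2 z‖ := norm_pos_iff.2 hc2
  have pf : 0 < ‖fh z‖ := norm_pos_iff.2 hf
  have hne : ((‖c1 z‖ * ‖c2 z‖ : ℝ) : ℂ) ≠ 0 := by
    exact_mod_cast (mul_pos p1 p2).ne'
  obtain ⟨k, hk⟩ := RSG.ex_eq_iff.1 (mul_left_cancel₀ hne (P0.symm.trans P1))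
  have hc2' : ((‖c2 z‖ : ℝ) : ℂ) ≠ 0 := by exact_mod_cast p2.ne'
  have hff : ((‖fh z‖ : ℝ) : ℂ) ≠ 0 := by exact_mod_cast pf.ne'
  have h3 := mul_left_cancel₀ hc2' (e2.symm.trans e2')
  have h4 : ex (-(j : ℝ) * t') = ex (-(j : ℝ) * t) := by
    rw [hk]
    have : -(j : ℝ) * (t + k) = -(j : ℝ) * t + ((-j * k : ℤ) : ℝ) := by push_cast; ring
    rw [this, RSG.ex_add_int]
  rw [h4] at h3
  have h5 := mul_right_cancel₀ (RSG.ex_ne _) h3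
  rw [← hr, ← hr'] at h5
  have h6 : v = v' := by
    have hrn : ((2 * ‖c1 z‖ * ‖c2 z‖ : ℝ) : ℂ) ≠ 0 := by
      have : 0 < 2 * ‖c1 z‖ * ‖c2 z‖ := by positivity
      exact_mod_cast this.ne'
    field_simp at h5
    exact h5
  obtain ⟨m, hm⟩ := RSG.ex_eq_iff.1 (mul_left_cancel₀ hff (e3.symm.trans e3'))
  have h7 : l' = l + ((m + n * k : ℤ) : ℝ) := by
    rw [hk] at hm
    push_cast
    linarith
  rw [h7, hk, ← h6, BCg_per hκ]

open Classical in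
/-- the glued map -/
noncomputable def BCg_A (κ : ℝ × ℂ × ℝ → P) (n j : ℤ) (A₁ : P → X) (Q : S4 → X) (p : P) : X :=
  if h : ∃ q : ℝ × ℂ × ℝ, 0 < ‖q.2.1‖ ∧ ‖q.2.1‖ < 1 ∧ p = κ q then Q (RSG.Gc n j h.choose) else A₁ p

theorem BCg_in (hκ : ThickT J κ) {l t : ℝ} {v : ℂ} (h0 : 0 < ‖v‖) (h1 : ‖v‖ < 1) :
    BCg_A κ n j A₁ Q (κ (l, v, t)) = Q (RSG.Gc n j (l, v, t)) := by
  have h : ∃ q : ℝ × ℂ × ℝ, 0 < ‖q.2.1‖ ∧ ‖q.2.1‖ < 1 ∧ κ (l, v, t) = κ q := ⟨(l, v, t), h0, h1, rfl⟩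
  unfold BCg_A
  rw [dif_pos h]
  obtain ⟨q, hq⟩ : ∃ q, q = h.choose := ⟨_, rfl⟩
  have hs := h.choose_spec
  rw [← hq] at hs ⊢
  obtain ⟨l', v', t'⟩ := q
  obtain ⟨h2, ⟨m, h3⟩, m', h4⟩ := hκ.inj l v t l' v' t' h1 hs.2.1 hs.2.2
  rw [h3, h4, ← h2, RSG.Gc_per]

theorem BCg_coll (h0 : 0 < r₀)
    (glue : ∀ (z : S4) (l m t : ℝ), fh z ≠ 0 → r₀ < 2 * ‖c1 z‖ * ‖c2 z‖ →
      c1 z = ‖c1 z‖ * ex (m + (1 - j) * t) → c2 z = ‖c2 z‖ * ex (m - j * t) →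
      fh z = ‖fh z‖ * ex (l - n * t) → Q z = A₁ (κ (l, (2 * ‖c1 z‖ * ‖c2 z‖ : ℝ) * ex m, t)))
    {l t : ℝ} {v : ℂ} (h1 : r₀ < ‖v‖) (h2 : ‖v‖ < 1) : Q (RSG.Gc n j (l, v, t)) = A₁ (κ (l, v, t)) := by
  have hv : 0 < ‖v‖ := h0.trans h1
  have hv0 : v ≠ 0 := norm_pos_iff.1 hv
  obtain ⟨hf, hc1, hc2, hr, e1, e2, e3⟩ := RSG.Gc_spec n j (l := l) (t := t) hv0 h2
  obtain ⟨m, hm⟩ := RSG.ex_surj (u := v / (‖v‖ : ℂ)) (by
    rw [norm_div, Complex.norm_real, norm_norm, div_self hv.ne'])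
  have h3 := glue (RSG.Gc n j (l, v, t)) l m t hf (by rw [hr]; exact h1)
    (by rw [RSG.ex_add, ← hm]; exact e1)
    (by
      have : m - j * t = m + -(j : ℝ) * t := by ring
      rw [this, RSG.ex_add, ← hm]
      exact e2) e3
  rw [h3, hr, ← hm]
  have hvn : (‖v‖ : ℂ) ≠ 0 := by exact_mod_cast hv.ne'
  rw [mul_div_cancel₀ v hvn]

theorem BCg_out (hκ : ThickT J κ) (h0 : 0 < r₀)
    (glue : ∀ (z : S4) (l m t : ℝ), fh z ≠ 0 → r₀ < 2 * ‖c1 z‖ * ‖c2 z‖ →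
      c1 z = ‖c1 z‖ * ex (m + (1 - j) * t) → c2 z = ‖c2 z‖ * ex (m - j * t) →
      fh z = ‖fh z‖ * ex (l - n * t) → Q z = A₁ (κ (l, (2 * ‖c1 z‖ * ‖c2 z‖ : ℝ) * ex m, t)))
    {p : P} (hp : Out κ r₀ p) : BCg_A κ n j A₁ Q p = A₁ p := by
  by_cases h : ∃ q : ℝ × ℂ × ℝ, 0 < ‖q.2.1‖ ∧ ‖q.2.1‖ < 1 ∧ p = κ q
  · obtain ⟨⟨l, v, t⟩, hv0, hv1, rfl⟩ := h
    have hv : r₀ < ‖v‖ := by
      by_contra hc
      exact hp l v t (not_lt.1 hc) rfl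
    rw [BCg_in hκ hv0 hv1, BCg_coll h0 glue hv hv1]
  · unfold BCg_A
    rw [dif_neg h]

theorem BCg_cases {p : P} (hp : ¬ OnT κ p) :
    (∃ (l : ℝ) (v : ℂ) (t : ℝ), 0 < ‖v‖ ∧ ‖v‖ ≤ r₀ ∧ p = κ (l, v, t)) ∨ Out κ r₀ p := by
  by_cases h : Out κ r₀ p
  · exact Or.inr h
  · unfold Out at h
    push Not at h
    obtain ⟨l, v, t, hv, he⟩ := h
    refine Or.inl ⟨l, v, t, ?_, hv, he⟩
    rw [norm_pos_iff]
    intro h0
    rw [h0] at he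
    exact hp ⟨l, t, he⟩

theorem BCg_open [T2Space P] (hκ : ThickT J κ) (h1 : r₀ < 1) : IsOpen {p | Out κ r₀ p} := by
  have e : {p | Out κ r₀ p} = (κ '' (Icc (0 : ℝ) 1 ×ˢ (Metric.closedBall (0 : ℂ) r₀ ×ˢ Icc (0 : ℝ) 1)))ᶜ := by
    ext p
    rw [mem_ofPred_eq, mem_compl_iff]
    constructor
    · rintro hp ⟨⟨l, v, t⟩, hq, rfl⟩
      exact hp l v t (mem_closedBall_zero_iff.1 hq.2.1) rfl
    · intro hp l v t hv he
      apply hp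
      refine ⟨(Int.fract l, v, Int.fract t), ⟨⟨Int.fract_nonneg _, (Int.fract_lt_one _).le⟩,
        mem_closedBall_zero_iff.2 hv, ⟨Int.fract_nonneg _, (Int.fract_lt_one _).le⟩⟩, ?_⟩
      rw [he, ← BCg_per hκ (Int.fract l) (Int.fract t) v ⌊l⌋ ⌊t⌋, Int.fract_add_floor, Int.fract_add_floor]
  rw [e, isOpen_compl_iff]
  refine IsCompact.isClosed ?_
  refine IsCompact.image_of_continuousOn ?_ ?_
  · exact isCompact_Icc.prod ((isCompact_closedBall _ _).prod isCompact_Icc)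
  · rintro ⟨l, v, t⟩ hq
    have hv : ‖v‖ < 1 := (mem_closedBall_zero_iff.1 hq.2.1).trans_lt h1
    exact (CSG.ld_continuousAt (hκ.loc l v t hv)).continuousWithinAt

end aux

theorem twin_of_collar {E : Type*} [NormedAddCommGroup E] [NormedSpace ℝ E] {H : Type*} [TopologicalSpace H]
    {J : ModelWithCorners ℝ E H} {P : Type*} [TopologicalSpace P] [ChartedSpace H P] [T2Space P]
    {κ : ℝ × ℂ × ℝ → P} (hκ : ThickT J κ) {n j : ℤ} {X : Type*} [TopologicalSpace X] [ChartedSpace E4 X]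
    {A₁ : P → X} {Q : S4 → X} {r₀ : ℝ} (h0 : 0 < r₀) (h1 : r₀ < 1)
    (Q_loc : ∀ z, fh z ≠ 0 → IsLocalDiffeomorphAt (𝓡 4) (𝓡 4) ∞ Q z)
    (Q_inj : ∀ z z', fh z ≠ 0 → fh z' ≠ 0 → Q z = Q z' → z = z')
    (A_loc : ∀ p, Out κ r₀ p → IsLocalDiffeomorphAt J (𝓡 4) ∞ A₁ p)
    (A_inj : ∀ p p', Out κ r₀ p → Out κ r₀ p' → A₁ p = A₁ p' → p = p')
    (glue : ∀ (z : S4) (l m t : ℝ), fh z ≠ 0 → r₀ < 2 * ‖c1 z‖ * ‖c2 z‖ →
      c1 z = ‖c1 z‖ * ex (m + (1 - j) * t) → c2 z = ‖c2 z‖ * ex (m - j * t) →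
      fh z = ‖fh z‖ * ex (l - n * t) → Q z = A₁ (κ (l, (2 * ‖c1 z‖ * ‖c2 z‖ : ℝ) * ex m, t)))
    (disj : ∀ z p, fh z ≠ 0 → 2 * ‖c1 z‖ * ‖c2 z‖ ≤ r₀ → Out κ r₀ p → Q z ≠ A₁ p)
    (cover : ∀ q, (∃ p, Out κ r₀ p ∧ q = A₁ p) ∨ ∃ z, fh z ≠ 0 ∧ q = Q z) :
    Nonempty (TwinP J κ n j X) := by
  refine ⟨{ A := BCg_A κ n j A₁ Q
            Q := Q
            A_loc := ?_
            A_inj := ?_
            Q_loc := Q_loc
            Q_inj := Q_inj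
            glue := ?_
            disj := ?_
            cover := ?_ }⟩
  · intro p hp
    rcases BCg_cases (r₀ := r₀) hp with ⟨l, v, t, hv0, hv1, rfl⟩ | ho
    · have hv2 : ‖v‖ < 1 := hv1.trans_lt h1
      have hvn : v ≠ 0 := norm_pos_iff.1 hv0
      have h2 : IsLocalDiffeomorphAt 𝓘(ℝ, ℝ × ℂ × ℝ) (𝓡 4) ∞ (Q ∘ RSG.Gc n j) (l, v, t) :=
        IsLocalDiffeomorphAt.comp (hf := RSG.Gc_ld n j hvn hv2)
          (hg := Q_loc _ (RSG.Gc_spec n j (l := l) (t := t) hvn hv2).1)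
      have h3 : IsLocalDiffeomorphAt 𝓘(ℝ, ℝ × ℂ × ℝ) (𝓡 4) ∞ (BCg_A κ n j A₁ Q ∘ κ) (l, v, t) := by
        refine CSG.ld_congr h2 ?_
        have hc : Continuous fun q : ℝ × ℂ × ℝ => ‖q.2.1‖ := continuous_snd.fst.norm
        have e1 : ∀ᶠ q : ℝ × ℂ × ℝ in 𝓝 (l, v, t), 0 < ‖q.2.1‖ :=
          hc.continuousAt.eventually (lt_mem_nhds hv0)
        have e2 : ∀ᶠ q : ℝ × ℂ × ℝ in 𝓝 (l, v, t), ‖q.2.1‖ < 1 :=
          hc.continuousAt.eventually (gt_mem_nhds hv2)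
        filter_upwards [e1, e2] with q hq1 hq2
        exact BCg_in hκ hq1 hq2
      exact CSG.ld_of_comp_left h3 (hκ.loc l v t hv2)
    · refine CSG.ld_congr (A_loc p ho) ?_
      filter_upwards [(BCg_open hκ h1).mem_nhds ho] with q hq
      exact BCg_out hκ h0 glue hq
  · intro p p' hp hp' he
    rcases BCg_cases (r₀ := r₀) hp with ⟨l, v, t, hv0, hv1, rfl⟩ | ho
    · have hv2 : ‖v‖ < 1 := hv1.trans_lt h1
      have hvn : v ≠ 0 := norm_pos_iff.1 hv0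
      have hs := RSG.Gc_spec n j (l := l) (t := t) hvn hv2
      rcases BCg_cases (r₀ := r₀) hp' with ⟨l', v', t', hv0', hv1', rfl⟩ | ho'
      · have hv2' : ‖v'‖ < 1 := hv1'.trans_lt h1
        have hvn' : v' ≠ 0 := norm_pos_iff.1 hv0'
        rw [BCg_in hκ hv0 hv2, BCg_in hκ hv0' hv2'] at he
        exact BCg_Gc_inj hκ hvn hv2 hvn' hv2' (Q_inj _ _ hs.1
          (RSG.Gc_spec n j (l := l') (t := t') hvn' hv2').1 he)
      · rw [BCg_in hκ hv0 hv2, BCg_out hκ h0 glue ho'] at he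
        exact absurd he (disj _ _ hs.1 (hs.2.2.2.1.le.trans hv1) ho')
    · rcases BCg_cases (r₀ := r₀) hp' with ⟨l', v', t', hv0', hv1', rfl⟩ | ho'
      · have hv2' : ‖v'‖ < 1 := hv1'.trans_lt h1
        have hvn' : v' ≠ 0 := norm_pos_iff.1 hv0'
        have hs' := RSG.Gc_spec n j (l := l') (t := t') hvn' hv2'
        rw [BCg_in hκ hv0' hv2', BCg_out hκ h0 glue ho] at he
        exact absurd he.symm (disj _ _ hs'.1 (hs'.2.2.2.1.le.trans hv1') ho)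
      · rw [BCg_out hκ h0 glue ho, BCg_out hκ h0 glue ho'] at he
        exact A_inj p p' ho ho' he
  · intro z l m t hf hc1 hc2 e1 e2 e3
    have p1 : 0 < ‖c1 z‖ := norm_pos_iff.2 hc1
    have p2 : 0 < ‖c2 z‖ := norm_pos_iff.2 hc2
    have hn : ‖((2 * ‖c1 z‖ * ‖c2 z‖ : ℝ) : ℂ) * ex m‖ = 2 * ‖c1 z‖ * ‖c2 z‖ := by
      rw [norm_mul, RSG.ex_norm, mul_one, Complex.norm_real, Real.norm_of_nonneg (by positivity)]
    have h2 := RSG.Gc_eq n j hf hc1 hc2 (l := l) (m := m) (t := t)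
      (by
        have : ((1 : ℤ) : ℝ) * m + ((1 - j : ℤ) : ℝ) * t = m + (1 - j) * t := by push_cast; ring
        rw [this]
        exact e1)
      (by
        have : ((1 : ℤ) : ℝ) * m + ((-j : ℤ) : ℝ) * t = m - j * t := by push_cast; ring
        rw [this]
        exact e2) e3
    rw [BCg_in hκ (by rw [hn]; positivity) (by rw [hn]; exact (RSG.fh_ne_iff z).1 hf), ← h2]
  · intro z p hf hc hp he
    rcases BCg_cases (r₀ := r₀) hp with ⟨l, v, t, hv0, hv1, rfl⟩ | ho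
    · have hv2 : ‖v‖ < 1 := hv1.trans_lt h1
      have hvn : v ≠ 0 := norm_pos_iff.1 hv0
      have hs := RSG.Gc_spec n j (l := l) (t := t) hvn hv2
      rw [BCg_in hκ hv0 hv2] at he
      have h2 := Q_inj _ _ hf hs.1 he
      rw [h2] at hc
      rcases hc with hc | hc
      · exact hs.2.1 hc
      · exact hs.2.2.1 hc
    · rw [BCg_out hκ h0 glue ho] at he
      refine disj z p hf ?_ ho he
      rcases hc with hc | hc
      · rw [hc, norm_zero, mul_zero, zero_mul]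
        exact h0.le
      · rw [hc, norm_zero, mul_zero]
        exact h0.le
  · intro q
    rcases cover q with ⟨p, ho, hq⟩ | h
    · refine Or.inl ⟨p, ?_, ?_⟩
      · rintro ⟨l, t, hp⟩
        exact ho l 0 t (by rw [norm_zero]; exact h0.le) hp
      · rw [BCg_out hκ h0 glue ho]
        exact hq
    · exact Or.inr h

end Pool.Agent.BAS
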