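import Pool.Agent.BAS.BCo

/-!
# BAS/BCi: the circle as a manifold   (difficulty 2)

`Circle` is the sphere of `ℂ` (model `𝓡 1`).
* `circle_coe_smooth`: `contMDiff_coe_sphere`.
* `circle_of_coe`: `ContMDiff.codRestrict_sphere` in its local form: see the proof of `RSG.toSph_smooth` (RSG/SphA.lean) for
  the trick (compose with a globally smooth map; or: `f =ᶠ toSph (f ·)`): e.g. write `f y = Circle.exp (θ₀ + arg (f y / f x))`
  near `x` (`Complex.log` is smooth on the slit plane, `contMDiff_circleExp`).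
* `circle_ld`: smooth (`contMDiff_circleExp`), local inverse near `exp (2πx₀)`: `u ↦ x₀ + (log (u / exp (2πx₀))).im / 2π`.
* `spc_ld`: compose with `X, θ ↦ (X, exp 2πθ)` (`RSG.ld_prodMap`, `CSG.ld_of_comp_left`): the map
  `(X, θ) ↦ spc X (ex θ)` of `V × ℝ` is smooth (`RSG.pS4_smooth`) with smooth local inverse
  `z ↦ (Xof z, θ₀ + (log (c1 z / |c1 z| / ex θ₀)).im / 2π)`.
-/

open scoped Manifold ContDiff Topology
open Set Filter
open Complex (I)

namespace Pool.Agent.BAS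

open Pool.Agent.RSG (E4 S3 S4 pS3 pS4 ex c1 c2 ht fh Thick)
open Pool.Agent.PTH (SP ISP z1 z2 gE gact)

theorem circle_coe_smooth : ContMDiff (𝓡 1) 𝓘(ℝ, ℂ) ∞ (fun u : Circle => (u : ℂ)) := by
  have := finrank_real_complex_fact'
  exact contMDiff_coe_sphere (E := ℂ) (n := 1)

theorem exp_coe (x : ℝ) : ((Circle.exp (2 * Real.pi * x) : Circle) : ℂ) = ex x := by
  rw [Circle.coe_exp]
  rfl

/-- the point `v / ‖v‖` of the circle -/
noncomputable def BCi_c (v : ℂ) : Circle :=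
  RSG.toSph (E := ℂ) ⟨1, by simp⟩ v

theorem BCi_c_coe {v : ℂ} (hv : v ≠ 0) : (BCi_c v : ℂ) = v / ‖v‖ := by
  have h := RSG.toSph_coe (E := ℂ) ⟨1, by simp⟩ hv
  change (BCi_c v : ℂ) = _ at h
  rw [h, Complex.real_smul, Complex.ofReal_inv, div_eq_inv_mul]

theorem BCi_c_self (u : Circle) : BCi_c (u : ℂ) = u :=
  RSG.toSph_self (E := ℂ) ⟨1, by simp⟩ u

theorem BCi_c_smooth {v : ℂ} (hv : v ≠ 0) : ContMDiffAt 𝓘(ℝ, ℂ) (𝓡 1) ∞ BCi_c v := by
  have := finrank_real_complex_fact'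
  exact RSG.toSph_smooth (E := ℂ) (n := 1) ⟨1, by simp⟩ hv

theorem circle_of_coe {F : Type*} [NormedAddCommGroup F] [NormedSpace ℝ F] {H : Type*} [TopologicalSpace H]
    {J : ModelWithCorners ℝ F H} {M : Type*} [TopologicalSpace M] [ChartedSpace H M] {f : M → Circle} {x : M}
    (h : ContMDiffAt J 𝓘(ℝ, ℂ) ∞ (fun y => (f y : ℂ)) x) : ContMDiffAt J (𝓡 1) ∞ f x := by
  have h1 := (BCi_c_smooth (v := (f x : ℂ)) (Circle.coe_ne_zero _)).comp x h
  refine h1.congr_of_eventuallyEq (Eventually.of_forall fun y => ?_)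
  exact (BCi_c_self (f y)).symm

theorem circle_ld (x : ℝ) :
    IsLocalDiffeomorphAt 𝓘(ℝ, ℝ) (𝓡 1) ∞ (fun x : ℝ => Circle.exp (2 * Real.pi * x)) x := by
  have hpi := Real.pi_pos
  have hf : ∀ y : ℝ, ContMDiffAt 𝓘(ℝ, ℝ) (𝓡 1) ∞ (fun x : ℝ => Circle.exp (2 * Real.pi * x)) y := by
    intro y
    refine circle_of_coe ?_
    have h1 : (fun y : ℝ => ((Circle.exp (2 * Real.pi * y) : Circle) : ℂ)) = ex := funext exp_coe
    rw [h1]
    exact RSG.ex_smooth.contMDiff.contMDiffAt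
  have hsl : ((Circle.exp (2 * Real.pi * x) : Circle) : ℂ) / ex x ∈ Complex.slitPlane := by
    rw [exp_coe, div_self (RSG.ex_ne x)]
    exact Complex.one_mem_slitPlane
  have hcc : Continuous fun u : Circle => (u : ℂ) / ex x :=
    continuous_subtype_val.div_const _
  have hev : ∀ᶠ u : Circle in 𝓝 (Circle.exp (2 * Real.pi * x)), (u : ℂ) / ex x ∈ Complex.slitPlane :=
    hcc.continuousAt.eventually (Complex.isOpen_slitPlane.mem_nhds hsl)
  refine RSG.ld_two (g := fun u : Circle => x + (Complex.log ((u : ℂ) / ex x)).im / (2 * Real.pi))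
    (Eventually.of_forall hf) ?_ ?_ ?_
  · filter_upwards [hev] with u hu
    have h1 : ContDiffAt ℝ ∞ (fun w : ℂ => x + (Complex.log (w / ex x)).im / (2 * Real.pi)) (u : ℂ) := by
      have h2 : ContDiffAt ℝ ∞ Complex.log ((u : ℂ) / ex x) := (Complex.contDiffAt_log hu).restrict_scalars ℝ
      have h3 : ContDiffAt ℝ ∞ (fun w : ℂ => Complex.log (w / ex x)) (u : ℂ) :=
        h2.comp (u : ℂ) (contDiffAt_id.div_const _)
      have h4 : ContDiffAt ℝ ∞ (fun w : ℂ => (Complex.log (w / ex x)).im) (u : ℂ) :=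
        Complex.imCLM.contDiff.contDiffAt.comp (u : ℂ) h3
      exact contDiffAt_const.add (h4.div_const _)
    exact h1.contMDiffAt.comp u (circle_coe_smooth u)
  · have h1 : ∀ᶠ y in 𝓝 x, y ∈ Ioo (x - 1 / 2) (x + 1 / 2) :=
      isOpen_Ioo.mem_nhds ⟨by linarith, by linarith⟩
    filter_upwards [h1] with y hy
    have h2 : ((Circle.exp (2 * Real.pi * y) : Circle) : ℂ) / ex x = (1 : ℝ) * ex (y - x) := by
      rw [exp_coe, div_eq_iff (RSG.ex_ne x), Complex.ofReal_one, one_mul, ← RSG.ex_add, sub_add_cancel]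
    change x + (Complex.log (((Circle.exp (2 * Real.pi * y) : Circle) : ℂ) / ex x)).im / (2 * Real.pi) = y
    rw [h2, RSG.ex_log one_pos (by linarith [hy.1]) (by linarith [hy.2])]
    field_simp
    ring
  · refine Eventually.of_forall fun u => ?_
    apply Circle.ext
    change ((Circle.exp (2 * Real.pi * (x + (Complex.log ((u : ℂ) / ex x)).im / (2 * Real.pi))) : Circle) : ℂ) = u
    rw [exp_coe, RSG.ex_add, Complex.log_im]
    have h1 := RSG.ex_arg (p := (u : ℂ) / ex x)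
    rw [norm_div, RSG.ex_norm, Circle.norm_coe, div_one, Complex.ofReal_one, one_mul] at h1
    rw [h1, mul_div_cancel₀ _ (RSG.ex_ne x)]

theorem circle_mul_smooth {F : Type*} [NormedAddCommGroup F] [NormedSpace ℝ F] {H : Type*} [TopologicalSpace H]
    {J : ModelWithCorners ℝ F H} {M : Type*} [TopologicalSpace M] [ChartedSpace H M] {f g : M → Circle} {x : M}
    (hf : ContMDiffAt J (𝓡 1) ∞ f x) (hg : ContMDiffAt J (𝓡 1) ∞ g x) :
    ContMDiffAt J (𝓡 1) ∞ (fun y => f y * g y) x := by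
  refine circle_of_coe ?_
  have h1 : ContMDiffAt J 𝓘(ℝ, ℂ) ∞ (fun y => (f y : ℂ)) x := (circle_coe_smooth (f x)).comp x hf
  have h2 : ContMDiffAt J 𝓘(ℝ, ℂ) ∞ (fun y => (g y : ℂ)) x := (circle_coe_smooth (g x)).comp x hg
  have h3 : ContDiff ℝ ∞ fun p : ℂ × ℂ => p.1 * p.2 := contDiff_fst.mul contDiff_snd
  exact (h3.contMDiff.contMDiffAt).comp x (h1.prodMk_space h2)

theorem BCi_norm_smooth {F : Type*} [NormedAddCommGroup F] [NormedSpace ℝ F] {H : Type*} [TopologicalSpace H]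
    {J : ModelWithCorners ℝ F H} {M : Type*} [TopologicalSpace M] [ChartedSpace H M] {f : M → ℂ} {x : M}
    (hf : ContMDiffAt J 𝓘(ℝ, ℂ) ∞ f x) (h0 : f x ≠ 0) : ContMDiffAt J 𝓘(ℝ, ℝ) ∞ (fun y => ‖f y‖) x := by
  have h1 : ContDiffAt ℝ ∞ (fun w : ℂ => ‖w‖) (f x) := contDiffAt_norm ℝ h0
  exact h1.contMDiffAt.comp x hf

theorem BCi_Xof_smooth {z : S4} (hz : c1 z ≠ 0) : ContMDiffAt (𝓡 4) 𝓘(ℝ, V) ∞ Xof z := by
  have h1 := RSG.c1_smooth z
  have h2 := BCi_norm_smooth h1 hz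
  have h3 : ContDiffAt ℝ ∞ (fun p : ℝ × ℝ × ℂ => ((p.2.1 / p.1, p.2.2 / (p.1 : ℂ)) : V)) (‖c1 z‖, ht z, c2 z) := by
    have h0 : ((‖c1 z‖, ht z, c2 z) : ℝ × ℝ × ℂ).1 ≠ 0 := norm_ne_zero_iff.2 hz
    refine ContDiffAt.prodMk ?_ ?_
    · exact (contDiff_snd.fst.contDiffAt).div contDiff_fst.contDiffAt h0
    · have h5 : ContDiffAt ℝ ∞ (fun p : ℝ × ℝ × ℂ => p.1⁻¹ • p.2.2) (‖c1 z‖, ht z, c2 z) :=
        (contDiff_fst.contDiffAt.inv h0).smul contDiff_snd.snd.contDiffAt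
      refine h5.congr_of_eventuallyEq (Eventually.of_forall fun p => ?_)
      change p.2.2 / (p.1 : ℂ) = p.1⁻¹ • p.2.2
      rw [Complex.real_smul, Complex.ofReal_inv, div_eq_inv_mul]
  exact h3.contMDiffAt.comp z (h2.prodMk_space ((RSG.ht_smooth z).prodMk_space (RSG.c2_smooth z)))

theorem spc_ld (X : V) (u : Circle) :
    IsLocalDiffeomorphAt (𝓘(ℝ, V).prod (𝓡 1)) (𝓡 4) ∞ (fun q : V × Circle => spc q.1 (q.2 : ℂ)) (X, u) := by
  have hf : ∀ q : V × Circle, ContMDiffAt (𝓘(ℝ, V).prod (𝓡 1)) (𝓡 4) ∞ (fun q : V × Circle => spc q.1 (q.2 : ℂ)) q := by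
    intro q
    have h1 : ContMDiffAt (𝓘(ℝ, V).prod (𝓡 1)) 𝓘(ℝ, ℂ) ∞ (fun q : V × Circle => (q.2 : ℂ)) q :=
      (circle_coe_smooth q.2).comp q contMDiffAt_snd
    have h2 : ContMDiffAt (𝓘(ℝ, V).prod (𝓡 1)) 𝓘(ℝ, V) ∞ (fun q : V × Circle => q.1) q := contMDiffAt_fst
    have h3 : ContMDiffAt (𝓘(ℝ, V).prod (𝓡 1)) 𝓘(ℝ, ℝ) ∞ (fun q : V × Circle => q.1.1) q :=
      (contDiff_fst (E := ℝ) (F := ℂ) (n := ∞) (𝕜 := ℝ)).contMDiff.contMDiffAt.comp q h2
    have h4 : ContMDiffAt (𝓘(ℝ, V).prod (𝓡 1)) 𝓘(ℝ, ℂ) ∞ (fun q : V × Circle => q.1.2) q :=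
      (contDiff_snd (E := ℝ) (F := ℂ) (n := ∞) (𝕜 := ℝ)).contMDiff.contMDiffAt.comp q h2
    refine RSG.pS4_smooth h1 h4 h3 ?_
    rw [Circle.norm_coe]
    positivity
  have hc : c1 (spc X (u : ℂ)) ≠ 0 := (Xof_spc X (Circle.norm_coe u)).2.1
  have hev : ∀ᶠ z in 𝓝 (spc X (u : ℂ)), c1 z ≠ 0 :=
    RSG.c1_smooth.continuous.continuousAt.eventually_ne hc
  refine RSG.ld_two (g := fun z : S4 => ((Xof z, BCi_c (c1 z)) : V × Circle)) (Eventually.of_forall hf) ?_ ?_ ?_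
  · filter_upwards [hev] with z hz
    exact (BCi_Xof_smooth hz).prodMk ((BCi_c_smooth hz).comp z (RSG.c1_smooth z))
  · refine Eventually.of_forall fun q => ?_
    obtain ⟨h1, h2, h3⟩ := Xof_spc q.1 (Circle.norm_coe q.2)
    refine Prod.ext h1 (Circle.ext ?_)
    change (BCi_c (c1 (spc q.1 (q.2 : ℂ))) : ℂ) = q.2
    rw [BCi_c_coe h2, h3]
  · filter_upwards [hev] with z hz
    change spc (Xof z) (BCi_c (c1 z) : ℂ) = z
    rw [BCi_c_coe hz, spc_Xof hz]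

end Pool.Agent.BAS
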