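import Pool.Agent.BAS.BSt

/-!
# BAS/BCo: the map of `S4` induced by a map of `V`   (difficulty 3)

`S4 - {c1 = 0}` is `V × S1` by `spc`: `c1 (spc X w) = w / √(1 + nq X)`, `c2 = X.2 / √..`, `ht = X.1 / √..` (`‖w‖ = 1`).
* `spc_Xof`, `Xof_spc`: direct.  `FC`: `nq (Xof z) = (1 - |c1|²) / |c1|²` (`RSG.S4_sq`), `sti_c`.
* `cone_loc`, `c1 z ≠ 0`: `z ↦ (Xof z, c1 z / |c1 z|)`, apply `T`, then `spc`: smooth near `z` and
  a local diffeo: the local inverse is `z' ↦ spc (T⁻¹ (Xof z')) (c1 z' / |c1 z'|)` with the local inverse of `T`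
  (`RSG.ld_two`; keep the circle coordinate as a complex number of norm 1: `S4 → V × ℂ` smooth, no charts of the circle).
* `c1 z = 0`: near `z` one has `‖Xof z'‖ ≥ R` whenever `c1 z' ≠ 0`, so `cone T B z' = pS4 (c1 z') (B (ht, c2)).2 (B (ht, c2)).1`
  (both for `c1 z' = 0` and `c1 z' ≠ 0`, where it is `pS4` of `(c1/|c1|, B (ht, c2)/|c1|)`, scaling by `|c1| > 0`): smooth by
  `RSG.pS4_smooth`, inverse `z' ↦ pS4 (c1 z') (B⁻¹ (ht z', c2 z')).2 (..).1` (scaling again).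
* `cone_inj`: `c1 (cone T B z)` is a nonnegative multiple of `c1 z`, zero iff `c1 z = 0`.
-/

open scoped Manifold ContDiff Topology
open Set Filter
open Complex (I)

namespace Pool.Agent.BAS

open Pool.Agent.RSG (E4 S3 S4 pS3 pS4 ex c1 c2 ht fh Thick)
open Pool.Agent.PTH (SP ISP z1 z2 gE gact)

theorem BCo_toSph {E : Type*} [NormedAddCommGroup E] [NormedSpace ℝ E]
    (e : Metric.sphere (0 : E) 1) {r : ℝ} (hr : 0 < r) (v : E) :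
    RSG.toSph e (r • v) = RSG.toSph e v := by
  unfold RSG.toSph
  by_cases hv : v = 0
  · rw [dif_pos hv, dif_pos (by rw [hv, smul_zero])]
  · have hv' : r • v ≠ 0 := smul_ne_zero hr.ne' hv
    rw [dif_neg hv, dif_neg hv']
    apply Subtype.ext
    simp only
    rw [norm_smul, Real.norm_of_nonneg hr.le, smul_smul]
    congr 1
    have h1 := norm_ne_zero_iff.2 hv
    have h2 := hr.ne'
    field_simp

theorem pS4_scale {r : ℝ} (hr : 0 < r) (a b : ℂ) (h : ℝ) : pS4 (r * a) (r * b) (r * h) = pS4 a b h := by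
  unfold pS4
  have e1 : (WithLp.toLp 2 ![((r : ℂ) * a).re, ((r : ℂ) * a).im, ((r : ℂ) * b).re,
      ((r : ℂ) * b).im, r * h] : RSG.E5) = r • WithLp.toLp 2 ![a.re, a.im, b.re, b.im, h] := by
    ext i
    fin_cases i <;> simp
  rw [e1]
  exact BCo_toSph _ hr _

theorem BCo_c {a b : ℂ} {h : ℝ} (H : 0 < ‖a‖ ^ 2 + ‖b‖ ^ 2 + h ^ 2) :
    c1 (pS4 a b h) = a / (Real.sqrt (‖a‖ ^ 2 + ‖b‖ ^ 2 + h ^ 2) : ℝ) ∧
    c2 (pS4 a b h) = b / (Real.sqrt (‖a‖ ^ 2 + ‖b‖ ^ 2 + h ^ 2) : ℝ) ∧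
    ht (pS4 a b h) = h / Real.sqrt (‖a‖ ^ 2 + ‖b‖ ^ 2 + h ^ 2) := by
  obtain ⟨N, hN⟩ : ∃ N, N = Real.sqrt (‖a‖ ^ 2 + ‖b‖ ^ 2 + h ^ 2) := ⟨_, rfl⟩
  have hNp : 0 < N := by
    rw [hN]
    exact Real.sqrt_pos.2 H
  have hN2 : N ^ 2 = ‖a‖ ^ 2 + ‖b‖ ^ 2 + h ^ 2 := by
    rw [hN, Real.sq_sqrt H.le]
  rw [← hN]
  have h1 := pS4_scale (inv_pos.2 hNp) a b h
  have h2 : ‖((N⁻¹ : ℝ) : ℂ) * a‖ ^ 2 + ‖((N⁻¹ : ℝ) : ℂ) * b‖ ^ 2 + (N⁻¹ * h) ^ 2 = 1 := by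
    rw [norm_mul, norm_mul, Complex.norm_real, Real.norm_of_nonneg (inv_pos.2 hNp).le]
    have h3 : (N⁻¹ * ‖a‖) ^ 2 + (N⁻¹ * ‖b‖) ^ 2 + (N⁻¹ * h) ^ 2 =
        (N ^ 2)⁻¹ * (‖a‖ ^ 2 + ‖b‖ ^ 2 + h ^ 2) := by
      have h4 : (N ^ 2)⁻¹ = N⁻¹ ^ 2 := (inv_pow N 2).symm
      rw [h4]
      ring
    rw [h3, ← hN2]
    exact inv_mul_cancel₀ (pow_pos hNp 2).ne'
  obtain ⟨g1, g2, g3⟩ := RSG.pS4_c h2
  rw [h1] at g1 g2 g3
  refine ⟨?_, ?_, ?_⟩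
  · rw [g1]
    push_cast
    rw [div_eq_inv_mul]
  · rw [g2]
    push_cast
    rw [div_eq_inv_mul]
  · rw [g3, div_eq_inv_mul]

theorem BCo_sum (X : V) {w : ℂ} (hw : ‖w‖ = 1) : ‖w‖ ^ 2 + ‖X.2‖ ^ 2 + X.1 ^ 2 = 1 + nq X := by
  rw [hw]
  unfold nq
  ring

theorem spc_c (X : V) {w : ℂ} (hw : ‖w‖ = 1) : c1 (spc X w) = w / (Real.sqrt (1 + nq X) : ℝ) ∧
    c2 (spc X w) = X.2 / (Real.sqrt (1 + nq X) : ℝ) ∧ ht (spc X w) = X.1 / Real.sqrt (1 + nq X) := by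
  have h1 := BCo_sum X hw
  have h2 : 0 < ‖w‖ ^ 2 + ‖X.2‖ ^ 2 + X.1 ^ 2 := by
    rw [h1]
    have := nq_nonneg X
    linarith
  have h3 := BCo_c h2
  rw [h1] at h3
  exact h3

theorem BCo_N (X : V) : 0 < Real.sqrt (1 + nq X) := by
  apply Real.sqrt_pos.2
  have := nq_nonneg X
  linarith

theorem Xof_spc (X : V) {w : ℂ} (hw : ‖w‖ = 1) : Xof (spc X w) = X ∧ c1 (spc X w) ≠ 0 ∧
    c1 (spc X w) / ‖c1 (spc X w)‖ = w := by
  obtain ⟨h1, h2, h3⟩ := spc_c X hw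
  obtain ⟨N, hN⟩ : ∃ N, N = Real.sqrt (1 + nq X) := ⟨_, rfl⟩
  have hNp : 0 < N := by
    rw [hN]
    exact BCo_N X
  rw [← hN] at h1 h2 h3
  have hNc : ((N : ℝ) : ℂ) ≠ 0 := by
    exact_mod_cast hNp.ne'
  have hw0 : w ≠ 0 := by
    intro h
    rw [h, norm_zero] at hw
    exact zero_ne_one hw
  have h4 : ‖c1 (spc X w)‖ = N⁻¹ := by
    rw [h1, norm_div, hw, Complex.norm_real, Real.norm_of_nonneg hNp.le, one_div]
  refine ⟨?_, ?_, ?_⟩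
  · unfold Xof
    rw [h4, h2, h3]
    refine Prod.ext ?_ ?_
    · simp only
      field_simp
    · simp only
      push_cast
      field_simp
  · rw [h1]
    exact div_ne_zero hw0 hNc
  · rw [h4, h1]
    push_cast
    field_simp

theorem spc_Xof {z : S4} (h : c1 z ≠ 0) : spc (Xof z) (c1 z / ‖c1 z‖) = z := by
  have h1 : 0 < ‖c1 z‖ := norm_pos_iff.2 h
  have h2 := pS4_scale (inv_pos.2 h1) (c1 z) (c2 z) (ht z)
  rw [RSG.pS4_self] at h2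
  unfold spc Xof
  simp only
  rw [div_eq_inv_mul, div_eq_inv_mul, div_eq_inv_mul, ← Complex.ofReal_inv]
  exact h2

theorem BCo_nq {z : S4} (h : c1 z ≠ 0) : nq (Xof z) = (1 - ‖c1 z‖ ^ 2) / ‖c1 z‖ ^ 2 := by
  have h1 : ‖c1 z‖ ≠ 0 := norm_ne_zero_iff.2 h
  have h2 := RSG.S4_sq z
  unfold nq Xof
  simp only
  rw [norm_div, Complex.norm_real, norm_norm, div_pow, div_pow, ← add_div]
  congr 1
  linarith

theorem FC_Xof {z : S4} (h : c1 z ≠ 0) : z1 (sti (Xof z)) = 2 * ‖c1 z‖ * c2 z ∧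
    z2 (sti (Xof z)) = FC z := by
  have h1 : ‖c1 z‖ ≠ 0 := norm_ne_zero_iff.2 h
  have hc : ((‖c1 z‖ : ℝ) : ℂ) ≠ 0 := by exact_mod_cast h1
  have h2 := BCo_nq h
  have h3 : 1 + nq (Xof z) = (‖c1 z‖ ^ 2)⁻¹ := by
    rw [h2]
    field_simp
    ring
  obtain ⟨g1, g2⟩ := sti_c (Xof z)
  refine ⟨?_, ?_⟩
  · rw [g1, h3]
    unfold Xof
    simp only
    push_cast
    field_simp
  · rw [g2, h3]
    have h4 : ((⟨1 - nq (Xof z), 2 * (Xof z).1⟩ : ℂ) / (((‖c1 z‖ ^ 2)⁻¹ : ℝ) : ℂ)) =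
        ((‖c1 z‖ ^ 2 : ℝ) : ℂ) * (⟨1 - nq (Xof z), 2 * (Xof z).1⟩ : ℂ) := by
      push_cast
      rw [div_inv_eq_mul, mul_comm]
    rw [h4]
    unfold FC
    apply Complex.ext
    · rw [Complex.re_ofReal_mul]
      simp only
      rw [h2]
      field_simp
      ring
    · rw [Complex.im_ofReal_mul]
      unfold Xof
      simp only
      field_simp

theorem FC_norm (z : S4) : ‖FC z‖ = ‖fh z‖ := by
  have h2 := RSG.S4_sq z
  have h3 : ht z ^ 2 ≤ 1 := by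
    nlinarith [sq_nonneg ‖c1 z‖, sq_nonneg ‖c2 z‖]
  have h4 : ‖FC z‖ ^ 2 = ‖fh z‖ ^ 2 := by
    unfold FC fh
    rw [RSG.SphB_cx (2 * ‖c1 z‖ ^ 2 - 1) (2 * ht z * ‖c1 z‖),
      RSG.SphB_cx (‖c1 z‖ ^ 2 - ‖c2 z‖ ^ 2) (ht z * Real.sqrt (2 - ht z ^ 2)),
      mul_pow (ht z), Real.sq_sqrt (by linarith)]
    have h5 : ‖c2 z‖ ^ 2 = 1 - ‖c1 z‖ ^ 2 - ht z ^ 2 := by linarith
    rw [h5]
    ring
  have h5 := congrArg Real.sqrt h4
  rwa [Real.sqrt_sq (norm_nonneg _), Real.sqrt_sq (norm_nonneg _)] at h5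

theorem BCo_unit {z : S4} (h : c1 z ≠ 0) : ‖c1 z / ‖c1 z‖‖ = 1 := by
  rw [norm_div, Complex.norm_real, norm_norm, div_self (norm_ne_zero_iff.2 h)]

/-- linear maps of `V` act on `S4` -/
noncomputable def BCo_lin (B : V ≃L[ℝ] V) (z : S4) : S4 :=
  pS4 (c1 z) (B (ht z, c2 z)).2 (B (ht z, c2 z)).1

theorem BCo_pos (B : V ≃L[ℝ] V) (z : S4) :
    0 < ‖c1 z‖ ^ 2 + ‖(B (ht z, c2 z)).2‖ ^ 2 + (B (ht z, c2 z)).1 ^ 2 := by
  by_contra hle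
  push Not at hle
  have a1 := sq_nonneg ‖c1 z‖
  have a2 := sq_nonneg ‖(B (ht z, c2 z)).2‖
  have a3 := sq_nonneg (B (ht z, c2 z)).1
  have b1 : ‖c1 z‖ ^ 2 = 0 := by linarith
  have b2 : ‖(B (ht z, c2 z)).2‖ ^ 2 = 0 := by linarith
  have b3 : (B (ht z, c2 z)).1 ^ 2 = 0 := by linarith
  have c0 : ‖c1 z‖ = 0 := by simpa using b1
  have c4 : (B (ht z, c2 z)).2 = 0 := by simpa using b2
  have c3 : (B (ht z, c2 z)).1 = 0 := by simpa using b3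
  have d : B (ht z, c2 z) = B 0 := by
    rw [map_zero]
    exact Prod.ext c3 c4
  have e := B.injective d
  have e1 : ht z = 0 := congrArg Prod.fst e
  have e2 : c2 z = 0 := congrArg Prod.snd e
  have h := RSG.S4_sq z
  rw [c0, e1, e2, norm_zero] at h
  norm_num at h

theorem BCo_lin_inv (B : V ≃L[ℝ] V) (z : S4) : BCo_lin B.symm (BCo_lin B z) = z := by
  have hp := BCo_pos B z
  obtain ⟨h1, h2, h3⟩ := BCo_c hp
  obtain ⟨N, hN⟩ : ∃ N, N = Real.sqrt (‖c1 z‖ ^ 2 + ‖(B (ht z, c2 z)).2‖ ^ 2 +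
    (B (ht z, c2 z)).1 ^ 2) := ⟨_, rfl⟩
  have hNp : 0 < N := by
    rw [hN]
    exact Real.sqrt_pos.2 hp
  rw [← hN] at h1 h2 h3
  have h4 : ((ht (BCo_lin B z), c2 (BCo_lin B z)) : V) = N⁻¹ • B (ht z, c2 z) := by
    refine Prod.ext ?_ ?_
    · rw [Prod.smul_fst, smul_eq_mul, ← div_eq_inv_mul]
      exact h3
    · rw [Prod.smul_snd, Complex.real_smul]
      simp only
      push_cast
      rw [← div_eq_inv_mul]
      exact h2
  have h5 : B.symm ((ht (BCo_lin B z), c2 (BCo_lin B z)) : V) = N⁻¹ • ((ht z, c2 z) : V) := by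
    rw [h4, map_smul, ContinuousLinearEquiv.symm_apply_apply]
  have h6 : BCo_lin B.symm (BCo_lin B z) = pS4 (c1 (BCo_lin B z)) (N⁻¹ • ((ht z, c2 z) : V)).2
      (N⁻¹ • ((ht z, c2 z) : V)).1 := by
    rw [← h5]
    rfl
  have h7 : c1 (BCo_lin B z) = ((N⁻¹ : ℝ) : ℂ) * c1 z := by
    push_cast
    rw [← div_eq_inv_mul]
    exact h1
  have h8 := pS4_scale (inv_pos.2 hNp) (c1 z) (c2 z) (ht z)
  rw [h6, h7, Prod.smul_snd, Prod.smul_fst, Complex.real_smul, smul_eq_mul]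
  rw [h8, RSG.pS4_self]

theorem BCo_lin_inv' (B : V ≃L[ℝ] V) (z : S4) : BCo_lin B (BCo_lin B.symm z) = z := by
  have h := BCo_lin_inv B.symm z
  rwa [ContinuousLinearEquiv.symm_symm] at h

theorem BCo_lin_smooth (B : V ≃L[ℝ] V) (z : S4) : ContMDiffAt (𝓡 4) (𝓡 4) ∞ (BCo_lin B) z := by
  have h1 : ContMDiffAt (𝓡 4) 𝓘(ℝ, V) ∞ (fun z : S4 => ((ht z, c2 z) : V)) z :=
    (RSG.ht_smooth z).prodMk_space (RSG.c2_smooth z)
  have h2 : ContMDiffAt (𝓡 4) 𝓘(ℝ, V) ∞ (fun z : S4 => B (ht z, c2 z)) z :=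
    (B.contDiff.contMDiff _).comp z h1
  have h3 : ContMDiffAt (𝓡 4) 𝓘(ℝ, ℝ) ∞ (fun z : S4 => (B (ht z, c2 z)).1) z :=
    ((ContinuousLinearMap.fst ℝ ℝ ℂ).contDiff.contMDiff _).comp z h2
  have h4 : ContMDiffAt (𝓡 4) 𝓘(ℝ, ℂ) ∞ (fun z : S4 => (B (ht z, c2 z)).2) z :=
    ((ContinuousLinearMap.snd ℝ ℝ ℂ).contDiff.contMDiff _).comp z h2
  exact RSG.pS4_smooth (RSG.c1_smooth z) h4 h3 (BCo_pos B z)

theorem BCo_lin_ld (B : V ≃L[ℝ] V) (z : S4) : IsLocalDiffeomorphAt (𝓡 4) (𝓡 4) ∞ (BCo_lin B) z :=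
  RSG.ld_two (Eventually.of_forall fun y => BCo_lin_smooth B y)
    (Eventually.of_forall fun y => BCo_lin_smooth B.symm y)
    (Eventually.of_forall fun y => BCo_lin_inv B y)
    (Eventually.of_forall fun y => BCo_lin_inv' B y)

theorem BCo_cone0 (T : V → V) (B : V ≃L[ℝ] V) {z : S4} (h : c1 z = 0) :
    cone T B z = BCo_lin B z := by
  unfold cone BCo_lin
  rw [if_pos h, h]

theorem BCo_cone1 (T : V → V) (B : V ≃L[ℝ] V) {z : S4} (h : c1 z ≠ 0) :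
    cone T B z = spc (T (Xof z)) (c1 z / ‖c1 z‖) := by
  unfold cone
  rw [if_neg h]

theorem BCo_lin_c1 (B : V ≃L[ℝ] V) (z : S4) : c1 (BCo_lin B z) = 0 ↔ c1 z = 0 := by
  have hp := BCo_pos B z
  have h1 : c1 (BCo_lin B z) = c1 z / (Real.sqrt (‖c1 z‖ ^ 2 + ‖(B (ht z, c2 z)).2‖ ^ 2 +
    (B (ht z, c2 z)).1 ^ 2) : ℝ) := (BCo_c hp).1
  have hN : ((Real.sqrt (‖c1 z‖ ^ 2 + ‖(B (ht z, c2 z)).2‖ ^ 2 +
    (B (ht z, c2 z)).1 ^ 2) : ℝ) : ℂ) ≠ 0 := by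
    exact_mod_cast (Real.sqrt_pos.2 hp).ne'
  rw [h1, div_eq_zero_iff]
  constructor
  · rintro (h | h)
    · exact h
    · exact absurd h hN
  · exact Or.inl

theorem cone_c1 (T : V → V) (B : V ≃L[ℝ] V) (z : S4) : (c1 (cone T B z) = 0 ↔ c1 z = 0) ∧
    (c1 z ≠ 0 → c1 (cone T B z) / ‖c1 (cone T B z)‖ = c1 z / ‖c1 z‖ ∧ Xof (cone T B z) = T (Xof z)) := by
  by_cases h : c1 z = 0
  · refine ⟨?_, fun h' => absurd h h'⟩
    rw [BCo_cone0 T B h, BCo_lin_c1]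
  · obtain ⟨g1, g2, g3⟩ := Xof_spc (T (Xof z)) (BCo_unit h)
    rw [← BCo_cone1 T B h] at g1 g2 g3
    exact ⟨⟨fun h' => absurd h' g2, fun h' => absurd h' h⟩, fun _ => ⟨g3, g1⟩⟩

theorem BCo_Xof_smooth {z : S4} (h : c1 z ≠ 0) : ContMDiffAt (𝓡 4) 𝓘(ℝ, V) ∞ Xof z := by
  have hn : ContMDiffAt (𝓡 4) 𝓘(ℝ, ℝ) ∞ (fun z : S4 => ‖c1 z‖⁻¹) z := by
    have h1 : ContDiffAt ℝ ∞ (fun w : ℂ => ‖w‖⁻¹) (c1 z) :=
      (contDiffAt_id.norm ℝ h).inv (norm_ne_zero_iff.2 h)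
    exact h1.contMDiffAt.comp z (RSG.c1_smooth z)
  have h2 : ContMDiffAt (𝓡 4) 𝓘(ℝ, V) ∞ (fun z : S4 => ((ht z, c2 z) : V)) z :=
    (RSG.ht_smooth z).prodMk_space (RSG.c2_smooth z)
  have h3 : ContMDiffAt (𝓡 4) 𝓘(ℝ, V) ∞ (fun z : S4 => ‖c1 z‖⁻¹ • ((ht z, c2 z) : V)) z :=
    hn.smul h2
  refine h3.congr_of_eventuallyEq (Eventually.of_forall fun y => ?_)
  refine Prod.ext ?_ ?_
  · rw [Prod.smul_fst, smul_eq_mul, ← div_eq_inv_mul]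
    rfl
  · rw [Prod.smul_snd, Complex.real_smul, Complex.ofReal_inv, ← div_eq_inv_mul]
    rfl

theorem BCo_sm {T : V → V} {z : S4} (h : c1 z ≠ 0)
    (hT : ContMDiffAt 𝓘(ℝ, V) 𝓘(ℝ, V) ∞ T (Xof z)) :
    ContMDiffAt (𝓡 4) (𝓡 4) ∞ (fun z : S4 => spc (T (Xof z)) (c1 z / ‖c1 z‖)) z := by
  have h1 : ContMDiffAt (𝓡 4) 𝓘(ℝ, V) ∞ (fun z : S4 => T (Xof z)) z := hT.comp z (BCo_Xof_smooth h)
  have h2 : ContMDiffAt (𝓡 4) 𝓘(ℝ, ℂ) ∞ (fun z : S4 => c1 z / ‖c1 z‖) z := by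
    have h3 : ContDiffAt ℝ ∞ (fun w : ℂ => w / (‖w‖ : ℝ)) (c1 z) := by
      have h4 : ContDiffAt ℝ ∞ (fun w : ℂ => ‖w‖⁻¹ • w) (c1 z) :=
        ((contDiffAt_id.norm ℝ h).inv (norm_ne_zero_iff.2 h)).smul contDiffAt_id
      refine h4.congr_of_eventuallyEq (Eventually.of_forall fun w => ?_)
      simp only
      rw [Complex.real_smul, Complex.ofReal_inv, ← div_eq_inv_mul]
    exact h3.contMDiffAt.comp z (RSG.c1_smooth z)
  have h5 : ContMDiffAt (𝓡 4) 𝓘(ℝ, ℝ) ∞ (fun z : S4 => (T (Xof z)).1) z :=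
    ((ContinuousLinearMap.fst ℝ ℝ ℂ).contDiff.contMDiff _).comp z h1
  have h6 : ContMDiffAt (𝓡 4) 𝓘(ℝ, ℂ) ∞ (fun z : S4 => (T (Xof z)).2) z :=
    ((ContinuousLinearMap.snd ℝ ℝ ℂ).contDiff.contMDiff _).comp z h1
  refine RSG.pS4_smooth h2 h6 h5 ?_
  rw [BCo_unit h]
  positivity

theorem BCo_near (T : V → V) (B : V ≃L[ℝ] V) {z : S4} (h : c1 z ≠ 0) :
    ∀ᶠ y in 𝓝 z, c1 y ≠ 0 ∧ cone T B =ᶠ[𝓝 y] fun z : S4 => spc (T (Xof z)) (c1 z / ‖c1 z‖) := by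
  have h1 : ∀ᶠ y in 𝓝 z, c1 y ≠ 0 := RSG.c1_smooth.continuous.continuousAt.eventually_ne h
  filter_upwards [h1.eventually_nhds, h1] with y hy hy'
  refine ⟨hy', ?_⟩
  filter_upwards [hy] with x hx
  exact BCo_cone1 T B hx

theorem cone_loc {T : V → V} {B : V ≃L[ℝ] V} {R : ℝ} (hB : ∀ X, R ≤ ‖X‖ → T X = B X) {z : S4}
    (h : c1 z ≠ 0 → IsLocalDiffeomorphAt 𝓘(ℝ, V) 𝓘(ℝ, V) ∞ T (Xof z)) :
    IsLocalDiffeomorphAt (𝓡 4) (𝓡 4) ∞ (cone T B) z := by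
  by_cases h0 : c1 z = 0
  · refine CSG.ld_congr (BCo_lin_ld B z) ?_
    have hne : ((ht z, c2 z) : V) ≠ 0 := by
      intro h1
      have e1 : ht z = 0 := congrArg Prod.fst h1
      have e2 : c2 z = 0 := congrArg Prod.snd h1
      have h2 := RSG.S4_sq z
      rw [h0, e1, e2, norm_zero] at h2
      norm_num at h2
    have hc1 : Continuous (fun y : S4 => R * ‖c1 y‖) :=
      continuous_const.mul RSG.c1_smooth.continuous.norm
    have hc2 : Continuous (fun y : S4 => ‖((ht y, c2 y) : V)‖) :=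
      (RSG.ht_smooth.continuous.prodMk RSG.c2_smooth.continuous).norm
    have hev : ∀ᶠ y in 𝓝 z, R * ‖c1 y‖ < ‖((ht y, c2 y) : V)‖ := by
      apply hc1.continuousAt.eventually_lt hc2.continuousAt
      rw [h0, norm_zero, mul_zero]
      exact norm_pos_iff.2 hne
    filter_upwards [hev] with y hy
    by_cases hy0 : c1 y = 0
    · exact BCo_cone0 T B hy0
    · have hyp : 0 < ‖c1 y‖ := norm_pos_iff.2 hy0
      have hX : Xof y = ‖c1 y‖⁻¹ • ((ht y, c2 y) : V) := by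
        refine Prod.ext ?_ ?_
        · rw [Prod.smul_fst, smul_eq_mul, ← div_eq_inv_mul]
          rfl
        · rw [Prod.smul_snd, Complex.real_smul, Complex.ofReal_inv, ← div_eq_inv_mul]
          rfl
      have hR : R ≤ ‖Xof y‖ := by
        rw [hX, norm_smul, norm_inv, norm_norm, ← div_eq_inv_mul, le_div_iff₀ hyp]
        exact hy.le
      rw [BCo_cone1 T B hy0, hB _ hR, hX, map_smul]
      have h8 := pS4_scale (inv_pos.2 hyp) (c1 y) (B (ht y, c2 y)).2 (B (ht y, c2 y)).1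
      unfold spc BCo_lin
      rw [Prod.smul_snd, Prod.smul_fst, Complex.real_smul, smul_eq_mul, div_eq_inv_mul,
        ← Complex.ofReal_inv]
      exact h8
  · have hT := h h0
    have hX := BCo_Xof_smooth h0
    have hXc : ContinuousAt Xof z := hX.continuousAt
    have hTc : ContinuousAt (cone T B) z := by
      have h1 := (BCo_near T B h0).self_of_nhds.2
      have h2 := BCo_sm h0 hT.contMDiffAt
      exact h2.continuousAt.congr h1.symm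
    obtain ⟨k1, k2⟩ := (cone_c1 T B z).2 h0
    have k0 : c1 (cone T B z) ≠ 0 := fun hk => h0 ((cone_c1 T B z).1.1 hk)
    have hXc' : ContinuousAt Xof (cone T B z) := (BCo_Xof_smooth k0).continuousAt
    have hli := hT.localInverse_isLocalDiffeomorphAt
    have hev1 : ∀ᶠ X in 𝓝 (Xof z), hT.localInverse (T X) = X :=
      hT.localInverse_eventuallyEq_left
    have hev2 : ∀ᶠ X in 𝓝 (T (Xof z)), T (hT.localInverse X) = X :=
      hT.localInverse_eventuallyEq_right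
    refine RSG.ld_two (g := fun y : S4 => spc (hT.localInverse (Xof y)) (c1 y / ‖c1 y‖)) ?_ ?_ ?_ ?_
    · have e1 := hXc.eventually (CSG.ld_eventually hT)
      filter_upwards [e1, BCo_near T B h0] with y hy hy'
      exact (BCo_sm hy'.1 hy.contMDiffAt).congr_of_eventuallyEq hy'.2
    · rw [← k2] at hli
      have e1 := hXc'.eventually (CSG.ld_eventually hli)
      have e2 : ∀ᶠ y in 𝓝 (cone T B z), c1 y ≠ 0 :=
        RSG.c1_smooth.continuous.continuousAt.eventually_ne k0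
      filter_upwards [e1, e2] with y hy hy'
      exact BCo_sm hy' hy.contMDiffAt
    · filter_upwards [hXc.eventually hev1, (BCo_near T B h0)] with y hy hy'
      obtain ⟨m1, m2⟩ := (cone_c1 T B y).2 hy'.1
      rw [m1, m2, hy]
      exact spc_Xof hy'.1
    · rw [← k2] at hev2
      have e2 : ∀ᶠ y in 𝓝 (cone T B z), c1 y ≠ 0 :=
        RSG.c1_smooth.continuous.continuousAt.eventually_ne k0
      filter_upwards [hXc'.eventually hev2, e2] with y hy hy'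
      obtain ⟨m1, m2, m3⟩ := Xof_spc (hT.localInverse (Xof y)) (BCo_unit hy')
      rw [BCo_cone1 T B m2, m1, m3, hy]
      exact spc_Xof hy'

theorem cone_inj {T : V → V} {B : V ≃L[ℝ] V} {D : Set V} (hT : InjOn T D) {z z' : S4}
    (h : c1 z ≠ 0 → Xof z ∈ D) (h' : c1 z' ≠ 0 → Xof z' ∈ D) (he : cone T B z = cone T B z') : z = z' := by
  by_cases h0 : c1 z = 0
  · have h0' : c1 z' = 0 := by
      rw [← (cone_c1 T B z').1, ← he, (cone_c1 T B z).1]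
      exact h0
    rw [BCo_cone0 T B h0, BCo_cone0 T B h0'] at he
    rw [← BCo_lin_inv B z, he, BCo_lin_inv]
  · have h0' : c1 z' ≠ 0 := by
      intro h1
      apply h0
      rw [← (cone_c1 T B z).1, he, (cone_c1 T B z').1]
      exact h1
    obtain ⟨k1, k2⟩ := (cone_c1 T B z).2 h0
    obtain ⟨k3, k4⟩ := (cone_c1 T B z').2 h0'
    have h1 : Xof z = Xof z' := hT (h h0) (h' h0') (by rw [← k2, ← k4, he])
    have h2 : c1 z / ‖c1 z‖ = c1 z' / ‖c1 z'‖ := by rw [← k1, ← k3, he]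
    rw [← spc_Xof h0, ← spc_Xof h0', h1, h2]

/-- the whole sphere `c1 = 0` is in the image -/
theorem cone_surj (T : V → V) (B : V ≃L[ℝ] V) {q : S4} (h : c1 q = 0) :
    ∃ z, c1 z = 0 ∧ cone T B z = q := by
  have h1 : c1 (BCo_lin B.symm q) = 0 := (BCo_lin_c1 B.symm q).2 h
  exact ⟨BCo_lin B.symm q, h1, by rw [BCo_cone0 T B h1, BCo_lin_inv']⟩

end Pool.Agent.BAS
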