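import Pool.Agent.BAS.BLo
import Pool.Agent.CSG.FunBasic
import Pool.Agent.RSG.ExM
import Pool.Agent.RSG.ExM
import Pool.Agent.RSG.ExM

/-!
# BAS/BCv: the curve after pushing off the two cores   (difficulty 3)

`bmp ε l = 1 - stp (ε²/16) (ε²/4) (l²)` (even, smooth, `1` for `|l| ≤ ε/4`, `0` for `|l| ≥ ε/2`), `rh ε δ l = √(4 l² + δ² bmp²)`,
`th ε δ l = 1/4 + arg (δ bmp + 2 i l) / 2π`: `rh · ex (th) = -2 l + i δ bmp` (multiply `δ bmp + 2 i l = rh ex (arg/2π)` by `i = ex (1/4)`).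
* `th`: `δ bmp + 2 i l` is in the slit plane (real part `≥ 0`, not both zero), so `th` is smooth; `th (-l) = 1/2 - th l` (`arg` of the conjugate);
  `0` for `l ≤ -ε/2`, `1/2` for `l ≥ ε/2`; `0 < th l - th (-l) ≤ 1/2` for `l > 0` (`0 < arg ≤ π/2` as the imaginary part is positive);
  derivative at `0`: `2 / (2π δ) > 0` (near `0`: `bmp = 1`).
* `exists_delta`: `rh² = 4 l² + δ² bmp²`, derivative `8 l - 4 δ² bmp · stp' (l²) · l`; `stp'` is bounded on `[0, ε²]` (continuous) by `M`; take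
  `δ² M < 1`, `δ < ε`.
* `curve`: `x = l - round l`; `ρ l = rh x` for `|x| ≤ 1/4`, `1 - rh (1/2 - |x|)` for `|x| ≥ 1/4`;
  `X l = base x + round l • o`, `base x = σ₁ th x e₁ + Wt x - σ₂ th (x - 1/2) e₂ + σ₂ (1/2 - th (x + 1/2)) e₂`, `Wt x = w (2x) - w 0` for `x ≥ 0`, `0` for `x ≤ 0`
  (smooth, `w` is constant near `0`).  Here `w 0 = x₀ + σ₁ e₁ / 2`, `w 1 = x₀ + o + σ₂ e₂ / 2`.  Near `x = 1/2`: `base (1/2 + y) = o + σ₂ (1/2 - th y) e₂`,
  near `-1/2`: `base (-1/2 + y) = σ₂ (1/2 - th y) e₂`: so `X` is smooth (`base` is defined and smooth for all `x ∈ (-1, 1)`, and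
  `base (x + 1) = base x + o` for `x` near `-1/2`).
* `ρ` on `[0, 1/2]`: `rh` on `[0, 1/4]`, `1 - rh (1/2 - l)` on `[1/4, 1/2]`, both equal `2 l` on `[ε/2, 1/2 - ε/2]`, derivative positive on `(0, 1/2)`.
-/

open scoped Manifold ContDiff Topology
open Set Filter
open Complex (I)

namespace Pool.Agent.BAS

open Pool.Agent.RSG (E4 S3 S4 pS3 pS4 ex c1 c2 ht fh Thick std)
open Pool.Agent.PTH (SP ISP z1 z2 gE gact Carries prf Act GPath gK)

noncomputable def bmp (ε l : ℝ) : ℝ := 1 - Pool.Agent.CSG.stp (ε ^ 2 / 16) (ε ^ 2 / 4) (l ^ 2)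

noncomputable def rh (ε δ l : ℝ) : ℝ := Real.sqrt (4 * l ^ 2 + δ ^ 2 * bmp ε l ^ 2)

noncomputable def th (ε δ l : ℝ) : ℝ := 1 / 4 + Complex.arg ⟨δ * bmp ε l, 2 * l⟩ / (2 * Real.pi)

theorem bmp_facts {ε : ℝ} (hε : 0 < ε) : ContDiff ℝ ∞ (bmp ε) ∧ (∀ l, bmp ε (-l) = bmp ε l) ∧
    (∀ l, 0 ≤ bmp ε l ∧ bmp ε l ≤ 1) ∧ (∀ l, |l| ≤ ε / 4 → bmp ε l = 1) ∧
    ∀ l, ε / 2 ≤ |l| → bmp ε l = 0 := by
  have hlt : ε ^ 2 / 16 < ε ^ 2 / 4 := by
    have : 0 < ε ^ 2 := by positivity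
    linarith
  refine ⟨?_, ?_, ?_, ?_, ?_⟩
  · unfold bmp
    exact contDiff_const.sub ((CSG.stp_smooth _ _).comp (contDiff_id.pow 2))
  · intro l
    unfold bmp
    rw [neg_sq]
  · intro l
    have h1 := CSG.stp_nonneg (ε ^ 2 / 16) (ε ^ 2 / 4) (l ^ 2)
    have h2 := CSG.stp_le_one (ε ^ 2 / 16) (ε ^ 2 / 4) (l ^ 2)
    unfold bmp
    constructor <;> linarith
  · intro l hl
    have h2 : l ^ 2 ≤ ε ^ 2 / 16 := by
      have h3 : |l| ^ 2 ≤ (ε / 4) ^ 2 := pow_le_pow_left₀ (abs_nonneg l) hl 2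
      rw [sq_abs] at h3
      nlinarith
    unfold bmp
    rw [CSG.stp_zero hlt h2, sub_zero]
  · intro l hl
    have h2 : ε ^ 2 / 4 ≤ l ^ 2 := by
      have h3 : (ε / 2) ^ 2 ≤ |l| ^ 2 := pow_le_pow_left₀ (by positivity) hl 2
      rw [sq_abs] at h3
      nlinarith
    unfold bmp
    rw [CSG.stp_one hlt h2, sub_self]

/-- the vector of the cap -/
noncomputable def BCv_u (ε δ l : ℝ) : ℂ := ⟨δ * bmp ε l, 2 * l⟩

theorem BCv_u_eq (ε δ l : ℝ) : BCv_u ε δ l = ((δ * bmp ε l : ℝ) : ℂ) + ((2 * l : ℝ) : ℂ) * I := by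
  apply Complex.ext <;> simp [BCv_u]

theorem BCv_u_smooth {ε : ℝ} (hε : 0 < ε) (δ : ℝ) : ContDiff ℝ ∞ (BCv_u ε δ) := by
  have h : BCv_u ε δ = fun l => ((δ * bmp ε l : ℝ) : ℂ) + ((2 * l : ℝ) : ℂ) * I :=
    funext fun l => BCv_u_eq ε δ l
  rw [h]
  have h1 : ContDiff ℝ ∞ fun l : ℝ => ((δ * bmp ε l : ℝ) : ℂ) :=
    Complex.ofRealCLM.contDiff.comp (contDiff_const.mul (bmp_facts hε).1)
  have h2 : ContDiff ℝ ∞ fun l : ℝ => ((2 * l : ℝ) : ℂ) :=
    Complex.ofRealCLM.contDiff.comp (contDiff_const.mul contDiff_id)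
  exact h1.add (h2.mul contDiff_const)

theorem BCv_u_slit {ε δ : ℝ} (hε : 0 < ε) (hδ : 0 < δ) (l : ℝ) : BCv_u ε δ l ∈ Complex.slitPlane := by
  rw [Complex.mem_slitPlane_iff]
  by_cases h : l = 0
  · left
    subst h
    have : bmp ε 0 = 1 := (bmp_facts hε).2.2.2.1 0 (by rw [abs_zero]; positivity)
    change 0 < δ * bmp ε 0
    rw [this]
    linarith
  · right
    change 2 * l ≠ 0
    simpa using h

theorem BCv_u_neg {ε : ℝ} (hε : 0 < ε) (δ l : ℝ) : BCv_u ε δ (-l) = (starRingEnd ℂ) (BCv_u ε δ l) := by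
  apply Complex.ext
  · change δ * bmp ε (-l) = δ * bmp ε l
    rw [(bmp_facts hε).2.1]
  · change 2 * -l = -(2 * l)
    ring

theorem th_eq (ε δ l : ℝ) : th ε δ l = 1 / 4 + Complex.arg (BCv_u ε δ l) / (2 * Real.pi) := rfl

theorem th_facts {ε δ : ℝ} (hε : 0 < ε) (hδ : 0 < δ) : ContDiff ℝ ∞ (th ε δ) ∧
    (∀ l, th ε δ (-l) = 1 / 2 - th ε δ l) ∧ (∀ l, l ≤ -(ε / 2) → th ε δ l = 0) ∧
    (∀ l, ε / 2 ≤ l → th ε δ l = 1 / 2) ∧
    (∀ l, 0 < l → 0 < th ε δ l - th ε δ (-l) ∧ th ε δ l - th ε δ (-l) ≤ 1 / 2) ∧ 0 < deriv (th ε δ) 0 := by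
  have hpi := Real.pi_pos
  have hneg : ∀ l, th ε δ (-l) = 1 / 2 - th ε δ l := by
    intro l
    have h1 : Complex.arg (BCv_u ε δ l) ≠ Real.pi := by
      have := BCv_u_slit hε hδ l
      rw [Complex.mem_slitPlane_iff_arg] at this
      exact this.1
    rw [th_eq, th_eq, BCv_u_neg hε, Complex.arg_conj, if_neg h1]
    ring
  have hpos : ∀ l, ε / 2 ≤ l → th ε δ l = 1 / 2 := by
    intro l hl
    have h0 : bmp ε l = 0 := (bmp_facts hε).2.2.2.2 l (by rw [abs_of_pos (by linarith)]; exact hl)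
    have h1 : Complex.arg (BCv_u ε δ l) = Real.pi / 2 := by
      rw [Complex.arg_eq_pi_div_two_iff]
      constructor
      · change δ * bmp ε l = 0
        rw [h0, mul_zero]
      · change 0 < 2 * l
        linarith
    rw [th_eq, h1]
    field_simp
    norm_num
  refine ⟨?_, hneg, ?_, hpos, ?_, ?_⟩
  · have h : th ε δ = fun l => 1 / 4 + (Complex.log (BCv_u ε δ l)).im / (2 * Real.pi) := by
      funext l
      rw [Complex.log_im, th_eq]
    rw [h]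
    refine contDiff_const.add (ContDiff.div_const ?_ _)
    rw [contDiff_iff_contDiffAt]
    intro l
    have h1 : ContDiffAt ℝ ∞ Complex.log (BCv_u ε δ l) :=
      (Complex.contDiffAt_log (BCv_u_slit hε hδ l)).restrict_scalars ℝ
    have h2 : ContDiffAt ℝ ∞ (fun l => Complex.log (BCv_u ε δ l)) l :=
      h1.comp l (BCv_u_smooth hε δ).contDiffAt
    exact Complex.imCLM.contDiff.contDiffAt.comp l h2
  · intro l hl
    have h1 := hneg l
    rw [hpos (-l) (by linarith)] at h1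
    linarith
  · intro l hl
    have h0 : BCv_u ε δ l ≠ 0 := Complex.slitPlane_ne_zero (BCv_u_slit hε hδ l)
    have h1 : 0 ≤ Complex.arg (BCv_u ε δ l) := by
      rw [Complex.arg_nonneg_iff]
      change 0 ≤ 2 * l
      linarith
    have h2 : Complex.arg (BCv_u ε δ l) ≠ 0 := by
      intro h
      rw [Complex.arg_eq_zero_iff] at h
      have h3 : 2 * l = 0 := h.2
      linarith
    have h3 : |Complex.arg (BCv_u ε δ l)| ≤ Real.pi / 2 := by
      rw [Complex.abs_arg_le_pi_div_two_iff]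
      change 0 ≤ δ * bmp ε l
      exact mul_nonneg hδ.le ((bmp_facts hε).2.2.1 l).1
    have h4 : 0 < Complex.arg (BCv_u ε δ l) := lt_of_le_of_ne h1 (Ne.symm h2)
    rw [abs_of_pos h4] at h3
    have h5 : th ε δ l - th ε δ (-l) = Complex.arg (BCv_u ε δ l) / Real.pi := by
      rw [hneg, th_eq]
      field_simp
      ring
    rw [h5]
    refine ⟨div_pos h4 hpi, ?_⟩
    rw [div_le_iff₀ hpi]
    linarith
  · have hev : th ε δ =ᶠ[𝓝 0] fun l => 1 / 4 + (Complex.log ((δ : ℂ) + ((2 * l : ℝ) : ℂ) * I)).im / (2 * Real.pi) := by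
      have : ∀ᶠ l : ℝ in 𝓝 0, |l| < ε / 4 := by
        have h1 : Continuous fun l : ℝ => |l| := continuous_abs
        have h2 : |(0 : ℝ)| < ε / 4 := by
          rw [abs_zero]
          positivity
        exact h1.continuousAt.eventually_lt continuousAt_const h2
      filter_upwards [this] with l hl
      have h0 : bmp ε l = 1 := (bmp_facts hε).2.2.2.1 l hl.le
      rw [Complex.log_im, th_eq, BCv_u_eq, h0, mul_one]
    rw [hev.deriv_eq]
    have d1 : HasDerivAt (fun l : ℝ => (δ : ℂ) + ((2 * l : ℝ) : ℂ) * I) (2 * I) 0 := by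
      have e1 : HasDerivAt (fun l : ℝ => ((2 * l : ℝ) : ℂ)) 2 0 := by
        have := (HasDerivAt.const_mul (2 : ℝ) (hasDerivAt_id (0 : ℝ))).ofReal_comp
        simpa using this
      exact (e1.mul_const I).const_add _
    have hsl : (δ : ℂ) + ((2 * (0 : ℝ) : ℝ) : ℂ) * I ∈ Complex.slitPlane := by
      rw [Complex.mem_slitPlane_iff]
      left
      simpa using hδ
    have d2 := d1.clog_real hsl
    have d3 : HasDerivAt (fun l : ℝ => (Complex.log ((δ : ℂ) + ((2 * l : ℝ) : ℂ) * I)).im)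
        ((2 * I / ((δ : ℂ) + ((2 * (0 : ℝ) : ℝ) : ℂ) * I)).im) 0 :=
      (Complex.imCLM.hasFDerivAt.comp_hasDerivAt (0 : ℝ) d2)
    have d4 := (d3.div_const (2 * Real.pi)).const_add (1 / 4)
    rw [d4.deriv]
    have h5 : (2 * I / ((δ : ℂ) + ((2 * (0 : ℝ) : ℝ) : ℂ) * I)).im = 2 / δ := by
      have : (2 * I / ((δ : ℂ) + ((2 * (0 : ℝ) : ℝ) : ℂ) * I)) = ((2 / δ : ℝ) : ℂ) * I := by
        push_cast
        have : (δ : ℂ) ≠ 0 := by exact_mod_cast hδ.ne'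
        simp
        field_simp
      rw [this]
      simp
    rw [h5]
    positivity

theorem rh_eq (ε δ l : ℝ) : rh ε δ l = ‖BCv_u ε δ l‖ := by
  rw [Complex.norm_def, Complex.normSq_apply]
  unfold rh BCv_u
  congr 1
  ring

theorem BCv_sq_pos {ε δ : ℝ} (hε : 0 < ε) (hδ : 0 < δ) (l : ℝ) : 0 < 4 * l ^ 2 + δ ^ 2 * bmp ε l ^ 2 := by
  have h0 : 0 < ‖BCv_u ε δ l‖ := norm_pos_iff.2 (Complex.slitPlane_ne_zero (BCv_u_slit hε hδ l))
  rw [← rh_eq] at h0
  exact Real.sqrt_pos.1 h0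

theorem rh_facts {ε δ : ℝ} (hε : 0 < ε) (hδ : 0 < δ) : ContDiff ℝ ∞ (rh ε δ) ∧
    (∀ l, rh ε δ (-l) = rh ε δ l) ∧ (∀ l, 0 < rh ε δ l) ∧ (∀ l, ε / 2 ≤ |l| → rh ε δ l = 2 * |l|) ∧
    (δ < ε → ∀ l, |l| ≤ ε → rh ε δ l ≤ 2 * ε) ∧
    ∀ l, (rh ε δ l : ℂ) * ex (th ε δ l) = ⟨-2 * l, δ * bmp ε l⟩ := by
  have hfar : ∀ l, ε / 2 ≤ |l| → rh ε δ l = 2 * |l| := by
    intro l hl
    have h0 : bmp ε l = 0 := (bmp_facts hε).2.2.2.2 l hl
    unfold rh
    rw [h0]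
    have : 4 * l ^ 2 + δ ^ 2 * 0 ^ 2 = (2 * |l|) ^ 2 := by
      rw [mul_pow, sq_abs]
      ring
    rw [this, Real.sqrt_sq (by positivity)]
  refine ⟨?_, ?_, ?_, hfar, ?_, ?_⟩
  · unfold rh
    refine ContDiff.sqrt ?_ fun l => (BCv_sq_pos hε hδ l).ne'
    exact (contDiff_const.mul (contDiff_id.pow 2)).add (contDiff_const.mul ((bmp_facts hε).1.pow 2))
  · intro l
    unfold rh
    rw [(bmp_facts hε).2.1, neg_sq]
  · intro l
    exact Real.sqrt_pos.2 (BCv_sq_pos hε hδ l)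
  · intro hδε l hl
    rcases le_or_gt (ε / 2) |l| with h | h
    · rw [hfar l h]
      linarith
    · have h1 := (bmp_facts hε).2.2.1 l
      unfold rh
      rw [Real.sqrt_le_left (by positivity)]
      have h2 : l ^ 2 ≤ (ε / 2) ^ 2 := by
        rw [← sq_abs]
        exact pow_le_pow_left₀ (abs_nonneg l) h.le 2
      have h3 : bmp ε l ^ 2 ≤ 1 := by nlinarith [h1.1, h1.2]
      have h4 : δ ^ 2 ≤ ε ^ 2 := by nlinarith
      have h5 : δ ^ 2 * bmp ε l ^ 2 ≤ ε ^ 2 * 1 := mul_le_mul h4 h3 (by positivity) (by positivity)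
      nlinarith
  · intro l
    rw [th_eq, RSG.ex_add, RSG.ex_quarter, rh_eq]
    have h := RSG.ex_arg (p := BCv_u ε δ l)
    rw [mul_left_comm, h]
    apply Complex.ext
    · simp [BCv_u]
    · simp [BCv_u]

theorem exists_delta {ε : ℝ} (hε : 0 < ε) :
    ∃ δ, 0 < δ ∧ δ < ε ∧ ∀ l, 0 < l → 0 < deriv (rh ε δ) l := by
  obtain ⟨M, hM⟩ : ∃ M : ℝ, ∀ x ∈ Icc (0 : ℝ) (ε ^ 2),
      deriv (CSG.stp (ε ^ 2 / 16) (ε ^ 2 / 4)) x ≤ M := by
    have hc : Continuous (deriv (CSG.stp (ε ^ 2 / 16) (ε ^ 2 / 4))) :=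
      (CSG.stp_smooth _ _).continuous_deriv (by simp)
    obtain ⟨M, hM⟩ := (isCompact_Icc.image hc).bddAbove
    exact ⟨M, fun x hx => hM ⟨x, hx, rfl⟩⟩
  set M' := max M 0 with hM'
  have hM0 : 0 ≤ M' := le_max_right _ _
  set δ := min (ε / 2) (1 / (M' + 1)) with hδ_def
  have hδ : 0 < δ := lt_min (by positivity) (by positivity)
  have hδ1 : δ ≤ ε / 2 := min_le_left _ _
  have hδ2 : δ ≤ 1 / (M' + 1) := min_le_right _ _
  have hδM : δ ^ 2 * M' < 1 := by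
    have h1 : δ ^ 2 ≤ (1 / (M' + 1)) ^ 2 := pow_le_pow_left₀ hδ.le hδ2 2
    have h2 : δ ^ 2 * M' ≤ (1 / (M' + 1)) ^ 2 * M' := mul_le_mul_of_nonneg_right h1 hM0
    have h3 : (1 / (M' + 1)) ^ 2 * M' < 1 := by
      rw [div_pow, one_pow, div_mul_eq_mul_div, one_mul, div_lt_one (by positivity)]
      nlinarith
    linarith
  refine ⟨δ, hδ, by linarith, fun l hl => ?_⟩
  have hb : HasDerivAt (bmp ε) (-(deriv (CSG.stp (ε ^ 2 / 16) (ε ^ 2 / 4)) (l ^ 2) * (2 * l))) l := by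
    have d1 : HasDerivAt (CSG.stp (ε ^ 2 / 16) (ε ^ 2 / 4))
        (deriv (CSG.stp (ε ^ 2 / 16) (ε ^ 2 / 4)) (l ^ 2)) (l ^ 2) :=
      (((CSG.stp_smooth (ε ^ 2 / 16) (ε ^ 2 / 4)).differentiable (by simp)) _).hasDerivAt
    have d2 : HasDerivAt (fun y : ℝ => y ^ 2) (2 * l) l := by
      simpa using hasDerivAt_pow 2 l
    exact (HasDerivAt.comp (h₂ := CSG.stp (ε ^ 2 / 16) (ε ^ 2 / 4)) (h := fun y : ℝ => y ^ 2) l d1 d2).const_sub 1
  have hin : HasDerivAt (fun l => 4 * l ^ 2 + δ ^ 2 * bmp ε l ^ 2)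
      (4 * (2 * l) + δ ^ 2 * (2 * bmp ε l *
        (-(deriv (CSG.stp (ε ^ 2 / 16) (ε ^ 2 / 4)) (l ^ 2) * (2 * l))))) l := by
    have d2 : HasDerivAt (fun y : ℝ => y ^ 2) (2 * l) l := by
      simpa using hasDerivAt_pow 2 l
    have d3 : HasDerivAt (fun y : ℝ => bmp ε y ^ 2) (2 * bmp ε l *
        (-(deriv (CSG.stp (ε ^ 2 / 16) (ε ^ 2 / 4)) (l ^ 2) * (2 * l)))) l := by
      simpa using hb.fun_pow 2
    exact (d2.const_mul 4).fun_add (d3.const_mul (δ ^ 2))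
  have hpos := BCv_sq_pos hε hδ l
  have hs := hin.sqrt hpos.ne'
  have hd : deriv (rh ε δ) l = (4 * (2 * l) + δ ^ 2 * (2 * bmp ε l *
        (-(deriv (CSG.stp (ε ^ 2 / 16) (ε ^ 2 / 4)) (l ^ 2) * (2 * l))))) /
        (2 * Real.sqrt (4 * l ^ 2 + δ ^ 2 * bmp ε l ^ 2)) := hs.deriv
  rw [hd]
  refine div_pos ?_ (mul_pos two_pos (Real.sqrt_pos.2 hpos))
  set D := deriv (CSG.stp (ε ^ 2 / 16) (ε ^ 2 / 4)) (l ^ 2) with hD
  have hbm := (bmp_facts hε).2.2.1 l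
  have key : δ ^ 2 * (bmp ε l * D) ≤ 1 := by
    rcases le_or_gt (ε / 2) |l| with h | h
    · rw [(bmp_facts hε).2.2.2.2 l h]
      simp
    · have h2 : l ^ 2 ≤ ε ^ 2 := by
        rw [← sq_abs]
        have : |l| ≤ ε := by linarith
        exact pow_le_pow_left₀ (abs_nonneg l) this 2
      have h3 : D ≤ M' := (hM _ ⟨sq_nonneg l, h2⟩).trans (le_max_left _ _)
      have h4 : bmp ε l * D ≤ M' := by
        rcases le_or_gt D 0 with h5 | h5
        · nlinarith [hbm.1]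
        · nlinarith [hbm.2]
      have h5 : δ ^ 2 * (bmp ε l * D) ≤ δ ^ 2 * M' := mul_le_mul_of_nonneg_left h4 (by positivity)
      linarith
  have e : 4 * (2 * l) + δ ^ 2 * (2 * bmp ε l * (-(D * (2 * l)))) =
      4 * l * (2 - δ ^ 2 * (bmp ε l * D)) := by ring
  rw [e]
  refine mul_pos (by linarith) (by linarith)

noncomputable def BCv_k (l : ℝ) : ℤ := ⌊l + 1 / 4⌋

theorem BCv_k_add (l : ℝ) : BCv_k (l + 1) = BCv_k l + 1 := by
  unfold BCv_k
  rw [show l + 1 + 1 / 4 = (l + 1 / 4) + 1 by ring, Int.floor_add_one]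

theorem BCv_k_eq {l : ℝ} {m : ℤ} (h1 : (m : ℝ) ≤ l + 1 / 4) (h2 : l + 1 / 4 < m + 1) : BCv_k l = m :=
  Int.floor_eq_iff.2 ⟨h1, h2⟩

noncomputable def BCv_r (ε δ l : ℝ) : ℝ :=
  if l - BCv_k l ≤ 1 / 4 then rh ε δ (l - BCv_k l) else 1 - rh ε δ (1 / 2 - (l - BCv_k l))

theorem BCv_r_per (ε δ l : ℝ) : BCv_r ε δ (l + 1) = BCv_r ε δ l := by
  have h : l + 1 - ((BCv_k l + 1 : ℤ) : ℝ) = l - BCv_k l := by
    push_cast
    ring
  unfold BCv_r
  rw [BCv_k_add, h]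

theorem BCv_A {ε δ : ℝ} (hε : 0 < ε) (hε' : ε ≤ 1 / 12) (hδ : 0 < δ) {y : ℝ}
    (hy : |y| ≤ 1 / 2 - ε / 2) : BCv_r ε δ y = rh ε δ y := by
  have hfar := (rh_facts hε hδ).2.2.2.1
  have hy1 := abs_le.1 hy
  unfold BCv_r
  rcases lt_or_ge y (-(1 / 4)) with h | h
  · have hk : BCv_k y = -1 := BCv_k_eq (by push_cast; linarith) (by push_cast; linarith)
    rw [hk]
    have e : y - ((-1 : ℤ) : ℝ) = y + 1 := by
      push_cast
      ring
    rw [e, if_neg (by linarith), hfar (1 / 2 - (y + 1)) ?_, hfar y ?_]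
    · rw [abs_of_neg (by linarith : 1 / 2 - (y + 1) < 0), abs_of_neg (by linarith : y < 0)]
      ring
    · rw [abs_of_neg (by linarith : y < 0)]
      linarith
    · rw [abs_of_neg (by linarith : 1 / 2 - (y + 1) < 0)]
      linarith
  · have hk : BCv_k y = 0 := BCv_k_eq (by push_cast; linarith) (by push_cast; linarith)
    rw [hk]
    have e : y - ((0 : ℤ) : ℝ) = y := by
      push_cast
      ring
    rw [e]
    rcases le_or_gt y (1 / 4) with h' | h'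
    · rw [if_pos h']
    · rw [if_neg (not_le.2 h'), hfar (1 / 2 - y) ?_, hfar y ?_]
      · rw [abs_of_pos (by linarith : 0 < 1 / 2 - y), abs_of_pos (by linarith : 0 < y)]
        ring
      · rw [abs_of_pos (by linarith : 0 < y)]
        linarith
      · rw [abs_of_pos (by linarith : 0 < 1 / 2 - y)]
        linarith

theorem BCv_B {ε δ : ℝ} (hε : 0 < ε) (hε' : ε ≤ 1 / 12) (hδ : 0 < δ) {y : ℝ}
    (hy : |y - 1 / 2| ≤ 1 / 2 - ε / 2) : BCv_r ε δ y = 1 - rh ε δ (1 / 2 - y) := by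
  have hfar := (rh_facts hε hδ).2.2.2.1
  have hy1 := abs_le.1 hy
  unfold BCv_r
  rcases lt_or_ge y (3 / 4) with h | h
  · have hk : BCv_k y = 0 := BCv_k_eq (by push_cast; linarith) (by push_cast; linarith)
    rw [hk]
    have e : y - ((0 : ℤ) : ℝ) = y := by
      push_cast
      ring
    rw [e]
    rcases le_or_gt y (1 / 4) with h' | h'
    · rw [if_pos h', hfar (1 / 2 - y) ?_, hfar y ?_]
      · rw [abs_of_pos (by linarith : 0 < 1 / 2 - y), abs_of_pos (by linarith : 0 < y)]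
        ring
      · rw [abs_of_pos (by linarith : 0 < y)]
        linarith
      · rw [abs_of_pos (by linarith : 0 < 1 / 2 - y)]
        linarith
    · rw [if_neg (not_le.2 h')]
  · have hk : BCv_k y = 1 := BCv_k_eq (by push_cast; linarith) (by push_cast; linarith)
    rw [hk]
    have e : y - ((1 : ℤ) : ℝ) = y - 1 := by
      push_cast
      ring
    rw [e, if_pos (by linarith), hfar (1 / 2 - y) ?_, hfar (y - 1) ?_]
    · rw [abs_of_neg (by linarith : 1 / 2 - y < 0), abs_of_neg (by linarith : y - 1 < 0)]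
      ring
    · rw [abs_of_neg (by linarith : y - 1 < 0)]
      linarith
    · rw [abs_of_neg (by linarith : 1 / 2 - y < 0)]
      linarith

theorem BCv_int {F : Type*} [NormedAddCommGroup F] [NormedSpace ℝ F] {f : ℝ → F} {c : F}
    (hp : ∀ l, f (l + 1) = f l + c) (m : ℤ) (l : ℝ) : f (l + m) = f l + m • c := by
  induction m using Int.induction_on with
  | zero => simp
  | succ i ih =>
    have e : l + ((i + 1 : ℤ) : ℝ) = (l + ((i : ℤ) : ℝ)) + 1 := by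
      push_cast
      ring
    rw [e, hp, ih, add_smul, one_smul, add_assoc]
  | pred i ih =>
    have h := hp (l + ((-(i : ℤ) - 1 : ℤ) : ℝ))
    have e : l + ((-(i : ℤ) - 1 : ℤ) : ℝ) + 1 = l + ((-(i : ℤ) : ℤ) : ℝ) := by
      push_cast
      ring
    rw [e, ih] at h
    rw [sub_smul, one_smul]
    have h2 : f (l + ((-(i : ℤ) - 1 : ℤ) : ℝ)) = f l + (-(i : ℤ)) • c - c := eq_sub_of_add_eq h.symm
    rw [h2, add_sub_assoc]

theorem BCv_glue {F : Type*} [NormedAddCommGroup F] [NormedSpace ℝ F] {f : ℝ → F} {c : F}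
    (hp : ∀ l, f (l + 1) = f l + c) (hs : ∀ l, -(1 / 4) ≤ l → l < 3 / 4 → ContDiffAt ℝ ∞ f l) :
    ContDiff ℝ ∞ f := by
  rw [contDiff_iff_contDiffAt]
  intro l
  set m := ⌊l + 1 / 4⌋ with hm
  have h1 : (m : ℝ) ≤ l + 1 / 4 := Int.floor_le _
  have h2 : l + 1 / 4 < m + 1 := Int.lt_floor_add_one _
  have h3 := hs (l - m) (by linarith) (by linarith)
  have e : f = fun y => f (y - m) + m • c := by
    funext y
    have := BCv_int hp m (y - m)
    rw [sub_add_cancel] at this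
    exact this
  rw [e]
  have h4 : ContDiffAt ℝ ∞ (fun y : ℝ => y - m) l := contDiffAt_id.sub contDiffAt_const
  exact (h3.comp l h4).add contDiffAt_const

/-- **the curve**; `σ₁, σ₂ = ±1` -/
theorem exists_curve {v n₀ n₁ o x₀ : ℤ × ℤ × ℤ} {σ₁ σ₂ : ℤ} {w : ℝ → ℝ × ℝ × ℝ} (hw : GPath v n₀ n₁ w)
    (h01 : (n₀.1 : ℝ) + 1 / 2 = x₀.1 + σ₁ / 2) (h02 : n₀.2.1 = x₀.2.1) (h03 : n₀.2.2 = x₀.2.2)
    (h11 : n₁.1 = x₀.1 + o.1) (h12 : (n₁.2.1 : ℝ) + 1 / 2 = x₀.2.1 + o.2.1 + σ₂ / 2) (h13 : n₁.2.2 = x₀.2.2 + o.2.2)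
    {ε δ : ℝ} (hε : 0 < ε) (hε' : ε ≤ 1 / 12) (hδ : 0 < δ) (hδε : δ < ε) (hd : ∀ l, 0 < l → 0 < deriv (rh ε δ) l)
    (hs : ∀ ρ ≤ 2 * ε, w ρ = (1 / 2 + (n₀.1 : ℝ), (n₀.2.1 : ℝ), (n₀.2.2 : ℝ)))
    (ht : ∀ ρ, 1 - 2 * ε ≤ ρ → w ρ = ((n₁.1 : ℝ), 1 / 2 + (n₁.2.1 : ℝ), (n₁.2.2 : ℝ))) :
    ∃ (ρ : ℝ → ℝ) (X : ℝ → ℝ × ℝ × ℝ), ContDiff ℝ ∞ ρ ∧ ContDiff ℝ ∞ X ∧ (∀ l, 0 < ρ l ∧ ρ l < 1) ∧
      (∀ l, ρ (l + 1) = ρ l) ∧ (∀ l, ρ (-l) = ρ l) ∧ StrictMonoOn ρ (Icc 0 (1 / 2)) ∧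
      (∀ l, 0 < l → l < 1 / 2 → deriv ρ l ≠ 0) ∧ (∀ l, X (l + 1) = X l + rv o) ∧
      (∀ l, |l| ≤ ε → ρ l = rh ε δ l ∧ X l = (σ₁ * th ε δ l, 0, 0)) ∧
      (∀ l, |l| ≤ ε → ρ (1 / 2 + l) = 1 - rh ε δ l ∧ X (1 / 2 + l) = rv o + (0, σ₂ * (1 / 2 - th ε δ l), 0)) ∧
      (∀ l, ε / 2 ≤ l → l ≤ 1 / 2 - ε / 2 → ρ l = 2 * l ∧ X l = w (2 * l) - rv x₀) ∧
      ∀ l, ε / 2 ≤ l → l ≤ 1 / 2 - ε / 2 → ρ (-l) = 2 * l ∧ X (-l) = 0 := by
  classical
  obtain ⟨hths, hthn, hth0, hth1, -, -⟩ := th_facts hε hδ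
  obtain ⟨hrhs, hrhn, hrhp, hrhf, hrhb, -⟩ := rh_facts hε hδ
  have hA := fun {y : ℝ} (hy : |y| ≤ 1 / 2 - ε / 2) => BCv_A (δ := δ) hε hε' hδ hy
  have hB := fun {y : ℝ} (hy : |y - 1 / 2| ≤ 1 / 2 - ε / 2) => BCv_B (δ := δ) hε hε' hδ hy
  have hper := BCv_r_per ε δ
  -- integers to reals
  have h02' : (n₀.2.1 : ℝ) = x₀.2.1 := by exact_mod_cast h02
  have h03' : (n₀.2.2 : ℝ) = x₀.2.2 := by exact_mod_cast h03
  have h11' : (n₁.1 : ℝ) = x₀.1 + o.1 := by exact_mod_cast h11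
  have h13' : (n₁.2.2 : ℝ) = x₀.2.2 + o.2.2 := by exact_mod_cast h13
  -- local forms
  have hAev : ∀ {l : ℝ}, |l| < 1 / 2 - ε / 2 → BCv_r ε δ =ᶠ[𝓝 l] rh ε δ := by
    intro l hl
    have : ∀ᶠ y in 𝓝 l, |y| < 1 / 2 - ε / 2 := continuous_abs.continuousAt.eventually_lt continuousAt_const hl
    filter_upwards [this] with y hy using hA hy.le
  have hBev : ∀ {l : ℝ}, |l - 1 / 2| < 1 / 2 - ε / 2 →
      BCv_r ε δ =ᶠ[𝓝 l] fun y => 1 - rh ε δ (1 / 2 - y) := by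
    intro l hl
    have hc : Continuous fun y : ℝ => |y - 1 / 2| := (continuous_id.sub continuous_const).abs
    have : ∀ᶠ y in 𝓝 l, |y - 1 / 2| < 1 / 2 - ε / 2 := hc.continuousAt.eventually_lt continuousAt_const hl
    filter_upwards [this] with y hy using hB hy.le
  have hBs : ContDiff ℝ ∞ fun y => 1 - rh ε δ (1 / 2 - y) :=
    contDiff_const.sub (hrhs.comp (contDiff_const.sub contDiff_id))
  have hρs : ContDiff ℝ ∞ (BCv_r ε δ) := by
    refine BCv_glue (c := 0) (fun l => by rw [hper, add_zero]) ?_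
    intro l hl1 hl2
    rcases le_or_gt l (1 / 4) with h | h
    · refine hrhs.contDiffAt.congr_of_eventuallyEq (hAev ?_)
      rw [abs_lt]
      constructor <;> linarith
    · refine hBs.contDiffAt.congr_of_eventuallyEq (hBev ?_)
      rw [abs_lt]
      constructor <;> linarith
  -- the curve
  set Xb : ℝ → ℝ × ℝ × ℝ := fun l => (σ₁ * th ε δ l + ((w (2 * l)).1 - (1 / 2 + n₀.1)),
    -(σ₂ * th ε δ (l - 1 / 2)) + ((w (2 * l)).2.1 - n₀.2.1), (w (2 * l)).2.2 - n₀.2.2) with hXb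
  have hXbs : ContDiff ℝ ∞ Xb := by
    have h1 : ContDiff ℝ ∞ fun l : ℝ => w (2 * l) := hw.smooth.comp (contDiff_const.mul contDiff_id)
    have h2 : ContDiff ℝ ∞ fun l : ℝ => th ε δ (l - 1 / 2) := hths.comp (contDiff_id.sub contDiff_const)
    refine ContDiff.prodMk ?_ (ContDiff.prodMk ?_ ?_)
    · exact (contDiff_const.mul hths).add (h1.fst.sub contDiff_const)
    · exact (contDiff_const.mul h2).neg.add (h1.snd.fst.sub contDiff_const)
    · exact h1.snd.snd.sub contDiff_const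
  -- values of Xb
  have hXb_left : ∀ l, l ≤ ε → Xb l = (σ₁ * th ε δ l, 0, 0) := by
    intro l hl
    have h1 := hs (2 * l) (by linarith)
    have h2 : th ε δ (l - 1 / 2) = 0 := hth0 _ (by linarith)
    simp only [hXb, h1, h2]
    refine Prod.ext ?_ (Prod.ext ?_ ?_) <;> simp
  have hXb_right : ∀ l, 1 / 2 - ε ≤ l → Xb l = rv o + (0, σ₂ * (1 / 2 - th ε δ (l - 1 / 2)), 0) := by
    intro l hl
    have h1 := ht (2 * l) (by linarith)
    have h2 : th ε δ l = 1 / 2 := hth1 _ (by linarith)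
    simp only [hXb, h1, h2, rv]
    refine Prod.ext ?_ (Prod.ext ?_ ?_)
    · simp only [Prod.mk_add_mk]
      linarith
    · simp only [Prod.mk_add_mk]
      linarith
    · simp only [Prod.mk_add_mk]
      linarith
  have hXb_mid : ∀ l, ε / 2 ≤ l → l ≤ 1 / 2 - ε / 2 → Xb l = w (2 * l) - rv x₀ := by
    intro l hl1 hl2
    have h2 : th ε δ l = 1 / 2 := hth1 _ (by linarith)
    have h3 : th ε δ (l - 1 / 2) = 0 := hth0 _ (by linarith)
    simp only [hXb, h2, h3, rv]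
    refine Prod.ext ?_ (Prod.ext ?_ ?_)
    · simp only [Prod.fst_sub]
      linarith
    · simp only [Prod.fst_sub, Prod.snd_sub]
      linarith
    · simp only [Prod.snd_sub]
      linarith
  have hXb_l0 : ∀ l, l ≤ -(ε / 2) → Xb l = 0 := by
    intro l hl
    rw [hXb_left l (by linarith), hth0 l hl]
    simp
  have hXb_r0 : ∀ l, 1 / 2 + ε / 2 ≤ l → Xb l = rv o := by
    intro l hl
    rw [hXb_right l (by linarith), hth1 (l - 1 / 2) (by linarith)]
    simp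
  set X : ℝ → ℝ × ℝ × ℝ := fun l => Xb (l - BCv_k l) + BCv_k l • rv o with hX
  have hXp : ∀ l, X (l + 1) = X l + rv o := by
    intro l
    have h : l + 1 - ((BCv_k l + 1 : ℤ) : ℝ) = l - BCv_k l := by
      push_cast
      ring
    simp only [hX]
    rw [BCv_k_add, h, add_smul, one_smul, add_assoc]
  have hC : ∀ y, -(1 / 2) + ε / 2 ≤ y → y ≤ 1 - ε / 2 → X y = Xb y := by
    intro y hy1 hy2
    simp only [hX]
    rcases lt_or_ge y (-(1 / 4)) with h | h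
    · have hk : BCv_k y = -1 := BCv_k_eq (by push_cast; linarith) (by push_cast; linarith)
      rw [hk, hXb_r0 _ (by push_cast; linarith), hXb_l0 y (by linarith)]
      simp
    · rcases lt_or_ge y (3 / 4) with h' | h'
      · have hk : BCv_k y = 0 := BCv_k_eq (by push_cast; linarith) (by push_cast; linarith)
        rw [hk]
        simp
      · have hk : BCv_k y = 1 := BCv_k_eq (by push_cast; linarith) (by push_cast; linarith)
        rw [hk, hXb_l0 _ (by push_cast; linarith), hXb_r0 y (by linarith)]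
        simp
  have hXs : ContDiff ℝ ∞ X := by
    refine BCv_glue hXp ?_
    intro l hl1 hl2
    refine hXbs.contDiffAt.congr_of_eventuallyEq ?_
    have : ∀ᶠ y in 𝓝 l, y ∈ Ioo (-(1 / 2) + ε / 2) (1 - ε / 2) := Ioo_mem_nhds (by linarith) (by linarith)
    filter_upwards [this] with y hy using hC y hy.1.le hy.2.le
  have hdpos : ∀ l, 0 < l → l < 1 / 2 → 0 < deriv (BCv_r ε δ) l := by
    intro l hl1 hl2
    rcases lt_or_ge l (1 / 4) with h | h
    · rw [(hAev (l := l) (by rw [abs_lt]; constructor <;> linarith)).deriv_eq]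
      exact hd l hl1
    · rw [(hBev (l := l) (by rw [abs_lt]; constructor <;> linarith)).deriv_eq]
      have h1 : HasDerivAt (rh ε δ) (deriv (rh ε δ) (1 / 2 - l)) (1 / 2 - l) :=
        ((hrhs.differentiable (by simp)) _).hasDerivAt
      have h2 : HasDerivAt (fun y : ℝ => 1 / 2 - y) (-1) l := (hasDerivAt_id l).const_sub (1 / 2)
      have h3 := (HasDerivAt.comp (h₂ := rh ε δ) (h := fun y : ℝ => 1 / 2 - y) l h1 h2).const_sub 1
      have h4 : deriv (fun y => 1 - rh ε δ (1 / 2 - y)) l = -(deriv (rh ε δ) (1 / 2 - l) * -1) := h3.deriv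
      rw [h4]
      have := hd (1 / 2 - l) (by linarith)
      linarith
  have hint : ∀ (m : ℤ) (l : ℝ), BCv_r ε δ (l + m) = BCv_r ε δ l := by
    intro m l
    have := BCv_int (f := BCv_r ε δ) (c := 0) (fun l => by rw [hper, add_zero]) m l
    simpa using this
  have hred : ∀ l : ℝ, ∃ m : ℤ, -(1 / 4) ≤ l - m ∧ l - m < 3 / 4 := by
    intro l
    refine ⟨⌊l + 1 / 4⌋, ?_, ?_⟩
    · have := Int.floor_le (l + 1 / 4)
      linarith
    · have := Int.lt_floor_add_one (l + 1 / 4)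
      linarith
  have hsmall : ∀ y, |y| ≤ 1 / 4 → rh ε δ y < 1 := by
    intro y hy
    rcases le_or_gt (ε / 2) |y| with h | h
    · rw [hrhf y h]
      linarith
    · have := hrhb hδε y (by linarith)
      linarith
  refine ⟨BCv_r ε δ, X, hρs, hXs, ?_, hper, ?_, ?_, ?_, hXp, ?_, ?_, ?_, ?_⟩
  · intro l
    obtain ⟨m, hm1, hm2⟩ := hred l
    have e : BCv_r ε δ l = BCv_r ε δ (l - m) := by
      have := hint m (l - m)
      rw [sub_add_cancel] at this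
      exact this
    rw [e]
    rcases le_or_gt (l - m) (1 / 4) with h | h
    · have h1 : |l - m| ≤ 1 / 4 := abs_le.2 ⟨by linarith, h⟩
      rw [hA (by linarith)]
      exact ⟨hrhp _, hsmall _ h1⟩
    · have h1 : |1 / 2 - (l - m)| ≤ 1 / 4 := abs_le.2 ⟨by linarith, by linarith⟩
      rw [hB (by rw [abs_sub_comm]; linarith)]
      have h2 := hrhp (1 / 2 - (l - m))
      have h3 := hsmall _ h1
      constructor <;> linarith
  · intro l
    obtain ⟨m, hm1, hm2⟩ := hred l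
    have e : BCv_r ε δ l = BCv_r ε δ (l - m) := by
      have := hint m (l - m)
      rw [sub_add_cancel] at this
      exact this
    have e' : BCv_r ε δ (-l) = BCv_r ε δ (-(l - m)) := by
      have := hint (-m) (-(l - m))
      rw [← this]
      congr 1
      push_cast
      ring
    rw [e, e']
    rcases le_or_gt (l - m) (1 / 4) with h | h
    · have h1 : |l - m| ≤ 1 / 4 := abs_le.2 ⟨by linarith, h⟩
      rw [hA (y := -(l - m)) (by rw [abs_neg]; linarith), hA (y := l - m) (by linarith), hrhn]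
    · have h1 : |(l - m) - 1 / 2| ≤ 1 / 4 := abs_le.2 ⟨by linarith, by linarith⟩
      have e2 : BCv_r ε δ (-(l - m)) = BCv_r ε δ (1 - (l - m)) := by
        rw [← hper (-(l - m))]
        congr 1
        ring
      rw [e2, hB (y := l - m) (by linarith), hB (y := 1 - (l - m)) ?_]
      · have : 1 / 2 - (1 - (l - m)) = -(1 / 2 - (l - (m : ℝ))) := by ring
        rw [this, hrhn]
      · have : 1 - (l - (m : ℝ)) - 1 / 2 = -((l - m) - 1 / 2) := by ring
        rw [this, abs_neg]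
        linarith
  · refine strictMonoOn_of_deriv_pos (convex_Icc _ _) hρs.continuous.continuousOn ?_
    intro l hl
    rw [interior_Icc] at hl
    exact hdpos l hl.1 hl.2
  · intro l h1 h2
    exact (hdpos l h1 h2).ne'
  · intro l hl
    have h1 := abs_le.1 hl
    exact ⟨hA (by linarith), by rw [hC l (by linarith) (by linarith), hXb_left l h1.2]⟩
  · intro l hl
    have h1 := abs_le.1 hl
    refine ⟨?_, ?_⟩
    · rw [hB (by rw [add_sub_cancel_left]; linarith)]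
      have : 1 / 2 - (1 / 2 + l) = -l := by ring
      rw [this, hrhn]
    · rw [hC (1 / 2 + l) (by linarith) (by linarith), hXb_right (1 / 2 + l) (by linarith),
        add_sub_cancel_left]
  · intro l h1 h2
    refine ⟨?_, ?_⟩
    · rw [hA (by rw [abs_of_pos (by linarith)]; exact h2), hrhf l (by rw [abs_of_pos (by linarith)]; exact h1),
        abs_of_pos (by linarith)]
    · rw [hC l (by linarith) (by linarith), hXb_mid l h1 h2]
  · intro l h1 h2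
    have h0 : 0 < l := by linarith
    refine ⟨?_, ?_⟩
    · rw [hA (by rw [abs_neg, abs_of_pos h0]; exact h2), hrhn, hrhf l (by rw [abs_of_pos h0]; exact h1),
        abs_of_pos h0]
    · rw [hC (-l) (by linarith) (by linarith), hXb_l0 (-l) (by linarith)]

end Pool.Agent.BAS
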