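import Pool.Agent.BAS.BPw

/-!
# BAS/BKn: a good thick torus knot   (difficulty 4)

`p p' + q q' = 1`.  Slice map: for `(φ, s)` near `(0, 0)` let
`Y (λ, φ, s) = pS3 ((1 + s) ex (p λ - q' φ)) ((1 - s) ex (q λ + p' φ))` (norm `√(2 (1 + s²))`), and
`h (φ, s) = pw ((1 + s) / √(1 + s²) · ex (-q' φ)) q - pw ((1 - s) / √(1 + s²) · ex (p' φ)) p : ℂ`.  Then
`tf p q (Y (λ, φ, s)) = ex (p q λ) h (φ, s)` (`pw_mul`, `pw_ex`).  `h` is smooth, `h 0 = 0`, and at `(0, 0)`: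
`∂φ h = -2πi (q q' + p p') = -2πi`, `∂s h = |q| + |p| > 0` (`pw (r : ℝ) k = r ^ |k|`), so `h` is a local
diffeomorphism at `0` (`CSG.ld_of_fderiv`; the derivative may be computed from the one-variable functions
`φ ↦ h (φ, 0) = ex (-q q' φ) - ex (p p' φ)` and `s ↦ h (0, s)`, real valued).  Let `Φ` be the partial diffeomorphism,
with inverse `g` on an open set `⊇ closedBall 0 δ`, values in the source, which may be restricted to
`|φ| < 1/4, |s| < 1/4`.  Put `κ (λ, v) = Y (λ, g (δ v))` (if `‖v‖ < 1`; for other `v` put `κ (λ, v) = Y (λ, 0)`).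
* `val`: above.  * `core`: `g 0 = 0`.  * `rot`: `Y (λ + θ, ..)`, `pS3_c` and `pS3_self`-type computation.
* `thick.per`: `ex` of integers.
* `thick.inj`: equality of points gives `|z1|/|z2| = (1+s)/(1-s)`, so `s = s'`, and `ex (p λ - q' φ) =
  ex (p λ' - q' φ')`, `ex (q λ + p' φ) = ex (q λ' + p' φ')`; with `RSG.ex_eq_iff` and the combinations
  `p' (..) + q' (..) = λ`, `-q (..) + p (..) = φ`: `λ' = λ + m`, `φ' = φ + m'`, `|φ' - φ| < 1`, so `φ = φ'`;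
  apply `Φ`: `v = v'`.
* `thick.loc`: `κ` near `(λ₀, v₀)` is the composition of `(λ, v) ↦ (λ, g (δ v))` (local diffeo) and of `Y`; `Y` is a local
  diffeo: smooth (`RSG.pS3_smooth`), with smooth local inverse `y ↦ (λ, φ, s)` given by the logarithms of
  `z1 y / z1 (Y₀)`, `z2 y / z2 (Y₀)` (as `RSG.StdM_g` in RSG/StdM.lean: copy) and `s` from `|z1| / |z2| = (1+s)/(1-s)`:
  `RSG.ld_two`.
-/

open scoped Manifold ContDiff Topology
open Set Filter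
open Complex (I)

namespace Pool.Agent.BAS

open Pool.Agent.RSG (E4 S3 S4 pS3 pS4 ex c1 c2 ht fh Thick)
open Pool.Agent.PTH (SP ISP z1 z2 gE gact)

theorem BKn_sqrt_ne (s : ℝ) : Real.sqrt (1 + s ^ 2) ≠ 0 := (Real.sqrt_pos.2 (by positivity)).ne'

theorem BKn_dsqrt : HasDerivAt (fun s : ℝ => Real.sqrt (1 + s ^ 2)) 0 0 := by
  have h1 : HasDerivAt (fun s : ℝ => 1 + s ^ 2) (0 : ℝ) 0 := by
    have h2 := ((hasDerivAt_id (0 : ℝ)).pow 2).const_add 1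
    simpa using h2
  have h2 := h1.sqrt (by norm_num)
  simpa using h2

theorem BKn_A (n : ℕ) : HasDerivAt (fun s : ℝ => ((1 + s) / Real.sqrt (1 + s ^ 2)) ^ n) n 0 := by
  have h1 : HasDerivAt (fun s : ℝ => 1 + s) 1 0 := (hasDerivAt_id (0 : ℝ)).const_add 1
  have h2 := (h1.div BKn_dsqrt (BKn_sqrt_ne 0)).pow n
  have h3 : HasDerivAt (fun s : ℝ => ((1 + s) / Real.sqrt (1 + s ^ 2)) ^ n) _ 0 := h2
  refine h3.congr_deriv ?_
  simp

theorem BKn_B (n : ℕ) : HasDerivAt (fun s : ℝ => ((1 - s) / Real.sqrt (1 + s ^ 2)) ^ n) (-n) 0 := by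
  have h1 : HasDerivAt (fun s : ℝ => 1 - s) (-1) 0 := (hasDerivAt_id (0 : ℝ)).const_sub 1
  have h2 := (h1.div BKn_dsqrt (BKn_sqrt_ne 0)).pow n
  have h3 : HasDerivAt (fun s : ℝ => ((1 - s) / Real.sqrt (1 + s ^ 2)) ^ n) _ 0 := h2
  refine h3.congr_deriv ?_
  simp

theorem BKn_ex (c : ℝ) : HasDerivAt (fun t : ℝ => ex (c * t)) ((2 * Real.pi * c : ℝ) * I) 0 := by
  have h1 : HasDerivAt (fun t : ℝ => 2 * Real.pi * (c * t)) (2 * Real.pi * c) 0 := by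
    have h2 := ((hasDerivAt_id (0 : ℝ)).const_mul c).const_mul (2 * Real.pi)
    simpa using h2
  have h2 : HasDerivAt (fun t : ℝ => ((2 * Real.pi * (c * t) : ℝ) : ℂ) * I)
      (((2 * Real.pi * c : ℝ) : ℂ) * I) 0 := h1.ofReal_comp.mul_const I
  have h3 := h2.cexp
  have h4 : Complex.exp (((2 * Real.pi * (c * 0) : ℝ) : ℂ) * I) = 1 := by simp
  rw [h4, one_mul] at h3
  exact h3

/-- the slice map -/
noncomputable def BKn_h (p q a b : ℤ) (u : ℝ × ℝ) : ℂ :=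
  ((((1 + u.2) / Real.sqrt (1 + u.2 ^ 2)) ^ q.natAbs : ℝ) : ℂ) * ex (-(q * b) * u.1) -
    ((((1 - u.2) / Real.sqrt (1 + u.2 ^ 2)) ^ p.natAbs : ℝ) : ℂ) * ex ((p * a) * u.1)

theorem BKn_h0 (p q a b : ℤ) : BKn_h p q a b 0 = 0 := by
  unfold BKn_h
  simp [Pool.Agent.RSG.ex_zero]

theorem BKn_hs (p q a b : ℤ) : ContDiff ℝ ∞ (BKn_h p q a b) := by
  have e0 : ContDiff ℝ ∞ fun u : ℝ × ℝ => Real.sqrt (1 + u.2 ^ 2) :=
    (contDiff_const.add (contDiff_snd.pow 2)).sqrt (fun u => by positivity)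
  have e1 : ContDiff ℝ ∞ fun u : ℝ × ℝ =>
      ((((1 + u.2) / Real.sqrt (1 + u.2 ^ 2)) ^ q.natAbs : ℝ) : ℂ) :=
    Complex.ofRealCLM.contDiff.comp
      (((contDiff_const.add contDiff_snd).div e0 (fun u => BKn_sqrt_ne u.2)).pow _)
  have e2 : ContDiff ℝ ∞ fun u : ℝ × ℝ =>
      ((((1 - u.2) / Real.sqrt (1 + u.2 ^ 2)) ^ p.natAbs : ℝ) : ℂ) :=
    Complex.ofRealCLM.contDiff.comp
      (((contDiff_const.sub contDiff_snd).div e0 (fun u => BKn_sqrt_ne u.2)).pow _)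
  have e3 : ContDiff ℝ ∞ fun u : ℝ × ℝ => ex (-(q * b) * u.1) :=
    Pool.Agent.RSG.ex_smooth.comp (contDiff_const.mul contDiff_fst)
  have e4 : ContDiff ℝ ∞ fun u : ℝ × ℝ => ex ((p * a) * u.1) :=
    Pool.Agent.RSG.ex_smooth.comp (contDiff_const.mul contDiff_fst)
  exact (e1.mul e3).sub (e2.mul e4)

theorem BKn_lin {c : ℝ → ℝ} {d : ℝ} (h : HasDerivAt c d 0) (y : ℝ) :
    HasDerivAt (fun t : ℝ => c (t * y)) (d * y) 0 := by
  have h1 : HasDerivAt (fun t : ℝ => t * y) y 0 := by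
    simpa using (hasDerivAt_id (0 : ℝ)).mul_const y
  have h2 : HasDerivAt c d (0 * y) := by rw [zero_mul]; exact h
  exact HasDerivAt.comp (h := fun t : ℝ => t * y) 0 h2 h1

theorem BKn_ker {p q a b : ℤ} (hab : p * a + q * b = 1) (hp : p ≠ 0) (v : ℝ × ℝ)
    (hv : fderiv ℝ (BKn_h p q a b) 0 v = 0) : v = 0 := by
  obtain ⟨x, y⟩ := v
  have h1 : HasFDerivAt (BKn_h p q a b) (fderiv ℝ (BKn_h p q a b) 0) ((0 : ℝ) • ((x, y) : ℝ × ℝ)) := by
    rw [zero_smul]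
    exact ((BKn_hs p q a b).differentiable (by simp) 0).hasFDerivAt
  have h2 : HasDerivAt (fun t : ℝ => t • ((x, y) : ℝ × ℝ)) (x, y) 0 := by
    simpa using (hasDerivAt_id (0 : ℝ)).smul_const ((x, y) : ℝ × ℝ)
  have h3 := HasFDerivAt.comp_hasDerivAt (f := fun t : ℝ => t • ((x, y) : ℝ × ℝ)) 0 h1 h2
  rw [hv] at h3
  -- direct computation
  have a1 := (BKn_lin (BKn_A q.natAbs) y).ofReal_comp
  have a2 := (BKn_lin (BKn_B p.natAbs) y).ofReal_comp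
  have a3 : HasDerivAt (fun t : ℝ => ex (-(q * b) * (t * x)))
      ((2 * Real.pi * (-(q * b) * x) : ℝ) * I) 0 := by
    have := BKn_ex (-(q * b) * x)
    refine this.congr_of_eventuallyEq (Eventually.of_forall fun t => ?_)
    show ex (-(q * b) * (t * x)) = ex (-(q * b) * x * t)
    congr 1
    ring
  have a4 : HasDerivAt (fun t : ℝ => ex ((p * a) * (t * x)))
      ((2 * Real.pi * ((p * a) * x) : ℝ) * I) 0 := by
    have := BKn_ex ((p * a) * x)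
    refine this.congr_of_eventuallyEq (Eventually.of_forall fun t => ?_)
    show ex ((p * a) * (t * x)) = ex ((p * a) * x * t)
    congr 1
    ring
  have a5 := (a1.mul a3).sub (a2.mul a4)
  have h4 := h3.unique (a5.congr_of_eventuallyEq (Eventually.of_forall fun t => by
    simp [BKn_h]))
  simp only [zero_mul, add_zero, sub_zero, mul_zero, Pool.Agent.RSG.ex_zero, one_pow,
    Real.sqrt_one, div_one, ne_eq, OfNat.ofNat_ne_zero, not_false_eq_true, zero_pow,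
    Complex.ofReal_one, mul_one, one_mul] at h4
  have hre := congrArg Complex.re h4
  have him := congrArg Complex.im h4
  simp at hre him
  have hab' : (p : ℝ) * a + q * b = 1 := by exact_mod_cast hab
  have hx : 2 * Real.pi * x = 0 := by
    linear_combination (-(2 * Real.pi * x)) * hab' + him
  have hx' : x = 0 := by
    rcases mul_eq_zero.1 hx with h | h
    · exact absurd h (by positivity)
    · exact h
  have hp0 : 0 < (p.natAbs : ℝ) := by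
    exact_mod_cast Int.natAbs_pos.2 hp
  have hq0 : 0 ≤ (q.natAbs : ℝ) := by positivity
  have hy : y = 0 := by
    have h5 : ((q.natAbs : ℝ) + p.natAbs) * y = 0 := by
      simp only [Nat.cast_natAbs, Int.cast_abs]
      linarith
    rcases mul_eq_zero.1 h5 with h | h
    · exact absurd h (by positivity)
    · exact h
  rw [hx', hy]
  rfl

theorem BKn_g {p q a b : ℤ} (hab : p * a + q * b = 1) (hp : p ≠ 0) :
    ∃ (g : ℂ → ℝ × ℝ) (δ : ℝ) (S : Set (ℝ × ℝ)), 0 < δ ∧ IsOpen S ∧ g 0 = 0 ∧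
      (∀ w, ‖w‖ < δ → ContDiffAt ℝ ∞ g w ∧ BKn_h p q a b (g w) = w ∧ g w ∈ S ∧
        |(g w).1| < 1 / 4 ∧ |(g w).2| < 1 / 4) ∧ ∀ u ∈ S, g (BKn_h p q a b u) = u := by
  obtain ⟨Φ, hx, he⟩ := Pool.Agent.CSG.ld_of_fderiv (f := BKn_h p q a b) (x := 0)
    (Eventually.of_forall fun y => (BKn_hs p q a b).contDiffAt)
    (by rw [Module.finrank_prod, Module.finrank_self, Complex.finrank_real_complex])
    (BKn_ker hab hp)
  let g : ℂ → ℝ × ℝ := Φ.toPartialEquiv.symm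
  have hΦ : ∀ u ∈ Φ.source, Φ.toPartialEquiv u = BKn_h p q a b u := fun u hu => (he hu).symm
  have hg1 : ∀ u ∈ Φ.source, g (BKn_h p q a b u) = u := by
    intro u hu
    rw [← hΦ u hu]
    exact Φ.toPartialEquiv.left_inv hu
  have hg2 : ∀ w ∈ Φ.target, g w ∈ Φ.source := fun w hw => Φ.toPartialEquiv.map_target hw
  have hg3 : ∀ w ∈ Φ.target, BKn_h p q a b (g w) = w := by
    intro w hw
    rw [← hΦ _ (hg2 w hw)]
    exact Φ.toPartialEquiv.right_inv hw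
  have hg4 : ∀ w ∈ Φ.target, ContDiffAt ℝ ∞ g w := by
    intro w hw
    have h1 := (Φ.contMDiffOn_invFun w hw).contMDiffAt (Φ.open_target.mem_nhds hw)
    exact contMDiffAt_iff_contDiffAt.1 h1
  have hg0 : g 0 = 0 := by
    have := hg1 0 hx
    rwa [BKn_h0] at this
  have h0t : (0 : ℂ) ∈ Φ.target := by
    have := Φ.toPartialEquiv.map_source hx
    rw [hΦ 0 hx, BKn_h0] at this
    exact this
  have hc : ContinuousAt g 0 := (hg4 0 h0t).continuousAt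
  have e1 : ∀ᶠ w in 𝓝 (0 : ℂ), |(g w).1| < 1 / 4 := by
    have h1 : ContinuousAt (fun w => |(g w).1|) 0 := hc.fst.abs
    refine h1.eventually_lt continuousAt_const ?_
    rw [hg0]
    norm_num
  have e2 : ∀ᶠ w in 𝓝 (0 : ℂ), |(g w).2| < 1 / 4 := by
    have h1 : ContinuousAt (fun w => |(g w).2|) 0 := hc.snd.abs
    refine h1.eventually_lt continuousAt_const ?_
    rw [hg0]
    norm_num
  have e3 : ∀ᶠ w in 𝓝 (0 : ℂ), w ∈ Φ.target := Φ.open_target.mem_nhds h0t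
  obtain ⟨δ, hδ, hE⟩ := Metric.eventually_nhds_iff.1 (e3.and (e1.and e2))
  refine ⟨g, δ, Φ.source, hδ, Φ.open_source, hg0, ?_, hg1⟩
  intro w hw
  obtain ⟨h1, h2, h3⟩ := hE (y := w) (by rw [dist_zero_right]; exact hw)
  exact ⟨hg4 w h1, hg3 w h1, hg2 w h1, h2, h3⟩

/-! ## the map `Y` -/

noncomputable def BKn_Y (p q a b : ℤ) (x : ℝ × ℝ × ℝ) : S3 :=
  pS3 (((1 + x.2.2 : ℝ) : ℂ) * ex (p * x.1 - b * x.2.1))
    (((1 - x.2.2 : ℝ) : ℂ) * ex (q * x.1 + a * x.2.1))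

noncomputable def BKn_r (s : ℝ) : ℝ := (Real.sqrt (2 * (1 + s ^ 2)))⁻¹

theorem BKn_r_pos (s : ℝ) : 0 < BKn_r s := inv_pos.2 (Real.sqrt_pos.2 (by positivity))

theorem BKn_r_sq (s : ℝ) : BKn_r s ^ 2 * (2 * (1 + s ^ 2)) = 1 := by
  unfold BKn_r
  rw [inv_pow, Real.sq_sqrt (by positivity), inv_mul_cancel₀ (by positivity)]

theorem BKn_pos (s x y : ℝ) : 0 < ‖((1 + s : ℝ) : ℂ) * ex x‖ ^ 2 + ‖((1 - s : ℝ) : ℂ) * ex y‖ ^ 2 := by
  rw [norm_mul, norm_mul, Pool.Agent.RSG.ex_norm, Pool.Agent.RSG.ex_norm, Complex.norm_real,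
    Complex.norm_real, mul_one, mul_one, Real.norm_eq_abs, Real.norm_eq_abs, sq_abs, sq_abs]
  nlinarith [sq_nonneg s]

theorem BKn_z (p q a b : ℤ) (x : ℝ × ℝ × ℝ) :
    z1 (BKn_Y p q a b x) = ((BKn_r x.2.2 * (1 + x.2.2) : ℝ) : ℂ) * ex (p * x.1 - b * x.2.1) ∧
    z2 (BKn_Y p q a b x) = ((BKn_r x.2.2 * (1 - x.2.2) : ℝ) : ℂ) * ex (q * x.1 + a * x.2.1) := by
  have h1 : BKn_Y p q a b x =
      pS3 (((BKn_r x.2.2 * (1 + x.2.2) : ℝ) : ℂ) * ex (p * x.1 - b * x.2.1))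
        (((BKn_r x.2.2 * (1 - x.2.2) : ℝ) : ℂ) * ex (q * x.1 + a * x.2.1)) := by
    unfold BKn_Y
    rw [Complex.ofReal_mul, Complex.ofReal_mul, mul_assoc, mul_assoc, pS3_scale (BKn_r_pos _)]
  rw [h1]
  refine Pool.Agent.RSG.pS3_c ?_
  rw [norm_mul, norm_mul, Pool.Agent.RSG.ex_norm, Pool.Agent.RSG.ex_norm, Complex.norm_real,
    Complex.norm_real, mul_one, mul_one, Real.norm_eq_abs, Real.norm_eq_abs, sq_abs, sq_abs]
  have := BKn_r_sq x.2.2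
  linear_combination this

theorem BKn_Ys (p q a b : ℤ) : ContMDiff 𝓘(ℝ, ℝ × ℝ × ℝ) (𝓡 3) ∞ (BKn_Y p q a b) := by
  intro x
  have h1 : ContDiffAt ℝ ∞ (fun x : ℝ × ℝ × ℝ =>
      ((1 + x.2.2 : ℝ) : ℂ) * ex (p * x.1 - b * x.2.1)) x := by
    refine ContDiffAt.mul ?_ ?_
    · exact (Complex.ofRealCLM.contDiff.comp
        (contDiff_const.add (contDiff_snd.comp contDiff_snd))).contDiffAt
    · exact (Pool.Agent.RSG.ex_smooth.comp ((contDiff_const.mul contDiff_fst).sub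
        (contDiff_const.mul (contDiff_fst.comp contDiff_snd)))).contDiffAt
  have h2 : ContDiffAt ℝ ∞ (fun x : ℝ × ℝ × ℝ =>
      ((1 - x.2.2 : ℝ) : ℂ) * ex (q * x.1 + a * x.2.1)) x := by
    refine ContDiffAt.mul ?_ ?_
    · exact (Complex.ofRealCLM.contDiff.comp
        (contDiff_const.sub (contDiff_snd.comp contDiff_snd))).contDiffAt
    · exact (Pool.Agent.RSG.ex_smooth.comp ((contDiff_const.mul contDiff_fst).add
        (contDiff_const.mul (contDiff_fst.comp contDiff_snd)))).contDiffAt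
  exact Pool.Agent.RSG.pS3_smooth h1.contMDiffAt h2.contMDiffAt (BKn_pos _ _ _)

theorem BKn_per (p q a b : ℤ) (l φ s : ℝ) (m : ℤ) :
    BKn_Y p q a b (l + m, φ, s) = BKn_Y p q a b (l, φ, s) := by
  have h1 : ex (p * (l + m) - b * φ) = ex (p * l - b * φ) := by
    have := Pool.Agent.RSG.ex_add_int (p * l - b * φ) (p * m)
    rw [← this]
    congr 1
    push_cast
    ring
  have h2 : ex (q * (l + m) + a * φ) = ex (q * l + a * φ) := by
    have := Pool.Agent.RSG.ex_add_int (q * l + a * φ) (q * m)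
    rw [← this]
    congr 1
    push_cast
    ring
  unfold BKn_Y
  simp only [h1, h2]

theorem BKn_rot (p q a b : ℤ) (l θ φ s : ℝ) :
    BKn_Y p q a b (l + θ, φ, s) =
      pS3 (ex (p * θ) * z1 (BKn_Y p q a b (l, φ, s))) (ex (q * θ) * z2 (BKn_Y p q a b (l, φ, s))) := by
  obtain ⟨e1, e2⟩ := BKn_z p q a b (l, φ, s)
  rw [e1, e2]
  simp only
  have h1 : ex (p * θ) * (((BKn_r s * (1 + s) : ℝ) : ℂ) * ex (p * l - b * φ)) =
      (BKn_r s : ℂ) * (((1 + s : ℝ) : ℂ) * ex (p * (l + θ) - b * φ)) := by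
    have : p * (l + θ) - b * φ = p * θ + (p * l - b * φ) := by ring
    rw [this, Pool.Agent.RSG.ex_add, Complex.ofReal_mul]
    ring
  have h2 : ex (q * θ) * (((BKn_r s * (1 - s) : ℝ) : ℂ) * ex (q * l + a * φ)) =
      (BKn_r s : ℂ) * (((1 - s : ℝ) : ℂ) * ex (q * (l + θ) + a * φ)) := by
    have : q * (l + θ) + a * φ = q * θ + (q * l + a * φ) := by ring
    rw [this, Pool.Agent.RSG.ex_add (q * θ) (q * l + a * φ), Complex.ofReal_mul]
    ring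
  rw [h1, h2, pS3_scale (BKn_r_pos _)]
  rfl

theorem BKn_val (p q a b : ℤ) (l φ s : ℝ) :
    tf p q (BKn_Y p q a b (l, φ, s)) = ex (p * q * l) * BKn_h p q a b (φ, s) := by
  obtain ⟨e1, e2⟩ := BKn_z p q a b (l, φ, s)
  unfold tf BKn_h
  rw [e1, e2]
  simp only
  have hr : Real.sqrt 2 * BKn_r s = (Real.sqrt (1 + s ^ 2))⁻¹ := by
    unfold BKn_r
    rw [Real.sqrt_mul (by norm_num), mul_inv, ← mul_assoc,
      mul_inv_cancel₀ (Real.sqrt_pos.2 (by norm_num : (0 : ℝ) < 2)).ne', one_mul]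
  have h1 : ∀ (c x : ℝ), ((Real.sqrt 2 : ℝ) : ℂ) * (((BKn_r s * c : ℝ) : ℂ) * ex x) =
      ((c / Real.sqrt (1 + s ^ 2) : ℝ) : ℂ) * ex x := by
    intro c x
    rw [← mul_assoc, ← Complex.ofReal_mul, ← mul_assoc, hr, div_eq_inv_mul]
  rw [h1, h1, pw_mul, pw_mul, pw_real, pw_real, pw_ex, pw_ex]
  have h2 : (q : ℝ) * (p * l - b * φ) = p * q * l + -(q * b) * φ := by ring
  have h3 : (p : ℝ) * (q * l + a * φ) = p * q * l + (p * a) * φ := by ring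
  rw [h2, h3, Pool.Agent.RSG.ex_add, Pool.Agent.RSG.ex_add]
  ring

/-! ## the local inverse of `Y` -/

/-- the angle near `θ` -/
noncomputable def BKn_arg (θ : ℝ) (w : ℂ) : ℝ :=
  θ + (Complex.log (w / ex θ)).im / (2 * Real.pi)

theorem BKn_arg_smooth {θ : ℝ} {w : ℂ} (h : w / ex θ ∈ Complex.slitPlane) :
    ContDiffAt ℝ ∞ (BKn_arg θ) w := by
  have e1 : ContDiffAt ℝ ∞ Complex.log (w / ex θ) :=
    (Complex.contDiffAt_log h).restrict_scalars ℝ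
  have e2 : ContDiffAt ℝ ∞ (fun w : ℂ => Complex.log (w / ex θ)) w :=
    ContDiffAt.comp (g := Complex.log) (f := fun w : ℂ => w / ex θ) w e1
      (contDiffAt_id.div_const _)
  exact contDiffAt_const.add ((Complex.imCLM.contDiff.contDiffAt.comp _ e2).div_const _)

theorem BKn_arg_ex {θ x r : ℝ} (hr : 0 < r) (h : |x - θ| < 1 / 2) :
    BKn_arg θ ((r : ℂ) * ex x) = x := by
  obtain ⟨h1, h2⟩ := abs_lt.1 h
  have hpi := Real.pi_pos
  have h3 : (r : ℂ) * ex x / ex θ = (r : ℂ) * ex (x - θ) := by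
    rw [div_eq_iff (Pool.Agent.RSG.ex_ne θ), mul_assoc, ← Pool.Agent.RSG.ex_add, sub_add_cancel]
  unfold BKn_arg
  rw [h3, Pool.Agent.RSG.ex_log hr (by linarith) h2]
  field_simp
  ring

theorem BKn_ex_arg (θ : ℝ) (w : ℂ) : (‖w‖ : ℂ) * ex (BKn_arg θ w) = w := by
  unfold BKn_arg
  have h5 := @Pool.Agent.RSG.ex_arg (w / ex θ)
  rw [norm_div, Pool.Agent.RSG.ex_norm, div_one] at h5
  rw [Pool.Agent.RSG.ex_add, Complex.log_im]
  calc ((‖w‖ : ℝ) : ℂ) * (ex θ * ex (Complex.arg (w / ex θ) / (2 * Real.pi)))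
      = ex θ * (((‖w‖ : ℝ) : ℂ) * ex (Complex.arg (w / ex θ) / (2 * Real.pi))) := by ring
    _ = ex θ * (w / ex θ) := by rw [h5]
    _ = w := mul_div_cancel₀ _ (Pool.Agent.RSG.ex_ne θ)

/-- the local inverse in the coordinates -/
noncomputable def BKn_D (p q a b : ℤ) (θ₁ θ₂ : ℝ) (w : ℂ × ℂ) : ℝ × ℝ × ℝ :=
  (a * BKn_arg θ₁ w.1 + b * BKn_arg θ₂ w.2, -q * BKn_arg θ₁ w.1 + p * BKn_arg θ₂ w.2,
    (‖w.1‖ - ‖w.2‖) / (‖w.1‖ + ‖w.2‖))

theorem BKn_D_smooth (p q a b : ℤ) {θ₁ θ₂ : ℝ} {w : ℂ × ℂ} (h1 : w.1 / ex θ₁ ∈ Complex.slitPlane)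
    (h2 : w.2 / ex θ₂ ∈ Complex.slitPlane) : ContDiffAt ℝ ∞ (BKn_D p q a b θ₁ θ₂) w := by
  have n1 : w.1 ≠ 0 := by
    intro h
    rw [h, zero_div] at h1
    exact Complex.slitPlane_ne_zero h1 rfl
  have n2 : w.2 ≠ 0 := by
    intro h
    rw [h, zero_div] at h2
    exact Complex.slitPlane_ne_zero h2 rfl
  have a1 : ContDiffAt ℝ ∞ (fun w : ℂ × ℂ => BKn_arg θ₁ w.1) w :=
    (BKn_arg_smooth h1).comp w contDiffAt_fst
  have a2 : ContDiffAt ℝ ∞ (fun w : ℂ × ℂ => BKn_arg θ₂ w.2) w :=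
    (BKn_arg_smooth h2).comp w contDiffAt_snd
  have a3 : ContDiffAt ℝ ∞ (fun w : ℂ × ℂ => ‖w.1‖) w := contDiffAt_fst.norm ℝ n1
  have a4 : ContDiffAt ℝ ∞ (fun w : ℂ × ℂ => ‖w.2‖) w := contDiffAt_snd.norm ℝ n2
  have hpos : ‖w.1‖ + ‖w.2‖ ≠ 0 := by
    have := norm_pos_iff.2 n1
    positivity
  exact ((contDiffAt_const.mul a1).add (contDiffAt_const.mul a2)).prodMk
    (((contDiffAt_const.mul a1).add (contDiffAt_const.mul a2)).prodMk
      ((a3.sub a4).div (a3.add a4) hpos))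

theorem BKn_YD {p q a b : ℤ} (hab : p * a + q * b = 1) (θ₁ θ₂ : ℝ) (y : S3) (h1 : z1 y ≠ 0) :
    BKn_Y p q a b (BKn_D p q a b θ₁ θ₂ (z1 y, z2 y)) = y := by
  have hab' : (p : ℝ) * a + q * b = 1 := by exact_mod_cast hab
  have hn := norm_pos_iff.2 h1
  have hpos : 0 < ‖z1 y‖ + ‖z2 y‖ := by positivity
  unfold BKn_Y BKn_D
  simp only
  have e1 : (p : ℝ) * (a * BKn_arg θ₁ (z1 y) + b * BKn_arg θ₂ (z2 y)) -
      b * (-q * BKn_arg θ₁ (z1 y) + p * BKn_arg θ₂ (z2 y)) = BKn_arg θ₁ (z1 y) := by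
    linear_combination (BKn_arg θ₁ (z1 y)) * hab'
  have e2 : (q : ℝ) * (a * BKn_arg θ₁ (z1 y) + b * BKn_arg θ₂ (z2 y)) +
      a * (-q * BKn_arg θ₁ (z1 y) + p * BKn_arg θ₂ (z2 y)) = BKn_arg θ₂ (z2 y) := by
    linear_combination (BKn_arg θ₂ (z2 y)) * hab'
  have e3 : 1 + (‖z1 y‖ - ‖z2 y‖) / (‖z1 y‖ + ‖z2 y‖) = 2 / (‖z1 y‖ + ‖z2 y‖) * ‖z1 y‖ := by
    field_simp
    ring
  have e4 : 1 - (‖z1 y‖ - ‖z2 y‖) / (‖z1 y‖ + ‖z2 y‖) = 2 / (‖z1 y‖ + ‖z2 y‖) * ‖z2 y‖ := by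
    field_simp
    ring
  rw [e1, e2, e3, e4, Complex.ofReal_mul, Complex.ofReal_mul, mul_assoc, mul_assoc,
    BKn_ex_arg, BKn_ex_arg, pS3_scale (by positivity)]
  exact Pool.Agent.RSG.pS3_self y

theorem BKn_DY {p q a b : ℤ} (hab : p * a + q * b = 1) {θ₁ θ₂ l φ s : ℝ} (hs : |s| < 1)
    (h1 : |(p * l - b * φ) - θ₁| < 1 / 2) (h2 : |(q * l + a * φ) - θ₂| < 1 / 2) :
    BKn_D p q a b θ₁ θ₂ (z1 (BKn_Y p q a b (l, φ, s)), z2 (BKn_Y p q a b (l, φ, s))) =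
      (l, φ, s) := by
  have hab' : (p : ℝ) * a + q * b = 1 := by exact_mod_cast hab
  obtain ⟨s1, s2⟩ := abs_lt.1 hs
  have hr := BKn_r_pos s
  obtain ⟨e1, e2⟩ := BKn_z p q a b (l, φ, s)
  have c1 : 0 < BKn_r s * (1 + s) := mul_pos hr (by linarith)
  have c2 : 0 < BKn_r s * (1 - s) := mul_pos hr (by linarith)
  unfold BKn_D
  rw [e1, e2]
  simp only
  rw [BKn_arg_ex c1 h1, BKn_arg_ex c2 h2, norm_mul, norm_mul, Pool.Agent.RSG.ex_norm,
    Pool.Agent.RSG.ex_norm, Complex.norm_real, Complex.norm_real, mul_one, mul_one,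
    Real.norm_of_nonneg c1.le, Real.norm_of_nonneg c2.le]
  refine Prod.ext ?_ (Prod.ext ?_ ?_)
  · show (a : ℝ) * (p * l - b * φ) + b * (q * l + a * φ) = l
    linear_combination l * hab'
  · show -(q : ℝ) * (p * l - b * φ) + p * (q * l + a * φ) = φ
    linear_combination φ * hab'
  · show (BKn_r s * (1 + s) - BKn_r s * (1 - s)) / (BKn_r s * (1 + s) + BKn_r s * (1 - s)) = s
    have h3 : BKn_r s * (1 + s) + BKn_r s * (1 - s) = 2 * BKn_r s := by ring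
    rw [h3, div_eq_iff (by positivity)]
    ring

theorem BKn_inj {p q a b : ℤ} (hab : p * a + q * b = 1) {l φ s l' φ' s' : ℝ} (hs : |s| < 1)
    (hs' : |s'| < 1) (hφ : |φ| < 1 / 4) (hφ' : |φ'| < 1 / 4)
    (h : BKn_Y p q a b (l, φ, s) = BKn_Y p q a b (l', φ', s')) :
    φ = φ' ∧ s = s' ∧ ∃ m : ℤ, l' = l + m := by
  have hab' : (p : ℝ) * a + q * b = 1 := by exact_mod_cast hab
  obtain ⟨s1, s2⟩ := abs_lt.1 hs
  obtain ⟨s1', s2'⟩ := abs_lt.1 hs'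
  have hr := BKn_r_pos s
  have hr' := BKn_r_pos s'
  obtain ⟨e1, e2⟩ := BKn_z p q a b (l, φ, s)
  obtain ⟨e1', e2'⟩ := BKn_z p q a b (l', φ', s')
  rw [← h] at e1' e2'
  rw [e1] at e1'
  rw [e2] at e2'
  simp only at e1' e2'
  obtain ⟨r1, m, hm⟩ := Pool.Agent.RSG.ex_polar (mul_pos hr (by linarith))
    (mul_pos hr' (by linarith)) e1'
  obtain ⟨r2, m', hm'⟩ := Pool.Agent.RSG.ex_polar (mul_pos hr (by linarith))
    (mul_pos hr' (by linarith)) e2'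
  have h3 : BKn_r s = BKn_r s' := by linarith
  have h4 : s = s' := by
    rw [← h3] at r1
    have := mul_left_cancel₀ hr.ne' r1
    linarith
  have h5 : φ' = φ + (((-q * m + p * m' : ℤ)) : ℝ) := by
    push_cast
    linear_combination (-(q : ℝ)) * hm + (p : ℝ) * hm' + (φ - φ') * hab'
  have h6 : (-q * m + p * m' : ℤ) = 0 := by
    have h7 : |(((-q * m + p * m' : ℤ)) : ℝ)| < 1 := by
      have h8 : (((-q * m + p * m' : ℤ)) : ℝ) = φ' - φ := by linarith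
      rw [h8]
      obtain ⟨u1, u2⟩ := abs_lt.1 hφ
      obtain ⟨u3, u4⟩ := abs_lt.1 hφ'
      rw [abs_lt]
      constructor <;> linarith
    have h9 : |(-q * m + p * m' : ℤ)| < 1 := by exact_mod_cast h7
    exact Int.abs_lt_one_iff.1 h9
  rw [h6, Int.cast_zero, add_zero] at h5
  refine ⟨h5.symm, h4, a * m + b * m', ?_⟩
  push_cast
  linear_combination (a : ℝ) * hm + (b : ℝ) * hm' + (l - l') * hab'

theorem exists_tknot {p q : ℤ} (h : IsCoprime p q) (hp : p ≠ 0) (hq : q ≠ 0) :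
    ∃ κ : ℝ × ℂ → S3, TKnot p q κ := by
  obtain ⟨a, b, hab0⟩ := h
  have hab : p * a + q * b = 1 := by linarith
  obtain ⟨g, δ, S, hδ, hS, hg0, hg, hgS⟩ := BKn_g hab hp
  have hδv : ∀ v : ℂ, ‖v‖ < 1 → ‖(δ : ℂ) * v‖ < δ := by
    intro v hv
    rw [norm_mul, Complex.norm_real, Real.norm_of_nonneg hδ.le]
    nlinarith
  have hδ0 : (δ : ℂ) ≠ 0 := by exact_mod_cast hδ.ne'
  let κ : ℝ × ℂ → S3 := fun x => BKn_Y p q a b (x.1, g ((δ : ℂ) * x.2))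
  refine ⟨κ, ⟨⟨?_, ?_, ?_⟩, ?_, ?_, ?_⟩⟩
  · intro l v
    have := BKn_per p q a b l (g ((δ : ℂ) * v)).1 (g ((δ : ℂ) * v)).2 1
    rw [Int.cast_one] at this
    exact this
  · intro l v hv
    set u₀ := g ((δ : ℂ) * v) with hu₀
    obtain ⟨g1, g2, g3, g4, g5⟩ := hg _ (hδv v hv)
    set θ₁ : ℝ := p * l - b * u₀.1 with hθ₁
    set θ₂ : ℝ := q * l + a * u₀.2 - a * u₀.2 + a * u₀.1 with hθ₂
    have hθ₂' : θ₂ = q * l + a * u₀.1 := by rw [hθ₂]; ring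
    have hs0 : |u₀.2| < 1 := by linarith
    obtain ⟨s1, s2⟩ := abs_lt.1 hs0
    have hT : ContMDiff (𝓡 3) 𝓘(ℝ, ℂ × ℂ) ∞ (fun y : S3 => (z1 y, z2 y)) :=
      z1_smooth.prodMk_space z2_smooth
    have hW : ∀ᶠ y in 𝓝 (κ (l, v)), z1 y / ex θ₁ ∈ Complex.slitPlane ∧
        z2 y / ex θ₂ ∈ Complex.slitPlane := by
      have c1 : Continuous fun y : S3 => z1 y / ex θ₁ := z1_smooth.continuous.div_const _
      have c2 : Continuous fun y : S3 => z2 y / ex θ₂ := z2_smooth.continuous.div_const _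
      obtain ⟨e1, e2⟩ := BKn_z p q a b (l, u₀)
      refine (c1.continuousAt.eventually_mem (Complex.isOpen_slitPlane.mem_nhds ?_)).and
        (c2.continuousAt.eventually_mem (Complex.isOpen_slitPlane.mem_nhds ?_))
      · show z1 (BKn_Y p q a b (l, u₀)) / ex θ₁ ∈ Complex.slitPlane
        rw [e1]
        show (((BKn_r u₀.2 * (1 + u₀.2) : ℝ) : ℂ) * ex (p * l - b * u₀.1)) / ex θ₁ ∈ _
        rw [← hθ₁, mul_div_cancel_right₀ _ (Pool.Agent.RSG.ex_ne _)]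
        exact Complex.ofReal_mem_slitPlane.2 (mul_pos (BKn_r_pos _) (by linarith))
      · show z2 (BKn_Y p q a b (l, u₀)) / ex θ₂ ∈ Complex.slitPlane
        rw [e2]
        show (((BKn_r u₀.2 * (1 - u₀.2) : ℝ) : ℂ) * ex (q * l + a * u₀.1)) / ex θ₂ ∈ _
        rw [← hθ₂', mul_div_cancel_right₀ _ (Pool.Agent.RSG.ex_ne _)]
        exact Complex.ofReal_mem_slitPlane.2 (mul_pos (BKn_r_pos _) (by linarith))
    have hDs : ∀ᶠ y in 𝓝 (κ (l, v)), ContMDiffAt (𝓡 3) 𝓘(ℝ, ℝ × ℝ × ℝ) ∞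
        (fun y : S3 => BKn_D p q a b θ₁ θ₂ (z1 y, z2 y)) y := by
      filter_upwards [hW] with y hy
      exact ((BKn_D_smooth p q a b (w := (z1 y, z2 y)) hy.1 hy.2).contMDiffAt).comp y (hT y)
    have hin : ∀ᶠ x : ℝ × ℂ in 𝓝 (l, v), ‖x.2‖ < 1 :=
      (continuous_snd.norm.continuousAt (x := (l, v))).eventually (gt_mem_nhds hv)
    have hgc : ∀ x : ℝ × ℂ, ‖x.2‖ < 1 → ContDiffAt ℝ ∞ (fun x : ℝ × ℂ => g ((δ : ℂ) * x.2)) x := by
      intro x hx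
      exact ContDiffAt.comp (g := g) (f := fun x : ℝ × ℂ => (δ : ℂ) * x.2) x
        (hg _ (hδv x.2 hx)).1 (contDiffAt_const.mul contDiffAt_snd)
    have hD0 : BKn_D p q a b θ₁ θ₂ (z1 (κ (l, v)), z2 (κ (l, v))) = (l, u₀.1, u₀.2) :=
      BKn_DY hab hs0 (by rw [← hθ₁, sub_self, abs_zero]; norm_num)
        (by rw [← hθ₂', sub_self, abs_zero]; norm_num)
    refine Pool.Agent.RSG.ld_two (g := fun y : S3 =>
      ((BKn_D p q a b θ₁ θ₂ (z1 y, z2 y)).1,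
        (δ : ℂ)⁻¹ * BKn_h p q a b (BKn_D p q a b θ₁ θ₂ (z1 y, z2 y)).2)) ?_ ?_ ?_ ?_
    · filter_upwards [hin] with x hx
      have e1 : ContDiffAt ℝ ∞ (fun x : ℝ × ℂ => ((x.1, g ((δ : ℂ) * x.2)) : ℝ × ℝ × ℝ)) x :=
        contDiffAt_fst.prodMk (hgc x hx)
      exact ContMDiffAt.comp (g := BKn_Y p q a b)
        (f := fun x : ℝ × ℂ => ((x.1, g ((δ : ℂ) * x.2)) : ℝ × ℝ × ℝ)) x
        (BKn_Ys p q a b _) e1.contMDiffAt
    · filter_upwards [hDs] with y hy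
      have e1 : ContDiff ℝ ∞ (fun x : ℝ × ℝ × ℝ => ((x.1, (δ : ℂ)⁻¹ * BKn_h p q a b x.2) : ℝ × ℂ)) :=
        contDiff_fst.prodMk (contDiff_const.mul ((BKn_hs p q a b).comp contDiff_snd))
      exact ContMDiffAt.comp y e1.contDiffAt.contMDiffAt hy
    · have k1 : ContinuousAt (fun x : ℝ × ℂ => g ((δ : ℂ) * x.2)) (l, v) :=
        (hgc (l, v) hv).continuousAt
      have k2 : ContinuousAt (fun x : ℝ × ℂ =>
          |(p * x.1 - b * (g ((δ : ℂ) * x.2)).1) - θ₁|) (l, v) :=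
        (((continuousAt_const.mul continuousAt_fst).sub
          (continuousAt_const.mul k1.fst)).sub continuousAt_const).abs
      have k3 : ContinuousAt (fun x : ℝ × ℂ =>
          |(q * x.1 + a * (g ((δ : ℂ) * x.2)).1) - θ₂|) (l, v) :=
        (((continuousAt_const.mul continuousAt_fst).add
          (continuousAt_const.mul k1.fst)).sub continuousAt_const).abs
      have k2' : ∀ᶠ x : ℝ × ℂ in 𝓝 (l, v),
          |(p * x.1 - b * (g ((δ : ℂ) * x.2)).1) - θ₁| < 1 / 2 := by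
        refine k2.eventually_lt continuousAt_const ?_
        show |(p * l - b * u₀.1) - θ₁| < 1 / 2
        rw [← hθ₁, sub_self, abs_zero]
        norm_num
      have k3' : ∀ᶠ x : ℝ × ℂ in 𝓝 (l, v),
          |(q * x.1 + a * (g ((δ : ℂ) * x.2)).1) - θ₂| < 1 / 2 := by
        refine k3.eventually_lt continuousAt_const ?_
        show |(q * l + a * u₀.1) - θ₂| < 1 / 2
        rw [← hθ₂', sub_self, abs_zero]
        norm_num
      filter_upwards [hin, k2', k3'] with x hx h2 h3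
      obtain ⟨f1, f2, f3, f4, f5⟩ := hg _ (hδv x.2 hx)
      have h4 : BKn_D p q a b θ₁ θ₂ (z1 (κ x), z2 (κ x)) =
          (x.1, (g ((δ : ℂ) * x.2)).1, (g ((δ : ℂ) * x.2)).2) :=
        BKn_DY hab (by linarith) h2 h3
      show ((BKn_D p q a b θ₁ θ₂ (z1 (κ x), z2 (κ x))).1,
        (δ : ℂ)⁻¹ * BKn_h p q a b (BKn_D p q a b θ₁ θ₂ (z1 (κ x), z2 (κ x))).2) = x
      rw [h4]
      refine Prod.ext rfl ?_
      show (δ : ℂ)⁻¹ * BKn_h p q a b (g ((δ : ℂ) * x.2)) = x.2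
      rw [f2, inv_mul_cancel_left₀ hδ0]
    · have k1 : ContinuousAt (fun y : S3 => BKn_D p q a b θ₁ θ₂ (z1 y, z2 y)) (κ (l, v)) :=
        hDs.self_of_nhds.continuousAt
      have k2 : ∀ᶠ y in 𝓝 (κ (l, v)), (BKn_D p q a b θ₁ θ₂ (z1 y, z2 y)).2 ∈ S := by
        refine k1.snd.eventually_mem (hS.mem_nhds ?_)
        rw [hD0]
        exact g3
      filter_upwards [hW, k2] with y hy hyS
      have n1 : z1 y ≠ 0 := by
        intro h0
        have h1 := hy.1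
        rw [h0, zero_div] at h1
        exact Complex.slitPlane_ne_zero h1 rfl
      show BKn_Y p q a b ((BKn_D p q a b θ₁ θ₂ (z1 y, z2 y)).1, g ((δ : ℂ) * ((δ : ℂ)⁻¹ *
        BKn_h p q a b (BKn_D p q a b θ₁ θ₂ (z1 y, z2 y)).2))) = y
      rw [mul_inv_cancel_left₀ hδ0, hgS _ hyS]
      exact BKn_YD hab θ₁ θ₂ y n1
  · intro l v l' v' hv hv' he
    obtain ⟨f1, f2, f3, f4, f5⟩ := hg _ (hδv v hv)
    obtain ⟨f1', f2', f3', f4', f5'⟩ := hg _ (hδv v' hv')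
    obtain ⟨h1, h2, h3⟩ := BKn_inj hab (s := (g ((δ : ℂ) * v)).2) (s' := (g ((δ : ℂ) * v')).2)
      (by linarith) (by linarith) f4 f4' he
    refine ⟨?_, h3⟩
    have h4 : g ((δ : ℂ) * v) = g ((δ : ℂ) * v') := Prod.ext h1 h2
    rw [h4, f2'] at f2
    exact (mul_left_cancel₀ hδ0 f2).symm
  · intro l
    show BKn_Y p q a b (l, g ((δ : ℂ) * 0)) = _
    rw [mul_zero, hg0]
    unfold BKn_Y
    simp
  · intro l θ v
    exact BKn_rot p q a b l θ (g ((δ : ℂ) * v)).1 (g ((δ : ℂ) * v)).2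
  · refine ⟨δ, hδ, fun l v hv => ?_⟩
    obtain ⟨f1, f2, f3, f4, f5⟩ := hg _ (hδv v hv)
    have h1 := BKn_val p q a b l (g ((δ : ℂ) * v)).1 (g ((δ : ℂ) * v)).2
    show tf p q (BKn_Y p q a b (l, g ((δ : ℂ) * v))) = _
    have h2 : BKn_h p q a b ((g ((δ : ℂ) * v)).1, (g ((δ : ℂ) * v)).2) = (δ : ℂ) * v := f2
    rw [h2] at h1
    rw [show (l, g ((δ : ℂ) * v)) = (l, (g ((δ : ℂ) * v)).1, (g ((δ : ℂ) * v)).2) from rfl, h1]
    ring

end Pool.Agent.BAS
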