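import Pool.Agent.BAS.BMa
import Pool.Agent.BAS.BKn

/-!
# BAS/BTr: transport by an automorphism of `S3 × S1`   (difficulty 3)

`mB a b ε (y, u) = (pS3 (z1 y · u^a) (z2 y · u^b), u^ε)`, `ε = ±1`: `mB a' b' ε' ∘ mB a b ε = mB (a + ε a') (b + ε b') (ε ε')`
so the inverse of `mB a b ε` is `mB (-ε a) (-ε b) ε`.  Smooth: `RSG.pS3_smooth`, `circle_coe_smooth`, `circle_of_coe`, powers of `Circle`
(`(u ^ k : Circle) : ℂ) = (u : ℂ) ^ k`; for `k < 0` use `conj`/inverse); local diffeo: `RSG.ld_two`.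
`mB_gE`: `exp (2πx)^k = exp (2πkx)`, `ex_add`, `prf` real factors stay in front.
`carries_conj`: as `ISO.carries_map`: `κ' = Γ ∘ κ`, `A' = A ∘ Γ⁻¹`, `Q' = Q`.
`lin_carries`: `c = v + n o`, `ε = c₃ = ±1`; `p = o₁ - ε c₁ o₃`, `q = o₂ - ε c₂ o₃`, `r = ε o₃`.  One has `p = ε (v₃ o₁ - v₁ o₃)`,
`q = ε (v₃ o₂ - v₂ o₃)` (use `c₃ o₁ - c₁ o₃ = v₃ o₁ - v₁ o₃`), so `p, q` are coprime and nonzero.  `exists_tknot`, `lin_twin`, `kap_thick`, `kap_equiv`, `kap_core`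
give `Carries ISP (gact (-n p, -n q, 1 - n r)) n (l ↦ gE (1/2) (p l, q l, r l)) S4`.  Apply `carries_conj` with
`Γ = mB c₁ c₂ ε` : it maps `gE ρ (y₁, y₂, y₃)` to `gE ρ (y₁ + c₁ y₃, y₂ + c₂ y₃, ε y₃)`, `(p, q, r) ↦ o` and `(-np, -nq, 1 - nr) ↦ c - n o = v`.
-/

open scoped Manifold ContDiff Topology
open Set Filter
open Complex (I)

namespace Pool.Agent.BAS

open Pool.Agent.RSG (E4 S3 S4 pS3 pS4 ex c1 c2 ht fh Thick std)
open Pool.Agent.PTH (SP ISP z1 z2 gE gact Carries)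
open Pool.Agent.RBM (ThickT TwinP OnT)

theorem BTr_self (y : S3) : pS3 (z1 y) (z2 y) = y := RSG.pS3_self y

theorem BTr_sq (y : S3) : ‖z1 y‖ ^ 2 + ‖z2 y‖ ^ 2 = 1 := RSG.S3_sq y

theorem BTr_c {a b : ℂ} (H : ‖a‖ ^ 2 + ‖b‖ ^ 2 = 1) : z1 (pS3 a b) = a ∧ z2 (pS3 a b) = b :=
  RSG.pS3_c H

theorem BTr_mul {A B u w : ℂ} (hu : ‖u‖ = 1) (hw : ‖w‖ = 1) (h : ¬ (A = 0 ∧ B = 0)) :
    pS3 (z1 (pS3 A B) * u) (z2 (pS3 A B) * w) = pS3 (A * u) (B * w) := by
  have hpos : 0 < ‖A‖ ^ 2 + ‖B‖ ^ 2 := by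
    by_contra hc
    push Not at hc
    apply h
    have h1 := sq_nonneg ‖A‖
    have h2 := sq_nonneg ‖B‖
    constructor
    · have : ‖A‖ ^ 2 = 0 := by linarith
      exact norm_eq_zero.1 (pow_eq_zero_iff two_ne_zero |>.1 this)
    · have : ‖B‖ ^ 2 = 0 := by linarith
      exact norm_eq_zero.1 (pow_eq_zero_iff two_ne_zero |>.1 this)
  set r : ℝ := Real.sqrt (‖A‖ ^ 2 + ‖B‖ ^ 2) with hr
  have hr0 : 0 < r := Real.sqrt_pos.2 hpos
  have hr2 : r ^ 2 = ‖A‖ ^ 2 + ‖B‖ ^ 2 := Real.sq_sqrt hpos.le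
  have hn : ‖((r⁻¹ : ℝ) : ℂ) * A‖ ^ 2 + ‖((r⁻¹ : ℝ) : ℂ) * B‖ ^ 2 = 1 := by
    rw [norm_mul, norm_mul, Complex.norm_real, Real.norm_of_nonneg (inv_nonneg.2 hr0.le), mul_pow,
      mul_pow, ← mul_add, ← hr2, inv_pow]
    exact inv_mul_cancel₀ (by positivity)
  have e := pS3_scale (inv_pos.2 hr0) A B
  obtain ⟨e1, e2⟩ := BTr_c hn
  rw [← e, e1, e2, mul_assoc, mul_assoc, pS3_scale (inv_pos.2 hr0)]

theorem BTr_prf0 {x : ℝ} (h : PTH.prf x = 0) : x = 0 := by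
  unfold PTH.prf at h
  rcases le_or_gt x (1 / 3) with h1 | h1
  · rw [Real.smoothTransition.zero_of_nonpos (by linarith)] at h
    linarith
  · exfalso
    have h2 := Real.smoothTransition.nonneg (3 * x - 1)
    have h3 := Real.smoothTransition.le_one (3 * x - 1)
    have h4 : 0 ≤ (1 - Real.smoothTransition (3 * x - 1)) * x :=
      mul_nonneg (by linarith) (by linarith)
    have h5 : Real.smoothTransition (3 * x - 1) = 0 := by linarith
    rw [h5] at h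
    linarith

theorem BTr_prf (ρ : ℝ) (x y : ℝ) :
    ¬ ((PTH.prf ρ : ℂ) * ex x = 0 ∧ (PTH.prf (1 - ρ) : ℂ) * ex y = 0) := by
  rintro ⟨h1, h2⟩
  rw [mul_eq_zero, or_iff_left (RSG.ex_ne _)] at h1 h2
  have h3 := BTr_prf0 (by exact_mod_cast h1)
  have h4 := BTr_prf0 (by exact_mod_cast h2)
  linarith

theorem BTr_pow (x : ℝ) (k : ℤ) :
    (Circle.exp (2 * Real.pi * x)) ^ k = Circle.exp (2 * Real.pi * (k * x)) := by
  rw [← Circle.exp_zsmul, zsmul_eq_mul]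
  congr 1
  ring

theorem BTr_nrm (u : Circle) : ‖(u : ℂ)‖ = 1 := Circle.norm_coe u

noncomputable def mB (a b ε : ℤ) (p : SP) : SP :=
  (pS3 (z1 p.1 * ((p.2 ^ a : Circle) : ℂ)) (z2 p.1 * ((p.2 ^ b : Circle) : ℂ)), p.2 ^ ε)

theorem BTr_mB_c (a b ε : ℤ) (p : SP) : z1 (mB a b ε p).1 = z1 p.1 * ((p.2 ^ a : Circle) : ℂ) ∧
    z2 (mB a b ε p).1 = z2 p.1 * ((p.2 ^ b : Circle) : ℂ) := by
  apply BTr_c
  rw [norm_mul, norm_mul, BTr_nrm, BTr_nrm, mul_one, mul_one]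
  exact BTr_sq _

theorem mB_comp (a b ε a' b' ε' : ℤ) (p : SP) :
    mB a' b' ε' (mB a b ε p) = mB (a + ε * a') (b + ε * b') (ε * ε') p := by
  obtain ⟨h1, h2⟩ := BTr_mB_c a b ε p
  have h3 : (mB a b ε p).2 = p.2 ^ ε := rfl
  change (pS3 (z1 (mB a b ε p).1 * (((mB a b ε p).2 ^ a' : Circle) : ℂ))
    (z2 (mB a b ε p).1 * (((mB a b ε p).2 ^ b' : Circle) : ℂ)), (mB a b ε p).2 ^ ε') = _
  rw [h1, h2, h3]
  unfold mB
  rw [zpow_add, zpow_add, zpow_mul, zpow_mul, zpow_mul, Circle.coe_mul, Circle.coe_mul, mul_assoc,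
    mul_assoc]

theorem mB_zero (p : SP) : mB 0 0 1 p = p := by
  unfold mB
  rw [zpow_zero, zpow_one, Circle.coe_one, mul_one, mul_one, BTr_self]

theorem BTr_smooth (a b ε : ℤ) : ContMDiff ISP ISP ∞ (mB a b ε) := by
  have hz : ∀ k : ℤ, ContMDiff ISP (𝓡 1) ∞ (fun p : SP => p.2 ^ k) := by
    have h0 : ContMDiff ISP (𝓡 1) ∞ (fun p : SP => p.2) := contMDiff_snd
    have hn : ∀ n : ℕ, ContMDiff ISP (𝓡 1) ∞ (fun p : SP => p.2 ^ n) := fun n => by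
      haveI : ContMDiffMul (𝓡 1) ∞ Circle := inferInstance
      exact h0.pow n
    intro k
    obtain ⟨n, rfl | rfl⟩ := k.eq_nat_or_neg
    · simpa using hn n
    · haveI : LieGroup (𝓡 1) ∞ Circle := inferInstance
      have := (hn n).inv
      simpa using this
  intro p
  have hc : ∀ k : ℤ, ContMDiffAt ISP 𝓘(ℝ, ℂ) ∞ (fun p : SP => ((p.2 ^ k : Circle) : ℂ)) p := fun k =>
    (circle_coe_smooth _).comp p (hz k p)
  have hfst : ContMDiffAt ISP (𝓡 3) ∞ (fun p : SP => p.1) p := contMDiff_fst p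
  have ha : ContMDiffAt ISP 𝓘(ℝ, ℂ) ∞ (fun p : SP => z1 p.1 * ((p.2 ^ a : Circle) : ℂ)) p := by
    have h1 : ContMDiffAt ISP 𝓘(ℝ, ℂ) ∞ (fun p : SP => z1 p.1) p := (z1_smooth _).comp p hfst
    have h2 : ContMDiff (𝓘(ℝ, ℂ × ℂ)) 𝓘(ℝ, ℂ) ∞ (fun q : ℂ × ℂ => q.1 * q.2) :=
      (contDiff_fst.mul contDiff_snd).contMDiff
    exact (h2 _).comp p (h1.prodMk_space (hc a))
  have hb : ContMDiffAt ISP 𝓘(ℝ, ℂ) ∞ (fun p : SP => z2 p.1 * ((p.2 ^ b : Circle) : ℂ)) p := by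
    have h1 : ContMDiffAt ISP 𝓘(ℝ, ℂ) ∞ (fun p : SP => z2 p.1) p := (z2_smooth _).comp p hfst
    have h2 : ContMDiff (𝓘(ℝ, ℂ × ℂ)) 𝓘(ℝ, ℂ) ∞ (fun q : ℂ × ℂ => q.1 * q.2) :=
      (contDiff_fst.mul contDiff_snd).contMDiff
    exact (h2 _).comp p (h1.prodMk_space (hc b))
  have hpos : 0 < ‖z1 p.1 * ((p.2 ^ a : Circle) : ℂ)‖ ^ 2 + ‖z2 p.1 * ((p.2 ^ b : Circle) : ℂ)‖ ^ 2 := by
    rw [norm_mul, norm_mul, BTr_nrm, BTr_nrm, mul_one, mul_one, BTr_sq]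
    exact one_pos
  exact (RSG.pS3_smooth ha hb hpos).prodMk (hz ε p)

theorem mB_ld (a b : ℤ) {ε : ℤ} (hε : ε = 1 ∨ ε = -1) (p : SP) : IsLocalDiffeomorphAt ISP ISP ∞ (mB a b ε) p := by
  have hee : ε * ε = 1 := by rcases hε with rfl | rfl <;> norm_num
  refine RSG.ld_two (g := mB (-ε * a) (-ε * b) ε) (Eventually.of_forall fun y => BTr_smooth _ _ _ y)
    (Eventually.of_forall fun y => BTr_smooth _ _ _ y) (Eventually.of_forall fun y => ?_)
    (Eventually.of_forall fun y => ?_)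
  · rw [mB_comp, show a + ε * (-ε * a) = 0 by linear_combination -a * hee,
      show b + ε * (-ε * b) = 0 by linear_combination -b * hee, hee, mB_zero]
  · rw [mB_comp, show -ε * a + ε * a = 0 by ring, show -ε * b + ε * b = 0 by ring, hee, mB_zero]

theorem mB_gE (a b ε : ℤ) (ρ : ℝ) (x : ℝ × ℝ × ℝ) :
    mB a b ε (gE ρ x) = gE ρ (x.1 + a * x.2.2, x.2.1 + b * x.2.2, ε * x.2.2) := by
  unfold mB gE
  simp only
  rw [BTr_mul (BTr_nrm _) (BTr_nrm _) (BTr_prf _ _ _), BTr_pow, BTr_pow, BTr_pow, exp_coe, exp_coe,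
    RSG.ex_add, RSG.ex_add, mul_assoc, mul_assoc]

theorem mB_act (a b ε : ℤ) (v : ℤ × ℤ × ℤ) (t : ℝ) (p : SP) :
    mB a b ε (gact v t p) = gact (v.1 + a * v.2.2, v.2.1 + b * v.2.2, ε * v.2.2) t (mB a b ε p) := by
  obtain ⟨h1, h2⟩ := BTr_mB_c a b ε p
  have hn : ‖ex (v.1 * t) * z1 p.1‖ ^ 2 + ‖ex (v.2.1 * t) * z2 p.1‖ ^ 2 = 1 := by
    rw [norm_mul, norm_mul, RSG.ex_norm, RSG.ex_norm, one_mul, one_mul]
    exact BTr_sq _
  obtain ⟨e1, e2⟩ := BTr_c hn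
  have h3 : (mB a b ε p).2 = p.2 ^ ε := rfl
  unfold gact
  rw [h1, h2, h3]
  unfold mB
  simp only
  rw [e1, e2, mul_zpow, mul_zpow, mul_zpow, BTr_pow, BTr_pow, BTr_pow, Circle.coe_mul,
    Circle.coe_mul, exp_coe, exp_coe]
  have k1 : ex (((v.1 + a * v.2.2 : ℤ) : ℝ) * t) = ex (v.1 * t) * ex (a * (v.2.2 * t)) := by
    rw [← RSG.ex_add]
    congr 1
    push_cast
    ring
  have k2 : ex (((v.2.1 + b * v.2.2 : ℤ) : ℝ) * t) = ex (v.2.1 * t) * ex (b * (v.2.2 * t)) := by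
    rw [← RSG.ex_add]
    congr 1
    push_cast
    ring
  rw [k1, k2]
  congr 1
  · congr 1 <;> ring
  · congr 2
    push_cast
    ring

theorem carries_conj {EP : Type*} [NormedAddCommGroup EP] [NormedSpace ℝ EP] {HP : Type*} [TopologicalSpace HP]
    {IP : ModelWithCorners ℝ EP HP} {P : Type*} [TopologicalSpace P] [ChartedSpace HP P] {a a' : ℝ → P → P}
    {n : ℤ} {K : ℝ → P} {X : Type*} [TopologicalSpace X] [ChartedSpace E4 X] (Γ : Equiv.Perm P)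
    (h : ∀ p, IsLocalDiffeomorphAt IP IP ∞ Γ p) (hc : ∀ t p, Γ (a t p) = a' t (Γ p))
    (hK : Carries IP a n K X) : Carries IP a' n (fun l => Γ (K l)) X := by
  obtain ⟨κ, j, hT, he, hk, ⟨D⟩⟩ := hK
  have hsymm : ∀ p, IsLocalDiffeomorphAt IP IP ∞ Γ.symm p := by
    intro p
    have h1 := CSG.ld_of_comp_left (I := IP) (J := IP) (K := IP) (n := ∞) (f := Γ) (g := Γ.symm)
      (x := Γ.symm p) ?_ (h (Γ.symm p))
    · rw [Equiv.apply_symm_apply] at h1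
      exact h1
    · have h2 : (Γ.symm ∘ Γ : P → P) = id := by
        funext x
        simp
      rw [h2]
      exact CSG.ld_id (Γ.symm p)
  have hon : ∀ p, RBM.OnT (fun q => Γ (κ q)) p ↔ RBM.OnT κ (Γ.symm p) := by
    intro p
    constructor
    · rintro ⟨l, t, hp⟩
      exact ⟨l, t, by rw [hp]; simp⟩
    · rintro ⟨l, t, hp⟩
      refine ⟨l, t, ?_⟩
      change p = Γ (κ (l, 0, t))
      rw [← hp]
      simp
  refine ⟨fun q => Γ (κ q), j, ?_, ?_, ?_, ⟨?_⟩⟩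
  · refine ⟨fun l v t => ?_, fun l v t => ?_, fun l v t hv => ?_, ?_⟩
    · simp only [hT.perl]
    · simp only [hT.pert]
    · exact IsLocalDiffeomorphAt.comp (hf := hT.loc l v t hv) (hg := h _)
    · intro l v t l' v' t' hv hv' e
      exact hT.inj l v t l' v' t' hv hv' (Γ.injective e)
  · intro l v t
    change Γ (κ (l, v, t)) = a' t (Γ (κ (l, v, 0)))
    rw [← hc, ← he]
  · intro l
    change Γ (κ (l, 0, 0)) = Γ (K l)
    rw [hk]
  · refine ⟨fun p => D.A (Γ.symm p), D.Q, ?_, ?_, D.Q_loc, D.Q_inj, ?_, ?_, ?_⟩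
    · intro p hp
      rw [hon] at hp
      exact IsLocalDiffeomorphAt.comp (hf := hsymm p) (hg := D.A_loc _ hp)
    · intro p p' hp hp' e
      rw [hon] at hp hp'
      exact Γ.symm.injective (D.A_inj _ _ hp hp' e)
    · intro z l m t h1 h2 h3 h4 h5 h6
      rw [D.glue z l m t h1 h2 h3 h4 h5 h6]
      simp
    · intro z p h1 h2 h3
      rw [hon] at h3
      exact D.disj z _ h1 h2 h3
    · intro q
      rcases D.cover q with ⟨p, hp, rfl⟩ | hq
      · refine Or.inl ⟨Γ p, ?_, ?_⟩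
        · rw [hon]
          simpa using hp
        · simp
      · exact Or.inr hq

/-- **The linear knot carries the 4-sphere.** -/
theorem lin_carries {v o : ℤ × ℤ × ℤ} {n : ℤ} (hc : v.2.2 + n * o.2.2 = 1 ∨ v.2.2 + n * o.2.2 = -1)
    (h : IsCoprime (v.2.2 * o.2.1 - v.2.1 * o.2.2) (v.2.2 * o.1 - v.1 * o.2.2))
    (h1 : v.2.2 * o.2.1 - v.2.1 * o.2.2 ≠ 0) (h2 : v.2.2 * o.1 - v.1 * o.2.2 ≠ 0) :
    Carries ISP (gact v) n (fun l => gE (1 / 2) (o.1 * l, o.2.1 * l, o.2.2 * l)) S4 := by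
  obtain ⟨v1, v2, v3⟩ := v
  obtain ⟨o1, o2, o3⟩ := o
  simp only at hc h h1 h2 ⊢
  obtain ⟨ε, hεd⟩ : ∃ ε : ℤ, ε = v3 + n * o3 := ⟨_, rfl⟩
  rw [← hεd] at hc
  have hee : ε * ε = 1 := by rcases hc with h | h <;> rw [h] <;> norm_num
  obtain ⟨p, hp⟩ : ∃ p : ℤ, p = o1 - ε * (v1 + n * o1) * o3 := ⟨_, rfl⟩
  obtain ⟨q, hq⟩ : ∃ q : ℤ, q = o2 - ε * (v2 + n * o2) * o3 := ⟨_, rfl⟩
  have hp' : p = ε * (v3 * o1 - v1 * o3) := by
    have : v3 = ε - n * o3 := by linarith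
    rw [hp, this]
    linear_combination (-o1) * hee
  have hq' : q = ε * (v3 * o2 - v2 * o3) := by
    have : v3 = ε - n * o3 := by linarith
    rw [hq, this]
    linear_combination (-o2) * hee
  have hεu : IsUnit ε := IsUnit.of_mul_eq_one ε hee
  have hε0 : ε ≠ 0 := hεu.ne_zero
  have hpq : IsCoprime p q := by
    rw [hp', hq']
    exact (isCoprime_mul_unit_left hεu _ _).2 h.symm
  have hp0 : p ≠ 0 := by
    rw [hp']
    exact mul_ne_zero hε0 h2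
  have hq0 : q ≠ 0 := by
    rw [hq']
    exact mul_ne_zero hε0 h1
  obtain ⟨κ, hκ⟩ := exists_tknot hpq hp0 hq0
  have hcar : Carries ISP (gact (-n * p, -n * q, 1 - n * (ε * o3))) n
      (fun l => gE (1 / 2) (p * l, q * l, ((ε * o3 : ℤ) : ℝ) * l)) S4 :=
    ⟨kap κ (ε * o3) n, 0, kap_thick hκ _ _, fun l v t => kap_equiv hκ _ _ l v t,
      fun l => kap_core hκ _ _ l, lin_twin hpq hp0 hq0 hκ _ _⟩
  have key := carries_conj (a' := gact (v1, v2, v3))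
    { toFun := mB (v1 + n * o1) (v2 + n * o2) ε
      invFun := mB (-ε * (v1 + n * o1)) (-ε * (v2 + n * o2)) ε
      left_inv := fun y => by
        rw [mB_comp, show v1 + n * o1 + ε * (-ε * (v1 + n * o1)) = 0 by
            linear_combination -(v1 + n * o1) * hee,
          show v2 + n * o2 + ε * (-ε * (v2 + n * o2)) = 0 by
            linear_combination -(v2 + n * o2) * hee, hee, mB_zero]
      right_inv := fun y => by
        rw [mB_comp, show -ε * (v1 + n * o1) + ε * (v1 + n * o1) = 0 by ring,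
          show -ε * (v2 + n * o2) + ε * (v2 + n * o2) = 0 by ring, hee, mB_zero] }
    (fun y => mB_ld _ _ hc y) (fun t y => ?_) hcar
  · convert key using 2 with l
    change _ = mB (v1 + n * o1) (v2 + n * o2) ε _
    rw [mB_gE]
    congr 1
    simp only
    have e1 : (o1 : ℝ) = p + (v1 + n * o1) * (ε * o3) := by
      rw [hp]
      push_cast
      ring
    have e2 : (o2 : ℝ) = q + (v2 + n * o2) * (ε * o3) := by
      rw [hq]
      push_cast
      ring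
    have e3 : (o3 : ℝ) = ε * (ε * o3) := by
      have : ((ε * ε : ℤ) : ℝ) = 1 := by rw [hee]; norm_num
      push_cast at this
      linear_combination -(o3 : ℝ) * this
    refine Prod.ext ?_ (Prod.ext ?_ ?_)
    · simp only
      push_cast
      linear_combination l * e1
    · simp only
      push_cast
      linear_combination l * e2
    · simp only
      push_cast
      linear_combination l * e3
  · change mB (v1 + n * o1) (v2 + n * o2) ε _ = gact _ t (mB (v1 + n * o1) (v2 + n * o2) ε y)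
    rw [mB_act]
    congr 1
    simp only
    refine Prod.ext ?_ (Prod.ext ?_ ?_)
    · simp only
      rw [hp]
      ring
    · simp only
      rw [hq]
      ring
    · simp only
      have : v3 = ε - n * o3 := by linarith
      rw [this]
      linear_combination (-n * o3) * hee

end Pool.Agent.BAS
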