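import Pool.Agent.BAS.BVc
import Pool.Agent.BAS.BCv
import Pool.Agent.BAS.BTr

/-!
# BAS/BFi: the base case   (difficulty 4)

Choose `ε ≤ 1/12` with `hs`, `ht` of `exists_curve` (from `hw.start`, `hw.stop`) and `2 ε |v₃ o₂ - v₂ o₃| < 1`, `2 ε |v₃ o₁ - v₁ o₃| < 1`; `δ` from `exists_delta`;
`ρ, X` from `exists_curve`.  Integers `g₂, g₃` with `g₂ v₃ - g₃ v₂ = 1`, `g₁', g₃'` with `g₁' v₃ - g₃' v₁ = 1` (coprime).
`K₂ l = gE (ρ l) (X l)`.  `K₁ l = gK w l` except near the integers, where `K₁ l = K₂ l` (`K₁ l = K₂ l` if `|l - round l| ≤ ε`, `gK w l` otherwise).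
* `Carries (gK w) ↔ Carries K₁`: `cap` with `VC1_chart`, `r = 1/3`, `l₀ = 0`, `β l = σ₁ δ bmp ε l` (`gK_zero`, `gE_VC1`, `rh_facts`: `rh ex (σ₁ th) = -2l + i σ₁ δ bmp`
  (conjugate for `σ₁ = -1`)); `hrest`: `VC_ratio`, `gE_ratio` (`ρ = 2 |l - round l| ≥ 2ε`), `gE_one` for `l = 1/2`.
* `Carries K₁ ↔ Carries K₂`: `cap` with `VC2_chart`, `l₀ = 1/2`, `β l = -σ₂ δ bmp ε l` (`gK_half`, `gE_VC2`); `hrest`: `K₁ (1/2 + l)` is `gE ρ' _` with `1 - ρ' ≥ 2ε` or
  (near the integers) `ρ' = rh ≤ 2 ε ≤ 1/6`.  `K₁` is continuous: on `|l - round l| < 2ε` both formulas.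
  For `|l| ≥ ε`, `K₂ = gK w` in the middle parts: `gK_pos`, `gK_neg`, `gE_per` (`X l = w (2l) - x₀`).
* `loop_iso`: `hD` for `0 < l < 1/2`: `l ≤ ε`: `X l - X (-l) = σ₁ c e₁`, `0 < c ≤ 1/2` (`th_facts`); if `(1-s) σ₁ c e₁ + 2 s l o = m + u v`: apply
  `h₁ (x) = v₃ x₂ - v₂ x₃` (`h₁ e₁ = 0`, `h₁ v = 0`): `2 s l h₁ o ∈ Z`, absolute value `< 1`, so `s = 0`; then `σ₁ c e₁ = m + u v`: `u v₂, u v₃ ∈ Z`, so `u ∈ Z`
  (coprime), `c ∈ Z`: contradiction.  `l ≥ 1/2 - ε`: put `l = 1/2 - l'`: `X l = o + σ₂ (1/2 - th (-l')) e₂`, `X (-l) = X (1/2 + l') - o = σ₂ (1/2 - th l') e₂`, so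
  `X l - X(-l) = o + σ₂ c e₂`, and `(1-s)(o + σ₂ c e₂) + s (1 - 2l') o = o + (1-s) σ₂ c e₂ - 2 s l' o`: the same with `h₂ (x) = v₃ x₁ - v₁ x₃`.
  Otherwise `hseg` with `ρ = 2 l`.
* `h0`: `X' 0 = σ₁ th' 0 e₁`: `(1-s) c e₁ + s o = u v`: `h₁`: `s h₁ o = 0`, `s = 0`, then `c e₁ = u v`, `u v₂ = u v₃ = 0`, `u = 0`.  `h1` the same with `e₂`, `h₂`.
-/

open scoped Manifold ContDiff Topology
open Set Filter
open Complex (I)

namespace Pool.Agent.BAS

open Pool.Agent.RSG (E4 S3 S4 pS3 pS4 ex c1 c2 ht fh Thick std)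
open Pool.Agent.PTH (SP ISP z1 z2 gE gact Carries prf Act GPath gK GCar)

theorem BFi_int {p q : ℤ} (hpq : IsCoprime p q) {o₂ o₃ : ℤ} (hN : q * o₂ - p * o₃ ≠ 0) {t u : ℝ}
    (ht : |t * ((q : ℝ) * o₂ - p * o₃)| < 1) {m₂ m₃ : ℤ} (h2 : t * o₂ = m₂ + u * p)
    (h3 : t * o₃ = m₃ + u * q) : t = 0 ∧ ∃ k : ℤ, u = k := by
  have h4 : t * ((q : ℝ) * o₂ - p * o₃) = ((q * m₂ - p * m₃ : ℤ) : ℝ) := by
    push_cast
    linear_combination (q : ℝ) * h2 - (p : ℝ) * h3
  rw [h4] at ht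
  have h5 : |(q * m₂ - p * m₃ : ℤ)| < 1 := by exact_mod_cast ht
  rw [Int.abs_lt_one_iff] at h5
  rw [h5, Int.cast_zero] at h4
  have hN' : (q : ℝ) * o₂ - p * o₃ ≠ 0 := by exact_mod_cast hN
  have ht0 : t = 0 := by
    rcases mul_eq_zero.1 h4 with h | h
    · exact h
    · exact absurd h hN'
  refine ⟨ht0, ?_⟩
  obtain ⟨a, b, hab⟩ := hpq
  have hab' : (a : ℝ) * p + b * q = 1 := by exact_mod_cast hab
  refine ⟨-(a * m₂ + b * m₃), ?_⟩
  rw [ht0, zero_mul] at h2 h3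
  push_cast
  linear_combination (-(a : ℝ)) * h2 - (b : ℝ) * h3 - u * hab'

theorem BFi_int0 {p q : ℤ} (hpq : IsCoprime p q) {o₂ o₃ : ℤ} (hN : q * o₂ - p * o₃ ≠ 0) {t u : ℝ}
    (h2 : t * o₂ = u * p) (h3 : t * o₃ = u * q) : t = 0 ∧ u = 0 := by
  have h4 : t * ((q : ℝ) * o₂ - p * o₃) = 0 := by
    linear_combination (q : ℝ) * h2 - (p : ℝ) * h3
  have hN' : (q : ℝ) * o₂ - p * o₃ ≠ 0 := by exact_mod_cast hN
  have ht0 : t = 0 := by
    rcases mul_eq_zero.1 h4 with h | h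
    · exact h
    · exact absurd h hN'
  refine ⟨ht0, ?_⟩
  obtain ⟨a, b, hab⟩ := hpq
  have hab' : (a : ℝ) * p + b * q = 1 := by exact_mod_cast hab
  rw [ht0, zero_mul] at h2 h3
  linear_combination (-(a : ℝ)) * h2 - (b : ℝ) * h3 - u * hab'

theorem BFi_half {σ : ℤ} (hσ : σ = 1 ∨ σ = -1) {c : ℝ} (h0 : 0 < c) (h1 : c ≤ 1 / 2) {k : ℤ}
    (h : (σ : ℝ) * c = k) : False := by
  rcases hσ with rfl | rfl
  · have h2 : c = k := by
      push_cast at h
      linarith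
    have h3 : (0 : ℝ) < k := by linarith
    have h4 : (k : ℝ) < 1 := by linarith
    have h5 : (0 : ℤ) < k := by exact_mod_cast h3
    have h6 : k < (1 : ℤ) := by exact_mod_cast h4
    omega
  · have h2 : c = -k := by
      push_cast at h
      linarith
    have h3 : (k : ℝ) < 0 := by linarith
    have h4 : (-1 : ℝ) < k := by linarith
    have h5 : k < (0 : ℤ) := by exact_mod_cast h3
    have h6 : (-1 : ℤ) < k := by exact_mod_cast h4
    omega

theorem BFi_dcont : Continuous fun l : ℝ => |l - round l| := by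
  have h1 : (fun l : ℝ => |l - round l|) = fun l : ℝ => ‖((l : ℝ) : UnitAddCircle)‖ := by
    funext l
    rw [UnitAddCircle.norm_eq]
  rw [h1]
  exact continuous_norm.comp (AddCircle.continuous_mk' 1)

theorem BFi_round {y : ℝ} (h : |y| < 1 / 2) : round y = 0 := by
  obtain ⟨h1, h2⟩ := abs_lt.1 h
  rw [round_eq_zero_iff]
  exact ⟨by linarith, h2⟩

theorem BFi_far {ε x : ℝ} (h0 : ε < x) (h1 : x < 1 - ε) : ε < |x - round x| := by
  by_contra hc
  obtain ⟨h2, h3⟩ := abs_le.1 (not_lt.1 hc)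
  have h4 : (0 : ℝ) < round x := by linarith
  have h5 : (round x : ℝ) < 1 := by linarith
  have h6 : (0 : ℤ) < round x := by exact_mod_cast h4
  have h7 : round x < (1 : ℤ) := by exact_mod_cast h5
  omega

theorem BFi_conj (t : ℝ) : ex (-t) = (starRingEnd ℂ) (ex t) := by
  unfold Pool.Agent.RSG.ex
  rw [← Complex.exp_conj]
  congr 1
  rw [map_mul, Complex.conj_ofReal, Complex.conj_I]
  push_cast
  ring

theorem BFi_exs {σ : ℤ} (hσ : σ = 1 ∨ σ = -1) {r t a b : ℝ} (h : (r : ℂ) * ex t = ⟨a, b⟩) :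
    (r : ℂ) * ex (σ * t) = ⟨a, σ * b⟩ := by
  rcases hσ with rfl | rfl
  · rw [Int.cast_one, one_mul, one_mul, h]
  · have h1 := congrArg (starRingEnd ℂ) h
    rw [map_mul, Complex.conj_ofReal, ← BFi_conj] at h1
    rw [show ((-1 : ℤ) : ℝ) * t = -t by push_cast; ring, h1]
    apply Complex.ext <;> simp

theorem BFi_exh {σ : ℤ} (hσ : σ = 1 ∨ σ = -1) (t : ℝ) : ex (σ * (1 / 2 - t)) = -ex (σ * (-t)) := by
  have h1 : ex ((σ : ℝ) * (1 / 2)) = -1 := by
    rcases hσ with rfl | rfl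
    · unfold Pool.Agent.RSG.ex
      have : ((2 * Real.pi * (((1 : ℤ) : ℝ) * (1 / 2)) : ℝ) : ℂ) * I = Real.pi * I := by
        push_cast
        ring
      rw [this, Complex.exp_pi_mul_I]
    · unfold Pool.Agent.RSG.ex
      have : ((2 * Real.pi * (((-1 : ℤ) : ℝ) * (1 / 2)) : ℝ) : ℂ) * I = -(Real.pi * I) := by
        push_cast
        ring
      rw [this, Complex.exp_neg, Complex.exp_pi_mul_I]
      norm_num
  have h2 : (σ : ℝ) * (1 / 2 - t) = σ * (1 / 2) + σ * (-t) := by ring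
  rw [h2, Pool.Agent.RSG.ex_add, h1, neg_one_mul]

/-- **A path which is (linearly) homotopic to the segment `[0, o]` carries the same manifolds as the linear knot.** -/
theorem base_iff {v n₀ n₁ o x₀ : ℤ × ℤ × ℤ} {σ₁ σ₂ : ℤ} (hσ₁ : σ₁ = 1 ∨ σ₁ = -1) (hσ₂ : σ₂ = 1 ∨ σ₂ = -1)
    {w : ℝ → ℝ × ℝ × ℝ} (hw : GPath v n₀ n₁ w)
    (h01 : (n₀.1 : ℝ) + 1 / 2 = x₀.1 + σ₁ / 2) (h02 : n₀.2.1 = x₀.2.1) (h03 : n₀.2.2 = x₀.2.2)
    (h11 : n₁.1 = x₀.1 + o.1) (h12 : (n₁.2.1 : ℝ) + 1 / 2 = x₀.2.1 + o.2.1 + σ₂ / 2) (h13 : n₁.2.2 = x₀.2.2 + o.2.2)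
    (hv1 : IsCoprime v.2.1 v.2.2) (hv2 : IsCoprime v.1 v.2.2)
    (h : IsCoprime (v.2.2 * o.2.1 - v.2.1 * o.2.2) (v.2.2 * o.1 - v.1 * o.2.2))
    (hn1 : v.2.2 * o.2.1 - v.2.1 * o.2.2 ≠ 0) (hn2 : v.2.2 * o.1 - v.1 * o.2.2 ≠ 0)
    (hseg : ∀ ρ, 0 < ρ → ρ < 1 → ∀ s ∈ Icc (0 : ℝ) 1, NotV v ((1 - s) • (w ρ - rv x₀) + (s * ρ) • rv o))
    (n : ℤ) (Y : Type*) [TopologicalSpace Y] [ChartedSpace E4 Y] :
    GCar v n w Y ↔ Carries ISP (gact v) n (fun l => gE (1 / 2) (l • rv o)) Y := by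
  obtain ⟨ε₀, hε₀, hst⟩ := hw.start
  obtain ⟨ε₁, hε₁, hsp⟩ := hw.stop
  set N₁ : ℝ := |(v.2.2 : ℝ) * o.2.1 - v.2.1 * o.2.2| with hN₁
  set N₂ : ℝ := |(v.2.2 : ℝ) * o.1 - v.1 * o.2.2| with hN₂
  have hN₁0 : 0 ≤ N₁ := abs_nonneg _
  have hN₂0 : 0 ≤ N₂ := abs_nonneg _
  obtain ⟨ε, hε, hε12, hεs, hεt, hεa, hεb⟩ : ∃ ε : ℝ, 0 < ε ∧ ε ≤ 1 / 12 ∧ 2 * ε ≤ ε₀ ∧ 2 * ε ≤ ε₁ ∧
      2 * ε * N₁ < 1 ∧ 2 * ε * N₂ < 1 := by
    refine ⟨min (1 / 12) (min (ε₀ / 2) (min (ε₁ / 2) (min (1 / (4 * (N₁ + 1))) (1 / (4 * (N₂ + 1)))))),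
      ?_, min_le_left _ _, ?_, ?_, ?_, ?_⟩
    · refine lt_min (by norm_num) (lt_min (by linarith) (lt_min (by linarith)
        (lt_min (by positivity) (by positivity))))
    · have := (min_le_right (1 / 12 : ℝ) (min (ε₀ / 2) (min (ε₁ / 2) (min (1 / (4 * (N₁ + 1)))
        (1 / (4 * (N₂ + 1))))))).trans (min_le_left _ _)
      linarith
    · have := ((min_le_right (1 / 12 : ℝ) (min (ε₀ / 2) (min (ε₁ / 2) (min (1 / (4 * (N₁ + 1)))
        (1 / (4 * (N₂ + 1))))))).trans (min_le_right _ _)).trans (min_le_left _ _)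
      linarith
    · have h1 := (((min_le_right (1 / 12 : ℝ) (min (ε₀ / 2) (min (ε₁ / 2) (min (1 / (4 * (N₁ + 1)))
        (1 / (4 * (N₂ + 1))))))).trans (min_le_right _ _)).trans (min_le_right _ _)).trans
        (min_le_left _ _)
      have h2 := mul_le_mul_of_nonneg_right h1 hN₁0
      have h3 : 1 / (4 * (N₁ + 1)) * N₁ ≤ 1 / 4 := by
        rw [div_mul_eq_mul_div, div_le_iff₀ (by positivity)]
        linarith
      linarith
    · have h1 := (((min_le_right (1 / 12 : ℝ) (min (ε₀ / 2) (min (ε₁ / 2) (min (1 / (4 * (N₁ + 1)))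
        (1 / (4 * (N₂ + 1))))))).trans (min_le_right _ _)).trans (min_le_right _ _)).trans
        (min_le_right _ _)
      have h2 := mul_le_mul_of_nonneg_right h1 hN₂0
      have h3 : 1 / (4 * (N₂ + 1)) * N₂ ≤ 1 / 4 := by
        rw [div_mul_eq_mul_div, div_le_iff₀ (by positivity)]
        linarith
      linarith
  have hs : ∀ ρ ≤ 2 * ε, w ρ = (1 / 2 + (n₀.1 : ℝ), (n₀.2.1 : ℝ), (n₀.2.2 : ℝ)) :=
    fun ρ hρ => hst ρ (hρ.trans hεs)
  have ht : ∀ ρ, 1 - 2 * ε ≤ ρ → w ρ = ((n₁.1 : ℝ), 1 / 2 + (n₁.2.1 : ℝ), (n₁.2.2 : ℝ)) :=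
    fun ρ hρ => hsp ρ (by linarith)
  obtain ⟨δ, hδ, hδε, hdel⟩ := exists_delta hε
  obtain ⟨ρ, X, hρs, hXs, hρ01, hρp, hρe, hρm, hρd, hXp, hX0, hX1, hXm, hXn⟩ :=
    exists_curve hw h01 h02 h03 h11 h12 h13 hε hε12 hδ hδε hdel hs ht
  obtain ⟨b1, b2, b3, b4, b5⟩ := bmp_facts hε
  obtain ⟨t1, t2, t3, t4, t5, t6⟩ := th_facts hε hδ
  obtain ⟨r1, r2, r3, r4, r5, r6⟩ := rh_facts hε hδ
  -- the curves
  let K₂ : ℝ → SP := fun l => gE (ρ l) (X l)
  let K₁ : ℝ → SP := fun l => if |l - round l| ≤ ε then K₂ l else gK w l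
  have hK₂c : Continuous K₂ := by
    rw [continuous_iff_continuousAt]
    intro l
    have e1 : ContinuousAt (fun q : ℝ × ℝ × ℝ × ℝ => gE q.1 q.2) (ρ l, X l) :=
      (gE_ld (hρ01 l).1 (hρ01 l).2 (X l)).contMDiffAt.continuousAt
    have e2 : ContinuousAt (fun l : ℝ => ((ρ l, X l) : ℝ × ℝ × ℝ × ℝ)) l :=
      (hρs.continuous.prodMk hXs.continuous).continuousAt
    exact ContinuousAt.comp (g := fun q : ℝ × ℝ × ℝ × ℝ => gE q.1 q.2)
      (f := fun l : ℝ => ((ρ l, X l) : ℝ × ℝ × ℝ × ℝ)) e1 e2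
  have hK₂p : ∀ l, K₂ (l + 1) = K₂ l := by
    intro l
    show gE (ρ (l + 1)) (X (l + 1)) = gE (ρ l) (X l)
    rw [hρp, hXp]
    exact gE_per (ρ l) (X l) o
  have hK₂z : ∀ (m : ℤ) l, K₂ (l + m) = K₂ l := by
    intro m l
    have hp : Function.Periodic K₂ 1 := hK₂p
    have := hp.int_mul m l
    rwa [mul_one] at this
  have hgz : ∀ (m : ℤ) l, gK w (l + m) = gK w l := by
    intro m l
    have hp : Function.Periodic (gK w) 1 := gK_per w
    have := hp.int_mul m l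
    rwa [mul_one] at this
  have hmid : ∀ l, ε / 2 ≤ |l| → |l| ≤ 1 / 2 - ε / 2 → K₂ l = gK w l := by
    intro l hl1 hl2
    rcases le_total 0 l with hl | hl
    · rw [abs_of_nonneg hl] at hl1 hl2
      obtain ⟨e1, e2⟩ := hXm l hl1 hl2
      rw [gK_pos w hl (by linarith)]
      show gE (ρ l) (X l) = _
      rw [e1, e2]
      have h1 := gE_per (2 * l) (w (2 * l) - rv x₀) x₀
      rw [← h1]
      congr 1
      unfold addZ rv
      refine Prod.ext ?_ (Prod.ext ?_ ?_) <;> simp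
    · rw [abs_of_nonpos hl] at hl1 hl2
      obtain ⟨e1, e2⟩ := hXn (-l) hl1 hl2
      rw [neg_neg] at e1 e2
      rw [gK_neg w (by linarith) (by linarith)]
      show gE (ρ l) (X l) = _
      rw [e1, e2]
      congr 1
      ring
  have hdper : ∀ (l : ℝ), |l + 1 - round (l + 1)| = |l - round l| := by
    intro l
    rw [round_add_one]
    congr 1
    push_cast
    ring
  have hdz : ∀ l : ℝ, |l - round l| = ε → K₂ l = gK w l := by
    intro l hl
    have h1 := hmid (l - round l) (by rw [hl]; linarith) (by rw [hl]; linarith)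
    have h2 := hK₂z (round l) (l - round l)
    have h3 := hgz (round l) (l - round l)
    rw [sub_add_cancel] at h2 h3
    rw [h2, h3, h1]
  have hK₁c : Continuous K₁ :=
    Continuous.if_le hK₂c (gK_cont hw) BFi_dcont continuous_const hdz
  have hK₁p : ∀ l, K₁ (l + 1) = K₁ l := by
    intro l
    show (if |l + 1 - round (l + 1)| ≤ ε then K₂ (l + 1) else gK w (l + 1)) =
      if |l - round l| ≤ ε then K₂ l else gK w l
    rw [hdper, hK₂p, gK_per]
  have hK₁n : ∀ l, |l| ≤ ε → K₁ l = K₂ l := by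
    intro l hl
    show (if |l - round l| ≤ ε then K₂ l else gK w l) = _
    rw [BFi_round (by linarith), Int.cast_zero, sub_zero, if_pos hl]
  have hK₁f : ∀ l, |l| < 1 / 2 → ε ≤ |l| → K₁ l = gK w l := by
    intro l hl1 hl2
    rcases hl2.eq_or_lt with he | he
    · rw [hK₁n l he.symm.le]
      exact hmid l (by linarith) (by linarith)
    · show (if |l - round l| ≤ ε then K₂ l else gK w l) = _
      rw [BFi_round hl1, Int.cast_zero, sub_zero, if_neg (not_le.2 he)]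
  have hact := gact_Act hv1 hv2
  -- near the core `ρ = 0`
  have hnear : ∀ (g g' : ℤ) l, |l| ≤ ε →
      K₂ l = VC1 v g g' ((⟨-2 * l, σ₁ * (δ * bmp ε l)⟩, 0), 0) := by
    intro g g' l hl
    obtain ⟨e1, e2⟩ := hX0 l hl
    show gE (ρ l) (X l) = _
    rw [e1, e2]
    have h1 := gE_VC1 (r3 l).le ((r5 hδε l hl).trans (by linarith)) (σ₁ * th ε δ l) v g g' 0
    have h2 : addZ ((σ₁ * th ε δ l, 0, 0) : ℝ × ℝ × ℝ) 0 = (σ₁ * th ε δ l, 0, 0) := by
      unfold addZ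
      simp
    rw [h2] at h1
    rw [h1, BFi_exs hσ₁ (r6 l)]
  have hhalf : ∀ (g g' : ℤ) l, |l| ≤ ε →
      K₂ (1 / 2 + l) = VC2 v g g' ((⟨-2 * l, -σ₂ * (δ * bmp ε l)⟩, 0), 0) := by
    intro g g' l hl
    obtain ⟨e1, e2⟩ := hX1 l hl
    show gE (ρ (1 / 2 + l)) (X (1 / 2 + l)) = _
    rw [e1, e2]
    have h1 := gE_VC2 (r3 l).le ((r5 hδε l hl).trans (by linarith)) (σ₂ * (1 / 2 - th ε δ l)) v g g' o
    have h2 : addZ ((0, σ₂ * (1 / 2 - th ε δ l), 0) : ℝ × ℝ × ℝ) o =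
        rv o + (0, σ₂ * (1 / 2 - th ε δ l), 0) := by
      unfold addZ rv
      refine Prod.ext ?_ (Prod.ext ?_ ?_) <;> simp [add_comm]
    rw [h2] at h1
    rw [h1, BFi_exh hσ₂]
    have h3 : -((rh ε δ l : ℂ) * -ex (σ₂ * -th ε δ l)) = (rh ε δ l : ℂ) * ex (((-σ₂ : ℤ) : ℝ) * th ε δ l) := by
      rw [mul_neg, neg_neg]
      congr 2
      push_cast
      ring
    have hσ' : -σ₂ = 1 ∨ -σ₂ = -1 := by
      rcases hσ₂ with h | h <;> rw [h] <;> simp
    rw [h3, BFi_exs hσ' (r6 l)]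
    push_cast
    rfl
  -- ratio facts for the curves
  have hβn : ∀ (σ : ℤ), (σ = 1 ∨ σ = -1) → ∀ l, |l| ≤ ε / 2 →
      4 * l ^ 2 + ((σ : ℝ) * (δ * bmp ε l)) ^ 2 < 4 * ε ^ 2 := by
    intro σ hσ l hl
    have h1 : (σ : ℝ) ^ 2 = 1 := by
      rcases hσ with h | h <;> rw [h] <;> norm_num
    have h2 : l ^ 2 ≤ (ε / 2) ^ 2 := sq_le_sq.2 (by rwa [abs_of_pos (by linarith : (0 : ℝ) < ε / 2)])
    have h3 : (δ * bmp ε l) ^ 2 ≤ ε ^ 2 := by
      have h4 := b3 l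
      have h5 : 0 ≤ δ * bmp ε l := mul_nonneg hδ.le h4.1
      have h6 : δ * bmp ε l ≤ ε := by nlinarith
      exact pow_le_pow_left₀ h5 h6 2
    rw [mul_pow, h1, one_mul]
    nlinarith
  -- first step
  have step1 : Carries ISP (gact v) n (gK w) Y ↔ Carries ISP (gact v) n K₁ Y := by
    obtain ⟨a, b, hab⟩ := hv1
    have hg : b * v.2.2 - (-a) * v.2.1 = 1 := by linarith
    refine cap hact (VC1_chart hg) hε (by linarith) (by linarith) (gK_cont hw) (gK_per w) hK₁p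
      (l₀ := 0) (fun l hl => ?_) ?_ (β := fun l => σ₁ * (δ * bmp ε l))
      (contDiff_const.mul (contDiff_const.mul b1)) (fun l hl => ?_) (hβn σ₁ hσ₁) (fun l hl => ?_) ?_ n Y
    · rw [zero_add]
      exact gK_zero hw (by linarith) hs b (-a) hl
    · intro l hl1 hl2 z Y' t hz he
      rw [zero_add] at he
      obtain ⟨q1, q2, -, -⟩ := VC_ratio v b (-a) z Y' t
      rw [← he] at q1 q2
      have q3 := norm_pos_iff.2 q2
      rcases lt_trichotomy l (1 / 2) with hl | hl | hl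
      · rw [gK_pos w (by linarith) hl] at q1 q3
        obtain ⟨u1, -⟩ := gE_ratio (ρ := 2 * l) (by linarith) (by linarith) (w (2 * l))
        rw [q1] at u1
        have := le_of_mul_le_mul_right u1 q3
        linarith
      · have e1 := gK_per w (-(1 / 2))
        have e2 : -(1 / 2 : ℝ) + 1 = l := by rw [hl]; norm_num
        rw [e2, gK_neg w le_rfl (by norm_num)] at e1
        have e3 : -2 * -(1 / 2 : ℝ) = 1 := by norm_num
        rw [e3] at e1
        rw [e1] at q2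
        exact q2 (gE_one _).1
      · have e1 := gK_per w (l - 1)
        rw [sub_add_cancel, gK_neg w (l := l - 1) (by linarith) (by linarith)] at e1
        rw [e1] at q1 q3
        obtain ⟨u1, -⟩ := gE_ratio (ρ := -2 * (l - 1)) (by linarith) (by linarith) (0, 0, 0)
        rw [q1] at u1
        have := le_of_mul_le_mul_right u1 q3
        linarith
    · rw [b5 l hl, mul_zero, mul_zero]
    · rw [zero_add, hK₁n l hl]
      exact hnear b (-a) l hl
    · intro l hl1 hl2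
      rw [zero_add]
      rcases hl1.eq_or_lt with he | he
      · rw [hK₁n l (by rw [← he, abs_of_pos hε])]
        exact hmid l (by rw [← he, abs_of_pos hε]; linarith) (by rw [← he, abs_of_pos hε]; linarith)
      rcases hl2.eq_or_lt with he' | he'
      · have e1 := hK₁p (l - 1)
        have e2 := gK_per w (l - 1)
        rw [sub_add_cancel] at e1 e2
        have e3 : |l - 1| = ε := by
          rw [he', show 1 - ε - 1 = -ε by ring, abs_neg, abs_of_pos hε]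
        rw [e1, e2, hK₁n (l - 1) e3.le]
        exact hmid (l - 1) (by rw [e3]; linarith) (by rw [e3]; linarith)
      · show (if |l - round l| ≤ ε then K₂ l else gK w l) = _
        rw [if_neg (not_le.2 (BFi_far he he'))]
  -- second step
  have step2 : Carries ISP (gact v) n K₁ Y ↔ Carries ISP (gact v) n K₂ Y := by
    obtain ⟨a, b, hab⟩ := hv2
    have hg : b * v.2.2 - (-a) * v.1 = 1 := by linarith
    refine cap hact (VC2_chart hg) hε (by linarith) (by linarith) hK₁c hK₁p hK₂p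
      (l₀ := 1 / 2) (fun l hl => ?_) ?_ (β := fun l => -σ₂ * (δ * bmp ε l))
      (contDiff_const.mul (contDiff_const.mul b1)) (fun l hl => ?_) (fun l hl => ?_) (fun l hl => ?_) ?_ n Y
    · obtain ⟨hl1, hl2⟩ := abs_le.1 hl
      show (if |1 / 2 + l - round (1 / 2 + l)| ≤ ε then K₂ (1 / 2 + l) else gK w (1 / 2 + l)) = _
      rw [if_neg (not_le.2 (BFi_far (by linarith) (by linarith)))]
      exact gK_half hw (by linarith) ht b (-a) hl
    · intro l hl1 hl2 z Y' t hz he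
      have e0 := hK₁p (l - 1 / 2)
      rw [show l - 1 / 2 + 1 = 1 / 2 + l by ring] at e0
      obtain ⟨-, -, q1, q2⟩ := VC_ratio v b (-a) z Y' t
      rw [← he, e0] at q1 q2
      have q3 := norm_pos_iff.2 q2
      have hy : |l - 1 / 2| ≤ 1 / 2 - ε := by
        rw [abs_le]
        constructor <;> linarith
      rcases le_total |l - 1 / 2| ε with hy1 | hy1
      · rw [hK₁n _ hy1] at q1 q3
        obtain ⟨-, u1, -⟩ := gE_ratio (hρ01 (l - 1 / 2)).1 (hρ01 (l - 1 / 2)).2 (X (l - 1 / 2))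
        have u2 : (1 - ρ (l - 1 / 2)) * ‖z1 (K₂ (l - 1 / 2)).1‖ ≤ ‖z2 (K₂ (l - 1 / 2)).1‖ := u1
        rw [q1] at u2
        have u3 := le_of_mul_le_mul_right u2 q3
        rw [(hX0 _ hy1).1] at u3
        have u4 := r5 hδε _ hy1
        linarith
      · rw [hK₁f _ (by linarith) hy1] at q1 q3
        rcases le_total 0 (l - 1 / 2) with hy2 | hy2
        · rw [abs_of_nonneg hy2] at hy hy1
          rw [gK_pos w hy2 (by linarith)] at q1 q3
          obtain ⟨-, u1, -⟩ := gE_ratio (ρ := 2 * (l - 1 / 2)) (by linarith) (by linarith)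
            (w (2 * (l - 1 / 2)))
          rw [q1] at u1
          have := le_of_mul_le_mul_right u1 q3
          linarith
        · rw [abs_of_nonpos hy2] at hy hy1
          rw [gK_neg w (by linarith) (by linarith)] at q1 q3
          obtain ⟨-, u1, -⟩ := gE_ratio (ρ := -2 * (l - 1 / 2)) (by linarith) (by linarith) (0, 0, 0)
          rw [q1] at u1
          have := le_of_mul_le_mul_right u1 q3
          linarith
    · rw [b5 l hl, mul_zero, mul_zero]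
    · have hσ' : -σ₂ = 1 ∨ -σ₂ = -1 := by
        rcases hσ₂ with h | h <;> rw [h] <;> simp
      have := hβn (-σ₂) hσ' l hl
      push_cast at this
      exact this
    · exact hhalf b (-a) l hl
    · intro l hl1 hl2
      have e0 := hK₁p (l - 1 / 2)
      have e1 := hK₂p (l - 1 / 2)
      rw [show l - 1 / 2 + 1 = 1 / 2 + l by ring] at e0 e1
      rw [e0, e1]
      have hy : |l - 1 / 2| ≤ 1 / 2 - ε := by
        rw [abs_le]
        constructor <;> linarith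
      rcases le_total |l - 1 / 2| ε with hy1 | hy1
      · rw [hK₁n _ hy1]
      · rw [hK₁f _ (by linarith) hy1]
        exact hmid _ (by linarith) (by linarith)
  -- the loop
  have step3 : Carries ISP (gact v) n K₂ Y ↔
      Carries ISP (gact v) n (fun l => gE (1 / 2) (l • rv o)) Y := by
    refine loop_iso hv1 hv2 h hρs hXs hρ01 hρp hρe hρm hρd hXp ?_ ?_ ?_ n Y
    · intro l hl0 hl1 s hs01
      obtain ⟨hs0, hs1⟩ := hs01
      rcases le_total l ε with hlε | hlε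
      · -- near `0`
        have e1 := (hX0 l (by rw [abs_of_pos hl0]; exact hlε)).2
        have e2 := (hX0 (-l) (by rw [abs_neg, abs_of_pos hl0]; exact hlε)).2
        obtain ⟨c0, c1⟩ := t5 l hl0
        set c := th ε δ l - th ε δ (-l) with hc
        intro u m hm
        rw [e1, e2] at hm
        have m1 : (1 - s) * (σ₁ * th ε δ l - σ₁ * th ε δ (-l)) + 2 * s * l * (o.1 : ℝ) =
          m.1 + u * v.1 := congrArg (fun x : ℝ × ℝ × ℝ => x.1) hm
        have m2 : (1 - s) * ((0 : ℝ) - 0) + 2 * s * l * (o.2.1 : ℝ) = m.2.1 + u * v.2.1 :=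
          congrArg (fun x : ℝ × ℝ × ℝ => x.2.1) hm
        have m3 : (1 - s) * ((0 : ℝ) - 0) + 2 * s * l * (o.2.2 : ℝ) = m.2.2 + u * v.2.2 :=
          congrArg (fun x : ℝ × ℝ × ℝ => x.2.2) hm
        rw [sub_zero, mul_zero, zero_add] at m2 m3
        have hb : |(2 * s * l) * ((v.2.2 : ℝ) * o.2.1 - v.2.1 * o.2.2)| < 1 := by
          rw [abs_mul, ← hN₁, abs_of_nonneg (by positivity)]
          have : 2 * s * l ≤ 2 * ε := by nlinarith
          nlinarith
        obtain ⟨k1, k, hk⟩ := BFi_int hv1 hn1 hb m2 m3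
        have hs0 : s = 0 := by
          rcases mul_eq_zero.1 k1 with h | h
          · linarith
          · linarith
        rw [hs0, hk] at m1
        refine BFi_half hσ₁ c0 c1 (k := m.1 + k * v.1) ?_
        push_cast
        rw [hc]
        linarith
      rcases le_total (1 / 2 - ε) l with hlε' | hlε'
      · -- near `1/2`
        have e1 := (hX1 (-(1 / 2 - l)) (by rw [abs_neg, abs_of_pos (by linarith)]; linarith)).2
        have e2 := (hX1 (1 / 2 - l) (by rw [abs_of_pos (by linarith)]; linarith)).2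
        have e3 := hXp (-l)
        rw [show -l + 1 = 1 / 2 + (1 / 2 - l) by ring, e2] at e3
        rw [show 1 / 2 + -(1 / 2 - l) = l by ring] at e1
        have e4 : X (-l) = (0, σ₂ * (1 / 2 - th ε δ (1 / 2 - l)), 0) := by
          have := add_left_cancel (e3.trans (add_comm _ _))
          exact this.symm
        obtain ⟨c0, c1⟩ := t5 (1 / 2 - l) (by linarith)
        set c := th ε δ (1 / 2 - l) - th ε δ (-(1 / 2 - l)) with hc
        intro u m hm
        rw [e1, e4] at hm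
        have m1 : (1 - s) * ((o.1 : ℝ) + 0 - 0) + 2 * s * l * (o.1 : ℝ) = m.1 + u * v.1 :=
          congrArg (fun x : ℝ × ℝ × ℝ => x.1) hm
        have m2 : (1 - s) * ((o.2.1 : ℝ) + σ₂ * (1 / 2 - th ε δ (-(1 / 2 - l))) -
          σ₂ * (1 / 2 - th ε δ (1 / 2 - l))) + 2 * s * l * (o.2.1 : ℝ) = m.2.1 + u * v.2.1 :=
          congrArg (fun x : ℝ × ℝ × ℝ => x.2.1) hm
        have m3 : (1 - s) * ((o.2.2 : ℝ) + 0 - 0) + 2 * s * l * (o.2.2 : ℝ) = m.2.2 + u * v.2.2 :=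
          congrArg (fun x : ℝ × ℝ × ℝ => x.2.2) hm
        have hb : |(-(2 * s * (1 / 2 - l))) * ((v.2.2 : ℝ) * o.1 - v.1 * o.2.2)| < 1 := by
          rw [abs_mul, ← hN₂, abs_neg, abs_of_nonneg (by
            have : 0 ≤ 1 / 2 - l := by linarith
            positivity)]
          have : 2 * s * (1 / 2 - l) ≤ 2 * ε := by nlinarith
          nlinarith
        obtain ⟨k1, k, hk⟩ := BFi_int (m₂ := m.1 - o.1) (m₃ := m.2.2 - o.2.2) (u := u) hv2 hn2 hb
          (by push_cast; linarith) (by push_cast; linarith)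
        have hs0 : s = 0 := by
          have k2 : s * (2 * (1 / 2 - l)) = 0 := by linarith
          rcases mul_eq_zero.1 k2 with h | h
          · exact h
          · linarith
        rw [hs0, hk] at m2
        refine BFi_half hσ₂ c0 c1 (k := m.2.1 - o.2.1 + k * v.2.1) ?_
        push_cast
        rw [hc]
        linarith
      · -- in the middle
        obtain ⟨-, e1⟩ := hXm l (by linarith) (by linarith)
        obtain ⟨-, e2⟩ := hXn l (by linarith) (by linarith)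
        rw [e1, e2, sub_zero]
        have := hseg (2 * l) (by linarith) (by linarith) s ⟨hs0, hs1⟩
        rwa [show s * (2 * l) = 2 * s * l by ring] at this
    · intro s hs01 u hu
      have e1 : HasDerivAt (th ε δ) (deriv (th ε δ) 0) 0 := (t1.differentiable (by simp) 0).hasDerivAt
      have e2 : HasDerivAt (fun l : ℝ => ((σ₁ * th ε δ l, 0, 0) : ℝ × ℝ × ℝ))
          (σ₁ * deriv (th ε δ) 0, 0, 0) 0 :=
        (e1.const_mul (σ₁ : ℝ)).prodMk ((hasDerivAt_const _ _).prodMk (hasDerivAt_const _ _))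
      have e3 : HasDerivAt X (σ₁ * deriv (th ε δ) 0, 0, 0) 0 := by
        refine e2.congr_of_eventuallyEq ?_
        have : ∀ᶠ l : ℝ in 𝓝 0, |l| < ε := by
          have := (continuous_abs (G := ℝ)).continuousAt (x := 0)
          refine this.eventually_lt continuousAt_const ?_
          rw [abs_zero]
          exact hε
        filter_upwards [this] with l hl using (hX0 l hl.le).2
      rw [e3.deriv] at hu
      have m1 : (1 - s) * (σ₁ * deriv (th ε δ) 0) + s * (o.1 : ℝ) = u * v.1 :=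
        congrArg (fun x : ℝ × ℝ × ℝ => x.1) hu
      have m2 : (1 - s) * (0 : ℝ) + s * (o.2.1 : ℝ) = u * v.2.1 :=
        congrArg (fun x : ℝ × ℝ × ℝ => x.2.1) hu
      have m3 : (1 - s) * (0 : ℝ) + s * (o.2.2 : ℝ) = u * v.2.2 :=
        congrArg (fun x : ℝ × ℝ × ℝ => x.2.2) hu
      rw [mul_zero, zero_add] at m2 m3
      obtain ⟨k1, k2⟩ := BFi_int0 hv1 hn1 m2 m3
      rw [k1, k2] at m1
      have hσ : (σ₁ : ℝ) ≠ 0 := by
        rcases hσ₁ with h | h <;> rw [h] <;> norm_num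
      have : (σ₁ : ℝ) * deriv (th ε δ) 0 = 0 := by linarith
      rcases mul_eq_zero.1 this with h | h
      · exact hσ h
      · linarith
    · intro s hs01 u hu
      have e1 : HasDerivAt (th ε δ) (deriv (th ε δ) 0) 0 := (t1.differentiable (by simp) 0).hasDerivAt
      have e0 : HasDerivAt (fun l : ℝ => l - 1 / 2) 1 (1 / 2) := (hasDerivAt_id _).sub_const _
      have e1' : HasDerivAt (fun l : ℝ => th ε δ (l - 1 / 2)) (deriv (th ε δ) 0) (1 / 2) := by
        have e4 : HasDerivAt (th ε δ) (deriv (th ε δ) 0) (1 / 2 - 1 / 2) := by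
          rw [sub_self]
          exact e1
        have := HasDerivAt.comp (h := fun l : ℝ => l - 1 / 2) (1 / 2) e4 e0
        rwa [mul_one] at this
      have e2 : HasDerivAt (fun l : ℝ => rv o + ((0, σ₂ * (1 / 2 - th ε δ (l - 1 / 2)), 0) : ℝ × ℝ × ℝ))
          (0, σ₂ * (-deriv (th ε δ) 0), 0) (1 / 2) :=
        (((hasDerivAt_const _ _).prodMk (((e1'.const_sub (1 / 2)).const_mul (σ₂ : ℝ)).prodMk
          (hasDerivAt_const _ _)))).const_add _
      have e3 : HasDerivAt X (0, σ₂ * (-deriv (th ε δ) 0), 0) (1 / 2) := by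
        refine e2.congr_of_eventuallyEq ?_
        have : ∀ᶠ l : ℝ in 𝓝 (1 / 2), |l - 1 / 2| < ε := by
          have := ((continuous_id (X := ℝ)).sub (continuous_const (y := (1 / 2 : ℝ)))).abs.continuousAt
            (x := (1 / 2 : ℝ))
          refine this.eventually_lt continuousAt_const ?_
          show |(1 / 2 : ℝ) - 1 / 2| < ε
          rw [sub_self, abs_zero]
          exact hε
        filter_upwards [this] with l hl
        have := (hX1 (l - 1 / 2) hl.le).2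
        rwa [add_sub_cancel] at this
      rw [e3.deriv] at hu
      have m1 : (1 - s) * (0 : ℝ) + s * (o.1 : ℝ) = u * v.1 :=
        congrArg (fun x : ℝ × ℝ × ℝ => x.1) hu
      have m2 : (1 - s) * (σ₂ * -deriv (th ε δ) 0) + s * (o.2.1 : ℝ) = u * v.2.1 :=
        congrArg (fun x : ℝ × ℝ × ℝ => x.2.1) hu
      have m3 : (1 - s) * (0 : ℝ) + s * (o.2.2 : ℝ) = u * v.2.2 :=
        congrArg (fun x : ℝ × ℝ × ℝ => x.2.2) hu
      rw [mul_zero, zero_add] at m1 m3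
      obtain ⟨k1, k2⟩ := BFi_int0 hv2 hn2 m1 m3
      rw [k1, k2] at m2
      have hσ : (σ₂ : ℝ) ≠ 0 := by
        rcases hσ₂ with h | h <;> rw [h] <;> norm_num
      have : (σ₂ : ℝ) * deriv (th ε δ) 0 = 0 := by linarith
      rcases mul_eq_zero.1 this with h | h
      · exact hσ h
      · linarith
  exact (step1.trans step2).trans step3

/-- **The base case.** -/
theorem base {v n₀ n₁ o x₀ : ℤ × ℤ × ℤ} {σ₁ σ₂ n : ℤ} (hσ₁ : σ₁ = 1 ∨ σ₁ = -1) (hσ₂ : σ₂ = 1 ∨ σ₂ = -1)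
    {w : ℝ → ℝ × ℝ × ℝ} (hw : GPath v n₀ n₁ w)
    (h01 : (n₀.1 : ℝ) + 1 / 2 = x₀.1 + σ₁ / 2) (h02 : n₀.2.1 = x₀.2.1) (h03 : n₀.2.2 = x₀.2.2)
    (h11 : n₁.1 = x₀.1 + o.1) (h12 : (n₁.2.1 : ℝ) + 1 / 2 = x₀.2.1 + o.2.1 + σ₂ / 2) (h13 : n₁.2.2 = x₀.2.2 + o.2.2)
    (hv1 : IsCoprime v.2.1 v.2.2) (hv2 : IsCoprime v.1 v.2.2)
    (h : IsCoprime (v.2.2 * o.2.1 - v.2.1 * o.2.2) (v.2.2 * o.1 - v.1 * o.2.2))
    (hn1 : v.2.2 * o.2.1 - v.2.1 * o.2.2 ≠ 0) (hn2 : v.2.2 * o.1 - v.1 * o.2.2 ≠ 0)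
    (hc : v.2.2 + n * o.2.2 = 1 ∨ v.2.2 + n * o.2.2 = -1)
    (hseg : ∀ ρ, 0 < ρ → ρ < 1 → ∀ s ∈ Icc (0 : ℝ) 1, NotV v ((1 - s) • (w ρ - rv x₀) + (s * ρ) • rv o)) :
    GCar v n w S4 := by
  rw [base_iff hσ₁ hσ₂ hw h01 h02 h03 h11 h12 h13 hv1 hv2 h hn1 hn2 hseg]
  have h5 := lin_carries hc h hn1 hn2
  convert h5 using 3 with l
  simp only [rv, Prod.smul_mk, smul_eq_mul]
  ring_nf

end Pool.Agent.BAS
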