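import Pool.Agent.BAS.BCi
import Pool.Agent.ISO.Lift

/-!
# BAS/BGE: the coordinates `gE` of `S3 × S1`   (difficulty 3)

* `prf_*`: `prf x = (1 - S) x + S`, `S = smoothTransition (3x - 1)`; `deriv prf x = (1 - S) + 3 S' (1 - x) > 0` for `x < 2/3` and `= 0` for
  `x ≥ 2/3` (then `prf = 1`).
* `gG (s, x₁, x₂) = pS3 (exp s · ex x₁) (ex x₂)`: local diffeo everywhere (`RSG.ld_two`): local inverse
  `y ↦ (log (|z1| / |z2|), x₁ + (log (z1/|z1| / ex x₁)).im / 2π, x₂ + ..)`.  Injective modulo `Z²` in `(x₁, x₂)`.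
* `gE ρ x = (gG (lr ρ, x₁, x₂), exp 2πx₃)`, `lr ρ = log (prf ρ / prf (1 - ρ))`, smooth on `(0, 1)` with derivative
  `prf' ρ / prf ρ + prf' (1 - ρ) / prf (1 - ρ) > 0` (one of `ρ, 1 - ρ` is `< 2/3`), strictly increasing.
  `pS3_scale` with `r = prf (1 - ρ)`.
* `gE_chart`: `C ((ρ, y₁, y₂), t) = gE ρ (y₁ f + y₂ g + t v)`, `det (f, g, v) = ±1`: composition with a linear isomorphism of `ℝ⁴`;
  integrality: `y₁ f + y₂ g + t v ∈ Z³` implies `y₁, y₂, t ∈ Z` (Cramer's rule).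
* `exists_basis`: if `v₃ o₂ - v₂ o₃` and `v₃ o₁ - v₁ o₃` are coprime there is `g` with `det (o, g, v) = 1`:
  `det (o, g, v) = g₁ (o₃ v₂ - o₂ v₃)·.. + ..` is an integral linear form in `g` whose first two coefficients are (up to sign) the two
  coprime numbers: take `g = (g₁, g₂, 0)`.
* `gact_Act`: `free`: if `z1 y ≠ 0 ≠ z2 y`: `v₁ t, v₂ t, v₃ t ∈ Z`; if `z1 y = 0`: `v₂ t, v₃ t ∈ Z` and `v₂, v₃` coprime; etc.
-/

open scoped Manifold ContDiff Topology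
open Set Filter
open Complex (I)

namespace Pool.Agent.BAS

open Pool.Agent.RSG (E4 S3 S4 pS3 pS4 ex c1 c2 ht fh Thick std)
open Pool.Agent.PTH (SP ISP z1 z2 gE gact Carries prf Act)
open Pool.Agent.ISO (EChart Lat)

theorem prf_smooth : ContDiff ℝ ∞ prf := by
  have h : ContDiff ℝ ∞ fun x : ℝ => Real.smoothTransition (3 * x - 1) :=
    Real.smoothTransition.contDiff.comp (by fun_prop)
  unfold prf
  exact ((contDiff_const.sub h).mul contDiff_id).add h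

theorem prf_low {x : ℝ} (h : x ≤ 1 / 3) : prf x = x := by
  unfold prf
  rw [Real.smoothTransition.zero_of_nonpos (by linarith)]
  ring

theorem prf_high {x : ℝ} (h : 2 / 3 ≤ x) : prf x = 1 := by
  unfold prf
  rw [Real.smoothTransition.one_of_one_le (by linarith)]
  ring

theorem BGE_eq (x : ℝ) : prf x = 1 - (1 - Real.smoothTransition (3 * x - 1)) * (1 - x) := by
  unfold prf
  ring

theorem prf_pos {x : ℝ} (h : 0 < x) : 0 < prf x ∧ prf x ≤ 1 := by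
  by_cases h2 : 2 / 3 ≤ x
  · rw [prf_high h2]
    norm_num
  · push Not at h2
    have h0 := Real.smoothTransition.nonneg (3 * x - 1)
    have h1 := Real.smoothTransition.lt_one_of_lt_one (x := 3 * x - 1) (by linarith)
    constructor
    · unfold prf
      have := mul_pos (by linarith : 0 < 1 - Real.smoothTransition (3 * x - 1)) h
      linarith
    · rw [BGE_eq]
      have := mul_pos (by linarith : 0 < 1 - Real.smoothTransition (3 * x - 1))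
        (by linarith : 0 < 1 - x)
      linarith

theorem BGE_ge {x : ℝ} (h1 : x ≤ 1) : x ≤ prf x := by
  unfold prf
  have h0 := Real.smoothTransition.nonneg (3 * x - 1)
  have := mul_nonneg h0 (by linarith : 0 ≤ 1 - x)
  nlinarith

theorem BGE_lt {x y : ℝ} (h : x < y) (hx : x < 2 / 3) : prf x < prf y := by
  have h1 := Real.smoothTransition.lt_one_of_lt_one (x := 3 * x - 1) (by linarith)
  by_cases hy : 2 / 3 ≤ y
  · rw [prf_high hy, BGE_eq]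
    have := mul_pos (by linarith : 0 < 1 - Real.smoothTransition (3 * x - 1))
      (by linarith : 0 < 1 - x)
    linarith
  · push Not at hy
    rw [BGE_eq, BGE_eq]
    have h2 : Real.smoothTransition (3 * x - 1) ≤ Real.smoothTransition (3 * y - 1) :=
      Real.smoothTransition.monotone (by linarith)
    have h3 := Real.smoothTransition.lt_one_of_lt_one (x := 3 * y - 1) (by linarith)
    have h4 : (1 - Real.smoothTransition (3 * y - 1)) * (1 - y) <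
        (1 - Real.smoothTransition (3 * y - 1)) * (1 - x) :=
      mul_lt_mul_of_pos_left (by linarith) (by linarith)
    have h5 : (1 - Real.smoothTransition (3 * y - 1)) * (1 - x) ≤
        (1 - Real.smoothTransition (3 * x - 1)) * (1 - x) :=
      mul_le_mul_of_nonneg_right (by linarith) (by linarith)
    linarith

theorem BGE_le {x y : ℝ} (h : x ≤ y) : prf x ≤ prf y := by
  rcases h.eq_or_lt with rfl | h
  · exact le_rfl
  · by_cases hx : x < 2 / 3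
    · exact (BGE_lt h hx).le
    · push Not at hx
      rw [prf_high hx, prf_high (by linarith)]

/-- the ratio `prf ρ / prf (1 - ρ)` is strictly increasing, and at least `ρ` -/
theorem prf_mono {ρ ρ' : ℝ} (h0 : 0 < ρ) (h : ρ < ρ') (h1 : ρ' < 1) :
    prf ρ / prf (1 - ρ) < prf ρ' / prf (1 - ρ') := by
  have a1 := (prf_pos h0).1
  have a2 := (prf_pos (x := 1 - ρ) (by linarith)).1
  have a3 := (prf_pos (x := ρ') (by linarith)).1
  have a4 := (prf_pos (x := 1 - ρ') (by linarith)).1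
  have b1 : prf ρ ≤ prf ρ' := BGE_le h.le
  have b2 : prf (1 - ρ') ≤ prf (1 - ρ) := BGE_le (by linarith)
  rw [div_lt_div_iff₀ a2 a4]
  by_cases hx : ρ < 2 / 3
  · have := BGE_lt h hx
    calc prf ρ * prf (1 - ρ') ≤ prf ρ * prf (1 - ρ) := mul_le_mul_of_nonneg_left b2 a1.le
      _ < prf ρ' * prf (1 - ρ) := mul_lt_mul_of_pos_right this a2
  · have := BGE_lt (x := 1 - ρ') (y := 1 - ρ) (by linarith) (by push Not at hx; linarith)
    calc prf ρ * prf (1 - ρ') < prf ρ * prf (1 - ρ) := mul_lt_mul_of_pos_left this a1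
      _ ≤ prf ρ' * prf (1 - ρ) := mul_le_mul_of_nonneg_right b1 a2.le

theorem prf_ratio {ρ : ℝ} (h0 : 0 < ρ) (h1 : ρ < 1) : ρ ≤ prf ρ / prf (1 - ρ) ∧
    1 - ρ ≤ prf (1 - ρ) / prf ρ := by
  have a1 := prf_pos h0
  have a2 := prf_pos (x := 1 - ρ) (by linarith)
  constructor
  · rw [le_div_iff₀ a2.1]
    calc ρ * prf (1 - ρ) ≤ ρ * 1 := mul_le_mul_of_nonneg_left a2.2 h0.le
      _ = ρ := mul_one _
      _ ≤ prf ρ := BGE_ge h1.le
  · rw [le_div_iff₀ a1.1]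
    calc (1 - ρ) * prf ρ ≤ (1 - ρ) * 1 := mul_le_mul_of_nonneg_left a1.2 (by linarith)
      _ = 1 - ρ := mul_one _
      _ ≤ prf (1 - ρ) := BGE_ge (by linarith)

/-- `x + m`, `m` integral -/
def addZ (x : ℝ × ℝ × ℝ) (m : ℤ × ℤ × ℤ) : ℝ × ℝ × ℝ := (x.1 + m.1, x.2.1 + m.2.1, x.2.2 + m.2.2)

theorem BGE_circ (x y : ℝ) : Circle.exp (2 * Real.pi * (x + y)) =
    Circle.exp (2 * Real.pi * x) * Circle.exp (2 * Real.pi * y) := by
  rw [mul_add, Circle.exp_add]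

theorem BGE_circ_int (m : ℤ) : Circle.exp (2 * Real.pi * m) = 1 := by
  apply Circle.coe_injective
  rw [exp_coe, RSG.ex_int, Circle.coe_one]

theorem BGE_circ_eq {x y : ℝ} (h : Circle.exp (2 * Real.pi * x) = Circle.exp (2 * Real.pi * y)) :
    ∃ m : ℤ, y = x + m := by
  have h1 := congrArg (fun u : Circle => (u : ℂ)) h
  simp only [exp_coe] at h1
  exact RSG.ex_eq_iff.1 h1

theorem gE_per (ρ : ℝ) (x : ℝ × ℝ × ℝ) (m : ℤ × ℤ × ℤ) : gE ρ (addZ x m) = gE ρ x := by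
  unfold gE addZ
  simp only [RSG.ex_add_int, BGE_circ, BGE_circ_int, mul_one]

/-- coordinates of `pS3 a b` -/
theorem BGE_c {a b : ℂ} (h : a ≠ 0 ∨ b ≠ 0) : ∃ r : ℝ, 0 < r ∧ z1 (pS3 a b) = r * a ∧ z2 (pS3 a b) = r * b := by
  have h1 : 0 < ‖a‖ ^ 2 + ‖b‖ ^ 2 := by
    rcases h with h | h
    · have := norm_pos_iff.2 h
      positivity
    · have := norm_pos_iff.2 h
      positivity
  set r : ℝ := (Real.sqrt (‖a‖ ^ 2 + ‖b‖ ^ 2))⁻¹ with hr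
  have hs : 0 < Real.sqrt (‖a‖ ^ 2 + ‖b‖ ^ 2) := Real.sqrt_pos.2 h1
  have hr0 : 0 < r := inv_pos.2 hs
  have hr2 : r ^ 2 * (‖a‖ ^ 2 + ‖b‖ ^ 2) = 1 := by
    rw [hr, inv_pow, Real.sq_sqrt h1.le]
    field_simp
  refine ⟨r, hr0, ?_⟩
  have h2 : ‖(r : ℂ) * a‖ ^ 2 + ‖(r : ℂ) * b‖ ^ 2 = 1 := by
    rw [norm_mul, norm_mul, Complex.norm_real, Real.norm_eq_abs, abs_of_pos hr0]
    linarith [mul_pow r ‖a‖ 2, mul_pow r ‖b‖ 2]
  have h3 := RSG.pS3_c h2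
  rw [pS3_scale hr0] at h3
  exact h3

theorem BGE_self (y : S3) : pS3 (z1 y) (z2 y) = y := RSG.pS3_self y

theorem BGE_sq (y : S3) : ‖z1 y‖ ^ 2 + ‖z2 y‖ ^ 2 = 1 := RSG.S3_sq y

theorem BGE_ne (y : S3) : z1 y ≠ 0 ∨ z2 y ≠ 0 := by
  by_contra h
  push Not at h
  have := BGE_sq y
  rw [h.1, h.2] at this
  norm_num at this

theorem BGE_prf_ne (ρ : ℝ) : prf ρ ≠ 0 ∨ prf (1 - ρ) ≠ 0 := by
  by_cases h : ρ ≤ 1 / 3
  · right
    rw [prf_high (by linarith)]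
    norm_num
  · left
    exact (prf_pos (by push Not at h; linarith)).1.ne'

theorem BGE_ab (ρ x y : ℝ) : (prf ρ : ℂ) * ex x ≠ 0 ∨ (prf (1 - ρ) : ℂ) * ex y ≠ 0 := by
  rcases BGE_prf_ne ρ with h | h
  · left
    exact mul_ne_zero (by exact_mod_cast h) (RSG.ex_ne _)
  · right
    exact mul_ne_zero (by exact_mod_cast h) (RSG.ex_ne _)

theorem gE_act (v : ℤ × ℤ × ℤ) (t ρ : ℝ) (x : ℝ × ℝ × ℝ) :
    gact v t (gE ρ x) = gE ρ (x.1 + t * v.1, x.2.1 + t * v.2.1, x.2.2 + t * v.2.2) := by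
  obtain ⟨r, hr, h1, h2⟩ := BGE_c (BGE_ab ρ x.1 x.2.1)
  unfold gact gE
  simp only
  rw [h1, h2]
  apply Prod.ext
  · simp only
    rw [RSG.ex_add, RSG.ex_add]
    have e1 : ex (v.1 * t) * (r * (prf ρ * ex x.1)) = (r : ℂ) * (prf ρ * (ex x.1 * ex (t * v.1))) := by
      rw [mul_comm (v.1 : ℝ) t]
      ring
    have e2 : ex (v.2.1 * t) * (r * (prf (1 - ρ) * ex x.2.1)) =
        (r : ℂ) * (prf (1 - ρ) * (ex x.2.1 * ex (t * v.2.1))) := by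
      rw [mul_comm (v.2.1 : ℝ) t]
      ring
    rw [e1, e2, pS3_scale hr]
  · simp only
    rw [BGE_circ, mul_comm (Circle.exp (2 * Real.pi * x.2.2)), mul_comm (v.2.2 : ℝ) t]

/-- logarithm of the ratio of the radii -/
noncomputable def BGE_lr (ρ : ℝ) : ℝ := Real.log (prf ρ) - Real.log (prf (1 - ρ))

theorem BGE_lr_exp {ρ : ℝ} (h0 : 0 < ρ) (h1 : ρ < 1) : Real.exp (BGE_lr ρ) * prf (1 - ρ) = prf ρ := by
  have a1 := prf_pos h0
  have a2 := prf_pos (x := 1 - ρ) (by linarith)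
  unfold BGE_lr
  rw [Real.exp_sub, Real.exp_log a1.1, Real.exp_log a2.1, div_mul_cancel₀ _ a2.1.ne']

theorem BGE_prf_deriv (x : ℝ) : HasDerivAt prf ((1 - Real.smoothTransition (3 * x - 1)) +
    3 * deriv Real.smoothTransition (3 * x - 1) * (1 - x)) x := by
  have h1 : HasDerivAt Real.smoothTransition (deriv Real.smoothTransition (3 * x - 1)) (3 * x - 1) :=
    ((Real.smoothTransition.contDiff (n := 1)).differentiable (by simp)).differentiableAt.hasDerivAt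
  have h2 : HasDerivAt (fun x : ℝ => 3 * x - 1) 3 x := by
    simpa using ((hasDerivAt_id x).const_mul 3).sub_const 1
  have h3 : HasDerivAt (fun x : ℝ => Real.smoothTransition (3 * x - 1))
      (deriv Real.smoothTransition (3 * x - 1) * 3) x :=
    HasDerivAt.comp (h := fun x : ℝ => 3 * x - 1) (h₂ := Real.smoothTransition) x h1 h2
  have h4 := ((h3.const_sub 1).mul (hasDerivAt_id x)).add h3
  have h5 : prf = (fun x : ℝ => 1 - Real.smoothTransition (3 * x - 1)) * id +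
      fun x : ℝ => Real.smoothTransition (3 * x - 1) := by
    funext y
    rfl
  rw [h5]
  refine h4.congr_deriv ?_
  change (-(deriv Real.smoothTransition (3 * x - 1) * 3)) * x +
    (1 - Real.smoothTransition (3 * x - 1)) * 1 + deriv Real.smoothTransition (3 * x - 1) * 3 = _
  ring

theorem BGE_prf_d0 {x : ℝ} (h1 : x < 1) : 0 ≤ deriv prf x ∧ (x < 2 / 3 → 0 < deriv prf x) := by
  rw [(BGE_prf_deriv x).deriv]
  have a1 := Real.smoothTransition.le_one (3 * x - 1)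
  have a2 : 0 ≤ deriv Real.smoothTransition (3 * x - 1) := Real.smoothTransition.monotone.deriv_nonneg
  have a3 : 0 ≤ 3 * deriv Real.smoothTransition (3 * x - 1) * (1 - x) :=
    mul_nonneg (by linarith) (by linarith)
  constructor
  · linarith
  · intro h
    have := Real.smoothTransition.lt_one_of_lt_one (x := 3 * x - 1) (by linarith)
    linarith

theorem BGE_lr_deriv {ρ : ℝ} (h0 : 0 < ρ) (h1 : ρ < 1) : ∃ d : ℝ, 0 < d ∧ HasDerivAt BGE_lr d ρ := by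
  have a1 := (prf_pos h0).1
  have a2 := (prf_pos (x := 1 - ρ) (by linarith)).1
  have d1 : HasDerivAt prf (deriv prf ρ) ρ :=
    (prf_smooth.differentiable (by simp)).differentiableAt.hasDerivAt
  have d2 : HasDerivAt prf (deriv prf (1 - ρ)) (1 - ρ) :=
    (prf_smooth.differentiable (by simp)).differentiableAt.hasDerivAt
  have d3 : HasDerivAt (fun ρ : ℝ => prf (1 - ρ)) (deriv prf (1 - ρ) * (-1)) ρ :=
    d2.comp ρ (by simpa using (hasDerivAt_id ρ).const_sub 1)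
  refine ⟨deriv prf ρ / prf ρ - deriv prf (1 - ρ) * (-1) / prf (1 - ρ), ?_, ?_⟩
  · have b1 := BGE_prf_d0 h1
    have b2 := BGE_prf_d0 (x := 1 - ρ) (by linarith)
    have c1 : 0 ≤ deriv prf ρ / prf ρ := div_nonneg b1.1 a1.le
    have c2 : 0 ≤ deriv prf (1 - ρ) / prf (1 - ρ) := div_nonneg b2.1 a2.le
    have e : deriv prf ρ / prf ρ - deriv prf (1 - ρ) * (-1) / prf (1 - ρ) =
        deriv prf ρ / prf ρ + deriv prf (1 - ρ) / prf (1 - ρ) := by ring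
    rw [e]
    by_cases h : ρ < 2 / 3
    · have := div_pos (b1.2 h) a1
      linarith
    · push Not at h
      have := div_pos (b2.2 (by linarith)) a2
      linarith
  · exact (d1.log a1.ne').sub (d3.log a2.ne')

theorem BGE_lr_smooth {ρ : ℝ} (h0 : 0 < ρ) (h1 : ρ < 1) : ContDiffAt ℝ ∞ BGE_lr ρ := by
  have a1 := (prf_pos h0).1
  have a2 := (prf_pos (x := 1 - ρ) (by linarith)).1
  have e1 : ContDiffAt ℝ ∞ (fun ρ : ℝ => Real.log (prf ρ)) ρ := prf_smooth.contDiffAt.log a1.ne'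
  have e2 : ContDiffAt ℝ ∞ (fun ρ : ℝ => prf (1 - ρ)) ρ :=
    (prf_smooth.comp (contDiff_const.sub contDiff_id)).contDiffAt
  exact e1.sub (e2.log a2.ne')

/-- `(log (|z1| / |z2|), angles)` -/
noncomputable def BGE_gG (q : ℝ × ℝ × ℝ) : S3 := pS3 (Real.exp q.1 * ex q.2.1) (ex q.2.2)

theorem BGE_gG_ne (q : ℝ × ℝ × ℝ) : (Real.exp q.1 : ℂ) * ex q.2.1 ≠ 0 :=
  mul_ne_zero (by exact_mod_cast (Real.exp_pos _).ne') (RSG.ex_ne _)

/-- the local inverse -/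
noncomputable def BGE_gi (a b : ℝ) (w : S3) : ℝ × ℝ × ℝ :=
  (Real.log (‖z1 w‖ / ‖z2 w‖), a + (Complex.log (z1 w / ex a)).im / (2 * Real.pi),
    b + (Complex.log (z2 w / ex b)).im / (2 * Real.pi))

theorem BGE_ang {r : ℝ} (hr : 0 < r) {a x : ℝ} (h1 : -(1 / 2) < x - a) (h2 : x - a < 1 / 2) :
    a + (Complex.log (r * ex x / ex a)).im / (2 * Real.pi) = x := by
  have h3 : (r : ℂ) * ex x / ex a = (r : ℂ) * ex (x - a) := by
    rw [div_eq_iff (RSG.ex_ne a), mul_assoc, ← RSG.ex_add, sub_add_cancel]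
  rw [h3, RSG.ex_log hr h1 h2]
  field_simp
  ring

theorem BGE_ang' {z : ℂ} (a : ℝ) :
    (‖z‖ : ℂ) * ex (a + (Complex.log (z / ex a)).im / (2 * Real.pi)) = z := by
  have h5 := @RSG.ex_arg (z / ex a)
  rw [norm_div, RSG.ex_norm, div_one] at h5
  rw [RSG.ex_add, Complex.log_im]
  calc (‖z‖ : ℂ) * (ex a * ex (Complex.arg (z / ex a) / (2 * Real.pi)))
      = ex a * ((‖z‖ : ℂ) * ex (Complex.arg (z / ex a) / (2 * Real.pi))) := by ring
    _ = ex a * (z / ex a) := by rw [h5]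
    _ = z := mul_div_cancel₀ _ (RSG.ex_ne a)

theorem BGE_gG_ld (q : ℝ × ℝ × ℝ) : IsLocalDiffeomorphAt 𝓘(ℝ, ℝ × ℝ × ℝ) (𝓡 3) ∞ BGE_gG q := by
  have hcf : ∀ y : ℝ × ℝ × ℝ, ∃ r : ℝ, 0 < r ∧ z1 (BGE_gG y) = ((r * Real.exp y.1 : ℝ) : ℂ) * ex y.2.1 ∧
      z2 (BGE_gG y) = (r : ℂ) * ex y.2.2 := by
    intro y
    obtain ⟨r, hr, e1, e2⟩ := BGE_c (a := Real.exp y.1 * ex y.2.1) (b := ex y.2.2) (Or.inr (RSG.ex_ne _))
    refine ⟨r, hr, ?_, e2⟩
    have : z1 (BGE_gG y) = r * (Real.exp y.1 * ex y.2.1) := e1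
    rw [this]
    push_cast
    ring
  have cz1 : Continuous z1 := z1_smooth.continuous
  have cz2 : Continuous z2 := z2_smooth.continuous
  have hslit : ∀ᶠ w : S3 in 𝓝 (BGE_gG q), z1 w / ex q.2.1 ∈ Complex.slitPlane ∧
      z2 w / ex q.2.2 ∈ Complex.slitPlane := by
    obtain ⟨r, hr, e1, e2⟩ := hcf q
    refine Filter.Eventually.and ?_ ?_
    · have hc : ContinuousAt (fun w : S3 => z1 w / ex q.2.1) (BGE_gG q) := cz1.continuousAt.div_const _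
      refine hc.eventually (Complex.isOpen_slitPlane.mem_nhds ?_)
      change z1 (BGE_gG q) / ex q.2.1 ∈ Complex.slitPlane
      rw [e1, mul_div_cancel_right₀ _ (RSG.ex_ne _)]
      exact Complex.ofReal_mem_slitPlane.2 (mul_pos hr (Real.exp_pos _))
    · have hc : ContinuousAt (fun w : S3 => z2 w / ex q.2.2) (BGE_gG q) := cz2.continuousAt.div_const _
      refine hc.eventually (Complex.isOpen_slitPlane.mem_nhds ?_)
      change z2 (BGE_gG q) / ex q.2.2 ∈ Complex.slitPlane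
      rw [e2, mul_div_cancel_right₀ _ (RSG.ex_ne _)]
      exact Complex.ofReal_mem_slitPlane.2 hr
  have hne : ∀ {w : S3}, z1 w / ex q.2.1 ∈ Complex.slitPlane ∧ z2 w / ex q.2.2 ∈ Complex.slitPlane →
      z1 w ≠ 0 ∧ z2 w ≠ 0 := by
    rintro w ⟨h1, h2⟩
    constructor
    · intro h
      rw [h, zero_div] at h1
      exact Complex.zero_notMem_slitPlane h1
    · intro h
      rw [h, zero_div] at h2
      exact Complex.zero_notMem_slitPlane h2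
  refine RSG.ld_two (g := BGE_gi q.2.1 q.2.2) ?_ ?_ ?_ ?_
  · refine Eventually.of_forall fun y => ?_
    unfold BGE_gG
    refine RSG.pS3_smooth ?_ ?_ ?_
    · refine ContDiffAt.contMDiffAt ?_
      have : ContDiff ℝ ∞ fun q : ℝ × ℝ × ℝ => ((Real.exp q.1 : ℝ) : ℂ) * ex q.2.1 := by
        refine ContDiff.mul ?_ ?_
        · exact Complex.ofRealCLM.contDiff.comp (Real.contDiff_exp.comp contDiff_fst)
        · exact RSG.ex_smooth.comp (contDiff_fst.comp contDiff_snd)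
      exact this.contDiffAt
    · refine ContDiffAt.contMDiffAt ?_
      exact (RSG.ex_smooth.comp (contDiff_snd.comp contDiff_snd)).contDiffAt
    · have := norm_pos_iff.2 (BGE_gG_ne y)
      positivity
  · filter_upwards [hslit] with w hw
    obtain ⟨n1, n2⟩ := hne hw
    have s1 : ContMDiffAt (𝓡 3) 𝓘(ℝ, ℂ) ∞ z1 w := z1_smooth.contMDiffAt
    have s2 : ContMDiffAt (𝓡 3) 𝓘(ℝ, ℂ) ∞ z2 w := z2_smooth.contMDiffAt
    have t1 : ContMDiffAt (𝓡 3) 𝓘(ℝ, ℝ) ∞ (fun w : S3 => ‖z1 w‖) w := by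
      have := (contDiffAt_norm ℝ n1 (n := ∞)).contMDiffAt.comp w s1
      exact this
    have t2 : ContMDiffAt (𝓡 3) 𝓘(ℝ, ℝ) ∞ (fun w : S3 => ‖z2 w‖) w := by
      have := (contDiffAt_norm ℝ n2 (n := ∞)).contMDiffAt.comp w s2
      exact this
    have u1 : ContMDiffAt (𝓡 3) 𝓘(ℝ, ℝ) ∞ (fun w : S3 => Real.log (‖z1 w‖ / ‖z2 w‖)) w := by
      have hG : ContDiffAt ℝ ∞ (fun p : ℝ × ℝ => Real.log (p.1 / p.2)) (‖z1 w‖, ‖z2 w‖) := by
        have n1' := norm_ne_zero_iff.2 n1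
        have n2' := norm_ne_zero_iff.2 n2
        refine ContDiffAt.log ?_ (div_ne_zero n1' n2')
        exact contDiffAt_fst.div contDiffAt_snd n2'
      have h4 : ContMDiffAt (𝓡 3) 𝓘(ℝ, ℝ × ℝ) ∞ (fun w : S3 => (‖z1 w‖, ‖z2 w‖)) w := t1.prodMk_space t2
      exact hG.contMDiffAt.comp w h4
    have u2 : ∀ (z : S3 → ℂ) (a : ℝ), ContMDiffAt (𝓡 3) 𝓘(ℝ, ℂ) ∞ z w → z w / ex a ∈ Complex.slitPlane →
        ContMDiffAt (𝓡 3) 𝓘(ℝ, ℝ) ∞ (fun w : S3 => a + (Complex.log (z w / ex a)).im / (2 * Real.pi)) w := by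
      intro z a hz hs
      have hG : ContDiffAt ℝ ∞ (fun p : ℂ => a + (Complex.log (p / ex a)).im / (2 * Real.pi)) (z w) := by
        have g1 : ContDiffAt ℝ ∞ (fun p : ℂ => p / ex a) (z w) := contDiffAt_id.div_const _
        have g2 : ContDiffAt ℝ ∞ (fun p : ℂ => Complex.log (p / ex a)) (z w) :=
          ContDiffAt.comp (z w) (f := fun p : ℂ => p / ex a) (g := Complex.log)
            ((Complex.contDiffAt_log (n := ∞) hs).restrict_scalars ℝ) g1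
        have g3 : ContDiffAt ℝ ∞ (fun p : ℂ => (Complex.log (p / ex a)).im) (z w) :=
          ContDiffAt.comp (z w) (f := fun p : ℂ => Complex.log (p / ex a)) (g := Complex.im)
            Complex.imCLM.contDiff.contDiffAt g2
        exact contDiffAt_const.add (g3.div_const _)
      exact hG.contMDiffAt.comp w hz
    exact u1.prodMk_space ((u2 z1 _ s1 hw.1).prodMk_space (u2 z2 _ s2 hw.2))
  · have b1 : ∀ᶠ y : ℝ × ℝ × ℝ in 𝓝 q, -(1 / 2) < y.2.1 - q.2.1 ∧ y.2.1 - q.2.1 < 1 / 2 := by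
      have hc : ContinuousAt (fun y : ℝ × ℝ × ℝ => y.2.1 - q.2.1) q := by fun_prop
      have := hc.eventually (Ioo_mem_nhds (a := -(1 / 2)) (b := 1 / 2) (by norm_num) (by norm_num))
      exact this
    have b2 : ∀ᶠ y : ℝ × ℝ × ℝ in 𝓝 q, -(1 / 2) < y.2.2 - q.2.2 ∧ y.2.2 - q.2.2 < 1 / 2 := by
      have hc : ContinuousAt (fun y : ℝ × ℝ × ℝ => y.2.2 - q.2.2) q := by fun_prop
      have := hc.eventually (Ioo_mem_nhds (a := -(1 / 2)) (b := 1 / 2) (by norm_num) (by norm_num))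
      exact this
    filter_upwards [b1, b2] with y h1 h2
    obtain ⟨r, hr, e1, e2⟩ := hcf y
    unfold BGE_gi
    rw [e1, e2, BGE_ang (mul_pos hr (Real.exp_pos _)) h1.1 h1.2, BGE_ang hr h2.1 h2.2]
    have e3 : Real.log (‖((r * Real.exp y.1 : ℝ) : ℂ) * ex y.2.1‖ / ‖(r : ℂ) * ex y.2.2‖) = y.1 := by
      rw [norm_mul, norm_mul, RSG.ex_norm, RSG.ex_norm, mul_one, mul_one, Complex.norm_real,
        Complex.norm_real, Real.norm_eq_abs, Real.norm_eq_abs, abs_of_pos (mul_pos hr (Real.exp_pos _)),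
        abs_of_pos hr, mul_div_cancel_left₀ _ hr.ne', Real.log_exp]
    rw [e3]
  · filter_upwards [hslit] with w hw
    obtain ⟨n1, n2⟩ := hne hw
    have n1' := norm_pos_iff.2 n1
    have n2' := norm_pos_iff.2 n2
    unfold BGE_gG BGE_gi
    simp only
    rw [Real.exp_log (div_pos n1' n2'), ← pS3_scale n2']
    have e1 : (‖z2 w‖ : ℂ) * (((‖z1 w‖ / ‖z2 w‖ : ℝ) : ℂ) *
        ex (q.2.1 + (Complex.log (z1 w / ex q.2.1)).im / (2 * Real.pi))) = z1 w := by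
      rw [← mul_assoc]
      have : (‖z2 w‖ : ℂ) * ((‖z1 w‖ / ‖z2 w‖ : ℝ) : ℂ) = ‖z1 w‖ := by
        rw [← Complex.ofReal_mul, mul_div_cancel₀ _ n2'.ne']
      rw [this, BGE_ang']
    rw [e1, BGE_ang', BGE_self]

theorem gE_ld {ρ : ℝ} (h0 : 0 < ρ) (h1 : ρ < 1) (x : ℝ × ℝ × ℝ) :
    IsLocalDiffeomorphAt 𝓘(ℝ, ℝ × ℝ × ℝ × ℝ) ISP ∞ (fun q : ℝ × ℝ × ℝ × ℝ => gE q.1 q.2) (ρ, x) := by
  have hev : ∀ᶠ q : ℝ × ℝ × ℝ × ℝ in 𝓝 (ρ, x), 0 < q.1 ∧ q.1 < 1 := by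
    have hc : ContinuousAt (fun q : ℝ × ℝ × ℝ × ℝ => q.1) (ρ, x) := by fun_prop
    exact hc.eventually (Ioo_mem_nhds (a := 0) (b := 1) h0 h1)
  set H : ℝ × ℝ × ℝ × ℝ → (ℝ × ℝ × ℝ) × ℝ := fun q => ((BGE_lr q.1, q.2.1, q.2.2.1), q.2.2.2) with hH
  have hHs : ∀ᶠ q : ℝ × ℝ × ℝ × ℝ in 𝓝 (ρ, x), ContDiffAt ℝ ∞ H q := by
    filter_upwards [hev] with q hq
    have g1 : ContDiffAt ℝ ∞ (fun q : ℝ × ℝ × ℝ × ℝ => BGE_lr q.1) q :=
      (BGE_lr_smooth hq.1 hq.2).comp q contDiffAt_fst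
    have g2 : ContDiffAt ℝ ∞ (fun q : ℝ × ℝ × ℝ × ℝ => q.2.1) q := by fun_prop
    have g3 : ContDiffAt ℝ ∞ (fun q : ℝ × ℝ × ℝ × ℝ => q.2.2.1) q := by fun_prop
    have g4 : ContDiffAt ℝ ∞ (fun q : ℝ × ℝ × ℝ × ℝ => q.2.2.2) q := by fun_prop
    exact (g1.prodMk (g2.prodMk g3)).prodMk g4
  have hHd : ∀ v, fderiv ℝ H (ρ, x) v = 0 → v = 0 := by
    intro v hv
    obtain ⟨d, hd, hlr⟩ := BGE_lr_deriv h0 h1
    have f1 : HasFDerivAt (fun q : ℝ × ℝ × ℝ × ℝ => BGE_lr q.1)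
        (d • ContinuousLinearMap.fst ℝ ℝ (ℝ × ℝ × ℝ)) (ρ, x) := by
      have := hlr.comp_hasFDerivAt (ρ, x) (hasFDerivAt_fst (𝕜 := ℝ) (E := ℝ) (F := ℝ × ℝ × ℝ) (p := (ρ, x)))
      exact this
    have f2 : HasFDerivAt (fun q : ℝ × ℝ × ℝ × ℝ => q.2) (ContinuousLinearMap.snd ℝ ℝ (ℝ × ℝ × ℝ)) (ρ, x) :=
      hasFDerivAt_snd
    have f3 : HasFDerivAt (fun q : ℝ × ℝ × ℝ × ℝ => q.2.1)
        ((ContinuousLinearMap.fst ℝ ℝ (ℝ × ℝ)).comp (ContinuousLinearMap.snd ℝ ℝ (ℝ × ℝ × ℝ))) (ρ, x) :=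
      (ContinuousLinearMap.fst ℝ ℝ (ℝ × ℝ)).hasFDerivAt.comp (ρ, x) f2
    have f4 : HasFDerivAt (fun q : ℝ × ℝ × ℝ × ℝ => q.2.2)
        ((ContinuousLinearMap.snd ℝ ℝ (ℝ × ℝ)).comp (ContinuousLinearMap.snd ℝ ℝ (ℝ × ℝ × ℝ))) (ρ, x) :=
      (ContinuousLinearMap.snd ℝ ℝ (ℝ × ℝ)).hasFDerivAt.comp (ρ, x) f2
    have f5 : HasFDerivAt (fun q : ℝ × ℝ × ℝ × ℝ => q.2.2.1)
        ((ContinuousLinearMap.fst ℝ ℝ ℝ).comp ((ContinuousLinearMap.snd ℝ ℝ (ℝ × ℝ)).comp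
          (ContinuousLinearMap.snd ℝ ℝ (ℝ × ℝ × ℝ)))) (ρ, x) :=
      (ContinuousLinearMap.fst ℝ ℝ ℝ).hasFDerivAt.comp (ρ, x) f4
    have f6 : HasFDerivAt (fun q : ℝ × ℝ × ℝ × ℝ => q.2.2.2)
        ((ContinuousLinearMap.snd ℝ ℝ ℝ).comp ((ContinuousLinearMap.snd ℝ ℝ (ℝ × ℝ)).comp
          (ContinuousLinearMap.snd ℝ ℝ (ℝ × ℝ × ℝ)))) (ρ, x) :=
      (ContinuousLinearMap.snd ℝ ℝ ℝ).hasFDerivAt.comp (ρ, x) f4
    have f7 := (f1.prodMk (f3.prodMk f5)).prodMk f6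
    have f8 : fderiv ℝ H (ρ, x) = _ := f7.fderiv
    rw [f8] at hv
    simp only [ContinuousLinearMap.prod_apply, smul_apply, ContinuousLinearMap.comp_apply,
      ContinuousLinearMap.coe_fst', ContinuousLinearMap.coe_snd', Prod.mk_eq_zero, smul_eq_mul,
      mul_eq_zero] at hv
    obtain ⟨⟨k1, k2, k3⟩, k4⟩ := hv
    have k1' : v.1 = 0 := k1.resolve_left hd.ne'
    exact Prod.ext k1' (Prod.ext k2 (Prod.ext k3 k4))
  have hHl := CSG.ld_of_fderiv hHs (by simp) hHd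
  have hP := RSG.ld_prodMap (BGE_gG_ld (H (ρ, x)).1) (circle_ld (H (ρ, x)).2)
  rw [← modelWithCornersSelf_prod, chartedSpaceSelf_prod] at hP
  have hC : IsLocalDiffeomorphAt 𝓘(ℝ, ℝ × ℝ × ℝ × ℝ) ISP ∞
      (Prod.map BGE_gG (fun x : ℝ => Circle.exp (2 * Real.pi * x)) ∘ H) (ρ, x) :=
    IsLocalDiffeomorphAt.comp (hf := hHl) (hg := hP) ..
  refine CSG.ld_congr hC ?_
  filter_upwards [hev] with q hq
  have a2 := prf_pos (x := 1 - q.1) (by linarith [hq.2])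
  show gE q.1 q.2 = (BGE_gG (BGE_lr q.1, q.2.1, q.2.2.1), Circle.exp (2 * Real.pi * q.2.2.2))
  unfold gE BGE_gG
  simp only
  have e1 : pS3 (Real.exp (BGE_lr q.1) * ex q.2.1) (ex q.2.2.1) =
      pS3 (prf q.1 * ex q.2.1) (prf (1 - q.1) * ex q.2.2.1) := by
    rw [← pS3_scale a2.1 (Real.exp (BGE_lr q.1) * ex q.2.1), ← mul_assoc, ← Complex.ofReal_mul,
      mul_comm (prf (1 - q.1)), BGE_lr_exp hq.1 hq.2]
  rw [e1]

theorem gE_inj {ρ ρ' : ℝ} {x x' : ℝ × ℝ × ℝ} (h0 : 0 < ρ) (h1 : ρ < 1) (h0' : 0 < ρ') (h1' : ρ' < 1)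
    (h : gE ρ x = gE ρ' x') : ρ = ρ' ∧ ∃ m : ℤ × ℤ × ℤ, x' = addZ x m := by
  unfold gE at h
  rw [Prod.mk.injEq] at h
  obtain ⟨hp, hc⟩ := h
  obtain ⟨m3, hm3⟩ := BGE_circ_eq hc
  obtain ⟨r, hr, e1, e2⟩ := BGE_c (BGE_ab ρ x.1 x.2.1)
  obtain ⟨r', hr', e1', e2'⟩ := BGE_c (BGE_ab ρ' x'.1 x'.2.1)
  rw [hp] at e1 e2
  rw [e1'] at e1
  rw [e2'] at e2
  have a1 := (prf_pos h0).1
  have a2 := (prf_pos (x := 1 - ρ) (by linarith)).1
  have a3 := (prf_pos h0').1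
  have a4 := (prf_pos (x := 1 - ρ') (by linarith)).1
  have p1 : ((r * prf ρ : ℝ) : ℂ) * ex x.1 = ((r' * prf ρ' : ℝ) : ℂ) * ex x'.1 := by
    push_cast
    linear_combination -e1
  have p2 : ((r * prf (1 - ρ) : ℝ) : ℂ) * ex x.2.1 = ((r' * prf (1 - ρ') : ℝ) : ℂ) * ex x'.2.1 := by
    push_cast
    linear_combination -e2
  obtain ⟨q1, m1, hm1⟩ := RSG.ex_polar (mul_pos hr a1) (mul_pos hr' a3) p1
  obtain ⟨q2, m2, hm2⟩ := RSG.ex_polar (mul_pos hr a2) (mul_pos hr' a4) p2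
  have hrat : prf ρ / prf (1 - ρ) = prf ρ' / prf (1 - ρ') := by
    rw [div_eq_div_iff a2.ne' a4.ne']
    have : r * r' * (prf ρ * prf (1 - ρ')) = r * r' * (prf ρ' * prf (1 - ρ)) := by
      have e3 : (r * prf ρ) * (r' * prf (1 - ρ')) = (r' * prf ρ') * (r * prf (1 - ρ)) := by
        rw [q1, q2]
      linarith
    exact mul_left_cancel₀ (mul_pos hr hr').ne' this
  refine ⟨?_, (m1, m2, m3), ?_⟩
  · rcases lt_trichotomy ρ ρ' with hlt | heq | hgt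
    · exact absurd hrat (prf_mono h0 hlt h1').ne
    · exact heq
    · exact absurd hrat (prf_mono h0' hgt h1).ne'
  · exact Prod.ext hm1 (Prod.ext hm2 hm3)

def det3 (f g v : ℤ × ℤ × ℤ) : ℤ :=
  f.1 * (g.2.1 * v.2.2 - g.2.2 * v.2.1) - f.2.1 * (g.1 * v.2.2 - g.2.2 * v.1) +
    f.2.2 * (g.1 * v.2.1 - g.2.1 * v.1)

/-- `y₁ f + y₂ g + t v` -/
noncomputable def comb (f g v : ℤ × ℤ × ℤ) (y₁ y₂ t : ℝ) : ℝ × ℝ × ℝ :=
  (y₁ * f.1 + y₂ * g.1 + t * v.1, y₁ * f.2.1 + y₂ * g.2.1 + t * v.2.1, y₁ * f.2.2 + y₂ * g.2.2 + t * v.2.2)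

/-- the group `0 × Z × Z` -/
def Lam2 : AddSubgroup (ℝ × ℝ × ℝ) where
  carrier := {x | x.1 = 0 ∧ (∃ i : ℤ, x.2.1 = i) ∧ ∃ j : ℤ, x.2.2 = j}
  zero_mem' := ⟨rfl, ⟨0, by simp⟩, ⟨0, by simp⟩⟩
  add_mem' := by
    rintro a b ⟨h1, ⟨i, hi⟩, j, hj⟩ ⟨h1', ⟨i', hi'⟩, j', hj'⟩
    exact ⟨by simp [h1, h1'], ⟨i + i', by simp [hi, hi']⟩, ⟨j + j', by simp [hj, hj']⟩⟩
  neg_mem' := by
    rintro a ⟨h1, ⟨i, hi⟩, j, hj⟩
    exact ⟨by simp [h1], ⟨-i, by simp [hi]⟩, ⟨-j, by simp [hj]⟩⟩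

theorem Lam2_lat : Lat Lam2 := by
  intro R
  apply Set.Finite.subset (Set.Finite.image (fun p : ℤ × ℤ => ((0 : ℝ), (p.1 : ℝ), (p.2 : ℝ)))
    ((Set.finite_Icc (-⌈R⌉) ⌈R⌉).prod (Set.finite_Icc (-⌈R⌉) ⌈R⌉)))
  rintro ⟨a, b, c⟩ ⟨⟨h1, ⟨i, hi⟩, j, hj⟩, hR⟩
  simp only at h1 hi hj
  subst h1 hi hj
  have hb : |(i : ℝ)| ≤ R := le_trans ((norm_fst_le ((i : ℝ), (j : ℝ))).trans
    (norm_snd_le ((0 : ℝ), (i : ℝ), (j : ℝ)))) hR
  have hc : |(j : ℝ)| ≤ R := le_trans ((norm_snd_le ((i : ℝ), (j : ℝ))).trans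
    (norm_snd_le ((0 : ℝ), (i : ℝ), (j : ℝ)))) hR
  have hk : ∀ k : ℤ, |(k : ℝ)| ≤ R → k ∈ Set.Icc (-⌈R⌉) ⌈R⌉ := by
    intro k hk
    rw [abs_le] at hk
    have h5 := Int.le_ceil R
    constructor
    · have h6 : ((-k : ℤ) : ℝ) ≤ (⌈R⌉ : ℝ) := by
        push_cast
        linarith [hk.1]
      have h7 : -k ≤ ⌈R⌉ := by exact_mod_cast h6
      omega
    · have h6 : (k : ℝ) ≤ (⌈R⌉ : ℝ) := hk.2.trans h5
      exact_mod_cast h6
  exact ⟨(i, j), ⟨hk i hb, hk j hc⟩, rfl⟩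

theorem BGE_real {f g v : ℤ × ℤ × ℤ} (hd : det3 f g v = 1 ∨ det3 f g v = -1) :
    ((det3 f g v : ℤ) : ℝ) * (det3 f g v : ℤ) = 1 := by
  rcases hd with h | h <;> rw [h] <;> norm_num

/-- every real vector is a combination -/
theorem BGE_lin {f g v : ℤ × ℤ × ℤ} (hd : det3 f g v = 1 ∨ det3 f g v = -1) :
    ∃ L : (ℝ × ℝ × ℝ) ≃L[ℝ] (ℝ × ℝ × ℝ), (∀ y₁ y₂ t, L (y₁, y₂, t) = comb f g v y₁ y₂ t) ∧
      ∀ x : ℝ × ℝ × ℝ, L.symm x =
        ((det3 f g v : ℝ) * (x.1 * (g.2.1 * v.2.2 - g.2.2 * v.2.1) - x.2.1 * (g.1 * v.2.2 - g.2.2 * v.1) +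
          x.2.2 * (g.1 * v.2.1 - g.2.1 * v.1)),
        (det3 f g v : ℝ) * (f.1 * (x.2.1 * v.2.2 - x.2.2 * v.2.1) - f.2.1 * (x.1 * v.2.2 - x.2.2 * v.1) +
          f.2.2 * (x.1 * v.2.1 - x.2.1 * v.1)),
        (det3 f g v : ℝ) * (f.1 * (g.2.1 * x.2.2 - g.2.2 * x.2.1) - f.2.1 * (g.1 * x.2.2 - g.2.2 * x.1) +
          f.2.2 * (g.1 * x.2.1 - g.2.1 * x.1))) := by
  have hd2 := BGE_real hd
  have hdd : ((det3 f g v : ℤ) : ℝ) = f.1 * (g.2.1 * v.2.2 - g.2.2 * v.2.1) -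
      f.2.1 * (g.1 * v.2.2 - g.2.2 * v.1) + f.2.2 * (g.1 * v.2.1 - g.2.1 * v.1) := by
    unfold det3
    push_cast
    ring
  obtain ⟨f1, f2, f3⟩ := f
  obtain ⟨g1, g2, g3⟩ := g
  obtain ⟨v1, v2, v3⟩ := v
  simp only at hdd hd2 ⊢
  generalize ((det3 (f1, f2, f3) (g1, g2, g3) (v1, v2, v3) : ℤ) : ℝ) = d at hdd hd2
  let E : (ℝ × ℝ × ℝ) ≃ₗ[ℝ] (ℝ × ℝ × ℝ) :=
    { toFun := fun y => comb (f1, f2, f3) (g1, g2, g3) (v1, v2, v3) y.1 y.2.1 y.2.2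
      map_add' := by
        intro a b
        simp only [comb, Prod.fst_add, Prod.snd_add, Prod.mk_add_mk, Prod.mk.injEq]
        refine ⟨by ring, by ring, by ring⟩
      map_smul' := by
        intro c a
        simp only [comb, Prod.smul_fst, Prod.smul_snd, Prod.smul_mk, smul_eq_mul, Prod.mk.injEq,
          RingHom.id_apply]
        refine ⟨by ring, by ring, by ring⟩
      invFun := fun x => (d * (x.1 * (g2 * v3 - g3 * v2) - x.2.1 * (g1 * v3 - g3 * v1) +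
          x.2.2 * (g1 * v2 - g2 * v1)),
        d * (f1 * (x.2.1 * v3 - x.2.2 * v2) - f2 * (x.1 * v3 - x.2.2 * v1) +
          f3 * (x.1 * v2 - x.2.1 * v1)),
        d * (f1 * (g2 * x.2.2 - g3 * x.2.1) - f2 * (g1 * x.2.2 - g3 * x.1) +
          f3 * (g1 * x.2.1 - g2 * x.1)))
      left_inv := by
        rintro ⟨y1, y2, t⟩
        simp only [comb, Prod.mk.injEq]
        refine ⟨?_, ?_, ?_⟩
        · linear_combination y1 * hd2 - d * y1 * hdd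
        · linear_combination y2 * hd2 - d * y2 * hdd
        · linear_combination t * hd2 - d * t * hdd
      right_inv := by
        rintro ⟨x1, x2, x3⟩
        simp only [comb, Prod.mk.injEq]
        refine ⟨?_, ?_, ?_⟩
        · linear_combination x1 * hd2 - d * x1 * hdd
        · linear_combination x2 * hd2 - d * x2 * hdd
        · linear_combination x3 * hd2 - d * x3 * hdd }
  exact ⟨E.toContinuousLinearEquiv, fun _ _ _ => rfl, fun _ => rfl⟩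

/-- every real vector is a combination -/
theorem comb_surj {f g v : ℤ × ℤ × ℤ} (hd : det3 f g v = 1 ∨ det3 f g v = -1) :
    ∃ L : (ℝ × ℝ × ℝ) ≃L[ℝ] (ℝ × ℝ × ℝ), ∀ y₁ y₂ t, L (y₁, y₂, t) = comb f g v y₁ y₂ t := by
  obtain ⟨L, hL, -⟩ := BGE_lin hd
  exact ⟨L, hL⟩

theorem BGE_int {f g v : ℤ × ℤ × ℤ} (hd : det3 f g v = 1 ∨ det3 f g v = -1) {y₁ y₂ t y₁' y₂' t' : ℝ}
    {m : ℤ × ℤ × ℤ} (h : comb f g v y₁' y₂' t' = addZ (comb f g v y₁ y₂ t) m) :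
    (∃ i : ℤ, y₁' = y₁ + i) ∧ (∃ j : ℤ, y₂' = y₂ + j) ∧ ∃ k : ℤ, t' = t + k := by
  obtain ⟨L, hL, hLs⟩ := BGE_lin hd
  have h1 : L (y₁', y₂', t') = L (y₁, y₂, t) + ((m.1 : ℝ), (m.2.1 : ℝ), (m.2.2 : ℝ)) := by
    rw [hL, hL, h]
    rfl
  have h2 : (y₁', y₂', t') = (y₁, y₂, t) + L.symm ((m.1 : ℝ), (m.2.1 : ℝ), (m.2.2 : ℝ)) := by
    apply L.injective
    rw [h1, map_add, L.apply_symm_apply]
  rw [hLs] at h2
  simp only [Prod.mk_add_mk, Prod.mk.injEq] at h2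
  obtain ⟨k1, k2, k3⟩ := h2
  refine ⟨⟨det3 f g v * (m.1 * (g.2.1 * v.2.2 - g.2.2 * v.2.1) - m.2.1 * (g.1 * v.2.2 - g.2.2 * v.1) +
          m.2.2 * (g.1 * v.2.1 - g.2.1 * v.1)), ?_⟩,
    ⟨det3 f g v * (f.1 * (m.2.1 * v.2.2 - m.2.2 * v.2.1) - f.2.1 * (m.1 * v.2.2 - m.2.2 * v.1) +
          f.2.2 * (m.1 * v.2.1 - m.2.1 * v.1)), ?_⟩,
    ⟨det3 f g v * (f.1 * (g.2.1 * m.2.2 - g.2.2 * m.2.1) - f.2.1 * (g.1 * m.2.2 - g.2.2 * m.1) +
          f.2.2 * (g.1 * m.2.1 - g.2.1 * m.1)), ?_⟩⟩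
  · push_cast
    exact k1
  · push_cast
    exact k2
  · push_cast
    exact k3

theorem gE_chart {f g v : ℤ × ℤ × ℤ} (hd : det3 f g v = 1 ∨ det3 f g v = -1) :
    EChart ISP (gact v) Lam2 {x : ℝ × ℝ × ℝ | 0 < x.1 ∧ x.1 < 1}
      (fun q : (ℝ × ℝ × ℝ) × ℝ => gE q.1.1 (comb f g v q.1.2.1 q.1.2.2 q.2)) := by
  refine ⟨?_, ?_, ?_, ?_, ?_, ?_⟩
  · exact (isOpen_lt continuous_const continuous_fst).inter (isOpen_lt continuous_fst continuous_const)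
  · rintro x hx m ⟨h1, -, -⟩
    simp only [mem_ofPred_eq, Prod.fst_add] at hx ⊢
    rw [h1, add_zero]
    exact hx
  · rintro x t m ⟨h1, ⟨i, hi⟩, j, hj⟩
    simp only [Prod.fst_add, Prod.snd_add]
    rw [h1, add_zero, hi, hj]
    have : comb f g v (x.2.1 + i) (x.2.2 + j) t = addZ (comb f g v x.2.1 x.2.2 t)
        (i * f.1 + j * g.1, i * f.2.1 + j * g.2.1, i * f.2.2 + j * g.2.2) := by
      unfold comb addZ
      simp only [Prod.mk.injEq]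
      push_cast
      refine ⟨by ring, by ring, by ring⟩
    rw [this, gE_per]
  · intro x t
    simp only
    rw [gE_act]
    congr 1
    unfold comb
    simp only [Prod.mk.injEq]
    refine ⟨by ring, by ring, by ring⟩
  · intro x t hx
    obtain ⟨L, hL⟩ := comb_surj hd
    let T : ((ℝ × ℝ × ℝ) × ℝ) ≃ (ℝ × ℝ × ℝ × ℝ) :=
      { toFun := fun q => (q.1.1, L (q.1.2.1, q.1.2.2, q.2))
        invFun := fun q => ((q.1, (L.symm q.2).1, (L.symm q.2).2.1), (L.symm q.2).2.2)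
        left_inv := by
          rintro ⟨⟨a, b, c⟩, d⟩
          simp
        right_inv := by
          rintro ⟨a, b⟩
          simp }
    have hT : ContDiff ℝ ∞ T := by
      have h1 : ContDiff ℝ ∞ (fun q : (ℝ × ℝ × ℝ) × ℝ => (q.1.1, L (q.1.2.1, q.1.2.2, q.2))) := by
        refine ContDiff.prodMk (by fun_prop) ?_
        exact L.contDiff.comp (by fun_prop)
      exact h1
    have hT' : ContDiff ℝ ∞ T.symm := by
      have h0 : ContDiff ℝ ∞ (fun q : ℝ × ℝ × ℝ × ℝ => L.symm q.2) := L.symm.contDiff.comp (by fun_prop)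
      have h1 : ContDiff ℝ ∞ (fun q : ℝ × ℝ × ℝ × ℝ => ((q.1, (L.symm q.2).1, (L.symm q.2).2.1), (L.symm q.2).2.2)) := by
        refine ContDiff.prodMk (ContDiff.prodMk (by fun_prop) (ContDiff.prodMk ?_ ?_)) ?_
        · exact h0.fst
        · exact h0.snd.fst
        · exact h0.snd.snd
      exact h1
    have h2 := CSG.ld_of_perm hT hT' (x, t)
    have h3 : IsLocalDiffeomorphAt 𝓘(ℝ, (ℝ × ℝ × ℝ) × ℝ) ISP ∞
        ((fun q : ℝ × ℝ × ℝ × ℝ => gE q.1 q.2) ∘ T) (x, t) :=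
      IsLocalDiffeomorphAt.comp (hf := h2) (hg := gE_ld hx.1 hx.2 _) ..
    refine CSG.ld_congr h3 (Eventually.of_forall fun q => ?_)
    show gE q.1.1 (comb f g v q.1.2.1 q.1.2.2 q.2) = gE q.1.1 (L (q.1.2.1, q.1.2.2, q.2))
    rw [hL]
  · intro x t x' t' hx hx' h
    obtain ⟨h1, m, hm⟩ := gE_inj hx.1 hx.2 hx'.1 hx'.2 h
    obtain ⟨⟨i, hi⟩, ⟨j, hj⟩, k, hk⟩ := BGE_int hd hm
    refine ⟨⟨(0, (i : ℝ), (j : ℝ)), ⟨rfl, ⟨i, rfl⟩, j, rfl⟩, ?_⟩, k, hk⟩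
    obtain ⟨x1, x2, x3⟩ := x
    obtain ⟨y1, y2, y3⟩ := x'
    simp only at h1 hi hj
    subst h1 hi hj
    simp

theorem exists_basis {v o : ℤ × ℤ × ℤ}
    (h : IsCoprime (v.2.2 * o.2.1 - v.2.1 * o.2.2) (v.2.2 * o.1 - v.1 * o.2.2)) :
    ∃ g : ℤ × ℤ × ℤ, det3 o g v = 1 := by
  obtain ⟨a, b, hab⟩ := h
  refine ⟨(-a, b, 0), ?_⟩
  unfold det3
  simp only
  linear_combination hab

theorem BGE_gact_z (v : ℤ × ℤ × ℤ) (t : ℝ) (q : SP) : z1 (gact v t q).1 = ex (v.1 * t) * z1 q.1 ∧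
    z2 (gact v t q).1 = ex (v.2.1 * t) * z2 q.1 := by
  unfold gact
  apply RSG.pS3_c
  rw [norm_mul, norm_mul, RSG.ex_norm, RSG.ex_norm, one_mul, one_mul]
  exact BGE_sq q.1

theorem BGE_ex_one {x : ℝ} {z : ℂ} (hz : z ≠ 0) (h : ex x * z = z) : ∃ m : ℤ, x = m := by
  have h1 : ex x = 1 := mul_right_cancel₀ hz (by rw [h, one_mul])
  rw [← RSG.ex_zero] at h1
  obtain ⟨m, hm⟩ := RSG.ex_eq_iff.1 h1
  refine ⟨-m, ?_⟩
  push_cast
  linarith

theorem gact_Act {v : ℤ × ℤ × ℤ} (h1 : IsCoprime v.2.1 v.2.2) (h2 : IsCoprime v.1 v.2.2) :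
    Act ISP (gact v) := by
  refine ⟨?_, ?_, ?_, ?_, ?_⟩
  · intro x
    unfold gact
    simp only [mul_zero, RSG.ex_zero, one_mul, Circle.exp_zero, BGE_self]
  · intro s t x
    obtain ⟨e1, e2⟩ := BGE_gact_z v t x
    have e3 : gact v s (gact v t x) = (pS3 (ex (v.1 * s) * z1 (gact v t x).1) (ex (v.2.1 * s) * z2 (gact v t x).1),
      Circle.exp (2 * Real.pi * (v.2.2 * s)) * (gact v t x).2) := rfl
    rw [e3, e1, e2]
    unfold gact
    simp only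
    rw [mul_add, mul_add, mul_add, RSG.ex_add, RSG.ex_add, BGE_circ, mul_assoc, mul_assoc, mul_assoc]
  · intro x
    unfold gact
    have e : ∀ k : ℤ, ex (k * 1) = 1 := fun k => by rw [mul_one, RSG.ex_int]
    have e' : Circle.exp (2 * Real.pi * (v.2.2 * 1)) = 1 := by rw [mul_one, BGE_circ_int]
    rw [e, e, e', one_mul, one_mul, one_mul, BGE_self]
  · intro t x hx
    obtain ⟨e1, e2⟩ := BGE_gact_z v t x
    rw [hx] at e1 e2
    have e3 : Circle.exp (2 * Real.pi * (v.2.2 * t)) * x.2 = x.2 := congrArg Prod.snd hx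
    have e4 : Circle.exp (2 * Real.pi * (v.2.2 * t)) = 1 := by
      have := mul_right_cancel (e3.trans (one_mul x.2).symm)
      exact this
    have e5 : ∃ m : ℤ, (v.2.2 : ℝ) * t = m := by
      have h6 : Circle.exp (2 * Real.pi * (v.2.2 * t)) = Circle.exp (2 * Real.pi * 0) := by
        rw [e4, mul_zero, Circle.exp_zero]
      obtain ⟨m, hm⟩ := BGE_circ_eq h6
      refine ⟨-m, ?_⟩
      push_cast
      linarith
    obtain ⟨m3, hm3⟩ := e5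
    rcases BGE_ne x.1 with hz | hz
    · obtain ⟨m1, hm1⟩ := BGE_ex_one hz e1.symm
      obtain ⟨a, b, hab⟩ := h2
      refine ⟨a * m1 + b * m3, ?_⟩
      have hab' : (a : ℝ) * v.1 + b * v.2.2 = 1 := by exact_mod_cast hab
      push_cast
      rw [← hm1, ← hm3]
      linear_combination -t * hab'
    · obtain ⟨m2, hm2⟩ := BGE_ex_one hz e2.symm
      obtain ⟨a, b, hab⟩ := h1
      refine ⟨a * m2 + b * m3, ?_⟩
      have hab' : (a : ℝ) * v.2.1 + b * v.2.2 = 1 := by exact_mod_cast hab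
      push_cast
      rw [← hm2, ← hm3]
      linear_combination -t * hab'
  · intro q
    have pt : ContMDiffAt ((𝓘(ℝ, ℝ)).prod ISP) 𝓘(ℝ, ℝ) ∞ (fun q : ℝ × SP => q.1) q := contMDiffAt_fst
    have p2 : ContMDiffAt ((𝓘(ℝ, ℝ)).prod ISP) ISP ∞ (fun q : ℝ × SP => q.2) q := contMDiffAt_snd
    have p3 : ContMDiffAt ((𝓘(ℝ, ℝ)).prod ISP) (𝓡 3) ∞ (fun q : ℝ × SP => q.2.1) q :=
      contMDiffAt_fst.comp q p2
    have p4 : ContMDiffAt ((𝓘(ℝ, ℝ)).prod ISP) (𝓡 1) ∞ (fun q : ℝ × SP => q.2.2) q :=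
      contMDiffAt_snd.comp q p2
    have pe : ∀ k : ℤ, ContMDiffAt ((𝓘(ℝ, ℝ)).prod ISP) 𝓘(ℝ, ℂ) ∞ (fun q : ℝ × SP => ex (k * q.1)) q := by
      intro k
      have : ContDiff ℝ ∞ (fun t : ℝ => ex (k * t)) := RSG.ex_smooth.comp (by fun_prop)
      exact this.contMDiff.contMDiffAt.comp q pt
    have pm : ContDiff ℝ ∞ (fun p : ℂ × ℂ => p.1 * p.2) := contDiff_fst.mul contDiff_snd
    have q1 : ContMDiffAt ((𝓘(ℝ, ℝ)).prod ISP) 𝓘(ℝ, ℂ) ∞ (fun q : ℝ × SP => ex (v.1 * q.1) * z1 q.2.1) q :=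
      pm.contMDiff.contMDiffAt.comp q ((pe v.1).prodMk_space (z1_smooth.contMDiffAt.comp q p3))
    have q2 : ContMDiffAt ((𝓘(ℝ, ℝ)).prod ISP) 𝓘(ℝ, ℂ) ∞ (fun q : ℝ × SP => ex (v.2.1 * q.1) * z2 q.2.1) q :=
      pm.contMDiff.contMDiffAt.comp q ((pe v.2.1).prodMk_space (z2_smooth.contMDiffAt.comp q p3))
    refine ContMDiffAt.prodMk ?_ ?_
    · refine RSG.pS3_smooth q1 q2 ?_
      rw [norm_mul, norm_mul, RSG.ex_norm, RSG.ex_norm, one_mul, one_mul, BGE_sq]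
      norm_num
    · refine circle_mul_smooth ?_ p4
      have : ContMDiff 𝓘(ℝ, ℝ) (𝓡 1) ∞ (fun t : ℝ => Circle.exp (2 * Real.pi * (v.2.2 * t))) := by
        have hlin : ContDiff ℝ ∞ (fun t : ℝ => 2 * Real.pi * (v.2.2 * t)) := by fun_prop
        exact contMDiff_circleExp.comp hlin.contMDiff
      exact this.contMDiffAt.comp q pt

end Pool.Agent.BAS
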