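import Pool.Agent.BAS.Defs
import Pool.Agent.ISO.Field

/-!
# BAS/BGe: germs of diffeomorphisms tangent to the identity extend   (difficulty 3)

`E` finite-dimensional.  `h 0 = 0`, `fderiv h 0 = id`, `h` smooth on `ball 0 r₀`.  Choose a smooth `χ : E → ℝ`, `χ = 1` on
`closedBall 0 (1/2)`, `χ = 0` off `closedBall 0 1` (from `ISO.exists_cut` with `O = ball 0 1`, `K = closedBall 0 (1/2)`), `‖Dχ‖ ≤ M`
(compact support).  For small `ε`: `G (x) = χ (x / ε) • (h x - x)` (`0` off `ball 0 ε`) is smooth, and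
`‖DG‖ ≤ (M / ε) ‖h x - x‖ + ‖D h x - 1‖` for `‖x‖ ≤ ε`; as `‖D h x - 1‖ ≤ η` for `‖x‖ ≤ ε` (continuity) we get
`‖h x - x‖ ≤ η ‖x‖ ≤ η ε` (mean value inequality on the ball), so `‖DG‖ ≤ (M + 1) η ≤ 1/2`.  Apply `ISO.small_perm`.
-/

open scoped Manifold ContDiff Topology
open Set Filter

namespace Pool.Agent.BAS

variable {E : Type*} [NormedAddCommGroup E] [NormedSpace ℝ E] [FiniteDimensional ℝ E]

/-- a smooth cut-off function with bounded derivative -/
theorem BGe_cut : ∃ (χ : E → ℝ) (M : ℝ), 0 ≤ M ∧ ContDiff ℝ ∞ χ ∧ (∀ x, 1 ≤ ‖x‖ → χ x = 0) ∧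
    (∀ x, ‖x‖ ≤ 1 / 2 → χ x = 1) ∧ (∀ x, |χ x| ≤ M) ∧ ∀ x, ‖fderiv ℝ χ x‖ ≤ M := by
  have : ProperSpace E := FiniteDimensional.proper ℝ E
  obtain ⟨χ, C, hχ, hC, hCO, h0, h1, h2⟩ := Pool.Agent.ISO.exists_cut (O := Metric.ball (0 : E) 1)
    Metric.isOpen_ball (K := Metric.closedBall (0 : E) (1 / 2)) (isCompact_closedBall _ _)
    (Metric.closedBall_subset_ball (by norm_num))
  have hz : ∀ x, 1 ≤ ‖x‖ → χ x = 0 := by
    intro x hx
    apply h0
    intro hxC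
    have := hCO hxC
    rw [mem_ball_zero_iff] at this
    linarith
  obtain ⟨M₁, hM₁⟩ := (isCompact_closedBall (0 : E) 1).exists_bound_of_continuousOn
    hχ.continuous.continuousOn
  obtain ⟨M₂, hM₂⟩ := (isCompact_closedBall (0 : E) 1).exists_bound_of_continuousOn
    (hχ.continuous_fderiv (by simp)).continuousOn
  refine ⟨χ, max 0 (max M₁ M₂), le_max_left _ _, hχ, hz,
    fun x hx => h1 x (by rw [mem_closedBall_zero_iff]; exact hx), fun x => ?_, fun x => ?_⟩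
  · by_cases hx : ‖x‖ ≤ 1
    · have := hM₁ x (by rw [mem_closedBall_zero_iff]; exact hx)
      rw [Real.norm_eq_abs] at this
      exact this.trans ((le_max_left _ _).trans (le_max_right _ _))
    · rw [hz x (le_of_not_ge hx), abs_zero]
      exact le_max_left _ _
  · by_cases hx : ‖x‖ ≤ 1
    · have := hM₂ x (by rw [mem_closedBall_zero_iff]; exact hx)
      exact this.trans ((le_max_right _ _).trans (le_max_right _ _))
    · have h3 : χ =ᶠ[𝓝 x] fun _ => (0 : ℝ) := by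
        have h4 : ∀ᶠ y in 𝓝 x, 1 < ‖y‖ :=
          continuous_norm.continuousAt.eventually (lt_mem_nhds (lt_of_not_ge hx))
        filter_upwards [h4] with y hy
        exact hz y hy.le
      rw [h3.fderiv_eq, fderiv_fun_const]
      simp

theorem exists_germ {h : E → E} (hs : ∀ᶠ y in 𝓝 (0 : E), ContDiffAt ℝ ∞ h y) (h0 : h 0 = 0)
    (h1 : fderiv ℝ h 0 = ContinuousLinearMap.id ℝ E) {ε : ℝ} (hε : 0 < ε) :
    ∃ Φ : Equiv.Perm E, ContDiff ℝ ∞ Φ ∧ ContDiff ℝ ∞ Φ.symm ∧ (∀ᶠ y in 𝓝 (0 : E), Φ y = h y) ∧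
      ∀ y, ε ≤ ‖y‖ → Φ y = y := by
  have : CompleteSpace E := FiniteDimensional.complete ℝ E
  have hn : (∞ : WithTop ℕ∞) ≠ 0 := by simp
  obtain ⟨χ, M, hM, hχ, hz, ho, hb, hdb⟩ := BGe_cut (E := E)
  obtain ⟨g, hg⟩ : ∃ g : E → E, g = fun x => h x - x := ⟨_, rfl⟩
  have hgs : ∀ᶠ y in 𝓝 (0 : E), ContDiffAt ℝ ∞ g y := by
    filter_upwards [hs] with y hy
    rw [hg]
    exact hy.sub contDiffAt_id
  have hg0 : g 0 = 0 := by rw [hg]; simp [h0]
  have hh0 : ContDiffAt ℝ ∞ h 0 := hs.self_of_nhds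
  have hgd : fderiv ℝ g 0 = 0 := by
    rw [hg]
    have h2 : HasFDerivAt (fun x => h x - x)
        (ContinuousLinearMap.id ℝ E - ContinuousLinearMap.id ℝ E) 0 := by
      have h3 := (hh0.differentiableAt hn).hasFDerivAt
      rw [h1] at h3
      exact h3.sub (hasFDerivAt_id 0)
    rw [h2.fderiv, sub_self]
  have hη : (0 : ℝ) < 1 / (4 * (M + 1)) := by positivity
  have hcont : ContinuousAt (fderiv ℝ g) 0 :=
    (hgs.self_of_nhds.fderiv_right (m := ∞) (by simp)).continuousAt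
  have hsmall : ∀ᶠ y in 𝓝 (0 : E), ‖fderiv ℝ g y‖ < 1 / (4 * (M + 1)) := by
    have h2 : ContinuousAt (fun y => ‖fderiv ℝ g y‖) 0 := hcont.norm
    have h3 : ‖fderiv ℝ g 0‖ < 1 / (4 * (M + 1)) := by rw [hgd, norm_zero]; exact hη
    exact h2.eventually (gt_mem_nhds h3)
  obtain ⟨r, hr, hr'⟩ := Metric.eventually_nhds_iff.1 (hgs.and hsmall)
  have hrs : ∀ y : E, ‖y‖ < r → ContDiffAt ℝ ∞ g y := fun y hy =>
    (hr' (by rw [dist_zero_right]; exact hy)).1
  have hrd : ∀ y : E, ‖y‖ < r → ‖fderiv ℝ g y‖ ≤ 1 / (4 * (M + 1)) := fun y hy =>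
    (hr' (by rw [dist_zero_right]; exact hy)).2.le
  have hgn : ∀ y : E, ‖y‖ < r → ‖g y‖ ≤ 1 / (4 * (M + 1)) * ‖y‖ := by
    intro y hy
    have h2 := (convex_ball (0 : E) r).norm_image_sub_le_of_norm_fderiv_le (𝕜 := ℝ) (f := g)
      (C := 1 / (4 * (M + 1))) (x := 0) (y := y)
      (fun x hx => (hrs x (by rwa [mem_ball_zero_iff] at hx)).differentiableAt hn)
      (fun x hx => hrd x (by rwa [mem_ball_zero_iff] at hx))
      (Metric.mem_ball_self hr) (by rw [mem_ball_zero_iff]; exact hy)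
    rw [hg0, sub_zero, sub_zero] at h2
    exact h2
  obtain ⟨δ, hδ, hδε, hδr⟩ : ∃ δ : ℝ, 0 < δ ∧ δ ≤ ε ∧ δ < r :=
    ⟨min ε (r / 2), lt_min hε (by linarith), min_le_left _ _,
      (min_le_right _ _).trans_lt (by linarith)⟩
  have hnδ : ∀ x : E, ‖δ⁻¹ • x‖ = ‖x‖ / δ := by
    intro x
    rw [norm_smul, norm_inv, Real.norm_eq_abs, abs_of_pos hδ, inv_mul_eq_div]
  obtain ⟨G, hG⟩ : ∃ G : E → E, G = fun x => χ (δ⁻¹ • x) • g x := ⟨_, rfl⟩
  have hGz : ∀ x : E, δ ≤ ‖x‖ → G x = 0 := by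
    intro x hx
    rw [hG]
    simp only
    rw [hz _ (by rw [hnδ, one_le_div hδ]; exact hx), zero_smul]
  have hGez : ∀ x : E, δ < ‖x‖ → G =ᶠ[𝓝 x] fun _ => (0 : E) := by
    intro x hx
    have h4 : ∀ᶠ y in 𝓝 x, δ < ‖y‖ :=
      continuous_norm.continuousAt.eventually (lt_mem_nhds hx)
    filter_upwards [h4] with y hy
    exact hGz y hy.le
  have hχδ : ContDiff ℝ ∞ fun x : E => χ (δ⁻¹ • x) :=
    hχ.comp (contDiff_const.smul contDiff_id)
  have hGs : ContDiff ℝ ∞ G := by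
    rw [contDiff_iff_contDiffAt]
    intro x
    rcases lt_or_ge ‖x‖ r with hx | hx
    · rw [hG]
      exact hχδ.contDiffAt.smul (hrs x hx)
    · exact contDiffAt_const.congr_of_eventuallyEq (hGez x (hδr.trans_le hx))
  have hGd : ∀ x, ‖fderiv ℝ G x‖ ≤ 1 / 2 := by
    intro x
    rcases le_or_gt ‖x‖ δ with hx | hx
    · have hxr : ‖x‖ < r := hx.trans_lt hδr
      have d1 : HasFDerivAt (fun x : E => χ (δ⁻¹ • x))
          ((fderiv ℝ χ (δ⁻¹ • x)).comp (δ⁻¹ • ContinuousLinearMap.id ℝ E)) x := by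
        have h3 : HasFDerivAt (fun x : E => δ⁻¹ • x) (δ⁻¹ • ContinuousLinearMap.id ℝ E) x :=
          (hasFDerivAt_id x).const_smul δ⁻¹
        have h4 : HasFDerivAt χ (fderiv ℝ χ (δ⁻¹ • x)) (δ⁻¹ • x) :=
          (hχ.differentiable hn _).hasFDerivAt
        exact h4.comp x h3
      have d2 : HasFDerivAt g (fderiv ℝ g x) x := ((hrs x hxr).differentiableAt hn).hasFDerivAt
      have d3 := d1.smul d2
      have d4 : fderiv ℝ G x = χ (δ⁻¹ • x) • fderiv ℝ g x +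
          ((fderiv ℝ χ (δ⁻¹ • x)).comp (δ⁻¹ • ContinuousLinearMap.id ℝ E)).smulRight (g x) := by
        rw [hG]
        exact d3.fderiv
      rw [d4]
      have n1 : ‖χ (δ⁻¹ • x) • fderiv ℝ g x‖ ≤ M * (1 / (4 * (M + 1))) := by
        rw [norm_smul, Real.norm_eq_abs]
        exact mul_le_mul (hb _) (hrd x hxr) (norm_nonneg _) hM
      have n2 : ‖((fderiv ℝ χ (δ⁻¹ • x)).comp
          (δ⁻¹ • ContinuousLinearMap.id ℝ E)).smulRight (g x)‖ ≤
          (M * δ⁻¹) * (1 / (4 * (M + 1)) * δ) := by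
        rw [ContinuousLinearMap.norm_smulRight_apply]
        apply mul_le_mul _ _ (norm_nonneg _) (by positivity)
        · refine (ContinuousLinearMap.opNorm_comp_le _ _).trans ?_
          apply mul_le_mul (hdb _) _ (norm_nonneg _) hM
          rw [norm_smul, norm_inv, Real.norm_eq_abs, abs_of_pos hδ]
          have := ContinuousLinearMap.norm_id_le (𝕜 := ℝ) (E := E)
          have hd : 0 ≤ δ⁻¹ := by positivity
          nlinarith
        · exact (hgn x hxr).trans (mul_le_mul_of_nonneg_left hx hη.le)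
      have n3 : (M * δ⁻¹) * (1 / (4 * (M + 1)) * δ) = M * (1 / (4 * (M + 1))) := by
        field_simp
      have n4 : M * (1 / (4 * (M + 1))) ≤ 1 / 4 := by
        rw [mul_one_div, div_le_div_iff₀ (by positivity) (by norm_num)]
        linarith
      refine (norm_add_le _ _).trans ?_
      linarith
    · rw [(hGez x hx).fderiv_eq, fderiv_fun_const]
      simp
  obtain ⟨F, hF1, hF2, hF3⟩ := Pool.Agent.ISO.small_perm hGs hGd
  refine ⟨F, hF1, hF2, ?_, fun y hy => ?_⟩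
  · have h2 : ∀ᶠ y in 𝓝 (0 : E), ‖y‖ < δ / 2 := by
      have h3 : ContinuousAt (fun y : E => ‖y‖) 0 := continuous_norm.continuousAt
      have h4 : ‖(0 : E)‖ < δ / 2 := by rw [norm_zero]; linarith
      exact h3.eventually (gt_mem_nhds h4)
    filter_upwards [h2] with y hy
    rw [hF3, hG, hg]
    simp only
    rw [ho _ (by rw [hnδ, div_le_iff₀ hδ]; linarith), one_smul]
    abel
  · rw [hF3, hGz y (hδε.trans hy), add_zero]

end Pool.Agent.BAS
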