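import Pool.Agent.BAS.BSg

/-!
# BAS/BJm: the map `T` of the torus knot   (difficulty 3)

`j : S3 → S3`, `j y = pS3 (pw (w/|w|) p * z1 (κ (0, z1 y))) (pw (w/|w|) q * z2 (κ (0, z1 y)))`, `w = z2 y`.  Then
`j (std 0 (l, v)) = κ (l, v)` for `‖v‖ < 1` (`TKnot.rot` with `l = 0`, `θ = l`; `RSG.StdM_c`: `z1 = v`, `z2 = √(1-‖v‖²) ex l`;
`pw_ex`).  As `std 0` and `κ` are local diffeos and injective modulo 1 (`RSG.std_thick`, `h.thick`), `j` is a local diffeo at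
all `y` with `z2 y ≠ 0` and injective on this set (every such `y` is `std 0 (l, v)`, `v = z1 y`, `z2 y = |z2 y| ex l`):
`CSG.ld_of_comp_left`.
Let `g = j ∘ sti'` (local diffeo at `0`; `sti' 0 = pole = std 0 (1/2, 0)`, so `g 0 = κ (1/2, 0)`); `exists_straight` gives `σ, B`.
Put `T = σ ∘ j ∘ sti`.
* far away: for `‖X‖` large `y = inv3 X` is near `0`, `sti' y = sti X` (`sti'_eq`, `inv3_inv3`), so `T X = σ (g y) = B (inv3 y) = B X`.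
* `T` is a local diffeo at `X` if `z2 (sti X) ≠ 0`: `sti X ≠ pole`, so `j (sti X) ≠ κ (1/2, 0)` by injectivity of `j`.
* `T (st (std 0 (l, v))) = σ (κ (l, v))`: `sti_st`, `std 0 (l, v) ≠ pole` since `κ (l, v) ≠ κ (1/2, 0)`.
-/

open scoped Manifold ContDiff Topology
open Set Filter
open Complex (I)

namespace Pool.Agent.BAS

open Pool.Agent.RSG (E4 S3 S4 pS3 pS4 ex c1 c2 ht fh Thick std)
open Pool.Agent.PTH (SP ISP z1 z2 gE gact)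

/-- the map `j` with `j (std 0 (l, v)) = κ (l, v)` -/
noncomputable def BJm_j (p q : ℤ) (κ : ℝ × ℂ → S3) (y : S3) : S3 :=
  pS3 (pw (z2 y / ‖z2 y‖) p * z1 (κ (0, z1 y))) (pw (z2 y / ‖z2 y‖) q * z2 (κ (0, z1 y)))

theorem BJm_std_c (l : ℝ) {v : ℂ} (hv : ‖v‖ < 1) : z1 (std 0 (l, v)) = v ∧
    z2 (std 0 (l, v)) = ((Real.sqrt (1 - ‖v‖ ^ 2) : ℝ) : ℂ) * ex l := by
  obtain ⟨h1, h2⟩ := RSG.StdM_c 0 l hv
  have h3 : z1 (std 0 (l, v)) = RSG.StdM_w1 (std 0 (l, v)) := rfl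
  have h4 : z2 (std 0 (l, v)) = RSG.StdM_w2 (std 0 (l, v)) := rfl
  rw [h3, h4, h1, h2, Int.cast_zero, zero_mul, RSG.ex_zero, mul_one]
  exact ⟨rfl, rfl⟩

theorem BJm_z2_ne (l : ℝ) {v : ℂ} (hv : ‖v‖ < 1) : z2 (std 0 (l, v)) ≠ 0 := by
  rw [(BJm_std_c l hv).2]
  refine mul_ne_zero ?_ (RSG.ex_ne l)
  exact_mod_cast (Real.sqrt_pos.2 (RSG.StdM_pos hv)).ne'

theorem BJm_j_std {p q : ℤ} {κ : ℝ × ℂ → S3} (h : TKnot p q κ) (l : ℝ) {v : ℂ} (hv : ‖v‖ < 1) :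
    BJm_j p q κ (std 0 (l, v)) = κ (l, v) := by
  obtain ⟨h1, h2⟩ := BJm_std_c l hv
  have h3 : z2 (std 0 (l, v)) / ‖z2 (std 0 (l, v))‖ = ex l := by
    have h4 : 0 < Real.sqrt (1 - ‖v‖ ^ 2) := Real.sqrt_pos.2 (RSG.StdM_pos hv)
    rw [h2, norm_mul, RSG.ex_norm, mul_one, Complex.norm_real, Real.norm_of_nonneg h4.le]
    exact mul_div_cancel_left₀ _ (by exact_mod_cast h4.ne')
  unfold BJm_j
  rw [h3, h1, pw_ex, pw_ex]
  have h5 := h.rot 0 l v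
  rw [zero_add] at h5
  exact h5.symm

theorem BJm_exists {y : S3} (hy : z2 y ≠ 0) : ∃ (l : ℝ) (v : ℂ), ‖v‖ < 1 ∧ std 0 (l, v) = y := by
  have h1 := RSG.StdM_fg 0 0 y
  refine ⟨(RSG.StdM_g 0 0 y).1, (RSG.StdM_g 0 0 y).2, ?_, h1⟩
  have h2 : ‖(RSG.StdM_g 0 0 y).2‖ = ‖z1 y‖ := by
    unfold RSG.StdM_g
    rw [norm_mul, RSG.ex_norm, mul_one]
    rfl
  rw [h2]
  have h3 : ‖z1 y‖ ^ 2 + ‖z2 y‖ ^ 2 = 1 := RSG.S3_sq y
  have h4 : 0 < ‖z2 y‖ := norm_pos_iff.2 hy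
  nlinarith [norm_nonneg (z1 y)]

theorem BJm_j_ld {p q : ℤ} {κ : ℝ × ℂ → S3} (h : TKnot p q κ) {y : S3} (hy : z2 y ≠ 0) :
    IsLocalDiffeomorphAt (𝓡 3) (𝓡 3) ∞ (BJm_j p q κ) y := by
  obtain ⟨l, v, hv, rfl⟩ := BJm_exists hy
  refine CSG.ld_of_comp_left (f := std 0) (x := (l, v)) ?_ ((RSG.std_thick 0).loc l v hv)
  refine CSG.ld_congr (h.thick.loc l v hv) ?_
  have e1 : ∀ᶠ y : ℝ × ℂ in 𝓝 (l, v), ‖y.2‖ < 1 :=
    (continuous_snd.norm.continuousAt (x := (l, v))).eventually (gt_mem_nhds (by simpa using hv))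
  filter_upwards [e1] with y hy
  exact BJm_j_std h y.1 hy

theorem BJm_j_inj {p q : ℤ} {κ : ℝ × ℂ → S3} (h : TKnot p q κ) {y y' : S3} (hy : z2 y ≠ 0) (hy' : z2 y' ≠ 0)
    (he : BJm_j p q κ y = BJm_j p q κ y') : y = y' := by
  obtain ⟨l, v, hv, rfl⟩ := BJm_exists hy
  obtain ⟨l', v', hv', rfl⟩ := BJm_exists hy'
  rw [BJm_j_std h l hv, BJm_j_std h l' hv'] at he
  obtain ⟨h1, m, h2⟩ := h.thick.inj l v l' v' hv hv' he
  subst h1 h2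
  unfold std
  simp only [Int.cast_zero, zero_mul, RSG.ex_add_int]

theorem BJm_pole : std 0 (1 / 2, 0) = pole := by
  have h1 : ex (2⁻¹ : ℝ) = -1 := by
    rw [← one_div]
    exact RSG.ex_half
  unfold std pole
  simp [h1]

theorem BJm_inv3_norm {X : V} (h : X ≠ 0) : ‖inv3 X‖ ≤ ‖X‖⁻¹ := by
  have h1 : 0 < ‖X‖ := norm_pos_iff.2 h
  have h2 := (nq_norm X).1
  have h3 : 0 < nq X := lt_of_lt_of_le (by positivity) h2
  unfold inv3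
  rw [norm_smul, norm_inv, Real.norm_of_nonneg h3.le, inv_mul_eq_div, div_le_iff₀ h3]
  calc ‖X‖ = ‖X‖⁻¹ * ‖X‖ ^ 2 := by field_simp
    _ ≤ ‖X‖⁻¹ * nq X := by gcongr

theorem exists_T {p q : ℤ} {κ : ℝ × ℂ → S3} (h : TKnot p q κ) :
    ∃ (σ : S3 → V) (T : V → V) (B : V ≃L[ℝ] V) (R : ℝ),
      (∀ y, y ≠ κ (1 / 2, 0) → IsLocalDiffeomorphAt (𝓡 3) 𝓘(ℝ, V) ∞ σ y) ∧
      (∀ y y', y ≠ κ (1 / 2, 0) → y' ≠ κ (1 / 2, 0) → σ y = σ y' → y = y') ∧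
      (∀ X, ∃ y, y ≠ κ (1 / 2, 0) ∧ σ y = X) ∧
      (∀ X, z2 (sti X) ≠ 0 → IsLocalDiffeomorphAt 𝓘(ℝ, V) 𝓘(ℝ, V) ∞ T X) ∧
      InjOn T {X | z2 (sti X) ≠ 0} ∧
      (∀ X, R ≤ ‖X‖ → T X = B X) ∧
      ∀ (l : ℝ) (v : ℂ), ‖v‖ < 1 → κ (l, v) ≠ κ (1 / 2, 0) →
        T (st (std 0 (l, v))) = σ (κ (l, v)) := by
  have hz0 : z2 pole ≠ 0 := by
    rw [pole_c.2]
    norm_num
  have hjp : BJm_j p q κ pole = κ (1 / 2, 0) := by
    rw [← BJm_pole]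
    exact BJm_j_std h (1 / 2) (by simp)
  have hg : IsLocalDiffeomorphAt 𝓘(ℝ, V) (𝓡 3) ∞ (BJm_j p q κ ∘ sti') 0 := by
    refine IsLocalDiffeomorphAt.comp (hf := sti'_ld 0) (g := BJm_j p q κ) (hg := ?_)
    rw [sti'_zero]
    exact BJm_j_ld h hz0
  have hg0 : (BJm_j p q κ ∘ sti') 0 = κ (1 / 2, 0) := by
    rw [Function.comp_apply, sti'_zero, hjp]
  obtain ⟨σ, B, h1, h2, h3, h4⟩ := exists_straight hg
  rw [hg0] at h1 h2 h3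
  have hne : ∀ X, z2 (sti X) ≠ 0 → BJm_j p q κ (sti X) ≠ κ (1 / 2, 0) := by
    intro X hX he
    rw [← hjp] at he
    exact sti_ne X (BJm_j_inj h hX hz0 he)
  obtain ⟨ε, hε, h5⟩ := Metric.eventually_nhds_iff.1 (eventually_nhdsWithin_iff.1 h4)
  refine ⟨σ, fun X => σ (BJm_j p q κ (sti X)), B, 2 / ε, h1, h2, h3, ?_, ?_, ?_, ?_⟩
  · intro X hX
    have h6 : IsLocalDiffeomorphAt 𝓘(ℝ, V) (𝓡 3) ∞ (fun X => BJm_j p q κ (sti X)) X :=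
      IsLocalDiffeomorphAt.comp (hf := sti_ld X) (g := BJm_j p q κ) (hg := BJm_j_ld h hX)
    exact IsLocalDiffeomorphAt.comp (hf := h6) (g := σ) (hg := h1 _ (hne X hX))
  · intro X hX X' hX' he
    have h6 := h2 _ _ (hne X hX) (hne X' hX') he
    have h7 := BJm_j_inj h hX hX' h6
    rw [← st_sti X, ← st_sti X', h7]
  · intro X hX
    have hX0 : 0 < ‖X‖ := lt_of_lt_of_le (by positivity) hX
    have hX1 : X ≠ 0 := norm_pos_iff.1 hX0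
    have h6 : ‖inv3 X‖ < ε := by
      refine lt_of_le_of_lt (BJm_inv3_norm hX1) ?_
      rw [inv_lt_comm₀ hX0 hε]
      refine lt_of_lt_of_le ?_ hX
      rw [← one_div]
      gcongr
      norm_num
    have h7 := h5 (y := inv3 X) (by rwa [dist_zero_right]) (inv3_ne hX1)
    rw [Function.comp_apply, sti'_eq (inv3_ne hX1), inv3_inv3] at h7
    exact h7
  · intro l v hv hk
    have h6 : std 0 (l, v) ≠ pole := by
      intro h7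
      apply hk
      rw [← BJm_j_std h l hv, h7, hjp]
    change σ (BJm_j p q κ (sti (st (std 0 (l, v))))) = σ (κ (l, v))
    rw [sti_st h6, BJm_j_std h l hv]

end Pool.Agent.BAS
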