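import Pool.Agent.BAS.BCi

/-!
# BAS/BKa: the thick torus over a torus knot   (difficulty 2)

`kap κ r n (l, v, t) = (κ (l - n t, v), exp 2π (r (l - n t) + t))`.
* thick: composition of the linear isomorphism `(l, v, t) ↦ ((l - n t, v), r (l - n t) + t)` and of the product of the local
  diffeos `κ` and `circle_ld` (`RSG.ld_prodMap`); injective: first component gives `v = v'`, `l' - n t' = l - n t + m`,
  second component `r (..)' + t' = r (..) + t + m'`, so `t' = t + (m' - r m)`, `l' = l + ..`.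
* equivariance: `TKnot.rot` with `θ = -n t`.
* core: `pS3_scale`, `prf (1/2) = prf (1 - 1/2) > 0`.
-/

open scoped Manifold ContDiff Topology
open Set Filter
open Complex (I)

namespace Pool.Agent.BAS

open Pool.Agent.RSG (E4 S3 S4 pS3 pS4 ex c1 c2 ht fh Thick std)
open Pool.Agent.PTH (SP ISP z1 z2 gE gact)
open Pool.Agent.RBM (ThickT TwinP OnT)

noncomputable def kap (κ : ℝ × ℂ → S3) (r n : ℤ) (a : ℝ × ℂ × ℝ) : SP :=
  (κ (a.1 - n * a.2.2, a.2.1), Circle.exp (2 * Real.pi * (r * (a.1 - n * a.2.2) + a.2.2)))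

theorem BKa_per {κ : ℝ × ℂ → S3} (h : Thick κ) (m : ℤ) (l : ℝ) (v : ℂ) : κ (l + m, v) = κ (l, v) := by
  induction m using Int.induction_on with
  | zero => simp
  | succ k ih =>
    have := h.per (l + k) v
    push_cast at *
    rw [← add_assoc, this, ih]
  | pred k ih =>
    have := h.per (l + (-(k : ℝ) - 1)) v
    push_cast at *
    rw [← this, ← ih]
    congr 2
    ring

theorem BKa_exp {x y : ℝ} : Circle.exp (2 * Real.pi * x) = Circle.exp (2 * Real.pi * y) ↔ ∃ m : ℤ, y = x + m := by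
  rw [← RSG.ex_eq_iff, ← exp_coe, ← exp_coe, Circle.ext_iff]

/-- the linear isomorphism -/
noncomputable def BKa_F (r n : ℤ) (a : ℝ × ℂ × ℝ) : (ℝ × ℂ) × ℝ :=
  ((a.1 - n * a.2.2, a.2.1), r * (a.1 - n * a.2.2) + a.2.2)

noncomputable def BKa_G (r n : ℤ) (b : (ℝ × ℂ) × ℝ) : ℝ × ℂ × ℝ :=
  (b.1.1 + n * (b.2 - r * b.1.1), b.1.2, b.2 - r * b.1.1)

theorem BKa_F_ld (r n : ℤ) (a : ℝ × ℂ × ℝ) :
    IsLocalDiffeomorphAt 𝓘(ℝ, ℝ × ℂ × ℝ) 𝓘(ℝ, (ℝ × ℂ) × ℝ) ∞ (BKa_F r n) a := by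
  have hF : ContDiff ℝ ∞ (BKa_F r n) := by unfold BKa_F; fun_prop
  have hG : ContDiff ℝ ∞ (BKa_G r n) := by unfold BKa_G; fun_prop
  refine RSG.ld_two (g := BKa_G r n) (Filter.Eventually.of_forall fun y => hF.contMDiff.contMDiffAt)
    (Filter.Eventually.of_forall fun y => hG.contMDiff.contMDiffAt)
    (Filter.Eventually.of_forall fun y => ?_) (Filter.Eventually.of_forall fun y => ?_)
  · obtain ⟨l, v, t⟩ := y
    simp only [BKa_F, BKa_G, Prod.mk.injEq]
    refine ⟨by ring, trivial, by ring⟩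
  · obtain ⟨⟨l, v⟩, t⟩ := y
    simp only [BKa_F, BKa_G, Prod.mk.injEq]
    refine ⟨⟨by ring, trivial⟩, by ring⟩

theorem BKa_loc {κ : ℝ × ℂ → S3} (h : Thick κ) (r n : ℤ) (l : ℝ) (v : ℂ) (t : ℝ) (hv : ‖v‖ < 1) :
    IsLocalDiffeomorphAt 𝓘(ℝ, ℝ × ℂ × ℝ) ISP ∞ (kap κ r n) (l, v, t) := by
  have h1 := RSG.ld_prodMap (h.loc (l - n * t) v hv) (circle_ld (r * (l - n * t) + t))
  have h2 : IsLocalDiffeomorphAt 𝓘(ℝ, (ℝ × ℂ) × ℝ) ISP ∞
      (Prod.map κ (fun x : ℝ => Circle.exp (2 * Real.pi * x))) (BKa_F r n (l, v, t)) := by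
    rw [modelWithCornersSelf_prod, ← chartedSpaceSelf_prod]
    exact h1
  exact IsLocalDiffeomorphAt.comp (hf := BKa_F_ld r n (l, v, t)) (hg := h2) ..

theorem kap_thick {p q : ℤ} {κ : ℝ × ℂ → S3} (h : TKnot p q κ) (r n : ℤ) : ThickT ISP (kap κ r n) := by
  have hT := h.thick
  refine ⟨?_, ?_, ?_, ?_⟩
  · intro l v t
    refine Prod.ext ?_ ?_
    · show κ (l + 1 - n * t, v) = κ (l - n * t, v)
      rw [← hT.per (l - n * t) v]
      congr 2
      ring
    · show Circle.exp (2 * Real.pi * (r * (l + 1 - n * t) + t)) = Circle.exp (2 * Real.pi * (r * (l - n * t) + t))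
      rw [BKa_exp]
      exact ⟨-r, by push_cast; ring⟩
  · intro l v t
    refine Prod.ext ?_ ?_
    · show κ (l - n * (t + 1), v) = κ (l - n * t, v)
      rw [← BKa_per hT (-n) (l - n * t) v]
      congr 2
      push_cast
      ring
    · show Circle.exp (2 * Real.pi * (r * (l - n * (t + 1)) + (t + 1))) =
        Circle.exp (2 * Real.pi * (r * (l - n * t) + t))
      rw [BKa_exp]
      exact ⟨r * n - 1, by push_cast; ring⟩
  · intro l v t hv
    exact BKa_loc hT r n l v t hv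
  · intro l v t l' v' t' hv hv' he
    have e1 : κ (l - n * t, v) = κ (l' - n * t', v') := congrArg Prod.fst he
    have e2 : Circle.exp (2 * Real.pi * (r * (l - n * t) + t)) =
        Circle.exp (2 * Real.pi * (r * (l' - n * t') + t')) := congrArg Prod.snd he
    obtain ⟨hvv, m, hm⟩ := hT.inj _ _ _ _ hv hv' e1
    obtain ⟨m', hm'⟩ := BKa_exp.1 e2
    have ht : t' = t + ((m' - r * m : ℤ) : ℝ) := by
      push_cast
      rw [hm] at hm'
      linarith
    refine ⟨hvv, ⟨m + n * (m' - r * m), ?_⟩, ⟨m' - r * m, ht⟩⟩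
    have : l' = l - n * t + m + n * t' := by linarith
    rw [this, ht]
    push_cast
    ring

theorem kap_equiv {p q : ℤ} {κ : ℝ × ℂ → S3} (h : TKnot p q κ) (r n : ℤ) (l : ℝ) (v : ℂ) (t : ℝ) :
    kap κ r n (l, v, t) = gact (-n * p, -n * q, 1 - n * r) t (kap κ r n (l, v, 0)) := by
  refine Prod.ext ?_ ?_
  · show κ (l - n * t, v) = pS3 (ex (((-n * p : ℤ) : ℝ) * t) * z1 (κ (l - n * 0, v)))
      (ex (((-n * q : ℤ) : ℝ) * t) * z2 (κ (l - n * 0, v)))
    have := h.rot l (-(n * t)) v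
    rw [← sub_eq_add_neg] at this
    have e1 : (p : ℝ) * -(n * t) = ((-n * p : ℤ) : ℝ) * t := by push_cast; ring
    have e2 : (q : ℝ) * -(n * t) = ((-n * q : ℤ) : ℝ) * t := by push_cast; ring
    rw [this, mul_zero, sub_zero, e1, e2]
  · show Circle.exp (2 * Real.pi * (r * (l - n * t) + t)) =
      Circle.exp (2 * Real.pi * (((1 - n * r : ℤ) : ℝ) * t)) * Circle.exp (2 * Real.pi * (r * (l - n * 0) + 0))
    rw [← Circle.exp_add]
    congr 1
    push_cast
    ring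

theorem BKa_prf : 0 < PTH.prf (1 / 2) := by
  unfold PTH.prf
  have h0 := Real.smoothTransition.nonneg (3 * (1 / 2 : ℝ) - 1)
  have h1 := Real.smoothTransition.le_one (3 * (1 / 2 : ℝ) - 1)
  nlinarith

theorem kap_core {p q : ℤ} {κ : ℝ × ℂ → S3} (h : TKnot p q κ) (r n : ℤ) (l : ℝ) :
    kap κ r n (l, 0, 0) = gE (1 / 2) (p * l, q * l, r * l) := by
  have e : (1 - 1 / 2 : ℝ) = 1 / 2 := by norm_num
  refine Prod.ext ?_ ?_
  · show κ (l - n * 0, 0) = pS3 (PTH.prf (1 / 2) * ex (p * l)) (PTH.prf (1 - 1 / 2) * ex (q * l))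
    rw [mul_zero, sub_zero, h.core, e, pS3_scale BKa_prf]
  · show Circle.exp (2 * Real.pi * (r * (l - n * 0) + 0)) = Circle.exp (2 * Real.pi * (r * l))
    rw [mul_zero, sub_zero, add_zero]

end Pool.Agent.BAS
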