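import Pool.Agent.BAS.BGE

/-!
# BAS/BLo: the isotopy to the linear knot   (difficulty 3)

`NotV v x` : `x ∉ Z³ + R v`.  Basis `(o, g, v)` (`exists_basis`), chart `gE_chart` (`f = o`), `L` from `comb_surj`: `X l = L (y₁ l, y₂ l, τ l)` with
smooth `y₁, y₂, τ`.  Apply `ISO.carries_loop` with `k s l = ((1 - s) ρ l + s / 2, (1 - s) y₁ l + s l, (1 - s) y₂ l)`,
`τ s l = (1 - s) τ l`, so that `C (k s l, τ s l) = gE ((1 - s) ρ l + s/2) ((1 - s) X l + s l o)`; `m₀ = (0, 1, 0)`, `p₀ = 0`
(`X (l + 1) = X l + o`; `L (1, 0, 0) = o`).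
* injectivity: `k s l = k s l' + m`, `m ∈ Λ`.  `s = 1`: second coordinate `l = l' + m₂`.  `s < 1`: `ρ l = ρ l'`; reduce `l, l'` modulo 1 to
  `(-1/2, 1/2]` (`ρ` is 1-periodic and even, strictly increasing on `[0, 1/2]`): `l' = l + p` or `l' = -l + p`.  In the first case done.
  In the second case we may assume `0 < l < 1/2` after exchanging and shifting (if `l = 0` or `1/2` modulo 1 it is the first case):
  `(1 - s) (X l - X (-l)) + 2 s l o ∈ Z³ + R v`, against `hD`.
* immersion: first component of the derivative `(1 - s) ρ' l`; it vanishes only if `s = 1` (then the second component is `1`) or `l ∈ (1/2) Z`; there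
  use `h0`, `h1` (periodicity): `((1 - s) y₁' + s, (1 - s) y₂') = 0` means `(1 - s) X' + s o ∈ R v`.
-/

open scoped Manifold ContDiff Topology
open Set Filter
open Complex (I)

namespace Pool.Agent.BAS

open Pool.Agent.RSG (E4 S3 S4 pS3 pS4 ex c1 c2 ht fh Thick std)
open Pool.Agent.PTH (SP ISP z1 z2 gE gact Carries prf Act)

/-- `x ∉ Z³ + R v` -/
def NotV (v : ℤ × ℤ × ℤ) (x : ℝ × ℝ × ℝ) : Prop :=
  ∀ (u : ℝ) (m : ℤ × ℤ × ℤ), x ≠ (m.1 + u * v.1, m.2.1 + u * v.2.1, m.2.2 + u * v.2.2)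

/-- `o` as a real vector -/
def rv (o : ℤ × ℤ × ℤ) : ℝ × ℝ × ℝ := (o.1, o.2.1, o.2.2)

theorem BLo_round {ρ : ℝ → ℝ} (hρp : ∀ l, ρ (l + 1) = ρ l) (l : ℝ) (n : ℤ) : ρ (l + n) = ρ l := by
  have h : Function.Periodic ρ 1 := hρp
  have := h.int_mul n l
  rwa [mul_one] at this

/-- the two cases -/
theorem BLo_two {ρ : ℝ → ℝ} (hρp : ∀ l, ρ (l + 1) = ρ l) (hρe : ∀ l, ρ (-l) = ρ l)
    (hρm : StrictMonoOn ρ (Icc 0 (1 / 2))) {l l' : ℝ} (h : ρ l = ρ l') :
    (∃ p : ℤ, l = l' + p) ∨ ∃ (r : ℝ) (n n' : ℤ), 0 < r ∧ r < 1 / 2 ∧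
      ((l = r + n ∧ l' = -r + n') ∨ (l' = r + n ∧ l = -r + n')) := by
  have ha : ∀ l : ℝ, ρ l = ρ |l - round l| := by
    intro l
    have h1 : ρ l = ρ (l - round l) := by
      have := BLo_round hρp (l - round l) (round l)
      rw [sub_add_cancel] at this
      exact this
    rw [h1]
    rcases abs_choice (l - round l) with h | h
    · rw [h]
    · rw [h, hρe]
  have hb : ∀ l : ℝ, |l - round l| ∈ Icc (0 : ℝ) (1 / 2) := fun l =>
    ⟨abs_nonneg _, by simpa using abs_sub_round l⟩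
  have hc : |l - round l| = |l' - round l'| := by
    apply hρm.injOn (hb l) (hb l')
    rw [← ha, ← ha, h]
  rcases abs_eq_abs.1 hc with hd | hd
  · left
    refine ⟨round l - round l', ?_⟩
    push_cast
    linarith
  · have hl := hb l
    have hl' := hb l'
    by_cases h0 : l - round l = 0
    · left
      refine ⟨round l - round l', ?_⟩
      push_cast
      linarith
    by_cases h1 : |l - round l| = 1 / 2
    · left
      rcases abs_choice (l - round l) with hh | hh
      · refine ⟨round l - round l' + 1, ?_⟩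
        push_cast
        linarith
      · refine ⟨round l - round l' - 1, ?_⟩
        push_cast
        linarith
    right
    have h2 : |l - round l| < 1 / 2 := lt_of_le_of_ne hl.2 h1
    rcases lt_or_gt_of_ne h0 with hh | hh
    · rw [abs_of_neg hh] at h2
      refine ⟨-(l - round l), round l', round l, by linarith, by linarith, Or.inr ⟨by linarith, by ring⟩⟩
    · rw [abs_of_pos hh] at h2
      refine ⟨l - round l, round l, round l', hh, h2, Or.inl ⟨by ring, by linarith⟩⟩

/-- zeros of the derivative -/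
theorem BLo_crit {ρ : ℝ → ℝ} (hρp : ∀ l, ρ (l + 1) = ρ l) (hρe : ∀ l, ρ (-l) = ρ l)
    (hρd : ∀ l, 0 < l → l < 1 / 2 → deriv ρ l ≠ 0) {l : ℝ} (h : deriv ρ l = 0) :
    ∃ n : ℤ, l = 0 + n ∨ l = 1 / 2 + n := by
  have hper : ∀ (l : ℝ) (n : ℤ), deriv ρ (l + n) = deriv ρ l := by
    intro l n
    have h1 : (fun x : ℝ => ρ (x + n)) = ρ := by
      funext x
      exact BLo_round hρp x n
    have h2 := deriv_comp_add_const ρ (n : ℝ) l
    rw [h1] at h2
    exact h2.symm
  have hev : ∀ l : ℝ, deriv ρ (-l) = -deriv ρ l := by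
    intro l
    have h1 : (fun x : ℝ => ρ (-x)) = ρ := by
      funext x
      exact hρe x
    have h2 := deriv_comp_neg ρ l
    rw [h1] at h2
    rw [h2, neg_neg]
  have hr : deriv ρ (l - round l) = 0 := by
    have := hper (l - round l) (round l)
    rw [sub_add_cancel] at this
    rw [← this, h]
  have hb : |l - round l| ≤ 1 / 2 := by simpa using abs_sub_round l
  have h2 : deriv ρ |l - round l| = 0 := by
    rcases abs_choice (l - round l) with hh | hh
    · rw [hh, hr]
    · rw [hh, hev, hr, neg_zero]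
  by_cases h0 : |l - round l| = 0
  · refine ⟨round l, Or.inl ?_⟩
    have := abs_eq_zero.1 h0
    linarith
  by_cases h1 : |l - round l| = 1 / 2
  · rcases abs_choice (l - round l) with hh | hh
    · refine ⟨round l, Or.inr ?_⟩
      linarith
    · refine ⟨round l - 1, Or.inr ?_⟩
      push_cast
      linarith
  exact absurd h2 (hρd _ (lt_of_le_of_ne (abs_nonneg _) (Ne.symm h0)) (lt_of_le_of_ne hb h1))

theorem loop_iso {v o : ℤ × ℤ × ℤ} (hv1 : IsCoprime v.2.1 v.2.2) (hv2 : IsCoprime v.1 v.2.2)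
    (h : IsCoprime (v.2.2 * o.2.1 - v.2.1 * o.2.2) (v.2.2 * o.1 - v.1 * o.2.2))
    {ρ : ℝ → ℝ} {X : ℝ → ℝ × ℝ × ℝ} (hρ : ContDiff ℝ ∞ ρ) (hX : ContDiff ℝ ∞ X)
    (hρ01 : ∀ l, 0 < ρ l ∧ ρ l < 1) (hρp : ∀ l, ρ (l + 1) = ρ l) (hρe : ∀ l, ρ (-l) = ρ l)
    (hρm : StrictMonoOn ρ (Icc 0 (1 / 2))) (hρd : ∀ l, 0 < l → l < 1 / 2 → deriv ρ l ≠ 0)
    (hXp : ∀ l, X (l + 1) = X l + rv o)
    (hD : ∀ l, 0 < l → l < 1 / 2 → ∀ s ∈ Icc (0 : ℝ) 1,
      NotV v ((1 - s) • (X l - X (-l)) + (2 * s * l) • rv o))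
    (h0 : ∀ s ∈ Icc (0 : ℝ) 1, ∀ u : ℝ, (1 - s) • deriv X 0 + s • rv o ≠ u • rv v)
    (h1 : ∀ s ∈ Icc (0 : ℝ) 1, ∀ u : ℝ, (1 - s) • deriv X (1 / 2) + s • rv o ≠ u • rv v)
    (n : ℤ) (Y : Type*) [TopologicalSpace Y] [ChartedSpace E4 Y] :
    Carries ISP (gact v) n (fun l => gE (ρ l) (X l)) Y ↔
      Carries ISP (gact v) n (fun l => gE (1 / 2) (l • rv o)) Y := by
  obtain ⟨g, hg⟩ := exists_basis h
  have hd : det3 o g v = 1 ∨ det3 o g v = -1 := Or.inl hg
  obtain ⟨L, hL⟩ := comb_surj hd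
  have hLo : L (1, 0, 0) = rv o := by
    rw [hL]
    unfold comb rv
    simp
  have hLv : L (0, 0, 1) = rv v := by
    rw [hL]
    unfold comb rv
    simp
  set y : ℝ → ℝ × ℝ × ℝ := fun l => L.symm (X l) with hy
  have hys : ContDiff ℝ ∞ y := L.symm.contDiff.comp hX
  have hLy : ∀ l, L (y l) = X l := fun l => L.apply_symm_apply _
  have hyp : ∀ l, y (l + 1) = y l + (1, 0, 0) := by
    intro l
    apply L.injective
    rw [map_add, hLy, hLy, hLo, hXp]
  have hyn : ∀ (l : ℝ) (m : ℤ), y (l + m) = y l + (m : ℝ) • (1, 0, 0) := by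
    intro l m
    have hQ : ∀ l, (fun l : ℝ => y l - l • ((1, 0, 0) : ℝ × ℝ × ℝ)) (l + 1) =
        (fun l : ℝ => y l - l • ((1, 0, 0) : ℝ × ℝ × ℝ)) l := by
      intro l
      simp only
      rw [hyp, add_smul, one_smul]
      abel
    have hP : Function.Periodic (fun l : ℝ => y l - l • ((1, 0, 0) : ℝ × ℝ × ℝ)) 1 := hQ
    have := hP.int_mul m l
    rw [mul_one] at this
    have this : y (l + m) - (l + m) • ((1, 0, 0) : ℝ × ℝ × ℝ) = y l - l • ((1, 0, 0) : ℝ × ℝ × ℝ) := this
    rw [add_smul] at this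
    rw [sub_eq_iff_eq_add] at this
    rw [this]
    abel
  have hy1 : ∀ (l : ℝ) (m : ℤ), (y (l + m)).1 = (y l).1 + m := by
    intro l m
    rw [hyn]
    simp
  have hy2 : ∀ (l : ℝ) (m : ℤ), (y (l + m)).2.1 = (y l).2.1 := by
    intro l m
    rw [hyn]
    simp
  -- the point
  have hCk : ∀ s l : ℝ, comb o g v ((1 - s) * (y l).1 + s * l) ((1 - s) * (y l).2.1) ((1 - s) * (y l).2.2) =
      (1 - s) • X l + (s * l) • rv o := by
    intro s l
    have e : ((1 - s) * (y l).1 + s * l, (1 - s) * (y l).2.1, (1 - s) * (y l).2.2) =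
        (1 - s) • y l + (s * l) • ((1, 0, 0) : ℝ × ℝ × ℝ) := by
      refine Prod.ext ?_ (Prod.ext ?_ ?_) <;> simp
    rw [← hL, e, map_add L, map_smul L, map_smul L, hLy, hLo]
  have key := ISO.carries_loop (IP := ISP) (a := gact v) (gact_Act hv1 hv2) Lam2_lat (gE_chart hd)
    (k := fun s l => ((1 - s) * ρ l + s / 2, (1 - s) * (y l).1 + s * l, (1 - s) * (y l).2.1))
    (τ := fun s l => (1 - s) * (y l).2.2) ?_ ?_ (m₀ := (0, 1, 0)) ⟨rfl, ⟨1, by simp⟩, 0, by simp⟩ ?_
    (p₀ := 0) ?_ ?_ ?_ ?_ n Y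
  · simp only [hCk] at key
    have e0 : ∀ l, (1 - (0 : ℝ)) • X l + (0 * l) • rv o = X l := by
      intro l
      simp
    have e1 : ∀ l : ℝ, (1 - (1 : ℝ)) • X l + (1 * l) • rv o = l • rv o := by
      intro l
      simp
    simp only [e0, e1] at key
    have f0 : ∀ l, (1 - (0 : ℝ)) * ρ l + 0 / 2 = ρ l := by
      intro l
      ring
    have f1 : ∀ l, (1 - (1 : ℝ)) * ρ l + 1 / 2 = 1 / 2 := by
      intro l
      ring
    simp only [f0, f1] at key
    exact key
  · intro s hs l
    have g1 : ContDiffAt ℝ ∞ (fun q : ℝ × ℝ => ρ q.2) (s, l) := hρ.contDiffAt.comp (s, l) contDiffAt_snd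
    have g2 : ContDiffAt ℝ ∞ (fun q : ℝ × ℝ => y q.2) (s, l) := hys.contDiffAt.comp (s, l) contDiffAt_snd
    have g3 : ContDiffAt ℝ ∞ (fun q : ℝ × ℝ => (y q.2).1) (s, l) := g2.fst
    have g4 : ContDiffAt ℝ ∞ (fun q : ℝ × ℝ => (y q.2).2.1) (s, l) := g2.snd.fst
    have g5 : ContDiffAt ℝ ∞ (fun q : ℝ × ℝ => 1 - q.1) (s, l) := by fun_prop
    have g6 : ContDiffAt ℝ ∞ (fun q : ℝ × ℝ => q.1 / 2) (s, l) := by fun_prop
    have g7 : ContDiffAt ℝ ∞ (fun q : ℝ × ℝ => q.1 * q.2) (s, l) := by fun_prop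
    exact ((g5.mul g1).add g6).prodMk (((g5.mul g3).add g7).prodMk (g5.mul g4))
  · intro s hs
    exact contDiff_const.mul hys.snd.snd
  · intro s hs l
    have a1 := hy1 l 1
    have a2 := hy2 l 1
    rw [Int.cast_one] at a1 a2
    simp only [a1, a2, hρp]
    refine Prod.ext ?_ (Prod.ext ?_ ?_)
    · simp
    · simp only [Prod.snd_add, Prod.fst_add]
      ring
    · simp
  · intro s hs l
    have := hyp l
    simp only [this]
    simp
  · intro s hs l
    obtain ⟨a1, a2⟩ := hρ01 l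
    obtain ⟨b1, b2⟩ := hs
    constructor
    · show 0 < (1 - s) * ρ l + s / 2
      rcases b2.eq_or_lt with rfl | b2
      · norm_num
      · have := mul_pos (by linarith : 0 < 1 - s) a1
        linarith
    · show (1 - s) * ρ l + s / 2 < 1
      have := mul_le_mul_of_nonneg_left a2.le (by linarith : 0 ≤ 1 - s)
      rcases b1.eq_or_lt with rfl | b1
      · linarith
      · linarith
  · intro s hs l hder
    have d1 : HasDerivAt ρ (deriv ρ l) l := (hρ.differentiable (by simp)).differentiableAt.hasDerivAt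
    have dX : HasDerivAt X (deriv X l) l := (hX.differentiable (by simp)).differentiableAt.hasDerivAt
    have dy : HasDerivAt y (L.symm (deriv X l)) l := L.symm.hasFDerivAt.comp_hasDerivAt l dX
    have dy1 : HasDerivAt (fun l => (y l).1) (L.symm (deriv X l)).1 l :=
      (ContinuousLinearMap.fst ℝ ℝ (ℝ × ℝ)).hasFDerivAt.comp_hasDerivAt l dy
    have dy2 : HasDerivAt (fun l => (y l).2) (L.symm (deriv X l)).2 l :=
      (ContinuousLinearMap.snd ℝ ℝ (ℝ × ℝ)).hasFDerivAt.comp_hasDerivAt l dy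
    have dy3 : HasDerivAt (fun l => (y l).2.1) (L.symm (deriv X l)).2.1 l :=
      (ContinuousLinearMap.fst ℝ ℝ ℝ).hasFDerivAt.comp_hasDerivAt l dy2
    have dk := ((d1.const_mul (1 - s)).add_const (s / 2)).prodMk
      (((dy1.const_mul (1 - s)).add ((hasDerivAt_id l).const_mul s)).prodMk (dy3.const_mul (1 - s)))
    have hder' : deriv (fun l => ((1 - s) * ρ l + s / 2, (1 - s) * (y l).1 + s * l, (1 - s) * (y l).2.1)) l = 0 :=
      hder
    have e := dk.deriv
    have e2 : ((1 - s) * deriv ρ l, (1 - s) * (L.symm (deriv X l)).1 + s * 1,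
        (1 - s) * (L.symm (deriv X l)).2.1) = (0 : ℝ × ℝ × ℝ) := by
      rw [← hder', ← e]
      rfl
    rw [Prod.mk_eq_zero, Prod.mk_eq_zero] at e2
    obtain ⟨c1, c2, c3⟩ := e2
    rcases hs.2.eq_or_lt with rfl | hs1
    · norm_num at c2
    · have hρ0 : deriv ρ l = 0 := (mul_eq_zero.1 c1).resolve_left (by linarith)
      have hmain : (1 - s) • deriv X l + s • rv o = ((1 - s) * (L.symm (deriv X l)).2.2) • rv v := by
        have h3 : (1 - s) • L.symm (deriv X l) + s • ((1, 0, 0) : ℝ × ℝ × ℝ) =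
            ((1 - s) * (L.symm (deriv X l)).2.2) • ((0, 0, 1) : ℝ × ℝ × ℝ) := by
          refine Prod.ext ?_ (Prod.ext ?_ ?_)
          · simpa using c2
          · simpa using c3
          · simp
        have h4 := congrArg L h3
        rw [map_add, map_smul, map_smul, map_smul, L.apply_symm_apply, hLo, hLv] at h4
        exact h4
      have hXd : ∀ (l : ℝ) (m : ℤ), deriv X (l + m) = deriv X l := by
        intro l m
        have q1 : (fun x : ℝ => X (x + m)) = fun x => X x + (m : ℝ) • rv o := by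
          funext x
          rw [← hLy, hyn, map_add, map_smul, hLo, hLy]
        have q2 := deriv_comp_add_const X (m : ℝ) l
        rw [q1, deriv_add_const] at q2
        exact q2.symm
      obtain ⟨m, hm | hm⟩ := BLo_crit hρp hρe hρd hρ0
      · rw [hm, hXd] at hmain
        exact h0 s hs _ hmain
      · rw [hm, hXd] at hmain
        exact h1 s hs _ hmain
  · rintro s hs l l' m ⟨m1, ⟨i, mi⟩, j, mj⟩ hk
    rw [Prod.ext_iff, Prod.ext_iff] at hk
    simp only [Prod.fst_add, Prod.snd_add, m1, mi, mj] at hk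
    obtain ⟨k1, k2, k3⟩ := hk
    rcases hs.2.eq_or_lt with rfl | hs1
    · refine ⟨i, ?_⟩
      linarith
    · have hρρ : ρ l = ρ l' := by
        have : (1 - s) * ρ l = (1 - s) * ρ l' := by linarith
        exact mul_left_cancel₀ (by linarith) this
      -- the contradiction
      have hcon : ∀ (r : ℝ) (a b i j : ℤ), 0 < r → r < 1 / 2 →
          (1 - s) * (y (r + a)).1 + s * (r + a) = (1 - s) * (y (-r + b)).1 + s * (-r + b) + i →
          (1 - s) * (y (r + a)).2.1 = (1 - s) * (y (-r + b)).2.1 + j → False := by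
        intro r a b i j hr hr2 q1 q2
        rw [hy1, hy1] at q1
        rw [hy2, hy2] at q2
        set t : ℝ := (1 - s) * ((y r).2.2 - (y (-r)).2.2) with ht
        have q3 : (1 - s) • (X r - X (-r)) + (2 * s * r) • rv o =
            L (((i - a + b : ℤ) : ℝ), ((j : ℤ) : ℝ), t) := by
          have e : (((i - a + b : ℤ) : ℝ), ((j : ℤ) : ℝ), t) =
              (1 - s) • (y r - y (-r)) + (2 * s * r) • ((1, 0, 0) : ℝ × ℝ × ℝ) := ?_
          · rw [e, map_add L, map_smul L, map_smul L, map_sub L, hLy, hLy, hLo]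
          refine Prod.ext ?_ (Prod.ext ?_ ?_)
          · simp only [Prod.fst_add, Prod.smul_fst, Prod.fst_sub, smul_eq_mul]
            push_cast
            linarith
          · simp only [Prod.fst_add, Prod.snd_add, Prod.smul_fst, Prod.smul_snd, Prod.fst_sub, Prod.snd_sub,
              smul_eq_mul]
            linarith
          · simp only [Prod.snd_add, Prod.smul_snd, Prod.snd_sub, smul_eq_mul]
            rw [ht]
            ring
        have q4 := hD r hr hr2 s hs t ((i - a + b) * o.1 + j * g.1, (i - a + b) * o.2.1 + j * g.2.1,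
          (i - a + b) * o.2.2 + j * g.2.2)
        apply q4
        rw [q3, hL]
        unfold comb
        refine Prod.ext ?_ (Prod.ext ?_ ?_)
        · simp only
          push_cast
          ring
        · simp only
          push_cast
          ring
        · simp only
          push_cast
          ring
      rcases BLo_two hρp hρe hρm hρρ with hp | ⟨r, a, b, hr, hr2, ⟨e1, e2⟩ | ⟨e1, e2⟩⟩
      · exact hp
      · exfalso
        rw [e1, e2] at k2 k3
        exact hcon r a b i j hr hr2 k2 k3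
      · exfalso
        rw [e1, e2] at k2 k3
        refine hcon r a b (-i) (-j) hr hr2 ?_ ?_
        · push_cast
          linarith
        · push_cast
          linarith

end Pool.Agent.BAS
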