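import Pool.Agent.BAS.BCo
import Pool.Agent.CSG.FunBasic

/-!
# BAS/BPs: the diffeomorphism `Ψ` of the twin with `FC ∘ Ψ = fh` far from the spheres   (difficulty 3)

Write `A = |c1 z|²`, `B = |c2 z|²`, `h = ht²`, so `A + B + h = 1`; `χ = CSG.stp (1/16) (1/4) (4 A B)` (`0` for
`2|c1||c2| ≤ 1/4`, `1` for `≥ 1/2`; smooth function of `z`), `A' = A + χ h / 2`, `G = 4 A (1 - χ) + 2 χ - χ² h`.
`Ψ z = pS4 (√(A'/A) c1) (√(A/A') c2) (√(G / (4A')) ht)` for `A > 0` (and `Ψ z = z` if `4 A B ≤ 1/16`; both agree, `χ = 0`).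
* norm one: `4 A'² + 4 A B + h G = 4 A'` (expand, `A + B + h = 1`).  `G > 0`: `h < 1` if `A, B > 0`, so
  `G ≥ 4A(1-χ) + χ(2-χ)`.
* `|c1'||c2'| = |c1||c2|`, so `|fh|` is preserved (`RSG.fh_sq`), and `χ (Ψ z) = χ z`.
* `FC (Ψ z) = (2A' - 1, ht √G) = (2A - 1 + χ h, ht √G)`; for `χ = 1`: `2A - 1 + h = A - B`, `G = 2 - h`: `= fh z`.
* inverse: for `z'` with `A' , B'`, `r² = 4 A' B'`, `χ = stp (1/16) (1/4) r²`: `A = (A' - χ/2 + √Δ) / (2 - χ)`,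
  `Δ = (A' - χ/2)² + (1 - χ/2) χ r² / 2` is the positive root of `(1 - χ/2) A² + (χ/2 - A') A - χ r²/8 = 0`, i.e. of
  `A' = A + χ h / 2` with `h := 1 - A - r²/(4A)`; `G` as above, `h G = 4 A' (1 - A' - B')`, so `h ≥ 0`;
  `Ψ⁻¹ z' = pS4 (√(A/A') c1') (√(A'/A) c2') (√(4A'/G) ht')`.  Uniqueness (injectivity) of the positive root:
  the product of the roots is `≤ 0` (`χ > 0`: negative).
* local diffeo: `RSG.ld_two` with `Ψ` and this inverse, both smooth where `χ ≠ 0` or `4AB > 1/32` say (`A > 0` there);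
  where `4 A B < 1/16` both are the identity.
-/

open scoped Manifold ContDiff Topology
open Set Filter
open Complex (I)

namespace Pool.Agent.BAS

open Pool.Agent.RSG (E4 S3 S4 pS3 pS4 ex c1 c2 ht fh Thick)
open Pool.Agent.PTH (SP ISP z1 z2 gE gact)

/-! ### the formulas on `ℂ × ℂ × ℝ` -/

noncomputable def BPs_A (x : ℂ × ℂ × ℝ) : ℝ := ‖x.1‖ ^ 2
noncomputable def BPs_s (x : ℂ × ℂ × ℝ) : ℝ := 4 * ‖x.1‖ ^ 2 * ‖x.2.1‖ ^ 2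
noncomputable def BPs_χ (x : ℂ × ℂ × ℝ) : ℝ := CSG.stp (1 / 16) (1 / 4) (BPs_s x)
noncomputable def BPs_P (x : ℂ × ℂ × ℝ) : ℝ := BPs_A x + BPs_χ x * x.2.2 ^ 2 / 2
noncomputable def BPs_G (x : ℂ × ℂ × ℝ) : ℝ :=
  4 * BPs_A x * (1 - BPs_χ x) + 2 * BPs_χ x - BPs_χ x ^ 2 * x.2.2 ^ 2
noncomputable def BPs_F (x : ℂ × ℂ × ℝ) : ℂ × ℂ × ℝ :=
  (((Real.sqrt (BPs_P x / BPs_A x) : ℝ) : ℂ) * x.1, ((Real.sqrt (BPs_A x / BPs_P x) : ℝ) : ℂ) * x.2.1,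
    Real.sqrt (BPs_G x / (4 * BPs_P x)) * x.2.2)
noncomputable def BPs_Δ (x : ℂ × ℂ × ℝ) : ℝ :=
  (BPs_A x - BPs_χ x / 2) ^ 2 + (1 - BPs_χ x / 2) * BPs_χ x * BPs_s x / 2
noncomputable def BPs_R (x : ℂ × ℂ × ℝ) : ℝ :=
  (BPs_A x - BPs_χ x / 2 + Real.sqrt (BPs_Δ x)) / (2 - BPs_χ x)
noncomputable def BPs_H (x : ℂ × ℂ × ℝ) : ℝ := 1 - BPs_R x - BPs_s x / (4 * BPs_R x)
noncomputable def BPs_K (x : ℂ × ℂ × ℝ) : ℝ :=
  4 * BPs_R x * (1 - BPs_χ x) + 2 * BPs_χ x - BPs_χ x ^ 2 * BPs_H x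
noncomputable def BPs_E (x : ℂ × ℂ × ℝ) : ℂ × ℂ × ℝ :=
  (((Real.sqrt (BPs_R x / BPs_A x) : ℝ) : ℂ) * x.1, ((Real.sqrt (BPs_A x / BPs_R x) : ℝ) : ℂ) * x.2.1,
    Real.sqrt (4 * BPs_A x / BPs_K x) * x.2.2)
def BPs_D (x : ℂ × ℂ × ℝ) : Prop := ‖x.1‖ ^ 2 + ‖x.2.1‖ ^ 2 + x.2.2 ^ 2 = 1 ∧ 0 < BPs_s x

theorem BPs_χ0 (x : ℂ × ℂ × ℝ) : 0 ≤ BPs_χ x := CSG.stp_nonneg _ _ _
theorem BPs_χ1 (x : ℂ × ℂ × ℝ) : BPs_χ x ≤ 1 := CSG.stp_le_one _ _ _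

theorem BPs_pos {x : ℂ × ℂ × ℝ} (h : BPs_D x) : 0 < ‖x.1‖ ^ 2 ∧ 0 < ‖x.2.1‖ ^ 2 := by
  have h1 := h.2
  unfold BPs_s at h1
  constructor
  · by_contra h2
    have h3 : ‖x.1‖ ^ 2 = 0 := le_antisymm (not_lt.1 h2) (sq_nonneg _)
    rw [h3] at h1
    norm_num at h1
  · by_contra h2
    have h3 : ‖x.2.1‖ ^ 2 = 0 := le_antisymm (not_lt.1 h2) (sq_nonneg _)
    rw [h3] at h1
    norm_num at h1

theorem BPs_real {A χ h : ℝ} (hA : 0 < A) (h0 : 0 ≤ χ) (h1 : χ ≤ 1) (hh : h ≤ 1) :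
    0 < 4 * A * (1 - χ) + 2 * χ - χ ^ 2 * h := by
  rcases h0.eq_or_lt with h2 | h2
  · subst h2
    nlinarith
  · have h3 : χ * h ≤ 1 := by nlinarith
    have h4 : 0 < χ * (2 - χ * h) := mul_pos h2 (by linarith)
    have h5 : 0 ≤ 4 * A * (1 - χ) := mul_nonneg (by linarith) (by linarith)
    nlinarith

theorem BPs_PG {x : ℂ × ℂ × ℝ} (h : BPs_D x) : 0 < BPs_A x ∧ 0 < BPs_P x ∧ 0 < BPs_G x := by
  obtain ⟨h1, h2⟩ := BPs_pos h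
  have h3 := h.1
  have h0 := BPs_χ0 x
  have h4 := BPs_χ1 x
  have h5 : 0 < BPs_A x := h1
  refine ⟨h5, ?_, ?_⟩
  · unfold BPs_P
    have : 0 ≤ BPs_χ x * x.2.2 ^ 2 / 2 := by positivity
    linarith
  · exact BPs_real h5 h0 h4 (by linarith)

theorem BPs_nsq {r : ℝ} (hr : 0 ≤ r) (z : ℂ) : ‖((Real.sqrt r : ℝ) : ℂ) * z‖ ^ 2 = r * ‖z‖ ^ 2 := by
  rw [norm_mul, mul_pow, Complex.norm_real, Real.norm_of_nonneg (Real.sqrt_nonneg _), Real.sq_sqrt hr]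

/-- coordinates of `F x` -/
theorem BPs_F_c {x : ℂ × ℂ × ℝ} (h : BPs_D x) : ‖(BPs_F x).1‖ ^ 2 = BPs_P x ∧
    ‖(BPs_F x).2.1‖ ^ 2 = BPs_A x / BPs_P x * ‖x.2.1‖ ^ 2 ∧
    (BPs_F x).2.2 ^ 2 = BPs_G x / (4 * BPs_P x) * x.2.2 ^ 2 := by
  obtain ⟨h1, h2, h3⟩ := BPs_PG h
  unfold BPs_F
  refine ⟨?_, ?_, ?_⟩
  · change ‖((Real.sqrt (BPs_P x / BPs_A x) : ℝ) : ℂ) * x.1‖ ^ 2 = _
    rw [BPs_nsq (by positivity)]
    exact div_mul_cancel₀ _ h1.ne'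
  · exact BPs_nsq (by positivity) _
  · change (Real.sqrt (BPs_G x / (4 * BPs_P x)) * x.2.2) ^ 2 = _
    rw [mul_pow, Real.sq_sqrt (by positivity)]

theorem BPs_F_D {x : ℂ × ℂ × ℝ} (h : BPs_D x) : BPs_D (BPs_F x) ∧ BPs_s (BPs_F x) = BPs_s x := by
  obtain ⟨h1, h2, h3⟩ := BPs_PG h
  obtain ⟨e1, e2, e3⟩ := BPs_F_c h
  have e4 : BPs_s (BPs_F x) = BPs_s x := by
    unfold BPs_s
    rw [e1, e2]
    have : ‖x.1‖ ^ 2 = BPs_A x := rfl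
    rw [this]
    field_simp
  refine ⟨⟨?_, by rw [e4]; exact h.2⟩, e4⟩
  rw [e1, e2, e3]
  have h5 : ‖x.2.1‖ ^ 2 = 1 - BPs_A x - x.2.2 ^ 2 := by
    have := h.1
    unfold BPs_A
    linarith
  rw [h5]
  have h6 : BPs_P x ≠ 0 := h2.ne'
  have key : 4 * BPs_P x ^ 2 + 4 * BPs_A x * (1 - BPs_A x - x.2.2 ^ 2) + BPs_G x * x.2.2 ^ 2 = 4 * BPs_P x := by
    unfold BPs_P BPs_G
    ring
  field_simp
  linear_combination key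

/-- the root -/
theorem BPs_R_eq {A B χ : ℝ} (hA : 0 < A) (hB : 0 < B) (h0 : 0 ≤ χ) (h1 : χ ≤ 1) {P : ℝ}
    (hP : P = A + χ * (1 - A - B) / 2) {s : ℝ} (hs : s = 4 * A * B) :
    (P - χ / 2 + Real.sqrt ((P - χ / 2) ^ 2 + (1 - χ / 2) * χ * s / 2)) / (2 - χ) = A := by
  have h2 : (P - χ / 2) ^ 2 + (1 - χ / 2) * χ * s / 2 = ((1 - χ / 2) * A + χ * B / 2) ^ 2 := by
    rw [hP, hs]
    ring
  have h3 : 0 ≤ (1 - χ / 2) * A + χ * B / 2 := by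
    have : 0 ≤ (1 - χ / 2) * A := mul_nonneg (by linarith) hA.le
    positivity
  rw [h2, Real.sqrt_sq h3, hP, div_eq_iff (by linarith)]
  ring

theorem BPs_R_spec {A χ s : ℝ} (hA : 0 < A) (hs : 0 < s) (h0 : 0 ≤ χ) (h1 : χ ≤ 1) {R : ℝ}
    (hR : R = (A - χ / 2 + Real.sqrt ((A - χ / 2) ^ 2 + (1 - χ / 2) * χ * s / 2)) / (2 - χ)) :
    0 < (A - χ / 2) ^ 2 + (1 - χ / 2) * χ * s / 2 ∧ 0 < R ∧ A = R + χ * (1 - R - s / (4 * R)) / 2 := by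
  have h2 : (0 : ℝ) < 2 - χ := by linarith
  have h3 : 0 ≤ (1 - χ / 2) * χ * s / 2 := by
    have : 0 ≤ (1 - χ / 2) := by linarith
    positivity
  have h4 : 0 < (A - χ / 2) ^ 2 + (1 - χ / 2) * χ * s / 2 := by
    rcases h0.eq_or_lt with h5 | h5
    · subst h5
      have : 0 < A ^ 2 := by positivity
      simpa using this
    · have h6 : 0 < (1 - χ / 2) * χ * s / 2 := by
        have : 0 < (1 - χ / 2) := by linarith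
        positivity
      have := sq_nonneg (A - χ / 2)
      linarith
  set Δ := (A - χ / 2) ^ 2 + (1 - χ / 2) * χ * s / 2 with hΔ
  have h5 : 0 < Real.sqrt Δ := Real.sqrt_pos.2 h4
  have h6 : Real.sqrt Δ ^ 2 = Δ := Real.sq_sqrt h4.le
  have h7 : 0 < A - χ / 2 + Real.sqrt Δ := by
    rcases h0.eq_or_lt with h8 | h8
    · subst h8
      linarith
    · have h9 : 0 < (1 - χ / 2) * χ * s / 2 := by
        have : 0 < (1 - χ / 2) := by linarith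
        positivity
      have h10 : |A - χ / 2| < Real.sqrt Δ := by
        apply Real.lt_sqrt_of_sq_lt
        rw [sq_abs, hΔ]
        linarith
      have := neg_abs_le (A - χ / 2)
      linarith
  have hR0 : 0 < R := by
    rw [hR]
    positivity
  refine ⟨h4, hR0, ?_⟩
  have h8 : (2 - χ) * R - (A - χ / 2) = Real.sqrt Δ := by
    rw [hR, mul_div_cancel₀ _ h2.ne']
    ring
  have h9 : ((2 - χ) * R - (A - χ / 2)) ^ 2 = Δ := by rw [h8, h6]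
  rw [hΔ] at h9
  have h10 : (2 - χ) * ((1 - χ / 2) * R ^ 2 - (A - χ / 2) * R - χ * s / 8) = 0 := by
    linear_combination h9 / 2
  have h11 : (1 - χ / 2) * R ^ 2 - (A - χ / 2) * R - χ * s / 8 = 0 :=
    (mul_eq_zero.1 h10).resolve_left h2.ne'
  have hR1 : R ≠ 0 := hR0.ne'
  field_simp
  linear_combination (-8) * h11

theorem BPs_RK {x : ℂ × ℂ × ℝ} (h : BPs_D x) : 0 < BPs_Δ x ∧ 0 < BPs_R x ∧ 0 < BPs_K x ∧
    BPs_A x = BPs_R x + BPs_χ x * BPs_H x / 2 := by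
  obtain ⟨h1, -, -⟩ := BPs_PG h
  obtain ⟨h2, h3, h4⟩ := BPs_R_spec h1 h.2 (BPs_χ0 x) (BPs_χ1 x) (R := BPs_R x) rfl
  refine ⟨h2, h3, ?_, h4⟩
  refine BPs_real h3 (BPs_χ0 x) (BPs_χ1 x) ?_
  unfold BPs_H
  have := h.2
  have : 0 < BPs_s x / (4 * BPs_R x) := by positivity
  linarith

theorem BPs_E_c {x : ℂ × ℂ × ℝ} (h : BPs_D x) : ‖(BPs_E x).1‖ ^ 2 = BPs_R x ∧
    ‖(BPs_E x).2.1‖ ^ 2 = BPs_A x / BPs_R x * ‖x.2.1‖ ^ 2 ∧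
    (BPs_E x).2.2 ^ 2 = BPs_H x := by
  obtain ⟨h1, -, -⟩ := BPs_PG h
  obtain ⟨-, h2, h3, h4⟩ := BPs_RK h
  unfold BPs_E
  refine ⟨?_, ?_, ?_⟩
  · change ‖((Real.sqrt (BPs_R x / BPs_A x) : ℝ) : ℂ) * x.1‖ ^ 2 = _
    rw [BPs_nsq (by positivity)]
    exact div_mul_cancel₀ _ h1.ne'
  · exact BPs_nsq (by positivity) _
  · change (Real.sqrt (4 * BPs_A x / BPs_K x) * x.2.2) ^ 2 = _
    rw [mul_pow, Real.sq_sqrt (by positivity)]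
    have h5 : x.2.2 ^ 2 = 1 - BPs_A x - ‖x.2.1‖ ^ 2 := by
      have := h.1
      unfold BPs_A
      linarith
    have h6 : BPs_s x = 4 * BPs_A x * ‖x.2.1‖ ^ 2 := rfl
    have h7 : BPs_R x + BPs_s x / (4 * BPs_R x) + BPs_H x = 1 := by
      unfold BPs_H
      ring
    have h8 : 4 * BPs_A x * ‖x.2.1‖ ^ 2 = 4 * BPs_R x * (1 - BPs_R x - BPs_H x) := by
      rw [← h6]
      have h9 : BPs_s x / (4 * BPs_R x) = 1 - BPs_R x - BPs_H x := by linarith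
      rw [← h9]
      field_simp
    rw [div_mul_eq_mul_div, div_eq_iff h3.ne', h5]
    have h9 : BPs_K x = 4 * BPs_R x * (1 - BPs_χ x) + 2 * BPs_χ x - BPs_χ x ^ 2 * BPs_H x := rfl
    rw [h9]
    have h10 : 4 * BPs_A x * (1 - BPs_A x - ‖x.2.1‖ ^ 2) =
        4 * BPs_A x - 4 * BPs_A x ^ 2 - 4 * BPs_A x * ‖x.2.1‖ ^ 2 := by ring
    rw [h10, h8, h4]
    ring

theorem BPs_E_D {x : ℂ × ℂ × ℝ} (h : BPs_D x) : BPs_D (BPs_E x) ∧ BPs_s (BPs_E x) = BPs_s x := by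
  obtain ⟨h1, -, -⟩ := BPs_PG h
  obtain ⟨-, h2, h3, h4⟩ := BPs_RK h
  obtain ⟨e1, e2, e3⟩ := BPs_E_c h
  have e4 : BPs_s (BPs_E x) = BPs_s x := by
    unfold BPs_s
    rw [e1, e2]
    have : ‖x.1‖ ^ 2 = BPs_A x := rfl
    rw [this]
    field_simp
  refine ⟨⟨?_, by rw [e4]; exact h.2⟩, e4⟩
  rw [e1, e2, e3]
  unfold BPs_H
  have h6 : BPs_s x = 4 * BPs_A x * ‖x.2.1‖ ^ 2 := rfl
  rw [h6]
  field_simp
  ring

theorem BPs_sq1 {a b : ℝ} (ha : 0 < a) (hb : 0 < b) : Real.sqrt (a / b) * Real.sqrt (b / a) = 1 := by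
  rw [← Real.sqrt_mul (by positivity), div_mul_div_cancel₀ hb.ne', div_self ha.ne', Real.sqrt_one]

theorem BPs_EF {x : ℂ × ℂ × ℝ} (h : BPs_D x) : BPs_E (BPs_F x) = x := by
  obtain ⟨h1, h2, h3⟩ := BPs_PG h
  obtain ⟨e1, e2, e3⟩ := BPs_F_c h
  obtain ⟨hD, e4⟩ := BPs_F_D h
  have e5 : BPs_χ (BPs_F x) = BPs_χ x := by unfold BPs_χ; rw [e4]
  have e6 : BPs_A (BPs_F x) = BPs_P x := e1
  have hB := (BPs_pos h).2
  have h5 : x.2.2 ^ 2 = 1 - BPs_A x - ‖x.2.1‖ ^ 2 := by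
    have := h.1
    unfold BPs_A
    linarith
  have e7 : BPs_R (BPs_F x) = BPs_A x := by
    unfold BPs_R BPs_Δ
    rw [e4, e5, e6]
    refine BPs_R_eq h1 hB (BPs_χ0 x) (BPs_χ1 x) ?_ rfl
    rw [← h5]
    rfl
  have e8 : BPs_H (BPs_F x) = x.2.2 ^ 2 := by
    unfold BPs_H
    rw [e4, e7, h5]
    have h6 : BPs_s x = 4 * BPs_A x * ‖x.2.1‖ ^ 2 := rfl
    rw [h6, mul_div_cancel_left₀ _ (by positivity)]
  have e9 : BPs_K (BPs_F x) = BPs_G x := by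
    unfold BPs_K
    rw [e7, e8, e5]
    rfl
  have e10 : BPs_E (BPs_F x) = (((Real.sqrt (BPs_A x / BPs_P x) : ℝ) : ℂ) * (BPs_F x).1,
      ((Real.sqrt (BPs_P x / BPs_A x) : ℝ) : ℂ) * (BPs_F x).2.1,
      Real.sqrt (4 * BPs_P x / BPs_G x) * (BPs_F x).2.2) := by
    rw [← e7, ← e6, ← e9]
    rfl
  rw [e10]
  refine Prod.ext ?_ (Prod.ext ?_ ?_)
  · change ((Real.sqrt (BPs_A x / BPs_P x) : ℝ) : ℂ) * (((Real.sqrt (BPs_P x / BPs_A x) : ℝ) : ℂ) * x.1) = x.1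
    rw [← mul_assoc, ← Complex.ofReal_mul, BPs_sq1 h1 h2, Complex.ofReal_one, one_mul]
  · change ((Real.sqrt (BPs_P x / BPs_A x) : ℝ) : ℂ) * (((Real.sqrt (BPs_A x / BPs_P x) : ℝ) : ℂ) * x.2.1) = x.2.1
    rw [← mul_assoc, ← Complex.ofReal_mul, BPs_sq1 h2 h1, Complex.ofReal_one, one_mul]
  · change Real.sqrt (4 * BPs_P x / BPs_G x) * (Real.sqrt (BPs_G x / (4 * BPs_P x)) * x.2.2) = x.2.2
    rw [← mul_assoc, BPs_sq1 (by positivity) h3, one_mul]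

theorem BPs_FE {x : ℂ × ℂ × ℝ} (h : BPs_D x) : BPs_F (BPs_E x) = x := by
  obtain ⟨h1, -, -⟩ := BPs_PG h
  obtain ⟨-, h2, h3, h4⟩ := BPs_RK h
  obtain ⟨e1, e2, e3⟩ := BPs_E_c h
  obtain ⟨hD, e4⟩ := BPs_E_D h
  have e5 : BPs_χ (BPs_E x) = BPs_χ x := by unfold BPs_χ; rw [e4]
  have e6 : BPs_A (BPs_E x) = BPs_R x := e1
  have e7 : BPs_P (BPs_E x) = BPs_A x := by
    unfold BPs_P
    rw [e5, e6, e3]
    exact h4.symm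
  have e8 : BPs_G (BPs_E x) = BPs_K x := by
    unfold BPs_G
    rw [e5, e6, e3]
    rfl
  have e10 : BPs_F (BPs_E x) = (((Real.sqrt (BPs_A x / BPs_R x) : ℝ) : ℂ) * (BPs_E x).1,
      ((Real.sqrt (BPs_R x / BPs_A x) : ℝ) : ℂ) * (BPs_E x).2.1,
      Real.sqrt (BPs_K x / (4 * BPs_A x)) * (BPs_E x).2.2) := by
    rw [← e7, ← e6, ← e8]
    rfl
  rw [e10]
  refine Prod.ext ?_ (Prod.ext ?_ ?_)
  · change ((Real.sqrt (BPs_A x / BPs_R x) : ℝ) : ℂ) * (((Real.sqrt (BPs_R x / BPs_A x) : ℝ) : ℂ) * x.1) = x.1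
    rw [← mul_assoc, ← Complex.ofReal_mul, BPs_sq1 h1 h2, Complex.ofReal_one, one_mul]
  · change ((Real.sqrt (BPs_R x / BPs_A x) : ℝ) : ℂ) * (((Real.sqrt (BPs_A x / BPs_R x) : ℝ) : ℂ) * x.2.1) = x.2.1
    rw [← mul_assoc, ← Complex.ofReal_mul, BPs_sq1 h2 h1, Complex.ofReal_one, one_mul]
  · change Real.sqrt (BPs_K x / (4 * BPs_A x)) * (Real.sqrt (4 * BPs_A x / BPs_K x) * x.2.2) = x.2.2
    rw [← mul_assoc, BPs_sq1 h3 (by positivity), one_mul]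

theorem BPs_F_id {x : ℂ × ℂ × ℝ} (h : BPs_D x) (hs : BPs_s x ≤ 1 / 16) : BPs_F x = x := by
  obtain ⟨h1, h2, h3⟩ := BPs_PG h
  have e0 : BPs_χ x = 0 := CSG.stp_zero (by norm_num) hs
  have e1 : BPs_P x = BPs_A x := by unfold BPs_P; rw [e0]; ring
  have e2 : BPs_G x = 4 * BPs_A x := by unfold BPs_G; rw [e0]; ring
  unfold BPs_F
  rw [e1, e2, div_self h1.ne', div_self (by positivity), Real.sqrt_one, Complex.ofReal_one, one_mul, one_mul, one_mul]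

theorem BPs_E_id {x : ℂ × ℂ × ℝ} (h : BPs_D x) (hs : BPs_s x ≤ 1 / 16) : BPs_E x = x := by
  have h1 := BPs_EF h
  rwa [BPs_F_id h hs] at h1

/-! ### smoothness -/

theorem BPs_smA : ContDiff ℝ ∞ BPs_A := contDiff_fst.norm_sq ℝ
theorem BPs_sms : ContDiff ℝ ∞ BPs_s :=
  (contDiff_const.mul (contDiff_fst.norm_sq ℝ)).mul ((contDiff_fst.comp contDiff_snd).norm_sq ℝ)
theorem BPs_smχ : ContDiff ℝ ∞ BPs_χ := (CSG.stp_smooth _ _).comp BPs_sms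
theorem BPs_smh : ContDiff ℝ ∞ fun x : ℂ × ℂ × ℝ => x.2.2 := contDiff_snd.comp contDiff_snd
theorem BPs_smP : ContDiff ℝ ∞ BPs_P := BPs_smA.add ((BPs_smχ.mul (BPs_smh.pow 2)).div_const 2)
theorem BPs_smG : ContDiff ℝ ∞ BPs_G :=
  (((contDiff_const.mul BPs_smA).mul (contDiff_const.sub BPs_smχ)).add (contDiff_const.mul BPs_smχ)).sub
    ((BPs_smχ.pow 2).mul (BPs_smh.pow 2))
theorem BPs_smΔ : ContDiff ℝ ∞ BPs_Δ :=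
  ((BPs_smA.sub (BPs_smχ.div_const 2)).pow 2).add
    ((((contDiff_const.sub (BPs_smχ.div_const 2)).mul BPs_smχ).mul BPs_sms).div_const 2)

theorem BPs_smsq {f g : ℂ × ℂ × ℝ → ℝ} {x : ℂ × ℂ × ℝ} (hf : ContDiffAt ℝ ∞ f x) (hg : ContDiffAt ℝ ∞ g x)
    (h1 : 0 < f x) (h2 : 0 < g x) : ContDiffAt ℝ ∞ (fun x => Real.sqrt (f x / g x)) x :=
  (hf.div hg h2.ne').sqrt (div_pos h1 h2).ne'

theorem BPs_smsqc {f g : ℂ × ℂ × ℝ → ℝ} {x : ℂ × ℂ × ℝ} (hf : ContDiffAt ℝ ∞ f x) (hg : ContDiffAt ℝ ∞ g x)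
    (h1 : 0 < f x) (h2 : 0 < g x) : ContDiffAt ℝ ∞ (fun x => ((Real.sqrt (f x / g x) : ℝ) : ℂ)) x :=
  Complex.ofRealCLM.contDiff.contDiffAt.comp x (BPs_smsq hf hg h1 h2)

theorem BPs_smF {x : ℂ × ℂ × ℝ} (h : BPs_D x) : ContDiffAt ℝ ∞ BPs_F x := by
  obtain ⟨h1, h2, h3⟩ := BPs_PG h
  refine ContDiffAt.prodMk ?_ (ContDiffAt.prodMk ?_ ?_)
  · exact (BPs_smsqc BPs_smP.contDiffAt BPs_smA.contDiffAt h2 h1).mul contDiffAt_fst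
  · exact (BPs_smsqc BPs_smA.contDiffAt BPs_smP.contDiffAt h1 h2).mul (contDiff_fst.comp contDiff_snd).contDiffAt
  · exact (BPs_smsq BPs_smG.contDiffAt (contDiff_const.mul BPs_smP).contDiffAt h3 (by positivity)).mul
      BPs_smh.contDiffAt

theorem BPs_smR {x : ℂ × ℂ × ℝ} (h : BPs_D x) : ContDiffAt ℝ ∞ BPs_R x := by
  obtain ⟨h1, h2, h3, h4⟩ := BPs_RK h
  have h5 := BPs_χ1 x
  refine ContDiffAt.div (((BPs_smA.sub (BPs_smχ.div_const 2)).contDiffAt).add (BPs_smΔ.contDiffAt.sqrt h1.ne'))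
    (contDiff_const.sub BPs_smχ).contDiffAt ?_
  linarith

theorem BPs_smK {x : ℂ × ℂ × ℝ} (h : BPs_D x) : ContDiffAt ℝ ∞ BPs_K x := by
  obtain ⟨h1, h2, h3, h4⟩ := BPs_RK h
  have hR := BPs_smR h
  have hH : ContDiffAt ℝ ∞ BPs_H x :=
    (contDiffAt_const.sub hR).sub (BPs_sms.contDiffAt.div (contDiffAt_const.mul hR) (by positivity))
  exact (((contDiffAt_const.mul hR).mul (contDiff_const.sub BPs_smχ).contDiffAt).add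
    (contDiff_const.mul BPs_smχ).contDiffAt).sub ((BPs_smχ.pow 2).contDiffAt.mul hH)

theorem BPs_smE {x : ℂ × ℂ × ℝ} (h : BPs_D x) : ContDiffAt ℝ ∞ BPs_E x := by
  obtain ⟨h0, -, -⟩ := BPs_PG h
  obtain ⟨h1, h2, h3, h4⟩ := BPs_RK h
  have hR := BPs_smR h
  have hK := BPs_smK h
  refine ContDiffAt.prodMk ?_ (ContDiffAt.prodMk ?_ ?_)
  · exact (BPs_smsqc hR BPs_smA.contDiffAt h2 h0).mul contDiffAt_fst
  · exact (BPs_smsqc BPs_smA.contDiffAt hR h0 h2).mul (contDiff_fst.comp contDiff_snd).contDiffAt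
  · exact (BPs_smsq (contDiff_const.mul BPs_smA).contDiffAt hK (by positivity) h3).mul BPs_smh.contDiffAt

/-! ### the maps of `S4` -/

/-- coordinates -/
noncomputable def BPs_c (z : S4) : ℂ × ℂ × ℝ := (c1 z, c2 z, ht z)

/-- the point of `S4` -/
noncomputable def BPs_p (x : ℂ × ℂ × ℝ) : S4 := pS4 x.1 x.2.1 x.2.2

theorem BPs_pc (z : S4) : BPs_p (BPs_c z) = z := RSG.pS4_self z

theorem BPs_cp {x : ℂ × ℂ × ℝ} (h : ‖x.1‖ ^ 2 + ‖x.2.1‖ ^ 2 + x.2.2 ^ 2 = 1) : BPs_c (BPs_p x) = x := by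
  obtain ⟨h1, h2, h3⟩ := RSG.pS4_c h
  exact Prod.ext h1 (Prod.ext h2 h3)

theorem BPs_cD {z : S4} (h : 0 < BPs_s (BPs_c z)) : BPs_D (BPs_c z) := ⟨RSG.S4_sq z, h⟩

open Classical in
noncomputable def BPs_Q (W : ℂ × ℂ × ℝ → ℂ × ℂ × ℝ) (z : S4) : S4 :=
  if BPs_s (BPs_c z) ≤ 1 / 16 then z else BPs_p (W (BPs_c z))

theorem BPs_Q_eq {W : ℂ × ℂ × ℝ → ℂ × ℂ × ℝ} (hW : ∀ x, BPs_D x → BPs_s x ≤ 1 / 16 → W x = x) {z : S4}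
    (h : 0 < BPs_s (BPs_c z)) : BPs_Q W z = BPs_p (W (BPs_c z)) := by
  unfold BPs_Q
  split_ifs with h1
  · rw [hW _ (BPs_cD h) h1, BPs_pc]
  · rfl

theorem BPs_Q_id {W : ℂ × ℂ × ℝ → ℂ × ℂ × ℝ} {z : S4}
    (h : BPs_s (BPs_c z) ≤ 1 / 16) : BPs_Q W z = z := if_pos h

theorem BPs_cs : ContMDiff (𝓡 4) 𝓘(ℝ, ℂ × ℂ × ℝ) ∞ BPs_c := fun z =>
  (RSG.c1_smooth z).prodMk_space ((RSG.c2_smooth z).prodMk_space (RSG.ht_smooth z))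

theorem BPs_Q_smooth {W : ℂ × ℂ × ℝ → ℂ × ℂ × ℝ} (hW : ∀ x, BPs_D x → BPs_s x ≤ 1 / 16 → W x = x)
    (hs : ∀ x, BPs_D x → ContDiffAt ℝ ∞ W x) (hD : ∀ x, BPs_D x → BPs_D (W x)) (z : S4) :
    ContMDiffAt (𝓡 4) (𝓡 4) ∞ (BPs_Q W) z := by
  have hc : Continuous fun z : S4 => BPs_s (BPs_c z) := BPs_sms.continuous.comp BPs_cs.continuous
  by_cases h : BPs_s (BPs_c z) < 1 / 16
  · have h1 : ContMDiffAt (𝓡 4) (𝓡 4) ∞ (id : S4 → S4) z := contMDiffAt_id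
    refine h1.congr_of_eventuallyEq ?_
    have h2 : ∀ᶠ y : S4 in 𝓝 z, BPs_s (BPs_c y) < 1 / 16 := hc.continuousAt.eventually (gt_mem_nhds h)
    filter_upwards [h2] with y hy
    exact BPs_Q_id hy.le
  · have h0 : 0 < BPs_s (BPs_c z) := by
      push Not at h
      linarith
    have hDz := hD _ (BPs_cD h0)
    have h1 : ContMDiffAt (𝓡 4) 𝓘(ℝ, ℂ × ℂ × ℝ) ∞ (fun z => W (BPs_c z)) z :=
      (hs _ (BPs_cD h0)).contMDiffAt.comp z (BPs_cs z)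
    have h2 : ContMDiffAt (𝓡 4) 𝓘(ℝ, ℂ) ∞ (fun z => (W (BPs_c z)).1) z :=
      (contDiff_fst (E := ℂ) (F := ℂ × ℝ) (n := ∞) (𝕜 := ℝ)).contMDiff.contMDiffAt.comp z h1
    have h3 : ContMDiffAt (𝓡 4) 𝓘(ℝ, ℂ × ℝ) ∞ (fun z => (W (BPs_c z)).2) z :=
      (contDiff_snd (E := ℂ) (F := ℂ × ℝ) (n := ∞) (𝕜 := ℝ)).contMDiff.contMDiffAt.comp z h1
    have h4 : ContMDiffAt (𝓡 4) 𝓘(ℝ, ℂ) ∞ (fun z => (W (BPs_c z)).2.1) z :=
      (contDiff_fst (E := ℂ) (F := ℝ) (n := ∞) (𝕜 := ℝ)).contMDiff.contMDiffAt.comp z h3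
    have h5 : ContMDiffAt (𝓡 4) 𝓘(ℝ, ℝ) ∞ (fun z => (W (BPs_c z)).2.2) z :=
      (contDiff_snd (E := ℂ) (F := ℝ) (n := ∞) (𝕜 := ℝ)).contMDiff.contMDiffAt.comp z h3
    have h6 : ContMDiffAt (𝓡 4) (𝓡 4) ∞ (fun z => BPs_p (W (BPs_c z))) z := by
      refine RSG.pS4_smooth h2 h4 h5 ?_
      rw [hDz.1]
      exact one_pos
    refine h6.congr_of_eventuallyEq ?_
    have h7 : ∀ᶠ y : S4 in 𝓝 z, 0 < BPs_s (BPs_c y) := hc.continuousAt.eventually (lt_mem_nhds h0)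
    filter_upwards [h7] with y hy
    exact BPs_Q_eq hW hy

theorem BPs_Q_s {W : ℂ × ℂ × ℝ → ℂ × ℂ × ℝ} (hD : ∀ x, BPs_D x → BPs_D (W x) ∧ BPs_s (W x) = BPs_s x) (z : S4) :
    BPs_s (BPs_c (BPs_Q W z)) = BPs_s (BPs_c z) := by
  unfold BPs_Q
  split_ifs with h1
  · rfl
  · push Not at h1
    have h2 := hD _ (BPs_cD (z := z) (by linarith))
    rw [BPs_cp h2.1.1, h2.2]

theorem BPs_QQ {W W' : ℂ × ℂ × ℝ → ℂ × ℂ × ℝ} (hD : ∀ x, BPs_D x → BPs_D (W x) ∧ BPs_s (W x) = BPs_s x)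
    (h : ∀ x, BPs_D x → W' (W x) = x) (z : S4) : BPs_Q W' (BPs_Q W z) = z := by
  by_cases h1 : BPs_s (BPs_c z) ≤ 1 / 16
  · rw [BPs_Q_id h1, BPs_Q_id h1]
  · have h2 : ¬ BPs_s (BPs_c (BPs_Q W z)) ≤ 1 / 16 := by rwa [BPs_Q_s hD]
    have h3 : BPs_Q W z = BPs_p (W (BPs_c z)) := if_neg h1
    have h4 : BPs_Q W' (BPs_Q W z) = BPs_p (W' (BPs_c (BPs_Q W z))) := if_neg h2
    push Not at h1
    have hDz := BPs_cD (z := z) (by linarith)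
    rw [h4, h3, BPs_cp (hD _ hDz).1.1, h _ hDz, BPs_pc]

theorem BPs_s_eq (z : S4) : BPs_s (BPs_c z) = (2 * ‖c1 z‖ * ‖c2 z‖) ^ 2 := by
  unfold BPs_s BPs_c
  ring

theorem BPs_fh (z : S4) : fh z ≠ 0 ↔ BPs_s (BPs_c z) < 1 := by
  rw [RSG.fh_ne_iff, BPs_s_eq]
  have : 0 ≤ 2 * ‖c1 z‖ * ‖c2 z‖ := by positivity
  constructor
  · intro h
    nlinarith
  · intro h
    nlinarith

theorem exists_Psi : ∃ Ψ : S4 → S4,
    (∀ z, fh z ≠ 0 → IsLocalDiffeomorphAt (𝓡 4) (𝓡 4) ∞ Ψ z) ∧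
    (∀ z z', fh z ≠ 0 → fh z' ≠ 0 → Ψ z = Ψ z' → z = z') ∧
    (∀ z', fh z' ≠ 0 → ∃ z, fh z ≠ 0 ∧ Ψ z = z') ∧
    (∀ z, fh z ≠ 0 → fh (Ψ z) ≠ 0) ∧
    (∀ z, fh z ≠ 0 → ∃ a : ℝ, 0 < a ∧ c1 (Ψ z) = a * c1 z ∧ c2 (Ψ z) = (a⁻¹ : ℝ) * c2 z) ∧
    (∀ z, 2 * ‖c1 z‖ * ‖c2 z‖ ≤ 1 / 4 → Ψ z = z) ∧
    ∀ z, fh z ≠ 0 → 1 / 2 ≤ 2 * ‖c1 z‖ * ‖c2 z‖ → FC (Ψ z) = fh z := by
  have hFD : ∀ x, BPs_D x → BPs_D (BPs_F x) ∧ BPs_s (BPs_F x) = BPs_s x := fun x hx => BPs_F_D hx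
  have hED : ∀ x, BPs_D x → BPs_D (BPs_E x) ∧ BPs_s (BPs_E x) = BPs_s x := fun x hx => BPs_E_D hx
  have hEF : ∀ x, BPs_D x → BPs_E (BPs_F x) = x := fun x hx => BPs_EF hx
  have hFE : ∀ x, BPs_D x → BPs_F (BPs_E x) = x := fun x hx => BPs_FE hx
  have hF := BPs_Q_smooth (fun x h1 h2 => BPs_F_id h1 h2) (fun x hx => BPs_smF hx) (fun x hx => (hFD x hx).1)
  have hE := BPs_Q_smooth (fun x h1 h2 => BPs_E_id h1 h2) (fun x hx => BPs_smE hx) (fun x hx => (hED x hx).1)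
  refine ⟨BPs_Q BPs_F, ?_, ?_, ?_, ?_, ?_, ?_, ?_⟩
  · intro z _
    exact RSG.ld_two (g := BPs_Q BPs_E) (Eventually.of_forall hF) (Eventually.of_forall hE)
      (Eventually.of_forall (BPs_QQ hFD hEF)) (Eventually.of_forall (BPs_QQ hED hFE))
  · intro z z' _ _ he
    rw [← BPs_QQ hFD hEF z, he, BPs_QQ hFD hEF z']
  · intro z' hz'
    refine ⟨BPs_Q BPs_E z', ?_, BPs_QQ hED hFE z'⟩
    rw [BPs_fh] at hz' ⊢
    rwa [BPs_Q_s hED]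
  · intro z hz
    rw [BPs_fh] at hz ⊢
    rwa [BPs_Q_s hFD]
  · intro z _
    by_cases h1 : BPs_s (BPs_c z) ≤ 1 / 16
    · refine ⟨1, one_pos, ?_, ?_⟩
      · rw [BPs_Q_id h1, Complex.ofReal_one, one_mul]
      · rw [BPs_Q_id h1, inv_one, Complex.ofReal_one, one_mul]
    · push Not at h1
      have h0 : 0 < BPs_s (BPs_c z) := by linarith
      have hD := BPs_cD h0
      obtain ⟨e1, e2, e3⟩ := BPs_PG hD
      refine ⟨Real.sqrt (BPs_P (BPs_c z) / BPs_A (BPs_c z)), Real.sqrt_pos.2 (by positivity), ?_, ?_⟩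
      · rw [BPs_Q_eq (fun x h1 h2 => BPs_F_id h1 h2) h0]
        exact congrArg Prod.fst (BPs_cp (hFD _ hD).1.1)
      · rw [BPs_Q_eq (fun x h1 h2 => BPs_F_id h1 h2) h0, ← Real.sqrt_inv, inv_div]
        exact congrArg (fun x : ℂ × ℂ × ℝ => x.2.1) (BPs_cp (hFD _ hD).1.1)
  · intro z hz
    apply BPs_Q_id
    rw [BPs_s_eq]
    have : 0 ≤ 2 * ‖c1 z‖ * ‖c2 z‖ := by positivity
    nlinarith
  · intro z _ hz
    have h0 : 1 / 4 ≤ BPs_s (BPs_c z) := by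
      rw [BPs_s_eq]
      nlinarith
    have h1 : 0 < BPs_s (BPs_c z) := by linarith
    have hD := BPs_cD h1
    obtain ⟨e1, e2, e3⟩ := BPs_PG hD
    have hχ : BPs_χ (BPs_c z) = 1 := CSG.stp_one (by norm_num) h0
    have hA : BPs_A (BPs_c z) = ‖c1 z‖ ^ 2 := rfl
    have hP : BPs_P (BPs_c z) = ‖c1 z‖ ^ 2 + ht z ^ 2 / 2 := by
      unfold BPs_P
      rw [hχ, hA, one_mul]
      rfl
    have hG : BPs_G (BPs_c z) = 2 - ht z ^ 2 := by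
      unfold BPs_G
      rw [hχ]
      change 4 * BPs_A (BPs_c z) * (1 - 1) + 2 * 1 - 1 ^ 2 * ht z ^ 2 = _
      ring
    have hc := BPs_cp (hFD _ hD).1.1
    rw [← BPs_Q_eq (fun x h1 h2 => BPs_F_id h1 h2) h1] at hc
    have hc1 : c1 (BPs_Q BPs_F z) = (BPs_F (BPs_c z)).1 := congrArg Prod.fst hc
    have hc3 : ht (BPs_Q BPs_F z) = (BPs_F (BPs_c z)).2.2 := congrArg (fun x : ℂ × ℂ × ℝ => x.2.2) hc
    have hn2 : ‖c1 (BPs_Q BPs_F z)‖ ^ 2 = BPs_P (BPs_c z) := by rw [hc1]; exact (BPs_F_c hD).1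
    have hn : ‖c1 (BPs_Q BPs_F z)‖ = Real.sqrt (BPs_P (BPs_c z)) := by
      rw [← hn2, Real.sqrt_sq (norm_nonneg _)]
    have hh : 2 * ht (BPs_Q BPs_F z) * ‖c1 (BPs_Q BPs_F z)‖ = ht z * Real.sqrt (2 - ht z ^ 2) := by
      rw [hn, hc3, ← hG]
      change 2 * (Real.sqrt (BPs_G (BPs_c z) / (4 * BPs_P (BPs_c z))) * ht z) * Real.sqrt (BPs_P (BPs_c z)) = _
      have h5 : Real.sqrt (BPs_G (BPs_c z) / (4 * BPs_P (BPs_c z))) =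
          Real.sqrt (BPs_G (BPs_c z)) / (2 * Real.sqrt (BPs_P (BPs_c z))) := by
        rw [Real.sqrt_div e3.le, Real.sqrt_mul (by norm_num)]
        congr 2
        rw [show (4 : ℝ) = 2 ^ 2 by norm_num, Real.sqrt_sq (by norm_num)]
      have h6 : 0 < Real.sqrt (BPs_P (BPs_c z)) := Real.sqrt_pos.2 e2
      rw [h5]
      field_simp
    have h7 := RSG.S4_sq z
    apply Complex.ext
    · change 2 * ‖c1 (BPs_Q BPs_F z)‖ ^ 2 - 1 = ‖c1 z‖ ^ 2 - ‖c2 z‖ ^ 2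
      rw [hn2, hP]
      linarith
    · exact hh

end Pool.Agent.BAS
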