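import Pool.Agent.BAS.Defs
import Pool.Agent.RSG.BaQ

/-!
# BAS/BRr: the map `rR k`   (difficulty 1)

Word for word as `RSG.bQ` in RSG/BaQ.lean (there both `c1` and `c2` are multiplied by `ω^k`, here only `c1`).
-/

open scoped Manifold ContDiff Topology
open Set Filter
open Complex (I)

namespace Pool.Agent.BAS

open Pool.Agent.RSG (E4 S3 S4 pS3 pS4 ex c1 c2 ht fh Thick)
open Pool.Agent.PTH (SP ISP z1 z2 gE gact)

theorem rR_spec (k : ℤ) {z : S4} (h : fh z ≠ 0) :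
    c1 (rR k z) = c1 z * (fh z / ‖fh z‖) ^ k ∧ c2 (rR k z) = c2 z ∧ ht (rR k z) = ht z ∧
    ‖c1 (rR k z)‖ = ‖c1 z‖ ∧ fh (rR k z) = fh z := by
  have hn := RSG.BaQ_norm k h
  have H : ‖c1 z * (fh z / ‖fh z‖) ^ k‖ ^ 2 + ‖c2 z‖ ^ 2 + ht z ^ 2 = 1 := by
    rw [norm_mul, hn, mul_one]
    exact RSG.S4_sq z
  obtain ⟨e1, e2, e3⟩ := RSG.pS4_c H
  have n1 : ‖c1 (rR k z)‖ = ‖c1 z‖ := by
    unfold rR
    rw [e1, norm_mul, hn, mul_one]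
  have n2 : ‖c2 (rR k z)‖ = ‖c2 z‖ := by
    unfold rR
    rw [e2]
  refine ⟨e1, e2, e3, n1, ?_⟩
  have e3' : ht (rR k z) = ht z := e3
  show (⟨‖c1 (rR k z)‖ ^ 2 - ‖c2 (rR k z)‖ ^ 2, ht (rR k z) * Real.sqrt (2 - ht (rR k z) ^ 2)⟩ : ℂ) = _
  rw [n1, n2, e3']
  rfl

theorem rR_comp (k : ℤ) {z : S4} (h : fh z ≠ 0) : rR (-k) (rR k z) = z := by
  obtain ⟨e1, e2, e3, _, e6⟩ := rR_spec k h
  have hw : (fh z / ‖fh z‖ : ℂ) ≠ 0 :=
    div_ne_zero h (Complex.ofReal_ne_zero.2 (norm_ne_zero_iff.2 h))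
  have h1 : (fh z / ‖fh z‖ : ℂ) ^ k * (fh z / ‖fh z‖ : ℂ) ^ (-k) = 1 := by
    rw [← zpow_add₀ hw, add_neg_cancel, zpow_zero]
  show pS4 (c1 (rR k z) * (fh (rR k z) / ‖fh (rR k z)‖) ^ (-k))
    (c2 (rR k z)) (ht (rR k z)) = z
  rw [e6, e1, e2, e3, mul_assoc, h1, mul_one, RSG.pS4_self]

theorem BRr_smooth (k : ℤ) {z : S4} (h : fh z ≠ 0) : ContMDiffAt (𝓡 4) (𝓡 4) ∞ (rR k) z := by
  have hn := RSG.BaQ_norm k h
  have g1 : ContMDiffAt (𝓡 4) 𝓘(ℝ, ℂ) ∞ (fun z : S4 => c1 z * (fh z / ‖fh z‖) ^ k) z :=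
    (RSG.BaQ_cd k (p := (c1 z, fh z)) h).contMDiffAt.comp z
      (RSG.c1_smooth.contMDiffAt.prodMk_space RSG.fh_smooth.contMDiffAt)
  refine RSG.pS4_smooth g1 RSG.c2_smooth.contMDiffAt RSG.ht_smooth.contMDiffAt ?_
  rw [norm_mul, hn, mul_one, RSG.S4_sq z]
  exact one_pos

theorem rR_ld (k : ℤ) {z : S4} (h : fh z ≠ 0) : IsLocalDiffeomorphAt (𝓡 4) (𝓡 4) ∞ (rR k) z := by
  have ho : IsOpen {y : S4 | fh y ≠ 0} := isOpen_ne_fun RSG.fh_smooth.continuous continuous_const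
  have h6 : fh (rR k z) ≠ 0 := by
    rw [(rR_spec k h).2.2.2.2]; exact h
  refine RSG.ld_two (g := rR (-k)) ?_ ?_ ?_ ?_
  · exact Filter.mem_of_superset (ho.mem_nhds h) fun y hy => BRr_smooth k hy
  · exact Filter.mem_of_superset (ho.mem_nhds h6) fun y hy => BRr_smooth (-k) hy
  · exact Filter.mem_of_superset (ho.mem_nhds h) fun y hy => rR_comp k hy
  · refine Filter.mem_of_superset (ho.mem_nhds h6) fun y hy => ?_
    have := rR_comp (-k) (z := y) hy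
    rwa [neg_neg] at this

end Pool.Agent.BAS
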