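import Pool.Agent.BAS.BJm
import Pool.Agent.BAS.BKa
import Pool.Agent.BAS.BPs
import Pool.Agent.BAS.BRr
import Pool.Agent.BAS.BCg

/-!
# BAS/BMa: the surgery of the linear torus is the 4-sphere   (difficulty 4)

Data: `σ, T, B, R` from `exists_T`, `Ψ` from `exists_Psi`, `K` = torus knot = `{tf p q = 0}` (`tf_zero`, `TKnot.core`).
`A₁ (y, u) = spc (σ y) (u tf / |tf|)`, `tf = tf p q y`;  `Q z = cone T B (Ψ (rR (r + p q) z))`;  `r₀ = 1/2`.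
Apply `twin_of_collar`.  Below `Z = Ψ (rR (r + pq) z)`, so `c1 Z = a · c1 z (fh/|fh|)^(r+pq)`, `c2 Z = a⁻¹ c2 z`, `a > 0`, `fh Z ≠ 0`.
* `FC_Xof` : `sti (Xof Z) = (2 |c1 Z| c2 Z, FC Z)` with `2|c1 Z| c2 Z = 2 |c1 z| c2 z`; `FC Z ≠ 0` (`FC_norm`).  So `T` is a local
  diffeo at `Xof Z` and injective on `D = {z2 ∘ sti ≠ 0}`: `Q_loc` (`cone_loc`, chain rule), `Q_inj` (`cone_inj`).
* (*) if `c1 z ≠ 0`, `v = 2 |c1 z| c2 z`, `FC Z = |FC Z| ex l`, then `|FC Z|² = 1 - ‖v‖²` (`RSG.fh_sq`), so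
  `sti (Xof Z) = std 0 (l, v)`, `Xof Z = st (std 0 (l, v))` and (`sti_ne`: `std 0 (l, v) ≠ pole`, hence
  `κ (l, v) ≠ κ (1/2, 0)` as `pole = std 0 (1/2, 0)` and both are injective modulo 1)
  `Q z = spc (σ (κ (l, v))) (c1 Z / |c1 Z|)`.
* `A_loc`, `A_inj`: `Out (1/2)` implies `y ∉ K` [`(y, u) = kap κ r n (l', 0, t)`: choose `t`].
  `A₁` = `spc` (`spc_ld`) ∘ (`σ × id`) ∘ shear; the shear `(y, u) ↦ (y, u tf/|tf|)` is a local diffeo (smooth, inverse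
  `(y, u) ↦ (y, u |tf|/tf)`, `circle_of_coe`, `RSG.ld_two`).
* `glue`: (`j = 0`) angles: `c1 z = |c1| ex (m + t)`, `c2 z = |c2| ex m`, `fh z = |fh| ex λ`, `λ = l - n t`, `‖v‖ > 1/2`, `v = 2|c1||c2| ex m`:
  `FC Z = fh (rR ..) = fh z`; by (*) `Q z = spc (σ (κ (λ, v))) (ex (m + t + (r + pq) λ))`; and `kap κ r n (l, v, t) = (κ (λ, v),
  exp 2π (r λ + t))`, `tf (κ (λ, v)) = δ ex (pq λ) v`: the same point.
* `disj`: `Q z = A₁ (y, u)`, `‖v‖ ≤ 1/2`: `c1 z ≠ 0` (`cone_c1`, `Xof_spc`), by (*) `σ (κ (l, v)) = σ y`, `y = κ (l, v)`, and `(y, u) = kap κ r n (l', v, t)`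
  for suitable `l', t` (`l' - n t = l`, `exp 2π (r l + t) = u`): contradiction with `Out`.
* `cover`: `c1 q = 0`: `cone_surj` (`Ψ z = z`, `rR` is invertible: `Q (rR (-k) z) = cone T B z` as `4|c1||c2| = 0`).  `c1 q ≠ 0`: `Xof q = σ y`, `y ≠ κ (1/2, 0)`.
  If `y = κ (l, v)` with `‖v‖ ≤ 1/2`: let `z' = spc (st (std 0 (l, v))) (c1 q / |c1 q|)`: `cone T B z' = q`, `fh z' ≠ 0` (`|fh z'| =
  |FC z'| = √(1-‖v‖²)`), `z' = Ψ z''`, `z'' = rR (r+pq) z`.  Otherwise take `u = (c1 q/|c1 q|) |tf|/tf`: `(y, u)` is `Out` and `A₁ (y, u) = q`.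
-/

open scoped Manifold ContDiff Topology
open Set Filter
open Complex (I)

namespace Pool.Agent.BAS

open Pool.Agent.RSG (E4 S3 S4 pS3 pS4 ex c1 c2 ht fh Thick std)
open Pool.Agent.PTH (SP ISP z1 z2 gE gact)
open Pool.Agent.RBM (ThickT TwinP OnT)

/-- the direction of a complex number, as an element of the circle -/
noncomputable def BMa_uc (w : ℂ) : Circle := Circle.exp (Complex.arg w)

theorem BMa_uc_coe {w : ℂ} (hw : w ≠ 0) : ((BMa_uc w : Circle) : ℂ) = w / ‖w‖ := by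
  have h0 : (‖w‖ : ℂ) ≠ 0 := Complex.ofReal_ne_zero.2 (norm_ne_zero_iff.2 hw)
  rw [eq_div_iff h0, BMa_uc, Circle.coe_exp, mul_comm]
  exact Complex.norm_mul_exp_arg_mul_I w

theorem BMa_uc_inv {w : ℂ} (hw : w ≠ 0) : BMa_uc w * BMa_uc w⁻¹ = 1 := by
  apply Circle.ext
  rw [Circle.coe_mul, BMa_uc_coe hw, BMa_uc_coe (inv_ne_zero hw), Circle.coe_one, norm_inv]
  have h0 : (‖w‖ : ℂ) ≠ 0 := Complex.ofReal_ne_zero.2 (norm_ne_zero_iff.2 hw)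
  push_cast
  field_simp

theorem BMa_uc_smooth {F : Type*} [NormedAddCommGroup F] [NormedSpace ℝ F] {H : Type*} [TopologicalSpace H]
    {J : ModelWithCorners ℝ F H} {M : Type*} [TopologicalSpace M] [ChartedSpace H M] {f : M → ℂ} {x : M}
    (hf : ContMDiffAt J 𝓘(ℝ, ℂ) ∞ f x) (h0 : f x ≠ 0) :
    ContMDiffAt J (𝓡 1) ∞ (fun y => BMa_uc (f y)) x := by
  refine circle_of_coe ?_
  have hn : (‖f x‖ : ℂ) ≠ 0 := Complex.ofReal_ne_zero.2 (norm_ne_zero_iff.2 h0)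
  have h1 : ContDiffAt ℝ ∞ (fun w : ℂ => w / (‖w‖ : ℂ)) (f x) := by
    have h2 : ContDiffAt ℝ ∞ (fun w : ℂ => (‖w‖ : ℂ)) (f x) :=
      Complex.ofRealCLM.contDiff.contDiffAt.comp (f x) (contDiffAt_id.norm ℝ h0)
    exact contDiffAt_id.mul (h2.inv hn)
  have h2 : ContMDiffAt J 𝓘(ℝ, ℂ) ∞ (fun y => f y / (‖f y‖ : ℂ)) x := h1.contMDiffAt.comp x hf
  refine h2.congr_of_eventuallyEq ?_
  filter_upwards [hf.continuousAt.eventually_ne h0] with y hy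
  exact BMa_uc_coe hy

theorem BMa_sh_ld {p q : ℤ} {a : SP} (h0 : tf p q a.1 ≠ 0) :
    IsLocalDiffeomorphAt ISP ISP ∞ (fun a : SP => ((a.1, a.2 * BMa_uc (tf p q a.1)) : SP)) a := by
  have hc : Continuous (tf p q) := (tf_smooth p q).continuous
  have ho : IsOpen {a : SP | tf p q a.1 ≠ 0} := isOpen_ne_fun (hc.comp continuous_fst) continuous_const
  have hs : ∀ b : SP, ContMDiffAt ISP 𝓘(ℝ, ℂ) ∞ (fun b : SP => tf p q b.1) b := fun b =>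
    (tf_smooth p q).contMDiffAt.comp b contMDiffAt_fst
  refine RSG.ld_two (g := fun a : SP => ((a.1, a.2 * BMa_uc (tf p q a.1)⁻¹) : SP)) ?_ ?_ ?_ ?_
  · filter_upwards [ho.mem_nhds h0] with b hb
    exact contMDiffAt_fst.prodMk (circle_mul_smooth contMDiffAt_snd (BMa_uc_smooth (hs b) hb))
  · filter_upwards [ho.mem_nhds (show (a.1, a.2 * BMa_uc (tf p q a.1)) ∈ {a : SP | tf p q a.1 ≠ 0} from h0)]
      with b hb
    have h1 : ContMDiffAt ISP 𝓘(ℝ, ℂ) ∞ (fun b : SP => (tf p q b.1)⁻¹) b :=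
      ((contDiffAt_inv ℝ hb : ContDiffAt ℝ ∞ (fun w : ℂ => w⁻¹) (tf p q b.1)).contMDiffAt).comp b (hs b)
    exact contMDiffAt_fst.prodMk (circle_mul_smooth contMDiffAt_snd (BMa_uc_smooth h1 (inv_ne_zero hb)))
  · filter_upwards [ho.mem_nhds h0] with b hb
    show (b.1, b.2 * BMa_uc (tf p q b.1) * BMa_uc (tf p q b.1)⁻¹) = b
    rw [mul_assoc, BMa_uc_inv hb, mul_one]
  · filter_upwards [ho.mem_nhds (show (a.1, a.2 * BMa_uc (tf p q a.1)) ∈ {a : SP | tf p q a.1 ≠ 0} from h0)]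
      with b hb
    show (b.1, b.2 * BMa_uc (tf p q b.1)⁻¹ * BMa_uc (tf p q b.1)) = b
    rw [mul_assoc, mul_comm (BMa_uc (tf p q b.1)⁻¹), BMa_uc_inv hb, mul_one]

/-- the map `A₁` -/
noncomputable def BMa_A (p q : ℤ) (σ : S3 → V) (a : SP) : S4 :=
  spc (σ a.1) ((a.2 * BMa_uc (tf p q a.1) : Circle) : ℂ)

theorem BMa_A_ld {p q : ℤ} {σ : S3 → V} {a : SP} (h0 : tf p q a.1 ≠ 0)
    (hσ : IsLocalDiffeomorphAt (𝓡 3) 𝓘(ℝ, V) ∞ σ a.1) :
    IsLocalDiffeomorphAt ISP (𝓡 4) ∞ (BMa_A p q σ) a := by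
  have h1 := BMa_sh_ld h0
  have h2 : IsLocalDiffeomorphAt ISP (𝓘(ℝ, V).prod (𝓡 1)) ∞ (Prod.map σ (id : Circle → Circle))
      (a.1, a.2 * BMa_uc (tf p q a.1)) := RSG.ld_prodMap hσ (CSG.ld_id _)
  have h3 := spc_ld (σ a.1) (a.2 * BMa_uc (tf p q a.1))
  have h4 : IsLocalDiffeomorphAt ISP (𝓘(ℝ, V).prod (𝓡 1)) ∞
      ((Prod.map σ (id : Circle → Circle)) ∘ (fun a : SP => ((a.1, a.2 * BMa_uc (tf p q a.1)) : SP))) a :=
    IsLocalDiffeomorphAt.comp (hf := h1) (hg := h2) ..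
  have h5 : IsLocalDiffeomorphAt ISP (𝓡 4) ∞
      ((fun q : V × Circle => spc q.1 (q.2 : ℂ)) ∘
        ((Prod.map σ (id : Circle → Circle)) ∘
          (fun a : SP => ((a.1, a.2 * BMa_uc (tf p q a.1)) : SP)))) a :=
    IsLocalDiffeomorphAt.comp (hf := h4) (hg := h3) ..
  exact h5

theorem BMa_A_inj {p q : ℤ} {σ : S3 → V} {a a' : SP} (h : BMa_A p q σ a = BMa_A p q σ a')
    (hi : σ a.1 = σ a'.1 → a.1 = a'.1) : a = a' := by
  obtain ⟨y, u⟩ := a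
  obtain ⟨y', u'⟩ := a'
  have e1 := Xof_spc (σ y) (Circle.norm_coe (u * BMa_uc (tf p q y)))
  have e2 := Xof_spc (σ y') (Circle.norm_coe (u' * BMa_uc (tf p q y')))
  have h' : spc (σ y) ((u * BMa_uc (tf p q y) : Circle) : ℂ) =
    spc (σ y') ((u' * BMa_uc (tf p q y') : Circle) : ℂ) := h
  have e3 : σ y = σ y' := by rw [← e1.1, ← e2.1, h']
  have e4 : y = y' := hi e3
  have e5 : ((u * BMa_uc (tf p q y) : Circle) : ℂ) = ((u' * BMa_uc (tf p q y') : Circle) : ℂ) := by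
    rw [← e1.2.2, ← e2.2.2, h']
  have e6 := Circle.ext e5
  rw [e4] at e6
  rw [e4, mul_right_cancel e6]

theorem BMa_pol (w : ℂ) : ∃ l : ℝ, w = ‖w‖ * ex l := ⟨_, RSG.ex_arg.symm⟩

theorem BMa_circ (u : Circle) : ∃ x : ℝ, u = Circle.exp (2 * Real.pi * x) := by
  obtain ⟨x, hx⟩ := RSG.ex_surj (Circle.norm_coe u)
  exact ⟨x, Circle.ext (by rw [exp_coe]; exact hx)⟩

theorem BMa_per {κ : ℝ × ℂ → S3} (h : Thick κ) (l : ℝ) (v : ℂ) (m : ℤ) : κ (l + m, v) = κ (l, v) := by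
  have h1 : Function.Periodic (fun l : ℝ => κ (l, v)) 1 := fun l => h.per l v
  have h2 := h1.int_mul m l
  simpa using h2

/-- the pole on the standard circle -/
theorem BMa_pole (m : ℤ) : std 0 ((1 / 2 : ℝ) + m, 0) = pole := by
  unfold std pole
  rw [RSG.ex_add_int, RSG.ex_half]
  simp

theorem BMa_ext {y y' : S3} (h1 : z1 y = z1 y') (h2 : z2 y = z2 y') : y = y' := by
  have e : pS3 (z1 y) (z2 y) = y := RSG.pS3_self y
  have e' : pS3 (z1 y') (z2 y') = y' := RSG.pS3_self y'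
  rw [← e, ← e', h1, h2]

/-- `std 0 (l, v)` is not the pole iff `κ (l, v)` is not `κ (1/2, 0)` -/
theorem BMa_iff {κ : ℝ × ℂ → S3} (h : Thick κ) {l : ℝ} {v : ℂ} (hv : ‖v‖ < 1) :
    κ (l, v) = κ (1 / 2, 0) ↔ std 0 (l, v) = pole := by
  have h0 : ‖(0 : ℂ)‖ < 1 := by simp
  constructor
  · intro e
    obtain ⟨e1, m, e2⟩ := h.inj _ _ _ _ h0 hv e.symm
    rw [← e1, e2]
    exact BMa_pole m
  · intro e
    have e0 : std 0 ((1 / 2 : ℝ), 0) = pole := by simpa using BMa_pole 0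
    obtain ⟨e1, m, e2⟩ := (RSG.std_thick 0).inj _ _ _ _ h0 hv (e0.trans e.symm)
    rw [← e1, e2]
    exact BMa_per h _ _ m

theorem BMa_star {κ : ℝ × ℂ → S3} (h : Thick κ) {σ : S3 → V} {T : V → V} (B : V ≃L[ℝ] V)
    (hT : ∀ (l : ℝ) (v : ℂ), ‖v‖ < 1 → κ (l, v) ≠ κ (1 / 2, 0) → T (st (std 0 (l, v))) = σ (κ (l, v)))
    {Z : S4} (hf : fh Z ≠ 0) (hc : c1 Z ≠ 0) {l : ℝ} (hl : FC Z = ‖FC Z‖ * ex l) {v : ℂ}
    (hv : 2 * ‖c1 Z‖ * c2 Z = v) :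
    ‖v‖ < 1 ∧ κ (l, v) ≠ κ (1 / 2, 0) ∧ cone T B Z = spc (σ (κ (l, v))) (c1 Z / ‖c1 Z‖) := by
  have n1 : ‖v‖ = 2 * ‖c1 Z‖ * ‖c2 Z‖ := by
    rw [← hv, norm_mul, norm_mul, Complex.norm_real, norm_norm]
    norm_num
  have n2 : ‖v‖ < 1 := by
    rw [n1]
    exact (RSG.fh_ne_iff Z).1 hf
  obtain ⟨f1, f2⟩ := FC_Xof hc
  obtain ⟨s1, s2⟩ := RSG.StdM_c 0 l n2
  have s1' : z1 (std 0 (l, v)) = v * ex ((0 : ℤ) * l) := s1
  have s2' : z2 (std 0 (l, v)) = ((Real.sqrt (1 - ‖v‖ ^ 2) : ℝ) : ℂ) * ex l := s2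
  have e1 : sti (Xof Z) = std 0 (l, v) := by
    refine BMa_ext ?_ ?_
    · rw [f1, s1', hv]
      simp [RSG.ex_zero]
    · rw [f2, s2', hl]
      have e3 : Real.sqrt (1 - ‖v‖ ^ 2) = ‖FC Z‖ := by
        have e4 := RSG.fh_sq Z
        rw [show 1 - ‖v‖ ^ 2 = ‖FC Z‖ ^ 2 by rw [FC_norm, n1]; linarith,
          Real.sqrt_sq (norm_nonneg _)]
      rw [e3, ← hl]
  have e2 : st (std 0 (l, v)) = Xof Z := by rw [← e1, st_sti]
  have e3 : κ (l, v) ≠ κ (1 / 2, 0) := by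
    intro e
    have e4 := (BMa_iff h n2).1 e
    rw [← e1] at e4
    exact sti_ne _ e4
  refine ⟨n2, e3, ?_⟩
  have e5 := hT l v n2 e3
  rw [e2] at e5
  unfold cone
  rw [if_neg hc, e5]

theorem BMa_mulnorm (c : ℂ) {w : ℂ} (hw : ‖w‖ = 1) {a : ℝ} (ha : 0 < a) (hc : c ≠ 0) :
    (a * (c * w)) / ((‖(a : ℂ) * (c * w)‖ : ℝ) : ℂ) = c / ‖c‖ * w := by
  have hn : (‖c‖ : ℂ) ≠ 0 := Complex.ofReal_ne_zero.2 (norm_ne_zero_iff.2 hc)
  have ha' : (a : ℂ) ≠ 0 := Complex.ofReal_ne_zero.2 ha.ne'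
  rw [norm_mul, norm_mul, hw, mul_one, Complex.norm_real, Real.norm_of_nonneg ha.le]
  push_cast
  field_simp

theorem BMa_Z {Ψ : S4 → S4} (h1 : ∀ z, fh z ≠ 0 → fh (Ψ z) ≠ 0)
    (h2 : ∀ z, fh z ≠ 0 → ∃ a : ℝ, 0 < a ∧ c1 (Ψ z) = a * c1 z ∧ c2 (Ψ z) = (a⁻¹ : ℝ) * c2 z)
    (e : ℤ) {z : S4} (hz : fh z ≠ 0) :
    fh (Ψ (rR e z)) ≠ 0 ∧ (c1 (Ψ (rR e z)) = 0 ↔ c1 z = 0) ∧
      2 * ‖c1 (Ψ (rR e z))‖ * c2 (Ψ (rR e z)) = 2 * ‖c1 z‖ * c2 z ∧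
      (c1 z ≠ 0 → c1 (Ψ (rR e z)) / ‖c1 (Ψ (rR e z))‖ = c1 z / ‖c1 z‖ * (fh z / ‖fh z‖) ^ e) := by
  obtain ⟨r1, r2, r3, r4, r5⟩ := rR_spec e hz
  have hz' : fh (rR e z) ≠ 0 := by rw [r5]; exact hz
  obtain ⟨a, ha, a1, a2⟩ := h2 _ hz'
  have ha' : (a : ℂ) ≠ 0 := Complex.ofReal_ne_zero.2 ha.ne'
  have hw := RSG.BaQ_norm e hz
  have hw0 : (fh z / ‖fh z‖ : ℂ) ^ e ≠ 0 := by
    intro h0
    rw [h0, norm_zero] at hw
    exact zero_ne_one hw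
  refine ⟨h1 _ hz', ?_, ?_, ?_⟩
  · rw [a1, r1]
    constructor
    · intro h0
      rcases mul_eq_zero.1 h0 with h0 | h0
      · exact absurd h0 ha'
      · rcases mul_eq_zero.1 h0 with h0 | h0
        · exact h0
        · exact absurd h0 hw0
    · intro h0
      rw [h0, zero_mul, mul_zero]
  · rw [a1, a2, norm_mul, Complex.norm_real, Real.norm_of_nonneg ha.le, r4, r2]
    push_cast
    field_simp
  · intro hc
    rw [a1, r1]
    exact BMa_mulnorm _ hw ha hc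

theorem BMa_exz (x : ℝ) (k : ℤ) : ex x ^ k = ex (k * x) := by
  unfold RSG.ex
  rw [← Complex.exp_int_mul]
  congr 1
  push_cast
  ring

theorem lin_twin {p q : ℤ} (hpq : IsCoprime p q) (hp : p ≠ 0) (hq : q ≠ 0) {κ : ℝ × ℂ → S3}
    (h : TKnot p q κ) (r n : ℤ) : Nonempty (TwinP ISP (kap κ r n) n 0 S4) := by
  obtain ⟨σ, T, B, R, hσl, hσi, hσs, hTl, hTi, hTB, hTκ⟩ := exists_T h
  obtain ⟨Ψ, hΨl, hΨi, hΨs, hΨn, hΨc, -, hΨF⟩ := exists_Psi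
  have hth := h.thick
  -- the core
  have hK : ∀ y : S3, tf p q y = 0 → ∃ l : ℝ, y = κ (l, 0) := by
    intro y hy
    obtain ⟨l, hl⟩ := (tf_zero hpq hp hq y).1 hy
    exact ⟨l, by rw [h.core l]; exact hl⟩
  have hOut : ∀ a : SP, Out (kap κ r n) (1 / 2) a → tf p q a.1 ≠ 0 := by
    rintro ⟨y, u⟩ ha hy
    obtain ⟨l, hl⟩ := hK y hy
    obtain ⟨x, hx⟩ := BMa_circ u
    refine ha (l + n * (x - r * l)) 0 (x - r * l) (by simp) ?_
    have e1 : l + n * (x - r * l) - n * (x - r * l) = l := by ring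
    have e2 : r * l + (x - r * l) = x := by ring
    unfold kap
    simp only [e1, e2]
    rw [← hl, ← hx]
  have hP0 : tf p q (κ (1 / 2, 0)) = 0 := (tf_zero hpq hp hq _).2 ⟨1 / 2, h.core _⟩
  have hOut' : ∀ a : SP, Out (kap κ r n) (1 / 2) a → a.1 ≠ κ (1 / 2, 0) := by
    intro a ha e
    apply hOut a ha
    rw [e]
    exact hP0
  -- the points of the tube
  have hTube : ∀ (a : SP) (l : ℝ) (v : ℂ), ‖v‖ ≤ 1 / 2 → a.1 = κ (l, v) → ¬ Out (kap κ r n) (1 / 2) a := by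
    rintro ⟨y, u⟩ l v hv hy ha
    obtain ⟨x, hx⟩ := BMa_circ u
    refine ha (l + n * (x - r * l)) v (x - r * l) hv ?_
    have e1 : l + n * (x - r * l) - n * (x - r * l) = l := by ring
    have e2 : r * l + (x - r * l) = x := by ring
    unfold kap
    simp only [e1, e2]
    rw [← hx]
    exact Prod.ext hy rfl
  have hD : ∀ Z : S4, fh Z ≠ 0 → c1 Z ≠ 0 → z2 (sti (Xof Z)) ≠ 0 := by
    intro Z hZ hc
    rw [(FC_Xof hc).2]
    intro h0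
    apply hZ
    rw [← norm_eq_zero, ← FC_norm, h0, norm_zero]
  have hSur : ∀ Z : S4, fh Z ≠ 0 → ∃ z, fh z ≠ 0 ∧ Ψ (rR (r + p * q) z) = Z := by
    intro Z hZ
    obtain ⟨z', hz', e1⟩ := hΨs Z hZ
    refine ⟨rR (-(r + p * q)) z', ?_, ?_⟩
    · rw [(rR_spec _ hz').2.2.2.2]
      exact hz'
    · have e2 := rR_comp (-(r + p * q)) hz'
      rw [neg_neg] at e2
      rw [e2, e1]
  refine twin_of_collar (A₁ := BMa_A p q σ) (Q := fun z => cone T B (Ψ (rR (r + p * q) z)))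
    (r₀ := 1 / 2) (kap_thick h r n) (by norm_num) (by norm_num) ?_ ?_ ?_ ?_ ?_ ?_ ?_
  · -- Q_loc
    intro z hz
    have hz' : fh (rR (r + p * q) z) ≠ 0 := by
      rw [(rR_spec _ hz).2.2.2.2]
      exact hz
    have g1 := rR_ld (r + p * q) hz
    have g2 := hΨl _ hz'
    have g3 : IsLocalDiffeomorphAt (𝓡 4) (𝓡 4) ∞ (cone T B) (Ψ (rR (r + p * q) z)) :=
      cone_loc hTB fun hc => hTl _ (hD _ (hΨn _ hz') hc)
    have g4 : IsLocalDiffeomorphAt (𝓡 4) (𝓡 4) ∞ (Ψ ∘ rR (r + p * q)) z :=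
      IsLocalDiffeomorphAt.comp (hf := g1) (hg := g2) ..
    have g5 : IsLocalDiffeomorphAt (𝓡 4) (𝓡 4) ∞ (cone T B ∘ (Ψ ∘ rR (r + p * q))) z :=
      IsLocalDiffeomorphAt.comp (hf := g4) (hg := g3) ..
    exact g5
  · -- Q_inj
    intro z z' hz hz' he
    have k1 : fh (rR (r + p * q) z) ≠ 0 := by
      rw [(rR_spec _ hz).2.2.2.2]
      exact hz
    have k2 : fh (rR (r + p * q) z') ≠ 0 := by
      rw [(rR_spec _ hz').2.2.2.2]
      exact hz'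
    have e1 : Ψ (rR (r + p * q) z) = Ψ (rR (r + p * q) z') :=
      cone_inj hTi (fun hc => hD _ (hΨn _ k1) hc) (fun hc => hD _ (hΨn _ k2) hc) he
    have e2 := hΨi _ _ k1 k2 e1
    rw [← rR_comp (r + p * q) hz, ← rR_comp (r + p * q) hz', e2]
  · -- A_loc
    intro a ha
    exact BMa_A_ld (hOut a ha) (hσl _ (hOut' a ha))
  · -- A_inj
    intro a a' ha ha' he
    exact BMa_A_inj he (hσi _ _ (hOut' a ha) (hOut' a' ha'))
  · -- glue
    intro z l m t hz hr g1 g2 g3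
    have hc1 : c1 z ≠ 0 := by
      intro h0
      rw [h0, norm_zero] at hr
      norm_num at hr
    have hc2 : c2 z ≠ 0 := by
      intro h0
      rw [h0, norm_zero] at hr
      norm_num at hr
    have n1 : 0 < ‖c1 z‖ := norm_pos_iff.2 hc1
    have n2 : 0 < ‖c2 z‖ := norm_pos_iff.2 hc2
    have n3 : 0 < ‖fh z‖ := norm_pos_iff.2 hz
    have g1' : c1 z = ‖c1 z‖ * ex (m + t) := by
      rw [Int.cast_zero, sub_zero, one_mul] at g1
      exact g1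
    have g2' : c2 z = ‖c2 z‖ * ex m := by
      rw [Int.cast_zero, zero_mul, sub_zero] at g2
      exact g2
    obtain ⟨lam, hlam⟩ : ∃ x : ℝ, x = l - n * t := ⟨_, rfl⟩
    obtain ⟨v, hv⟩ : ∃ v : ℂ, v = ((2 * ‖c1 z‖ * ‖c2 z‖ : ℝ) : ℂ) * ex m := ⟨_, rfl⟩
    rw [← hlam] at g3
    have hz' : fh (rR (r + p * q) z) ≠ 0 := by
      rw [(rR_spec _ hz).2.2.2.2]
      exact hz
    obtain ⟨Z1, Z2, Z3, Z4⟩ := BMa_Z hΨn hΨc (r + p * q) hz
    have hF : FC (Ψ (rR (r + p * q) z)) = fh z := by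
      rw [hΨF _ hz', (rR_spec _ hz).2.2.2.2]
      rw [(rR_spec _ hz).2.2.2.1, (rR_spec _ hz).2.1]
      exact hr.le
    have hl : FC (Ψ (rR (r + p * q) z)) = ‖FC (Ψ (rR (r + p * q) z))‖ * ex lam := by
      rw [hF]
      exact g3
    have hv' : 2 * ‖c1 (Ψ (rR (r + p * q) z))‖ * c2 (Ψ (rR (r + p * q) z)) = v := by
      rw [Z3, hv, g2']
      have : ‖(‖c2 z‖ : ℂ) * ex m‖ = ‖c2 z‖ := by
        rw [← g2']
      rw [this]
      push_cast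
      ring
    obtain ⟨w1, w2, w3⟩ := BMa_star hth B hTκ Z1 (mt Z2.1 hc1) hl hv'
    show cone T B (Ψ (rR (r + p * q) z)) = BMa_A p q σ (kap κ r n (l, _, t))
    rw [w3, Z4 hc1, ← hv]
    unfold BMa_A kap
    simp only
    rw [← hlam, Circle.coe_mul, exp_coe]
    congr 1
    obtain ⟨δ, hδ, hval⟩ := h.val
    have e1 := hval lam v w1
    have hv0 : v ≠ 0 := by
      rw [hv]
      refine mul_ne_zero ?_ (RSG.ex_ne m)
      exact Complex.ofReal_ne_zero.2 (by positivity)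
    have e2 : tf p q (κ (lam, v)) ≠ 0 := by
      rw [e1]
      exact mul_ne_zero (mul_ne_zero (Complex.ofReal_ne_zero.2 hδ.ne') (RSG.ex_ne _)) hv0
    have e3 : tf p q (κ (lam, v)) / ‖tf p q (κ (lam, v))‖ = ex (p * q * lam) * ex m := by
      have e4 : tf p q (κ (lam, v)) = ((δ * (2 * ‖c1 z‖ * ‖c2 z‖) : ℝ) : ℂ) * (ex (p * q * lam) * ex m) := by
        rw [e1, hv]
        push_cast
        ring
      have e5 : 0 < δ * (2 * ‖c1 z‖ * ‖c2 z‖) := by positivity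
      have e6 : ((δ * (2 * ‖c1 z‖ * ‖c2 z‖) : ℝ) : ℂ) ≠ 0 := Complex.ofReal_ne_zero.2 e5.ne'
      rw [e4, norm_mul, norm_mul, RSG.ex_norm, RSG.ex_norm, mul_one, mul_one, Complex.norm_real,
        Real.norm_of_nonneg e5.le]
      exact mul_div_cancel_left₀ _ e6
    have e4 : c1 z / ‖c1 z‖ = ex (m + t) := by
      have : (‖c1 z‖ : ℂ) ≠ 0 := Complex.ofReal_ne_zero.2 n1.ne'
      rw [div_eq_iff this, mul_comm]
      exact g1'
    have e5 : fh z / ‖fh z‖ = ex lam := by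
      have : (‖fh z‖ : ℂ) ≠ 0 := Complex.ofReal_ne_zero.2 n3.ne'
      rw [div_eq_iff this, mul_comm]
      exact g3
    rw [BMa_uc_coe e2, e3, e4, e5, BMa_exz, ← RSG.ex_add, ← RSG.ex_add, ← RSG.ex_add]
    congr 1
    push_cast
    ring
  · -- disj
    intro z a hz hr ha he
    obtain ⟨Z1, Z2, Z3, Z4⟩ := BMa_Z hΨn hΨc (r + p * q) hz
    have e0 := Xof_spc (σ a.1) (Circle.norm_coe (a.2 * BMa_uc (tf p q a.1)))
    have he' : cone T B (Ψ (rR (r + p * q) z)) = spc (σ a.1) ((a.2 * BMa_uc (tf p q a.1) : Circle) : ℂ) := he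
    have hc : c1 (Ψ (rR (r + p * q) z)) ≠ 0 := by
      intro h0
      have e1 := (cone_c1 T B (Ψ (rR (r + p * q) z))).1.2 h0
      rw [he'] at e1
      exact e0.2.1 e1
    obtain ⟨l, hl⟩ := BMa_pol (FC (Ψ (rR (r + p * q) z)))
    obtain ⟨w1, w2, w3⟩ := BMa_star hth B hTκ Z1 hc hl rfl
    have hn : ‖c1 (Ψ (rR (r + p * q) z)) / ‖c1 (Ψ (rR (r + p * q) z))‖‖ = 1 := by
      rw [norm_div, Complex.norm_real, norm_norm, div_self (norm_ne_zero_iff.2 hc)]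
    have e1 := (Xof_spc (σ (κ (l, 2 * ‖c1 (Ψ (rR (r + p * q) z))‖ * c2 (Ψ (rR (r + p * q) z))))) hn).1
    rw [← w3, he', e0.1] at e1
    have e2 := hσi _ _ (hOut' a ha) w2 e1
    refine hTube a l _ ?_ e2 ha
    rw [Z3, norm_mul, norm_mul, Complex.norm_real, norm_norm]
    simpa using hr
  · -- cover
    intro x
    by_cases hc : c1 x = 0
    · right
      obtain ⟨Z, hZ, e1⟩ := cone_surj T B hc
      have hf : fh Z ≠ 0 := by
        rw [RSG.fh_ne_iff, hZ, norm_zero]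
        norm_num
      obtain ⟨z, hz, e2⟩ := hSur Z hf
      exact ⟨z, hz, by rw [e2, e1]⟩
    · obtain ⟨y, hy, e1⟩ := hσs (Xof x)
      have hw : ‖c1 x / (‖c1 x‖ : ℂ)‖ = 1 := by
        rw [norm_div, Complex.norm_real, norm_norm, div_self (norm_ne_zero_iff.2 hc)]
      by_cases hy' : ∃ (l : ℝ) (v : ℂ), ‖v‖ ≤ 1 / 2 ∧ y = κ (l, v)
      · right
        obtain ⟨l, v, hv, rfl⟩ := hy'
        have hv1 : ‖v‖ < 1 := by linarith
        obtain ⟨X1, X2, X3⟩ := Xof_spc (st (std 0 (l, v))) hw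
        obtain ⟨Z, hZ⟩ : ∃ Z, Z = spc (st (std 0 (l, v))) (c1 x / ‖c1 x‖) := ⟨_, rfl⟩
        rw [← hZ] at X1 X2 X3
        have e2 : std 0 (l, v) ≠ pole := fun e => hy ((BMa_iff hth hv1).2 e)
        have hf : fh Z ≠ 0 := by
          intro h0
          have e3 : FC Z = 0 := by rw [← norm_eq_zero, FC_norm, h0, norm_zero]
          rw [← (FC_Xof X2).2, X1, sti_st e2] at e3
          have s2 : z2 (std 0 (l, v)) = ((Real.sqrt (1 - ‖v‖ ^ 2) : ℝ) : ℂ) * ex l :=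
            (RSG.StdM_c 0 l hv1).2
          rw [s2] at e3
          rcases mul_eq_zero.1 e3 with e3 | e3
          · exact (Real.sqrt_pos.2 (RSG.StdM_pos hv1)).ne' (Complex.ofReal_eq_zero.1 e3)
          · exact RSG.ex_ne l e3
        obtain ⟨z, hz, e3⟩ := hSur Z hf
        refine ⟨z, hz, ?_⟩
        show x = cone T B (Ψ (rR (r + p * q) z))
        rw [e3]
        unfold cone
        rw [if_neg X2, X1, X3, hTκ l v hv1 hy, e1]
        exact (spc_Xof hc).symm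
      · left
        obtain ⟨s, hs⟩ := RSG.ex_surj hw
        have hs' : ((Circle.exp (2 * Real.pi * s) : Circle) : ℂ) = c1 x / ‖c1 x‖ := by
          rw [exp_coe, hs]
        refine ⟨(y, Circle.exp (2 * Real.pi * s) * (BMa_uc (tf p q y))⁻¹), ?_, ?_⟩
        · intro l v t hv e
          apply hy'
          exact ⟨l - n * t, v, hv, congrArg Prod.fst e⟩
        · show x = spc (σ y) ((Circle.exp (2 * Real.pi * s) * (BMa_uc (tf p q y))⁻¹ * BMa_uc (tf p q y) : Circle) : ℂ)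
          rw [inv_mul_cancel_right, hs', e1]
          exact (spc_Xof hc).symm

end Pool.Agent.BAS
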