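import Pool.Agent.BAS.Defs

/-!
# BAS/BPw: the powers `pw` and the function `tf`   (difficulty 2)

Cases `k ≥ 0` / `k < 0` everywhere (`pw z k = z ^ k.natAbs` or `(conj z) ^ k.natAbs`).
`tf_zero`: `√2 |z1|`, `√2 |z2|` have squares with sum `2` (`RSG.S3_sq`; `z1 y = ⟨y.1 0, y.1 1⟩` is definitionally the
first coordinate); `|pw (√2 z1) q| = |pw (√2 z2) p|` gives `(√2|z1|)^|q| = (√2|z2|)^|p|`, exponents positive, so both
are `1` (if `√2|z1| > 1` then `√2|z2| < 1`, ..).  So `z1 = ex x / √2`, `z2 = ex x' / √2` (`RSG.ex_surj`),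
`ex (q x) = ex (p x')`, `p x' = q x + m` (`RSG.ex_eq_iff`); with `a p + b q = 1` put `l = a x + b x' - a (..) m`..
Precisely: choose `a p + b q = 1`; replace `x` by `x + j`, `x'` by `x' + j'` with integers `j, j'` such that
`p j' - q j = -m` (`j' = -a m`, `j = b m`): then `p x' = q x` exactly, and `l = a x + b x'` satisfies `p l = a p x + b p x' =
a p x + b q x = x`, `q l = x'`.  Conversely insert.  `y = pS3 (z1 y) (z2 y)` is `RSG.pS3_self`; `pS3` normalises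
(`pS3 (r a) (r b) = pS3 a b` for `r > 0`: prove it here as `pS3_scale`).
-/

open scoped Manifold ContDiff Topology
open Set Filter
open Complex (I)

namespace Pool.Agent.BAS

open Pool.Agent.RSG (E4 S3 S4 pS3 pS4 ex c1 c2 ht fh Thick)
open Pool.Agent.PTH (SP ISP z1 z2 gE gact)

theorem pw_smooth (k : ℤ) : ContDiff ℝ ∞ fun z : ℂ => pw z k := by
  unfold pw
  split_ifs with h
  · exact contDiff_id.pow _
  · exact (Complex.conjCLE.contDiff (𝕜 := ℝ)).pow _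

theorem pw_norm (z : ℂ) (k : ℤ) : ‖pw z k‖ = ‖z‖ ^ k.natAbs := by
  unfold pw
  split_ifs with h
  · rw [norm_pow]
    congr 1
    omega
  · rw [norm_pow, RCLike.norm_conj]
    congr 1
    omega

theorem pw_zero {z : ℂ} {k : ℤ} (hk : k ≠ 0) : pw z k = 0 ↔ z = 0 := by
  rw [← norm_eq_zero, pw_norm, pow_eq_zero_iff (Int.natAbs_ne_zero.mpr hk), norm_eq_zero]

theorem pw_mul (z w : ℂ) (k : ℤ) : pw (z * w) k = pw z k * pw w k := by
  unfold pw
  split_ifs with h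
  · exact mul_pow _ _ _
  · rw [map_mul]
    exact mul_pow _ _ _

theorem BPw_exn (x : ℝ) (n : ℕ) : ex x ^ n = ex (n * x) := by
  induction n with
  | zero => simp [Pool.Agent.RSG.ex_zero]
  | succ n ih =>
    rw [pow_succ, ih, ← Pool.Agent.RSG.ex_add]
    congr 1
    push_cast
    ring

theorem pw_ex (x : ℝ) (k : ℤ) : pw (ex x) k = ex (k * x) := by
  unfold pw
  split_ifs with h
  · rw [BPw_exn]
    have e : ((k.toNat : ℤ) : ℝ) = (k : ℝ) := by rw [Int.toNat_of_nonneg h]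
    rw [← e, Int.cast_natCast]
  · rw [← Pool.Agent.RSG.ex_neg, BPw_exn]
    have e : (((-k).toNat : ℤ) : ℝ) = ((-k : ℤ) : ℝ) := by rw [Int.toNat_of_nonneg (by omega)]
    rw [Int.cast_natCast] at e
    rw [e]
    congr 1
    push_cast
    ring

theorem pw_real {r : ℝ} (k : ℤ) : pw (r : ℂ) k = ((r ^ k.natAbs : ℝ) : ℂ) := by
  unfold pw
  split_ifs with h
  · have e : k.natAbs = k.toNat := by omega
    rw [e]
    push_cast
    rfl
  · have e : k.natAbs = (-k).toNat := by omega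
    rw [e, Complex.conj_ofReal]
    push_cast
    rfl

/-- unit complex numbers -/
theorem pw_unit_add {u : ℂ} (hu : ‖u‖ = 1) (j k : ℤ) : pw u (j + k) = pw u j * pw u k := by
  obtain ⟨x, rfl⟩ := Pool.Agent.RSG.ex_surj hu
  rw [pw_ex, pw_ex, pw_ex, ← Pool.Agent.RSG.ex_add]
  congr 1
  push_cast
  ring

theorem BPw_toSph {E : Type*} [NormedAddCommGroup E] [NormedSpace ℝ E]
    (e : Metric.sphere (0 : E) 1) {r : ℝ} (hr : 0 < r) (v : E) :
    Pool.Agent.RSG.toSph e (r • v) = Pool.Agent.RSG.toSph e v := by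
  by_cases hv : v = 0
  · rw [hv, smul_zero]
  · have hrv : r • v ≠ 0 := smul_ne_zero hr.ne' hv
    unfold Pool.Agent.RSG.toSph
    rw [dif_neg hv, dif_neg hrv]
    apply Subtype.ext
    change ‖r • v‖⁻¹ • (r • v) = ‖v‖⁻¹ • v
    rw [norm_smul, Real.norm_of_nonneg hr.le, mul_inv, smul_smul]
    congr 1
    field_simp

theorem pS3_scale {r : ℝ} (hr : 0 < r) (a b : ℂ) : pS3 (r * a) (r * b) = pS3 a b := by
  unfold pS3
  have e : (WithLp.toLp 2 ![((r : ℂ) * a).re, ((r : ℂ) * a).im, ((r : ℂ) * b).re, ((r : ℂ) * b).im] : E4) =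
      r • WithLp.toLp 2 ![a.re, a.im, b.re, b.im] := by
    ext i
    fin_cases i <;> simp
  rw [e]
  exact BPw_toSph _ hr _

theorem z1_smooth : ContMDiff (𝓡 3) 𝓘(ℝ, ℂ) ∞ z1 := Pool.Agent.RSG.S3c_smooth.1

theorem z2_smooth : ContMDiff (𝓡 3) 𝓘(ℝ, ℂ) ∞ z2 := Pool.Agent.RSG.S3c_smooth.2

theorem tf_smooth (p q : ℤ) : ContMDiff (𝓡 3) 𝓘(ℝ, ℂ) ∞ (tf p q) := by
  have h : ∀ k : ℤ, ContDiff ℝ ∞ fun z : ℂ => pw ((Real.sqrt 2 : ℝ) * z) k := fun k =>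
    (pw_smooth k).comp (contDiff_const.mul contDiff_id)
  exact ((h q).contMDiff.comp z1_smooth).sub ((h p).contMDiff.comp z2_smooth)

theorem BPw_z {a b : ℂ} (H : ‖a‖ ^ 2 + ‖b‖ ^ 2 = 1) : z1 (pS3 a b) = a ∧ z2 (pS3 a b) = b :=
  Pool.Agent.RSG.pS3_c H

theorem BPw_sq (y : S3) : ‖z1 y‖ ^ 2 + ‖z2 y‖ ^ 2 = 1 := Pool.Agent.RSG.S3_sq y

theorem BPw_self (y : S3) : pS3 (z1 y) (z2 y) = y := Pool.Agent.RSG.pS3_self y

theorem BPw_ext {y y' : S3} (h1 : z1 y = z1 y') (h2 : z2 y = z2 y') : y = y' := by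
  rw [← BPw_self y, ← BPw_self y', h1, h2]

theorem BPw_s2 : (0 : ℝ) < Real.sqrt 2 := Real.sqrt_pos.mpr two_pos

/-- coordinates of `pS3 (ex x) (ex x')` -/
theorem BPw_exz (x x' : ℝ) : (Real.sqrt 2 : ℝ) * z1 (pS3 (ex x) (ex x')) = ex x ∧
    (Real.sqrt 2 : ℝ) * z2 (pS3 (ex x) (ex x')) = ex x' := by
  have h2 : ((Real.sqrt 2 : ℝ) : ℂ) ≠ 0 := by exact_mod_cast BPw_s2.ne'
  have e1 : ∀ x, ex x = (Real.sqrt 2 : ℝ) * ((((Real.sqrt 2)⁻¹ : ℝ) : ℂ) * ex x) := by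
    intro x
    rw [← mul_assoc]
    push_cast
    rw [mul_inv_cancel₀ h2, one_mul]
  have hn : ∀ x, ‖(((Real.sqrt 2)⁻¹ : ℝ) : ℂ) * ex x‖ ^ 2 = 1 / 2 := by
    intro x
    rw [norm_mul, Pool.Agent.RSG.ex_norm, mul_one, Complex.norm_real, Real.norm_of_nonneg (by positivity),
      inv_pow, Real.sq_sqrt (by norm_num)]
    norm_num
  have h : pS3 (ex x) (ex x') =
      pS3 ((((Real.sqrt 2)⁻¹ : ℝ) : ℂ) * ex x) ((((Real.sqrt 2)⁻¹ : ℝ) : ℂ) * ex x') := by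
    conv_lhs => rw [e1 x, e1 x']
    exact pS3_scale BPw_s2 _ _
  have hz := BPw_z (a := (((Real.sqrt 2)⁻¹ : ℝ) : ℂ) * ex x) (b := (((Real.sqrt 2)⁻¹ : ℝ) : ℂ) * ex x')
    (by rw [hn, hn]; norm_num)
  rw [h, hz.1, hz.2]
  exact ⟨(e1 x).symm, (e1 x').symm⟩

/-- the zero set of `tf` -/
theorem tf_zero {p q : ℤ} (h : IsCoprime p q) (hp : p ≠ 0) (hq : q ≠ 0) (y : S3) :
    tf p q y = 0 ↔ ∃ l : ℝ, y = pS3 (ex (p * l)) (ex (q * l)) := by
  constructor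
  · intro h0
    have h1 : pw ((Real.sqrt 2 : ℝ) * z1 y) q = pw ((Real.sqrt 2 : ℝ) * z2 y) p := sub_eq_zero.mp h0
    have hn := congrArg norm h1
    rw [pw_norm, pw_norm] at hn
    have hsum : ‖((Real.sqrt 2 : ℝ) : ℂ) * z1 y‖ ^ 2 + ‖((Real.sqrt 2 : ℝ) : ℂ) * z2 y‖ ^ 2 = 2 := by
      have := BPw_sq y
      rw [norm_mul, norm_mul, Complex.norm_real, Real.norm_of_nonneg BPw_s2.le, mul_pow, mul_pow,
        Real.sq_sqrt (by norm_num)]
      linarith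
    have hq' : q.natAbs ≠ 0 := Int.natAbs_ne_zero.mpr hq
    have hp' : p.natAbs ≠ 0 := Int.natAbs_ne_zero.mpr hp
    have n1 := norm_nonneg (((Real.sqrt 2 : ℝ) : ℂ) * z1 y)
    have n2 := norm_nonneg (((Real.sqrt 2 : ℝ) : ℂ) * z2 y)
    have key : ‖((Real.sqrt 2 : ℝ) : ℂ) * z1 y‖ = 1 ∧ ‖((Real.sqrt 2 : ℝ) : ℂ) * z2 y‖ = 1 := by
      generalize ‖((Real.sqrt 2 : ℝ) : ℂ) * z1 y‖ = s at hn hsum n1 ⊢
      generalize ‖((Real.sqrt 2 : ℝ) : ℂ) * z2 y‖ = t at hn hsum n2 ⊢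
      rcases lt_trichotomy s 1 with hs | hs | hs
      · have ht : 1 < t := by nlinarith
        have a1 : s ^ q.natAbs < 1 := pow_lt_one₀ n1 hs hq'
        have a2 : 1 < t ^ p.natAbs := one_lt_pow₀ ht hp'
        linarith
      · refine ⟨hs, ?_⟩
        subst hs
        nlinarith
      · have ht : t < 1 := by nlinarith
        have a1 : 1 < s ^ q.natAbs := one_lt_pow₀ hs hq'
        have a2 : t ^ p.natAbs < 1 := pow_lt_one₀ n2 ht hp'
        linarith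
    obtain ⟨x, hx⟩ := Pool.Agent.RSG.ex_surj key.1
    obtain ⟨x', hx'⟩ := Pool.Agent.RSG.ex_surj key.2
    rw [hx, hx', pw_ex, pw_ex] at h1
    obtain ⟨m, hm⟩ := Pool.Agent.RSG.ex_eq_iff.mp h1
    obtain ⟨a, b, hab⟩ := h
    have hab' : (a : ℝ) * p + b * q = 1 := by exact_mod_cast hab
    refine ⟨a * (x + b * m) + b * (x' - a * m), ?_⟩
    have e1 : (p : ℝ) * (a * (x + b * m) + b * (x' - a * m)) = x + ((b * m : ℤ) : ℝ) := by
      push_cast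
      linear_combination (x + b * m) * hab' + b * hm + (b : ℝ) * m * (-hab')
    have e2 : (q : ℝ) * (a * (x + b * m) + b * (x' - a * m)) = x' + ((-(a * m) : ℤ) : ℝ) := by
      push_cast
      linear_combination (x' - a * m) * hab' - a * hm + (a : ℝ) * m * hab'
    rw [e1, e2, Pool.Agent.RSG.ex_add_int, Pool.Agent.RSG.ex_add_int, ← hx, ← hx', pS3_scale BPw_s2]
    exact (BPw_self y).symm
  · rintro ⟨l, rfl⟩
    unfold tf
    rw [(BPw_exz _ _).1, (BPw_exz _ _).2, pw_ex, pw_ex, sub_eq_zero]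
    congr 1
    ring

/-- weighted homogeneity -/
theorem tf_rot (p q : ℤ) (θ : ℝ) (y : S3) :
    tf p q (pS3 (ex (p * θ) * z1 y) (ex (q * θ) * z2 y)) = ex (p * q * θ) * tf p q y := by
  have h : ‖ex (p * θ) * z1 y‖ ^ 2 + ‖ex (q * θ) * z2 y‖ ^ 2 = 1 := by
    rw [norm_mul, norm_mul, Pool.Agent.RSG.ex_norm, Pool.Agent.RSG.ex_norm, one_mul, one_mul]
    exact BPw_sq y
  unfold tf
  rw [(BPw_z h).1, (BPw_z h).2, mul_left_comm ((Real.sqrt 2 : ℝ) : ℂ) (ex (p * θ)) (z1 y),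
    mul_left_comm ((Real.sqrt 2 : ℝ) : ℂ) (ex (q * θ)) (z2 y), pw_mul (ex (p * θ)), pw_mul (ex (q * θ)), pw_ex, pw_ex,
    mul_sub]
  have e1 : (q : ℝ) * (p * θ) = p * q * θ := by ring
  have e2 : (p : ℝ) * (q * θ) = p * q * θ := by ring
  rw [e1, e2]

end Pool.Agent.BAS
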