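import Pool.Agent.BAS.BSt

/-!
# BAS/BRa: radial maps of `V`   (difficulty 3)

`radial_perm`: `m : V → ℝ` smooth, `1 ≤ m`, and `X ↦ m X` is nondecreasing along rays (`m X ≤ m (t • X)` for `t ≥ 1`).
Then `M X = m X • X` is bijective and a local diffeomorphism.  Bijective: on the ray `{t Y : t > 0}` the function
`t ↦ t m (tY)` is continuous, strictly increasing, `→ 0` for `t → 0` and `→ ∞`; `M 0 = 0`.  Local diffeo (`CSG.ld_of_fderiv`):
the kernel of the derivative: `m X • w + (Dm X w) • X = 0` gives `w = c X` (`m X ≥ 1`), and then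
`c (m X + Dm X X) X = 0` with `Dm X X ≥ 0` (derivative of the nondecreasing function `t ↦ m (tX)` at `1`), so `c = 0` or `X = 0`;
both give `w = 0`.

`exists_radial`: `m X = 1 + χ (X) (κ nq X / nq (C X) - 1)`, where `χ (X) = smoothTransition (nq X / R² - 1)` (`0` for `nq X ≤ R²`,
nondecreasing along rays, `1` for `nq X ≥ 2 R²`) and `κ` so large that `κ nq X ≥ nq (C X)` for all `X`
(`C` bounded, `nq_norm`); `nq X / nq (C X)` is constant along rays; smooth: at `X ≠ 0` clear, near `0` `m = 1`.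
-/

open scoped Manifold ContDiff Topology
open Set Filter

namespace Pool.Agent.BAS

theorem BRa_der {m : V → ℝ} (hm : ContDiff ℝ ∞ m)
    (h2 : ∀ X (t : ℝ), 1 ≤ t → m X ≤ m (t • X)) (X : V) : 0 ≤ fderiv ℝ m X X := by
  have h3 : HasFDerivAt m (fderiv ℝ m X) ((1 : ℝ) • X) := by
    rw [one_smul]
    exact ((hm.differentiable (by simp)) X).hasFDerivAt
  have h4 : HasDerivAt (fun t : ℝ => t • X) ((1 : ℝ) • X) 1 :=
    (hasDerivAt_id (1 : ℝ)).smul_const X
  have h5 : HasDerivAt (fun t : ℝ => m (t • X)) (fderiv ℝ m X ((1 : ℝ) • X)) 1 :=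
    h3.comp_hasDerivAt (1 : ℝ) h4
  rw [one_smul] at h5
  rw [hasDerivAt_iff_tendsto_slope] at h5
  have h6 : Tendsto (slope (fun t : ℝ => m (t • X)) 1) (𝓝[>] 1) (𝓝 (fderiv ℝ m X X)) :=
    h5.mono_left (nhdsWithin_mono _ (fun t (ht : 1 < t) => (ne_of_gt ht)))
  refine ge_of_tendsto h6 ?_
  filter_upwards [self_mem_nhdsWithin] with t ht
  have ht' : (1 : ℝ) < t := ht
  rw [slope_def_field]
  have h7 := h2 X t ht'.le
  apply div_nonneg
  · rw [one_smul]
    linarith
  · linarith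

theorem radial_perm {m : V → ℝ} (hm : ContDiff ℝ ∞ m) (h1 : ∀ X, 1 ≤ m X)
    (h2 : ∀ X (t : ℝ), 1 ≤ t → m X ≤ m (t • X)) :
    ∃ M : Equiv.Perm V, (∀ X, M X = m X • X) ∧ ∀ X, IsLocalDiffeomorphAt 𝓘(ℝ, V) 𝓘(ℝ, V) ∞ M X := by
  have hpos : ∀ X, 0 < m X := fun X => lt_of_lt_of_le one_pos (h1 X)
  have key : ∀ X Y : V, m X • X = m Y • Y → m Y ≤ m X → X = Y := by
    intro X Y he hle
    have h3 : Y = (m X / m Y) • X := by
      rw [div_eq_inv_mul, mul_smul, he, smul_smul, inv_mul_cancel₀ (hpos Y).ne', one_smul]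
    have h4 : 1 ≤ m X / m Y := (one_le_div (hpos Y)).2 hle
    have h5 := h2 X _ h4
    rw [← h3] at h5
    have h6 : m X = m Y := le_antisymm h5 hle
    rw [h6] at he
    exact smul_right_injective V (hpos Y).ne' he
  have hinj : Function.Injective (fun X : V => m X • X) := by
    intro X Y he
    rcases le_total (m Y) (m X) with h | h
    · exact key X Y he h
    · exact (key Y X he.symm h).symm
  have hsurj : Function.Surjective (fun X : V => m X • X) := by
    intro Z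
    have hc : ContinuousOn (fun t : ℝ => t * m (t • Z)) (Icc 0 1) := by
      apply Continuous.continuousOn
      exact continuous_id.mul (hm.continuous.comp (continuous_id.smul continuous_const))
    have h3 := intermediate_value_Icc zero_le_one hc
    have h4 : (1 : ℝ) ∈ Icc ((0 : ℝ) * m ((0 : ℝ) • Z)) (1 * m ((1 : ℝ) • Z)) := by
      refine ⟨?_, ?_⟩
      · rw [zero_mul]
        exact zero_le_one
      · rw [one_mul]
        exact h1 _
    obtain ⟨t, -, ht⟩ := h3 h4
    refine ⟨t • Z, ?_⟩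
    simp only [smul_smul] at ht ⊢
    rw [mul_comm, ht, one_smul]
  refine ⟨Equiv.ofBijective _ ⟨hinj, hsurj⟩, fun X => rfl, ?_⟩
  intro X
  change IsLocalDiffeomorphAt 𝓘(ℝ, V) 𝓘(ℝ, V) ∞ (fun X : V => m X • X) X
  have hsm : ContDiff ℝ ∞ (fun X : V => m X • X) := hm.smul contDiff_id
  apply CSG.ld_of_fderiv (Eventually.of_forall fun y => hsm.contDiffAt) rfl
  intro w hw
  have h3 : HasFDerivAt m (fderiv ℝ m X) X := ((hm.differentiable (by simp)) X).hasFDerivAt
  have h4 : HasFDerivAt (fun X : V => m X • X)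
      (m X • ContinuousLinearMap.id ℝ V + (fderiv ℝ m X).smulRight X) X := h3.smul (hasFDerivAt_id X)
  rw [h4.fderiv] at hw
  have h5 : m X • w + (fderiv ℝ m X w) • X = 0 := hw
  obtain ⟨c, hc⟩ : ∃ c : ℝ, w = c • X := by
    refine ⟨-(fderiv ℝ m X w) / m X, ?_⟩
    have h6 : m X • w = (-(fderiv ℝ m X w)) • X := by
      rw [neg_smul]
      exact eq_neg_of_add_eq_zero_left h5
    rw [div_eq_inv_mul, mul_smul, ← h6, smul_smul, inv_mul_cancel₀ (hpos X).ne', one_smul]
  have hD := BRa_der hm h2 X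
  rw [hc, map_smul, smul_smul, smul_eq_mul, ← add_smul] at h5
  rcases smul_eq_zero.1 h5 with h6 | h6
  · have h7 : c * (m X + fderiv ℝ m X X) = 0 := by
      rw [← h6]
      ring
    rcases mul_eq_zero.1 h7 with h8 | h8
    · rw [hc, h8, zero_smul]
    · have := hpos X
      linarith
  · rw [hc, h6, smul_zero]

theorem exists_radial (C : V ≃L[ℝ] V) {R : ℝ} (hR : 0 < R) :
    ∃ (κ : ℝ) (M : Equiv.Perm V), 0 < κ ∧ (∀ X, IsLocalDiffeomorphAt 𝓘(ℝ, V) 𝓘(ℝ, V) ∞ M X) ∧
      (∀ X, nq X ≤ R ^ 2 → M X = X) ∧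
      ∀ X, 2 * R ^ 2 ≤ nq X → M X = (κ * nq X / nq (C X)) • X := by
  obtain ⟨κ, hκdef⟩ : ∃ κ : ℝ, κ = 2 * ‖(C : V →L[ℝ] V)‖ ^ 2 + 1 := ⟨_, rfl⟩
  have hκ : 0 < κ := by
    rw [hκdef]
    positivity
  have hR2 : 0 < R ^ 2 := by positivity
  have hCk : ∀ X, nq (C X) ≤ κ * nq X := by
    intro X
    have h1 := (nq_norm (C X)).2
    have h2 := (nq_norm X).1
    have h3 : ‖C X‖ ≤ ‖(C : V →L[ℝ] V)‖ * ‖X‖ := (C : V →L[ℝ] V).le_opNorm X
    have h4 : ‖C X‖ ^ 2 ≤ (‖(C : V →L[ℝ] V)‖ * ‖X‖) ^ 2 :=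
      pow_le_pow_left₀ (norm_nonneg _) h3 2
    rw [mul_pow] at h4
    have h5 : ‖(C : V →L[ℝ] V)‖ ^ 2 * ‖X‖ ^ 2 ≤ ‖(C : V →L[ℝ] V)‖ ^ 2 * nq X :=
      mul_le_mul_of_nonneg_left h2 (by positivity)
    have h6 := nq_nonneg X
    rw [hκdef]
    nlinarith
  have hCne : ∀ X, X ≠ 0 → 0 < nq (C X) := by
    intro X hX
    refine lt_of_le_of_ne (nq_nonneg _) (fun h => hX ?_)
    have h1 := nq_eq_zero.1 h.symm
    have h2 : C X = C 0 := by
      rw [map_zero]
      exact h1
    exact C.injective h2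
  have hratio : ∀ X, X ≠ 0 → 1 ≤ κ * nq X / nq (C X) := fun X hX =>
    (one_le_div (hCne X hX)).2 (hCk X)
  obtain ⟨χ, hχdef⟩ : ∃ χ : V → ℝ, χ = fun X => Real.smoothTransition (nq X / R ^ 2 - 1) :=
    ⟨_, rfl⟩
  have hχ0 : ∀ X, nq X ≤ R ^ 2 → χ X = 0 := by
    intro X hX
    rw [hχdef]
    apply Real.smoothTransition.zero_of_nonpos
    have := (div_le_one hR2).2 hX
    linarith
  have hχ1 : ∀ X, 2 * R ^ 2 ≤ nq X → χ X = 1 := by
    intro X hX
    rw [hχdef]
    apply Real.smoothTransition.one_of_one_le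
    have := (le_div_iff₀ hR2).2 hX
    linarith
  have hχn : ∀ X, 0 ≤ χ X := by
    intro X
    rw [hχdef]
    exact Real.smoothTransition.nonneg _
  have hχs : ContDiff ℝ ∞ χ := by
    rw [hχdef]
    exact Real.smoothTransition.contDiff.comp ((nq_smooth.div_const _).sub contDiff_const)
  obtain ⟨m, hmdef⟩ : ∃ m : V → ℝ, m = fun X => 1 + χ X * (κ * nq X / nq (C X) - 1) := ⟨_, rfl⟩
  have hm1 : ∀ X, nq X ≤ R ^ 2 → m X = 1 := by
    intro X hX
    rw [hmdef]
    simp only
    rw [hχ0 X hX, zero_mul, add_zero]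
  have hnq0 : nq (0 : V) = 0 := nq_eq_zero.2 rfl
  have hms : ContDiff ℝ ∞ m := by
    rw [contDiff_iff_contDiffAt]
    intro X
    by_cases hX : X = 0
    · have hc : ∀ᶠ Y in 𝓝 X, nq Y < R ^ 2 := by
        apply nq_smooth.continuous.continuousAt.eventually_lt continuousAt_const
        rw [hX, hnq0]
        exact hR2
      have he : m =ᶠ[𝓝 X] fun _ => 1 := by
        filter_upwards [hc] with Y hY
        exact hm1 Y hY.le
      exact contDiffAt_const.congr_of_eventuallyEq he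
    · rw [hmdef]
      refine contDiffAt_const.add (hχs.contDiffAt.mul (ContDiffAt.sub ?_ contDiffAt_const))
      refine ContDiffAt.div (contDiffAt_const.mul nq_smooth.contDiffAt) ?_ (hCne X hX).ne'
      exact (nq_smooth.comp C.contDiff).contDiffAt
  have hmge : ∀ X, 1 ≤ m X := by
    intro X
    by_cases hX : X = 0
    · rw [hm1 X (by rw [hX, hnq0]; exact hR2.le)]
    · rw [hmdef]
      have h1 := mul_nonneg (hχn X) (sub_nonneg.2 (hratio X hX))
      simp only
      linarith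
  have hmm : ∀ X (t : ℝ), 1 ≤ t → m X ≤ m (t • X) := by
    intro X t ht
    by_cases hX : X = 0
    · rw [hX, smul_zero]
    · have ht0 : 0 < t := lt_of_lt_of_le one_pos ht
      have h1 : κ * nq (t • X) / nq (C (t • X)) = κ * nq X / nq (C X) := by
        rw [map_smul, nq_smul, nq_smul]
        have h2 := (hCne X hX).ne'
        field_simp
      have h3 : χ X ≤ χ (t • X) := by
        rw [hχdef]
        apply Real.smoothTransition.monotone
        rw [nq_smul]
        have h4 : nq X ≤ t ^ 2 * nq X := by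
          have h5 := nq_nonneg X
          have h6 : 1 ≤ t ^ 2 := one_le_pow₀ ht
          nlinarith
        have h7 := div_le_div_of_nonneg_right h4 hR2.le
        linarith
      have h8 := mul_le_mul_of_nonneg_right h3 (sub_nonneg.2 (hratio X hX))
      rw [hmdef]
      simp only
      rw [h1]
      linarith
  obtain ⟨M, hM, hMl⟩ := radial_perm hms hmge hmm
  refine ⟨κ, M, hκ, hMl, ?_, ?_⟩
  · intro X hX
    rw [hM, hm1 X hX, one_smul]
  · intro X hX
    rw [hM, hmdef]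
    simp only
    rw [hχ1 X hX, one_mul, add_sub_cancel]

end Pool.Agent.BAS
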