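import Pool.Agent.BAS.BGe
import Pool.Agent.BAS.BRa

/-!
# BAS/BSg: straightening a chart of `S3` at a point   (difficulty 4)

Let `g : V → S3` be a local diffeomorphism at `0`.  With `U` from `exists_rot (g 0)` replace `g` by `U⁻¹ ∘ g` and `σ` by
`σ ∘ U⁻¹`: so `g 0 = pole`.  `sti'` is a local diffeo at `0`, `sti' 0 = pole`; let `h = (local inverse of sti') ∘ g` : a local
diffeo at `0`, `h 0 = 0`, `g y = sti' (h y)` near `0`.  Let `C = fderiv h 0` (invertible: `V ≃L[ℝ] V`).  The germ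
`k = C ∘ h⁻¹` has `k 0 = 0`, `Dk 0 = 1`; `exists_germ` with `ε = 1` gives `Φ` : `Φ (h y) = C y` near `0`, `Φ y = y` for `1 ≤ ‖y‖`.
Let `M₀ : V → V`, `M₀ X = X` if `nq X ≤ 1/2` and `M₀ X = inv3 (Φ (inv3 X))` otherwise (for `nq X ≤ 1/2`, `X ≠ 0`:
`nq (inv3 X) ≥ 2`, `‖inv3 X‖ ≥ 1`, so both formulas agree for `X ≠ 0`, `nq X ≤ 1/2`; `Φ 0 = 0` as `Φ 0 = h 0`): a bijection
of `V` and a local diffeomorphism.  `exists_radial C⁻¹ (R = 1)` gives `κ`, `M₁`.  Put `σ = M₁ ∘ M₀ ∘ st` (then `∘ U⁻¹`),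
`B = κ C`.  For `y` near `0`, `y ≠ 0`: `st (g y) = st (sti' (h y)) = inv3 (h y)` (`sti'_eq`, `st_sti`), `M₀` of it is
`inv3 (Φ (h y)) = inv3 (C y)`, and `X = inv3 (C y)` is large, `C⁻¹ X = y / nq (C y)`, so
`M₁ X = (κ nq X / nq (C⁻¹ X)) X = κ (1 / nq (C y)) (nq (C y)² / nq y) C y / nq (C y) = κ C y / nq y = B (inv3 y)`.
Surjectivity: `st` is onto `V` from `{pole}ᶜ` (`st_sti`, `sti_ne`).
-/

open scoped Manifold ContDiff Topology
open Set Filter

namespace Pool.Agent.BAS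

open Pool.Agent.RSG (E4 S3 S4 pS3 pS4 ex c1 c2 ht fh Thick)

theorem BSg_perm {U : Equiv.Perm S3} (hU : ∀ y, IsLocalDiffeomorphAt (𝓡 3) (𝓡 3) ∞ U y) (y : S3) :
    IsLocalDiffeomorphAt (𝓡 3) (𝓡 3) ∞ U.symm y := by
  have h1 : IsLocalDiffeomorphAt (𝓡 3) (𝓡 3) ∞ (U.symm ∘ U) (U.symm y) := by
    have : (U.symm ∘ U : S3 → S3) = id := by
      funext z
      simp
    rw [this]
    exact CSG.ld_id _
  have h2 := CSG.ld_of_comp_left h1 (hU (U.symm y))
  rwa [Equiv.apply_symm_apply] at h2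

/-- a germ of a diffeomorphism of `V` becomes linear after a diffeomorphism with compact support -/
theorem BSg_lin {h : V → V} (hh : IsLocalDiffeomorphAt 𝓘(ℝ, V) 𝓘(ℝ, V) ∞ h 0) (h0 : h 0 = 0) :
    ∃ (C : V ≃L[ℝ] V) (Φ : Equiv.Perm V), ContDiff ℝ ∞ Φ ∧ ContDiff ℝ ∞ Φ.symm ∧
      (∀ᶠ y in 𝓝 (0 : V), Φ (h y) = C y) ∧ (∀ y, 1 ≤ ‖y‖ → Φ y = y) ∧ Φ 0 = 0 := by
  have hl := hh.localInverse_isLocalDiffeomorphAt
  rw [h0] at hl
  have hL0 : hh.localInverse 0 = 0 := by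
    have := hh.localInverse_left_inv hh.localInverse_mem_target
    rwa [h0] at this
  have e1 : (hh.localInverse ∘ h) =ᶠ[𝓝 0] id := hh.localInverse_eventuallyEq_left
  have e2 : (h ∘ hh.localInverse) =ᶠ[𝓝 0] id := by
    have := hh.localInverse_eventuallyEq_right
    rwa [h0] at this
  have d1 : HasFDerivAt h (fderiv ℝ h 0) 0 :=
    (hh.contMDiffAt.contDiffAt.differentiableAt (by simp)).hasFDerivAt
  have d2 : HasFDerivAt hh.localInverse (fderiv ℝ hh.localInverse 0) 0 :=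
    (hl.contMDiffAt.contDiffAt.differentiableAt (by simp)).hasFDerivAt
  have c1 : (fderiv ℝ hh.localInverse 0).comp (fderiv ℝ h 0) = ContinuousLinearMap.id ℝ V := by
    have d2' : HasFDerivAt hh.localInverse (fderiv ℝ hh.localInverse 0) (h 0) := by rwa [h0]
    have d3 := d2'.comp (0 : V) d1
    have d4 : HasFDerivAt (hh.localInverse ∘ h) (ContinuousLinearMap.id ℝ V) 0 :=
      (hasFDerivAt_id (0 : V)).congr_of_eventuallyEq e1
    exact d3.unique d4
  have c2 : (fderiv ℝ h 0).comp (fderiv ℝ hh.localInverse 0) = ContinuousLinearMap.id ℝ V := by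
    have d1' : HasFDerivAt h (fderiv ℝ h 0) (hh.localInverse 0) := by rwa [hL0]
    have d3 := d1'.comp (0 : V) d2
    have d4 : HasFDerivAt (h ∘ hh.localInverse) (ContinuousLinearMap.id ℝ V) 0 :=
      (hasFDerivAt_id (0 : V)).congr_of_eventuallyEq e2
    exact d3.unique d4
  let C : V ≃L[ℝ] V := ContinuousLinearEquiv.equivOfInverse (fderiv ℝ h 0)
    (fderiv ℝ hh.localInverse 0)
    (fun v => by
      have := congrArg (fun A : V →L[ℝ] V => A v) c1
      simpa using this)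
    (fun v => by
      have := congrArg (fun A : V →L[ℝ] V => A v) c2
      simpa using this)
  have hC : (C : V →L[ℝ] V) = fderiv ℝ h 0 := rfl
  obtain ⟨Φ, a1, a2, a3, a4⟩ := exists_germ (E := V) (h := fun y => C (hh.localInverse y))
    (by
      filter_upwards [CSG.ld_eventually hl] with y hy
      exact C.contDiff.contDiffAt.comp y hy.contMDiffAt.contDiffAt)
    (by simp only [hL0, map_zero])
    (by
      have h3 : HasFDerivAt (fun y => C (hh.localInverse y))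
          ((C : V →L[ℝ] V).comp (fderiv ℝ hh.localInverse 0)) 0 :=
        (C : V →L[ℝ] V).hasFDerivAt.comp (0 : V) d2
      rw [h3.fderiv, hC, c2]) one_pos
  refine ⟨C, Φ, a1, a2, ?_, a4, ?_⟩
  · have h3 : Tendsto h (𝓝 0) (𝓝 0) := by
      have := (CSG.ld_continuousAt hh).tendsto
      rwa [h0] at this
    filter_upwards [h3.eventually a3, e1] with y hy hy1
    rw [hy]
    congr 1
  · rw [a3.self_of_nhds]
    simp only [hL0, map_zero]

/-- the inversion as a permutation -/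
noncomputable def BSgI : Equiv.Perm V := ⟨inv3, inv3, inv3_inv3, inv3_inv3⟩

theorem BSg_zero : inv3 (0 : V) = 0 := by
  unfold inv3
  rw [smul_zero]

/-- the conjugate of `Φ` by the inversion -/
theorem BSg_M0 {Φ : Equiv.Perm V} (hΦ : ContDiff ℝ ∞ Φ) (hΦ' : ContDiff ℝ ∞ Φ.symm)
    (h1 : ∀ y, 1 ≤ ‖y‖ → Φ y = y) (h0 : Φ 0 = 0) :
    ∃ M : Equiv.Perm V, (∀ X, M X = inv3 (Φ (inv3 X))) ∧
      ∀ X, IsLocalDiffeomorphAt 𝓘(ℝ, V) 𝓘(ℝ, V) ∞ M X := by
  let M : Equiv.Perm V := (BSgI.trans Φ).trans BSgI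
  have hM : ∀ X, M X = inv3 (Φ (inv3 X)) := fun X => rfl
  refine ⟨M, hM, fun X => ?_⟩
  by_cases hX : X = 0
  · subst hX
    have h3 : (M : V → V) =ᶠ[𝓝 0] id := by
      have h4 : ∀ᶠ X in 𝓝 (0 : V), nq X < 1 / 2 := by
        have h5 : Tendsto nq (𝓝 (0 : V)) (𝓝 (nq 0)) := nq_smooth.continuous.tendsto 0
        rw [nq_eq_zero.2 rfl] at h5
        exact h5.eventually (gt_mem_nhds (by norm_num))
      filter_upwards [h4] with X hX
      rw [hM]
      by_cases hX0 : X = 0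
      · rw [hX0, BSg_zero, h0, BSg_zero]
        rfl
      · have h6 : 1 ≤ ‖inv3 X‖ := by
          have h7 := (nq_norm (inv3 X)).2
          rw [nq_inv3 hX0] at h7
          have h8 : 0 < nq X := lt_of_le_of_ne (nq_nonneg X) (fun h => hX0 (nq_eq_zero.1 h.symm))
          have h9 : 2 ≤ (nq X)⁻¹ := by
            rw [le_inv_comm₀ (by norm_num) h8]
            linarith
          have h10 := norm_nonneg (inv3 X)
          nlinarith
        rw [h1 _ h6, inv3_inv3]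
        rfl
    exact CSG.ld_congr (CSG.ld_id 0) h3
  · have hi : inv3 X ≠ 0 := inv3_ne hX
    have hΦi : Φ (inv3 X) ≠ 0 := by
      intro h
      rw [← h0] at h
      exact hi (Φ.injective h)
    have h3 : IsLocalDiffeomorphAt 𝓘(ℝ, V) 𝓘(ℝ, V) ∞ (Φ ∘ inv3) X :=
      IsLocalDiffeomorphAt.comp (hf := inv3_ld hX) (hg := CSG.ld_of_perm hΦ hΦ' (inv3 X)) ..
    exact IsLocalDiffeomorphAt.comp (hf := h3) (hg := inv3_ld hΦi) ..

theorem BSg_pole {g : V → S3} (hg : IsLocalDiffeomorphAt 𝓘(ℝ, V) (𝓡 3) ∞ g 0) (h0 : g 0 = pole) :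
    ∃ h : V → V, IsLocalDiffeomorphAt 𝓘(ℝ, V) 𝓘(ℝ, V) ∞ h 0 ∧ h 0 = 0 ∧
      ∀ᶠ y in 𝓝 (0 : V), g y = sti' (h y) := by
  have hs := sti'_ld 0
  have hl := hs.localInverse_isLocalDiffeomorphAt
  rw [sti'_zero, ← h0] at hl
  refine ⟨hs.localInverse ∘ g, IsLocalDiffeomorphAt.comp (hf := hg) (hg := hl) .., ?_, ?_⟩
  · have := hs.localInverse_left_inv hs.localInverse_mem_target
    rw [sti'_zero, ← h0] at this
    exact this
  · have e2 := hs.localInverse_eventuallyEq_right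
    rw [sti'_zero, ← h0] at e2
    filter_upwards [(CSG.ld_continuousAt hg).tendsto.eventually e2] with y hy
    exact hy.symm

theorem exists_straight {g : V → S3} (hg : IsLocalDiffeomorphAt 𝓘(ℝ, V) (𝓡 3) ∞ g 0) :
    ∃ (σ : S3 → V) (B : V ≃L[ℝ] V),
      (∀ y, y ≠ g 0 → IsLocalDiffeomorphAt (𝓡 3) 𝓘(ℝ, V) ∞ σ y) ∧
      (∀ y y', y ≠ g 0 → y' ≠ g 0 → σ y = σ y' → y = y') ∧
      (∀ X, ∃ y, y ≠ g 0 ∧ σ y = X) ∧
      ∀ᶠ y in 𝓝[≠] (0 : V), σ (g y) = B (inv3 y) := by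
  obtain ⟨U, hU, hUp⟩ := exists_rot (g 0)
  have hU' := BSg_perm hU
  have hUg : U.symm (g 0) = pole := by rw [← hUp, Equiv.symm_apply_apply]
  obtain ⟨h, hh, hh0, hgh⟩ := BSg_pole (g := U.symm ∘ g)
    (IsLocalDiffeomorphAt.comp (hf := hg) (hg := hU' (g 0)) ..) hUg
  obtain ⟨C, Φ, f1, f2, f3, f4, f5⟩ := BSg_lin hh hh0
  obtain ⟨M0, hM0, hM0d⟩ := BSg_M0 f1 f2 f4 f5
  obtain ⟨κ, M1, hκ, hM1d, hM1a, hM1b⟩ := exists_radial C.symm one_pos
  have hne : ∀ y : S3, y ≠ g 0 → U.symm y ≠ pole := by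
    intro y hy h
    apply hy
    rw [← hUp, ← h, Equiv.apply_symm_apply]
  refine ⟨fun y => M1 (M0 (st (U.symm y))),
    C.trans (LinearEquiv.smulOfNeZero ℝ V κ hκ.ne').toContinuousLinearEquiv, ?_, ?_, ?_, ?_⟩
  · intro y hy
    have h1 : IsLocalDiffeomorphAt (𝓡 3) 𝓘(ℝ, V) ∞ (st ∘ U.symm) y :=
      IsLocalDiffeomorphAt.comp (hf := hU' y) (hg := st_ld (hne y hy)) ..
    have h2 : IsLocalDiffeomorphAt (𝓡 3) 𝓘(ℝ, V) ∞ (M0 ∘ (st ∘ U.symm)) y :=
      IsLocalDiffeomorphAt.comp (hf := h1) (hg := hM0d _) ..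
    exact IsLocalDiffeomorphAt.comp (hf := h2) (hg := hM1d _) ..
  · intro y y' hy hy' he
    have h1 : st (U.symm y) = st (U.symm y') := M0.injective (M1.injective he)
    have h2 := congrArg sti h1
    rw [sti_st (hne y hy), sti_st (hne y' hy')] at h2
    exact U.symm.injective h2
  · intro X
    refine ⟨U (sti (M0.symm (M1.symm X))), ?_, ?_⟩
    · intro h1
      rw [← hUp] at h1
      exact sti_ne _ (U.injective h1)
    · simp only [Equiv.symm_apply_apply, st_sti, Equiv.apply_symm_apply]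
  · have hC0 : Tendsto (fun y : V => nq (C y)) (𝓝 0) (𝓝 0) := by
      have h5 : Tendsto (fun y : V => nq (C y)) (𝓝 (0 : V)) (𝓝 (nq (C 0))) :=
        (nq_smooth.continuous.comp C.continuous).tendsto 0
      rwa [map_zero, nq_eq_zero.2 rfl] at h5
    have h6 : ∀ᶠ y in 𝓝 (0 : V), nq (C y) < 1 / 2 := hC0.eventually (gt_mem_nhds (by norm_num))
    filter_upwards [nhdsWithin_le_nhds h6, nhdsWithin_le_nhds f3, nhdsWithin_le_nhds hgh,
      self_mem_nhdsWithin] with y hy1 hy2 hy3 hy4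
    have hy0 : y ≠ 0 := hy4
    have hCy : C y ≠ 0 := fun h => hy0 (C.injective (h.trans (map_zero C).symm))
    have hhy : h y ≠ 0 := by
      intro h7
      rw [h7, f5] at hy2
      exact hCy hy2.symm
    have hy5 : U.symm (g y) = sti' (h y) := hy3
    have p1 : 0 < nq (C y) := lt_of_le_of_ne (nq_nonneg _) (fun h => hCy (nq_eq_zero.1 h.symm))
    have p2 : 0 < nq y := lt_of_le_of_ne (nq_nonneg _) (fun h => hy0 (nq_eq_zero.1 h.symm))
    rw [hy5, sti'_eq hhy, st_sti, hM0, inv3_inv3, hy2, hM1b]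
    · rw [nq_inv3 hCy]
      have e1 : C.symm (inv3 (C y)) = (nq (C y))⁻¹ • y := by
        unfold inv3
        rw [map_smul, ContinuousLinearEquiv.symm_apply_apply]
      rw [e1, nq_smul]
      change _ = κ • C (inv3 y)
      unfold inv3
      rw [map_smul, smul_smul, smul_smul]
      congr 1
      field_simp
    · rw [nq_inv3 hCy, le_inv_comm₀ (by norm_num) p1]
      norm_num
      linarith

end Pool.Agent.BAS
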