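import Pool.Agent.BAS.BPw

/-!
# BAS/BSt: stereographic projections of `S3`   (difficulty 2)

`pS3_c` (RSG/SphB) gives the coordinates of `sti X`: `z1 = 2 X.2 / (1 + nq X)`, `z2 = ((1 - nq X) + 2 i X.1) / (1 + nq X)`
(`pS3_scale` with `r = 1 + nq X`).  `sti`, `sti'` are smooth (`RSG.pS3_smooth`), `st` is smooth off the pole
(`1 + Re z2 ≠ 0`), the inverse of `sti'` is `y ↦ (Im z2 / (1 - Re z2), z1 / (1 - Re z2))`: `RSG.ld_two`.
`exists_rot`: for `x₀ = (a, b)` the matrix `U (w₁, w₂) = (b̄ w₁ - a w₂, -ā w₁ - b w₂)` is unitary and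
`U (0, -1) = (a, b)`; inverse `(w₁, w₂) ↦ (b w₁ - a w₂, -ā w₁ - b̄ w₂)`.
-/

open scoped Manifold ContDiff Topology
open Set Filter
open Complex (I)

namespace Pool.Agent.BAS

open Pool.Agent.RSG (E4 S3 S4 pS3 pS4 ex c1 c2 ht fh Thick)
open Pool.Agent.PTH (SP ISP z1 z2 gE gact)

theorem nq_nonneg (X : V) : 0 ≤ nq X := by
  unfold nq
  positivity

theorem nq_eq_zero {X : V} : nq X = 0 ↔ X = 0 := by
  constructor
  · intro h
    unfold nq at h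
    have h1 : X.1 ^ 2 = 0 := by nlinarith [sq_nonneg X.1, sq_nonneg ‖X.2‖]
    have h2 : ‖X.2‖ ^ 2 = 0 := by nlinarith [sq_nonneg X.1, sq_nonneg ‖X.2‖]
    refine Prod.ext ?_ ?_
    · exact pow_eq_zero_iff (two_ne_zero) |>.mp h1
    · exact norm_eq_zero.mp (pow_eq_zero_iff (two_ne_zero) |>.mp h2)
  · rintro rfl
    simp [nq]

theorem nq_smul (c : ℝ) (X : V) : nq (c • X) = c ^ 2 * nq X := by
  unfold nq
  rw [Prod.smul_fst, Prod.smul_snd, norm_smul, Real.norm_eq_abs, mul_pow, sq_abs, smul_eq_mul]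
  ring

theorem BSt_pos {X : V} (h : X ≠ 0) : 0 < nq X :=
  lt_of_le_of_ne (nq_nonneg X) (fun h' => h (nq_eq_zero.mp h'.symm))

/-- comparison with the norm of `ℝ × ℂ` -/
theorem nq_norm (X : V) : ‖X‖ ^ 2 ≤ nq X ∧ nq X ≤ 2 * ‖X‖ ^ 2 := by
  have h1 : |X.1| ≤ ‖X‖ := norm_fst_le X
  have h2 : ‖X.2‖ ≤ ‖X‖ := norm_snd_le X
  have h3 : ‖X‖ = max |X.1| ‖X.2‖ := Prod.norm_def X
  have e : nq X = |X.1| ^ 2 + ‖X.2‖ ^ 2 := by unfold nq; rw [sq_abs]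
  rw [e]
  constructor
  · rw [h3]
    rcases max_cases |X.1| ‖X.2‖ with ⟨h, -⟩ | ⟨h, -⟩
    · rw [h]; nlinarith [sq_nonneg ‖X.2‖]
    · rw [h]; nlinarith [sq_nonneg |X.1|]
  · have a1 : |X.1| ^ 2 ≤ ‖X‖ ^ 2 := pow_le_pow_left₀ (abs_nonneg _) h1 2
    have a2 : ‖X.2‖ ^ 2 ≤ ‖X‖ ^ 2 := pow_le_pow_left₀ (norm_nonneg _) h2 2
    linarith

theorem nq_smooth : ContDiff ℝ ∞ nq := by
  unfold nq
  exact (contDiff_fst.pow 2).add ((contDiff_norm_sq ℝ).comp contDiff_snd)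

theorem nq_inv3 {X : V} (h : X ≠ 0) : nq (inv3 X) = (nq X)⁻¹ := by
  unfold inv3
  rw [nq_smul]
  have := (BSt_pos h).ne'
  field_simp

theorem inv3_ne {X : V} (h : X ≠ 0) : inv3 X ≠ 0 :=
  smul_ne_zero (inv_ne_zero (BSt_pos h).ne') h

theorem inv3_inv3 (X : V) : inv3 (inv3 X) = X := by
  by_cases h : X = 0
  · subst h
    simp [inv3]
  · have h1 : inv3 (inv3 X) = (nq (inv3 X))⁻¹ • inv3 X := rfl
    rw [h1, nq_inv3 h, inv_inv]
    unfold inv3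
    rw [smul_smul, mul_inv_cancel₀ (BSt_pos h).ne', one_smul]

theorem BSt_inv3_smooth {X : V} (h : X ≠ 0) : ContDiffAt ℝ ∞ inv3 X := by
  unfold inv3
  exact (nq_smooth.contDiffAt.inv (BSt_pos h).ne').smul contDiffAt_id

theorem inv3_ld {X : V} (h : X ≠ 0) : IsLocalDiffeomorphAt 𝓘(ℝ, V) 𝓘(ℝ, V) ∞ inv3 X := by
  refine Pool.Agent.RSG.ld_two (g := inv3) ?_ ?_ (Eventually.of_forall inv3_inv3) (Eventually.of_forall inv3_inv3)
  · filter_upwards [isOpen_ne.mem_nhds h] with y hy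
    exact (BSt_inv3_smooth hy).contMDiffAt
  · filter_upwards [isOpen_ne.mem_nhds (inv3_ne h)] with y hy
    exact (BSt_inv3_smooth hy).contMDiffAt

theorem BSt_z {a b : ℂ} {R : ℝ} (hR : 0 < R) (h : ‖a‖ ^ 2 + ‖b‖ ^ 2 = R ^ 2) :
    z1 (pS3 a b) = a / (R : ℝ) ∧ z2 (pS3 a b) = b / (R : ℝ) := by
  have h2 : ‖((R⁻¹ : ℝ) : ℂ) * a‖ ^ 2 + ‖((R⁻¹ : ℝ) : ℂ) * b‖ ^ 2 = 1 := by
    rw [norm_mul, norm_mul, Complex.norm_real, Real.norm_of_nonneg (inv_nonneg.mpr hR.le), mul_pow, mul_pow,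
      ← mul_add, h]
    field_simp
  have h3 := BPw_z h2
  rw [pS3_scale (inv_pos.mpr hR)] at h3
  rw [h3.1, h3.2]
  push_cast
  constructor <;> ring

theorem BSt_cn (x y : ℝ) : ‖(⟨x, y⟩ : ℂ)‖ ^ 2 = x ^ 2 + y ^ 2 := Pool.Agent.RSG.SphB_cx x y

theorem BSt_two (w : ℂ) : ‖2 * w‖ ^ 2 = 4 * ‖w‖ ^ 2 := by
  rw [norm_mul, mul_pow]
  norm_num

/-- coordinates of `sti X` -/
theorem sti_c (X : V) : z1 (sti X) = 2 * X.2 / (1 + nq X : ℝ) ∧
    z2 (sti X) = (⟨1 - nq X, 2 * X.1⟩ : ℂ) / (1 + nq X : ℝ) := by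
  have h := nq_nonneg X
  refine BSt_z (by linarith) ?_
  rw [BSt_two, BSt_cn (1 - nq X) (2 * X.1)]
  have e : nq X = X.1 ^ 2 + ‖X.2‖ ^ 2 := rfl
  rw [e]
  ring

theorem BSt_im (X : V) : (z2 (sti X)).im = 2 * X.1 / (1 + nq X) := by
  rw [(sti_c X).2, Complex.div_ofReal_im]

theorem BSt_re (X : V) : (z2 (sti X)).re = (1 - nq X) / (1 + nq X) := by
  rw [(sti_c X).2, Complex.div_ofReal_re]

theorem st_sti (X : V) : st (sti X) = X := by
  have h := nq_nonneg X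
  have h1 : (1 + nq X) ≠ 0 := by positivity
  unfold st
  rw [BSt_im, BSt_re, (sti_c X).1]
  have e : 1 + (1 - nq X) / (1 + nq X) = 2 / (1 + nq X) := by
    field_simp
    ring
  rw [e]
  refine Prod.ext ?_ ?_
  · change 2 * X.1 / (1 + nq X) / (2 / (1 + nq X)) = X.1
    field_simp
  · change 2 * X.2 / ((1 + nq X : ℝ) : ℂ) / ((2 / (1 + nq X) : ℝ) : ℂ) = X.2
    have h2 : ((1 + nq X : ℝ) : ℂ) ≠ 0 := by exact_mod_cast h1
    rw [Complex.ofReal_div]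
    rw [div_div_div_eq, mul_comm ((1 + nq X : ℝ) : ℂ) _, mul_div_mul_right _ _ h2]
    push_cast
    field_simp

theorem pole_c : z1 pole = 0 ∧ z2 pole = -1 := by
  unfold pole
  exact BPw_z (by simp)

theorem BSt_sq (y : S3) : ‖z1 y‖ ^ 2 + ((z2 y).re ^ 2 + (z2 y).im ^ 2) = 1 := by
  have h := BPw_sq y
  rw [← BSt_cn (z2 y).re (z2 y).im]
  exact h

theorem BSt_dpos {y : S3} (h : y ≠ pole) : 0 < 1 + (z2 y).re := by
  have hs := BSt_sq y
  have h1 : -1 ≤ (z2 y).re := by nlinarith [sq_nonneg ‖z1 y‖, sq_nonneg (z2 y).im]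
  rcases eq_or_lt_of_le h1 with h2 | h2
  · exfalso
    apply h
    have a1 : ‖z1 y‖ ^ 2 = 0 := by nlinarith [sq_nonneg ‖z1 y‖, sq_nonneg (z2 y).im]
    have a2 : (z2 y).im ^ 2 = 0 := by nlinarith [sq_nonneg ‖z1 y‖, sq_nonneg (z2 y).im]
    have b1 : z1 y = 0 := norm_eq_zero.mp (pow_eq_zero_iff (two_ne_zero) |>.mp a1)
    have b2 : (z2 y).im = 0 := pow_eq_zero_iff (two_ne_zero) |>.mp a2
    apply BPw_ext
    · rw [b1, pole_c.1]
    · rw [pole_c.2]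
      apply Complex.ext
      · rw [← h2]; simp
      · rw [b2]; simp
  · linarith

theorem BSt_nq {y : S3} (h : y ≠ pole) : nq (st y) = (1 - (z2 y).re) / (1 + (z2 y).re) := by
  have hd := BSt_dpos h
  have hs := BSt_sq y
  unfold nq st
  change ((z2 y).im / (1 + (z2 y).re)) ^ 2 + ‖z1 y / ((1 + (z2 y).re : ℝ) : ℂ)‖ ^ 2 = _
  rw [norm_div, Complex.norm_real, Real.norm_of_nonneg hd.le, div_pow, div_pow, ← add_div, div_eq_div_iff
    (by positivity) hd.ne']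
  have e : (z2 y).im ^ 2 + ‖z1 y‖ ^ 2 = (1 - (z2 y).re) * (1 + (z2 y).re) := by
    linear_combination hs
  rw [e]
  ring

theorem sti_st {y : S3} (h : y ≠ pole) : sti (st y) = y := by
  have hd := BSt_dpos h
  have hn := BSt_nq h
  have hc := sti_c (st y)
  have e : 1 + nq (st y) = 2 / (1 + (z2 y).re) := by
    rw [hn]
    field_simp
    ring
  have e2 : 1 - nq (st y) = 2 * (z2 y).re / (1 + (z2 y).re) := by
    rw [hn]
    field_simp
    ring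
  apply BPw_ext
  · rw [hc.1, e]
    change 2 * (z1 y / ((1 + (z2 y).re : ℝ) : ℂ)) / ((2 / (1 + (z2 y).re) : ℝ) : ℂ) = z1 y
    have h2 : ((1 + (z2 y).re : ℝ) : ℂ) ≠ 0 := by exact_mod_cast hd.ne'
    rw [Complex.ofReal_div, Complex.ofReal_ofNat]
    generalize ((1 + (z2 y).re : ℝ) : ℂ) = D at h2
    field_simp
  · rw [hc.2]
    apply Complex.ext
    · rw [Complex.div_ofReal_re]
      change (1 - nq (st y)) / (1 + nq (st y)) = _
      rw [e, e2]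
      field_simp
    · rw [Complex.div_ofReal_im]
      change 2 * ((z2 y).im / (1 + (z2 y).re)) / (1 + nq (st y)) = _
      rw [e]
      field_simp

theorem sti_ne (X : V) : sti X ≠ pole := by
  intro h
  have h1 : (z2 (sti X)).re = -1 := by rw [h, pole_c.2]; simp
  rw [BSt_re] at h1
  have h2 := nq_nonneg X
  rw [div_eq_iff (by positivity)] at h1
  linarith

theorem BSt_mk {f g : V → ℝ} {x : V} (hf : ContDiffAt ℝ ∞ f x) (hg : ContDiffAt ℝ ∞ g x) :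
    ContDiffAt ℝ ∞ (fun X : V => (⟨f X, g X⟩ : ℂ)) x := by
  have e : (fun X : V => (⟨f X, g X⟩ : ℂ)) = fun X => (f X : ℂ) + (g X : ℂ) * I := by
    funext X
    exact Complex.mk_eq_add_mul_I _ _
  rw [e]
  exact (Complex.ofRealCLM.contDiff.contDiffAt.comp x hf).add
    ((Complex.ofRealCLM.contDiff.contDiffAt.comp x hg).mul contDiffAt_const)

theorem BSt_sti_smooth (X : V) : ContMDiffAt 𝓘(ℝ, V) (𝓡 3) ∞ sti X := by
  have h1 : ContDiffAt ℝ ∞ (fun X : V => 2 * X.2) X := contDiffAt_const.mul contDiffAt_snd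
  have h2 : ContDiffAt ℝ ∞ (fun X : V => (⟨1 - nq X, 2 * X.1⟩ : ℂ)) X :=
    BSt_mk (contDiffAt_const.sub nq_smooth.contDiffAt) (contDiffAt_const.mul contDiffAt_fst)
  refine Pool.Agent.RSG.pS3_smooth h1.contMDiffAt h2.contMDiffAt ?_
  rw [BSt_two, BSt_cn (1 - nq X) (2 * X.1)]
  have e : nq X = X.1 ^ 2 + ‖X.2‖ ^ 2 := rfl
  have h := nq_nonneg X
  have e2 : 4 * ‖X.2‖ ^ 2 + ((1 - nq X) ^ 2 + (2 * X.1) ^ 2) = (1 + nq X) ^ 2 := by
    rw [e]; ring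
  rw [e2]
  positivity

theorem BSt_st_smooth {y : S3} (h : y ≠ pole) : ContMDiffAt (𝓡 3) 𝓘(ℝ, V) ∞ st y := by
  have hd := BSt_dpos h
  have h1 : ContMDiffAt (𝓡 3) 𝓘(ℝ, ℂ) ∞ z1 y := z1_smooth y
  have h2 : ContMDiffAt (𝓡 3) 𝓘(ℝ, ℂ) ∞ z2 y := z2_smooth y
  have hg : ContDiffAt ℝ ∞ (fun q : ℂ × ℂ => ((q.2.im / (1 + q.2.re), q.1 * (((1 + q.2.re : ℝ) : ℂ))⁻¹) : V))
      (z1 y, z2 y) := by
    have r : ContDiff ℝ ∞ fun q : ℂ × ℂ => q.2.re := Complex.reCLM.contDiff.comp contDiff_snd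
    have i : ContDiff ℝ ∞ fun q : ℂ × ℂ => q.2.im := Complex.imCLM.contDiff.comp contDiff_snd
    have r1 : ContDiff ℝ ∞ fun q : ℂ × ℂ => 1 + q.2.re := contDiff_const.add r
    have r2 : ContDiff ℝ ∞ fun q : ℂ × ℂ => ((1 + q.2.re : ℝ) : ℂ) := Complex.ofRealCLM.contDiff.comp r1
    refine ContDiffAt.prodMk (i.contDiffAt.div r1.contDiffAt hd.ne') (contDiffAt_fst.mul (r2.contDiffAt.inv ?_))
    exact_mod_cast hd.ne'
  have e : st = fun y => (((z2 y).im / (1 + (z2 y).re), z1 y * (((1 + (z2 y).re : ℝ) : ℂ))⁻¹) : V) := by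
    funext y
    rfl
  rw [e]
  exact hg.contMDiffAt.comp y (h1.prodMk_space h2)

theorem BSt_T2 : T2Space S3 := inferInstance

theorem sti_ld (X : V) : IsLocalDiffeomorphAt 𝓘(ℝ, V) (𝓡 3) ∞ sti X := by
  refine Pool.Agent.RSG.ld_two (g := st) (Eventually.of_forall BSt_sti_smooth) ?_ (Eventually.of_forall st_sti) ?_
  · filter_upwards [isOpen_ne.mem_nhds (sti_ne X)] with y hy
    exact BSt_st_smooth hy
  · filter_upwards [isOpen_ne.mem_nhds (sti_ne X)] with y hy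
    exact sti_st hy

theorem st_ld {y : S3} (h : y ≠ pole) : IsLocalDiffeomorphAt (𝓡 3) 𝓘(ℝ, V) ∞ st y := by
  refine Pool.Agent.RSG.ld_two (g := sti) ?_ (Eventually.of_forall BSt_sti_smooth) ?_ (Eventually.of_forall st_sti)
  · filter_upwards [isOpen_ne.mem_nhds h] with y hy
    exact BSt_st_smooth hy
  · filter_upwards [isOpen_ne.mem_nhds h] with y hy
    exact sti_st hy

theorem sti'_zero : sti' 0 = pole := by
  have e : nq (0 : V) = 0 := nq_eq_zero.mpr rfl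
  unfold sti' pole
  rw [e]
  congr 1
  · simp
  · apply Complex.ext <;> simp

theorem sti'_eq {y : V} (h : y ≠ 0) : sti' y = sti (inv3 y) := by
  have hp := BSt_pos h
  unfold sti' sti
  rw [nq_inv3 h]
  rw [← pS3_scale (inv_pos.mpr hp) (2 * y.2) _]
  congr 1
  · change (((nq y)⁻¹ : ℝ) : ℂ) * (2 * y.2) = 2 * ((nq y)⁻¹ • y.2)
    rw [Complex.real_smul]
    ring
  · apply Complex.ext
    · rw [Complex.re_ofReal_mul]
      change (nq y)⁻¹ * (nq y - 1) = 1 - (nq y)⁻¹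
      field_simp
    · rw [Complex.im_ofReal_mul]
      change (nq y)⁻¹ * (2 * y.1) = 2 * ((nq y)⁻¹ • y.1)
      rw [smul_eq_mul]
      ring

/-- the reflection `(z1, z2) ↦ (z1, - conj z2)` -/
noncomputable def BSt_R (y : S3) : S3 := pS3 (z1 y) (-(starRingEnd ℂ) (z2 y))

theorem BSt_R_n (y : S3) : ‖z1 y‖ ^ 2 + ‖-(starRingEnd ℂ) (z2 y)‖ ^ 2 = 1 := by
  rw [norm_neg, RCLike.norm_conj]
  exact BPw_sq y

theorem BSt_R_R (y : S3) : BSt_R (BSt_R y) = y := by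
  have h := BPw_z (BSt_R_n y)
  apply BPw_ext
  · rw [BSt_R, (BPw_z (BSt_R_n _)).1, BSt_R, h.1]
  · rw [BSt_R, (BPw_z (BSt_R_n _)).2, BSt_R, h.2]
    simp

theorem BSt_R_smooth (y : S3) : ContMDiffAt (𝓡 3) (𝓡 3) ∞ BSt_R y := by
  have h2 : ContMDiffAt (𝓡 3) 𝓘(ℝ, ℂ) ∞ (fun y => -(starRingEnd ℂ) (z2 y)) y := by
    have hc : ContDiff ℝ ∞ fun z : ℂ => -(starRingEnd ℂ) z := (Complex.conjCLE.contDiff (𝕜 := ℝ)).neg
    exact hc.contMDiff.contMDiffAt.comp y (z2_smooth y)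
  exact Pool.Agent.RSG.pS3_smooth (z1_smooth y) h2 (by rw [BSt_R_n]; exact one_pos)

theorem BSt_R_ld (y : S3) : IsLocalDiffeomorphAt (𝓡 3) (𝓡 3) ∞ BSt_R y :=
  Pool.Agent.RSG.ld_two (g := BSt_R) (Eventually.of_forall BSt_R_smooth) (Eventually.of_forall BSt_R_smooth)
    (Eventually.of_forall BSt_R_R) (Eventually.of_forall BSt_R_R)

theorem BSt_sti'_R (y : V) : sti' y = BSt_R (sti y) := by
  have h := nq_nonneg y
  have h1 : sti' y = pS3 (((1 + nq y : ℝ) : ℂ) * z1 (sti y)) (((1 + nq y : ℝ) : ℂ) * (-(starRingEnd ℂ) (z2 (sti y)))) := by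
    have h2 : ((1 + nq y : ℝ) : ℂ) ≠ 0 := by
      have : (1 + nq y) ≠ 0 := by positivity
      exact_mod_cast this
    rw [(sti_c y).1, (sti_c y).2, map_div₀, Complex.conj_ofReal, ← neg_div, mul_div_cancel₀ _ h2,
      mul_div_cancel₀ _ h2]
    unfold sti'
    congr 1
    apply Complex.ext
    · simp
    · simp
  rw [h1, pS3_scale (by positivity)]
  rfl

theorem sti'_ld (y : V) : IsLocalDiffeomorphAt 𝓘(ℝ, V) (𝓡 3) ∞ sti' y := by
  have e : sti' = BSt_R ∘ sti := funext BSt_sti'_R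
  rw [e]
  exact IsLocalDiffeomorphAt.comp (hf := sti_ld y) (hg := BSt_R_ld (sti y)) ..

/-- linear maps -/
noncomputable def BSt_L (p q r s : ℂ) (y : S3) : S3 := pS3 (p * z1 y + q * z2 y) (r * z1 y + s * z2 y)

theorem BSt_L_smooth {p q r s : ℂ} (h : ∀ y : S3, ‖p * z1 y + q * z2 y‖ ^ 2 + ‖r * z1 y + s * z2 y‖ ^ 2 = 1) (y : S3) :
    ContMDiffAt (𝓡 3) (𝓡 3) ∞ (BSt_L p q r s) y := by
  have hl : ∀ a b : ℂ, ContMDiffAt (𝓡 3) 𝓘(ℝ, ℂ) ∞ (fun y => a * z1 y + b * z2 y) y := by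
    intro a b
    have hc : ContDiff ℝ ∞ fun q : ℂ × ℂ => a * q.1 + b * q.2 :=
      (contDiff_const.mul contDiff_fst).add (contDiff_const.mul contDiff_snd)
    exact (hc.contMDiff.contMDiffAt (x := (z1 y, z2 y))).comp y ((z1_smooth y).prodMk_space (z2_smooth y))
  exact Pool.Agent.RSG.pS3_smooth (hl p q) (hl r s) (by rw [h]; exact one_pos)

theorem BSt_nsq (w : ℂ) : ((‖w‖ ^ 2 : ℝ) : ℂ) = w * (starRingEnd ℂ) w := by
  rw [Complex.mul_conj, Complex.normSq_eq_norm_sq]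

theorem exists_rot (x₀ : S3) : ∃ U : Equiv.Perm S3, (∀ y, IsLocalDiffeomorphAt (𝓡 3) (𝓡 3) ∞ U y) ∧
    U pole = x₀ := by
  obtain ⟨a, ha⟩ : ∃ a, a = z1 x₀ := ⟨_, rfl⟩
  obtain ⟨b, hb⟩ : ∃ b, b = z2 x₀ := ⟨_, rfl⟩
  have hab : a * (starRingEnd ℂ) a + b * (starRingEnd ℂ) b = 1 := by
    have h := BPw_sq x₀
    rw [← ha, ← hb] at h
    rw [← BSt_nsq, ← BSt_nsq, ← Complex.ofReal_add, h, Complex.ofReal_one]
  have hU : ∀ y : S3, ‖(starRingEnd ℂ) b * z1 y + (-a) * z2 y‖ ^ 2 +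
      ‖(-(starRingEnd ℂ) a) * z1 y + (-b) * z2 y‖ ^ 2 = 1 := by
    intro y
    have h : z1 y * (starRingEnd ℂ) (z1 y) + z2 y * (starRingEnd ℂ) (z2 y) = 1 := by
      have h := BPw_sq y
      rw [← BSt_nsq, ← BSt_nsq, ← Complex.ofReal_add, h, Complex.ofReal_one]
    apply Complex.ofReal_injective
    rw [Complex.ofReal_add, BSt_nsq, BSt_nsq, Complex.ofReal_one]
    simp only [map_add, map_mul, map_neg, Complex.conj_conj]
    linear_combination (z1 y * (starRingEnd ℂ) (z1 y) + z2 y * (starRingEnd ℂ) (z2 y)) * hab + h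
  have hW : ∀ y : S3, ‖b * z1 y + (-a) * z2 y‖ ^ 2 +
      ‖(-(starRingEnd ℂ) a) * z1 y + (-(starRingEnd ℂ) b) * z2 y‖ ^ 2 = 1 := by
    intro y
    have h : z1 y * (starRingEnd ℂ) (z1 y) + z2 y * (starRingEnd ℂ) (z2 y) = 1 := by
      have h := BPw_sq y
      rw [← BSt_nsq, ← BSt_nsq, ← Complex.ofReal_add, h, Complex.ofReal_one]
    apply Complex.ofReal_injective
    rw [Complex.ofReal_add, BSt_nsq, BSt_nsq, Complex.ofReal_one]
    simp only [map_add, map_mul, map_neg, Complex.conj_conj]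
    linear_combination (z1 y * (starRingEnd ℂ) (z1 y) + z2 y * (starRingEnd ℂ) (z2 y)) * hab + h
  have hUz := fun y => BPw_z (hU y)
  have hWz := fun y => BPw_z (hW y)
  have i1 : ∀ y, BSt_L b (-a) (-(starRingEnd ℂ) a) (-(starRingEnd ℂ) b)
      (BSt_L ((starRingEnd ℂ) b) (-a) (-(starRingEnd ℂ) a) (-b) y) = y := by
    intro y
    apply BPw_ext
    · rw [BSt_L, (hWz _).1, BSt_L, (hUz y).1, (hUz y).2]
      linear_combination z1 y * hab
    · rw [BSt_L, (hWz _).2, BSt_L, (hUz y).1, (hUz y).2]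
      linear_combination z2 y * hab
  have i2 : ∀ y, BSt_L ((starRingEnd ℂ) b) (-a) (-(starRingEnd ℂ) a) (-b)
      (BSt_L b (-a) (-(starRingEnd ℂ) a) (-(starRingEnd ℂ) b) y) = y := by
    intro y
    apply BPw_ext
    · rw [BSt_L, (hUz _).1, BSt_L, (hWz y).1, (hWz y).2]
      linear_combination z1 y * hab
    · rw [BSt_L, (hUz _).2, BSt_L, (hWz y).1, (hWz y).2]
      linear_combination z2 y * hab
  refine ⟨⟨BSt_L ((starRingEnd ℂ) b) (-a) (-(starRingEnd ℂ) a) (-b),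
    BSt_L b (-a) (-(starRingEnd ℂ) a) (-(starRingEnd ℂ) b), i1, i2⟩, ?_, ?_⟩
  · intro y
    exact Pool.Agent.RSG.ld_two (f := BSt_L ((starRingEnd ℂ) b) (-a) (-(starRingEnd ℂ) a) (-b))
      (Eventually.of_forall (BSt_L_smooth hU)) (Eventually.of_forall (BSt_L_smooth hW))
      (Eventually.of_forall i1) (Eventually.of_forall i2)
  · change BSt_L ((starRingEnd ℂ) b) (-a) (-(starRingEnd ℂ) a) (-b) pole = x₀
    apply BPw_ext
    · rw [BSt_L, (hUz _).1, pole_c.1, pole_c.2, ← ha]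
      ring
    · rw [BSt_L, (hUz _).2, pole_c.1, pole_c.2, ← hb]
      ring

end Pool.Agent.BAS
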