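import Pool.Agent.BAS.BGE
import Pool.Agent.BAS.BCap
import Pool.Agent.RSG.ExM
import Pool.Agent.RSG.LDc
import Pool.Agent.BAS.BPw

/-!
# BAS/BVc: charts near the two cores of `S3 × S1`   (difficulty 3)

`VC1 v g₂ g₃ ((z, Y), t) = (pS3 (z ex (v₁ t)) (ex (v₂ t + g₂ Y)), exp 2π (v₃ t + g₃ Y))`, `‖z‖ < 1/3`, `g₂ v₃ - g₃ v₂ = ±1`.
* per, equiv: direct (`pS3` of a normalised vector: `pS3_scale`; `z1 (pS3 a b) = a / norm`).
* loc: `(pS3 z' w', u)` with `z' = z ex (v₁ t)`, `w' = ex (α)`: local inverse `(y, u) ↦`: `α = α₀ + (log (z2/|z2| / ex α₀)).im / 2π`,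
  `γ` from `u` in the same way, solve the integral linear system `v₂ t + g₂ Y = α`, `v₃ t + g₃ Y = γ`, and
  `z = (z1 / |z2|) ex (-v₁ t)`: smooth; `RSG.ld_two`.  (Or: composition of `circle_ld`-type maps with a local diffeo `(z, α) ↦ pS3 z (ex α)`.)
* inj: `|z1| / |z2| = ‖z‖`; `ex (v₂ t + g₂ Y)` and `exp 2π (v₃ t + g₃ Y)` equal: `(t, Y)` and `(t', Y')` differ by
  integers (Cramer), then `z = z'`.
`VC2 v g₁ g₃ ((z, Y), t) = (pS3 (ex (v₁ t + g₁ Y)) (-z ex (v₂ t)), exp 2π (v₃ t + g₃ Y))`, `g₁ v₃ - g₃ v₁ = ±1`: the same (swap the coordinates,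
`z ↦ -z`).
`gK` : `gK_mid`: for `0 < l < 1/2` it is `gE (2l) (w (2l))`, for `-1/2 < l < 0`: `gE (-2l) 0` (`round l = 0`); period 1; near `0` and `1/2` the
formulas `gK_zero`, `gK_half`: `prf x = x`, `prf (1 - x) = 1` for `0 ≤ x ≤ 1/3`.  `round (1/2) = 1`.  Continuity: local formulas.
-/

open scoped Manifold ContDiff Topology
open Set Filter
open Complex (I)

namespace Pool.Agent.BAS

open Pool.Agent.RSG (E4 S3 S4 pS3 pS4 ex c1 c2 ht fh Thick std)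
open Pool.Agent.PTH (SP ISP z1 z2 gE gact Carries prf Act GPath gK)
open Pool.Agent.ISO (EChart Lat)

noncomputable def VC1 (v : ℤ × ℤ × ℤ) (g₂ g₃ : ℤ) (q : (ℂ × ℝ) × ℝ) : SP :=
  (pS3 (q.1.1 * ex (v.1 * q.2)) (ex (v.2.1 * q.2 + g₂ * q.1.2)),
    Circle.exp (2 * Real.pi * (v.2.2 * q.2 + g₃ * q.1.2)))

noncomputable def VC2 (v : ℤ × ℤ × ℤ) (g₁ g₃ : ℤ) (q : (ℂ × ℝ) × ℝ) : SP :=
  (pS3 (ex (v.1 * q.2 + g₁ * q.1.2)) (-q.1.1 * ex (v.2.1 * q.2)),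
    Circle.exp (2 * Real.pi * (v.2.2 * q.2 + g₃ * q.1.2)))

/-! ### coordinates of `pS3` -/

theorem BVc_c {a b : ℂ} (h : 0 < ‖a‖ ^ 2 + ‖b‖ ^ 2) :
    z1 (pS3 a b) = a / (Real.sqrt (‖a‖ ^ 2 + ‖b‖ ^ 2) : ℝ) ∧
      z2 (pS3 a b) = b / (Real.sqrt (‖a‖ ^ 2 + ‖b‖ ^ 2) : ℝ) := by
  set r := Real.sqrt (‖a‖ ^ 2 + ‖b‖ ^ 2) with hr
  have hr0 : 0 < r := Real.sqrt_pos.2 h
  have hr2 : r ^ 2 = ‖a‖ ^ 2 + ‖b‖ ^ 2 := Real.sq_sqrt h.le
  have hrc : (r : ℂ) ≠ 0 := by exact_mod_cast hr0.ne'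
  have h1 : pS3 a b = pS3 (a / r) (b / r) := by
    have := pS3_scale hr0 (a / r) (b / r)
    rw [mul_div_cancel₀ _ hrc, mul_div_cancel₀ _ hrc] at this
    exact this
  have h2 : ‖a / (r : ℂ)‖ ^ 2 + ‖b / (r : ℂ)‖ ^ 2 = 1 := by
    rw [norm_div, norm_div, Complex.norm_real, Real.norm_of_nonneg hr0.le, div_pow, div_pow, ← add_div, ← hr2]
    exact div_self (by positivity)
  have h3 := RSG.pS3_c h2
  rw [← h1] at h3
  exact h3

theorem BVc_self (y : S3) : pS3 (z1 y) (z2 y) = y := RSG.pS3_self y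

theorem BVc_ex_norm (x : ℝ) : ‖ex x‖ = 1 := RSG.ex_norm x

/-- equality of two points of `S3` with second coordinate of modulus `1` -/
theorem BVc_eq {z z' : ℂ} {α α' : ℝ} (h : pS3 z (ex α) = pS3 z' (ex α')) : z = z' ∧ ex α = ex α' := by
  have hp : 0 < ‖z‖ ^ 2 + ‖ex α‖ ^ 2 := by
    rw [BVc_ex_norm]
    positivity
  have hp' : 0 < ‖z'‖ ^ 2 + ‖ex α'‖ ^ 2 := by
    rw [BVc_ex_norm]
    positivity
  obtain ⟨h1, h2⟩ := BVc_c hp
  obtain ⟨h1', h2'⟩ := BVc_c hp'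
  set r := Real.sqrt (‖z‖ ^ 2 + ‖ex α‖ ^ 2) with hr
  set r' := Real.sqrt (‖z'‖ ^ 2 + ‖ex α'‖ ^ 2) with hr'
  have hr0 : 0 < r := Real.sqrt_pos.2 hp
  have hr0' : 0 < r' := Real.sqrt_pos.2 hp'
  rw [h] at h1 h2
  rw [h1] at h1'
  rw [h2] at h2'
  have h3 : r = r' := by
    have h4 := congrArg (fun z : ℂ => ‖z‖) h2'
    simp only [norm_div, BVc_ex_norm, Complex.norm_real, Real.norm_of_nonneg hr0.le,
      Real.norm_of_nonneg hr0'.le] at h4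
    have h5 : r⁻¹ = r'⁻¹ := by simpa [one_div] using h4
    exact inv_injective h5
  have hrc : (r : ℂ) ≠ 0 := by exact_mod_cast hr0.ne'
  rw [← h3] at h1' h2'
  exact ⟨(div_left_inj' hrc).1 h1', (div_left_inj' hrc).1 h2'⟩

theorem BVc_eq' {z z' : ℂ} {α α' : ℝ} (h : pS3 (ex α) z = pS3 (ex α') z') : z = z' ∧ ex α = ex α' := by
  have hp : 0 < ‖ex α‖ ^ 2 + ‖z‖ ^ 2 := by
    rw [BVc_ex_norm]
    positivity
  have hp' : 0 < ‖ex α'‖ ^ 2 + ‖z'‖ ^ 2 := by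
    rw [BVc_ex_norm]
    positivity
  obtain ⟨h1, h2⟩ := BVc_c hp
  obtain ⟨h1', h2'⟩ := BVc_c hp'
  set r := Real.sqrt (‖ex α‖ ^ 2 + ‖z‖ ^ 2) with hr
  set r' := Real.sqrt (‖ex α'‖ ^ 2 + ‖z'‖ ^ 2) with hr'
  have hr0 : 0 < r := Real.sqrt_pos.2 hp
  have hr0' : 0 < r' := Real.sqrt_pos.2 hp'
  rw [h] at h1 h2
  rw [h1] at h1'
  rw [h2] at h2'
  have h3 : r = r' := by
    have h4 := congrArg (fun z : ℂ => ‖z‖) h1'
    simp only [norm_div, BVc_ex_norm, Complex.norm_real, Real.norm_of_nonneg hr0.le,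
      Real.norm_of_nonneg hr0'.le] at h4
    have h5 : r⁻¹ = r'⁻¹ := by simpa [one_div] using h4
    exact inv_injective h5
  have hrc : (r : ℂ) ≠ 0 := by exact_mod_cast hr0.ne'
  rw [← h3] at h1' h2'
  exact ⟨(div_left_inj' hrc).1 h2', (div_left_inj' hrc).1 h1'⟩

/-- `circle` -/
theorem BVc_circ {x y : ℝ} (h : Circle.exp (2 * Real.pi * x) = Circle.exp (2 * Real.pi * y)) :
    ∃ m : ℤ, y = x + m := by
  rw [← RSG.ex_eq_iff, ← exp_coe, ← exp_coe, h]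

theorem BVc_circ' {x : ℝ} (m : ℤ) : Circle.exp (2 * Real.pi * (x + m)) = Circle.exp (2 * Real.pi * x) := by
  apply Circle.ext
  rw [exp_coe, exp_coe, RSG.ex_add_int]

/-! ### the local diffeomorphism `(z, α) ↦ pS3 z (ex α)` -/

theorem BVc_arg {r α α₀ : ℝ} (hr : 0 < r) (h : |α - α₀| < 1 / 2) :
    α₀ + (Complex.log (ex α / r / ex α₀)).im / (2 * Real.pi) = α := by
  have h1 := abs_lt.1 h
  have hrc : (r : ℂ) ≠ 0 := by exact_mod_cast hr.ne'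
  have e : ex α / r / ex α₀ = ((1 / r : ℝ) : ℂ) * ex (α - α₀) := by
    have h2 : ex α = ex (α - α₀) * ex α₀ := by
      rw [← RSG.ex_add, sub_add_cancel]
    rw [h2]
    have h3 := RSG.ex_ne α₀
    push_cast
    field_simp
  rw [e, Complex.log_im, Complex.arg_real_mul _ (by positivity)]
  have h4 : Complex.arg (ex (α - α₀)) = 2 * Real.pi * (α - α₀) := by
    unfold RSG.ex
    rw [Complex.arg_exp_mul_I, toIocMod_eq_self]
    constructor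
    · nlinarith [Real.pi_pos]
    · nlinarith [Real.pi_pos]
  rw [h4]
  field_simp
  ring

theorem BVc_Q (q : ℂ × ℝ) :
    IsLocalDiffeomorphAt 𝓘(ℝ, ℂ × ℝ) (𝓡 3) ∞ (fun q : ℂ × ℝ => pS3 q.1 (ex q.2)) q := by
  obtain ⟨z₀, α₀⟩ := q
  have hpos : ∀ q : ℂ × ℝ, 0 < ‖q.1‖ ^ 2 + ‖ex q.2‖ ^ 2 := by
    intro q
    rw [BVc_ex_norm]
    positivity
  have hex : ContMDiff 𝓘(ℝ, ℂ × ℝ) 𝓘(ℝ, ℂ) ∞ fun q : ℂ × ℝ => ex q.2 :=
    (RSG.ex_smooth.comp contDiff_snd).contMDiff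
  have hfs : ∀ q : ℂ × ℝ, ContMDiffAt 𝓘(ℝ, ℂ × ℝ) (𝓡 3) ∞ (fun q : ℂ × ℝ => pS3 q.1 (ex q.2)) q := by
    intro q
    exact RSG.pS3_smooth (contDiff_fst.contMDiff.contMDiffAt) hex.contMDiffAt (hpos q)
  set g : S3 → ℂ × ℝ := fun y => (z1 y / (‖z2 y‖ : ℝ),
    α₀ + (Complex.log (z2 y / ex α₀)).im / (2 * Real.pi)) with hg
  have hcont : ContinuousAt (fun q : ℂ × ℝ => pS3 q.1 (ex q.2)) (z₀, α₀) := (hfs _).continuousAt
  have hsl0 : z2 (pS3 z₀ (ex α₀)) / ex α₀ ∈ Complex.slitPlane := by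
    rw [(BVc_c (hpos (z₀, α₀))).2]
    have h1 := RSG.ex_ne α₀
    have h2 : 0 < Real.sqrt (‖z₀‖ ^ 2 + ‖ex α₀‖ ^ 2) := Real.sqrt_pos.2 (hpos (z₀, α₀))
    have e : ex α₀ / ((Real.sqrt (‖z₀‖ ^ 2 + ‖ex α₀‖ ^ 2) : ℝ) : ℂ) / ex α₀ =
        ((1 / Real.sqrt (‖z₀‖ ^ 2 + ‖ex α₀‖ ^ 2) : ℝ) : ℂ) := by
      have h3 : ((Real.sqrt (‖z₀‖ ^ 2 + ‖ex α₀‖ ^ 2) : ℝ) : ℂ) ≠ 0 := by exact_mod_cast h2.ne'
      push_cast
      field_simp
    change ex α₀ / ((Real.sqrt (‖z₀‖ ^ 2 + ‖ex α₀‖ ^ 2) : ℝ) : ℂ) / ex α₀ ∈ Complex.slitPlane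
    rw [e, Complex.ofReal_mem_slitPlane]
    positivity
  have hz2c : Continuous z2 := z2_smooth.continuous
  have hsl : ∀ᶠ y in 𝓝 (pS3 z₀ (ex α₀)), z2 y / ex α₀ ∈ Complex.slitPlane :=
    (hz2c.div_const _).continuousAt.eventually (Complex.isOpen_slitPlane.mem_nhds hsl0)
  refine RSG.ld_two (g := g) (Eventually.of_forall hfs) ?_ ?_ ?_
  · filter_upwards [hsl] with y hy
    have hne : z2 y ≠ 0 := by
      intro h
      rw [h, zero_div] at hy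
      exact Complex.slitPlane_ne_zero hy rfl
    have h1 : ContMDiffAt (𝓡 3) 𝓘(ℝ, ℂ) ∞ (fun y => z1 y / ((‖z2 y‖ : ℝ) : ℂ)) y := by
      have d : ContDiffAt ℝ ∞ (fun q : ℂ × ℂ => q.1 / ((‖q.2‖ : ℝ) : ℂ)) (z1 y, z2 y) := by
        have hn : ContDiffAt ℝ ∞ (fun q : ℂ × ℂ => ‖q.2‖) (z1 y, z2 y) := contDiffAt_snd.norm ℝ hne
        have hn' : ContDiffAt ℝ ∞ (fun q : ℂ × ℂ => ((‖q.2‖ : ℝ) : ℂ)) (z1 y, z2 y) :=
          Complex.ofRealCLM.contDiff.contDiffAt.comp _ hn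
        have hne' : ((‖((z1 y, z2 y) : ℂ × ℂ).2‖ : ℝ) : ℂ) ≠ 0 := by simpa using hne
        have hm : ContDiffAt ℝ ∞ (fun q : ℂ × ℂ => q.1 * ((‖q.2‖ : ℝ) : ℂ)⁻¹) (z1 y, z2 y) :=
          contDiffAt_fst.mul (hn'.inv hne')
        simpa only [div_eq_mul_inv] using hm
      have hp : ContMDiffAt (𝓡 3) 𝓘(ℝ, ℂ × ℂ) ∞ (fun y => (z1 y, z2 y)) y :=
        (z1_smooth.contMDiffAt).prodMk_space (z2_smooth.contMDiffAt)
      exact ContMDiffAt.comp (g := fun q : ℂ × ℂ => q.1 / ((‖q.2‖ : ℝ) : ℂ)) y d.contMDiffAt hp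
    have h2 : ContMDiffAt (𝓡 3) 𝓘(ℝ, ℝ) ∞
        (fun y => α₀ + (Complex.log (z2 y / ex α₀)).im / (2 * Real.pi)) y := by
      have d : ContDiffAt ℝ ∞ (fun w : ℂ => α₀ + (Complex.log (w / ex α₀)).im / (2 * Real.pi)) (z2 y) := by
        have d1 : ContDiffAt ℝ ∞ Complex.log (z2 y / ex α₀) :=
          (Complex.contDiffAt_log hy).restrict_scalars ℝ
        have d2 : ContDiffAt ℝ ∞ (fun w : ℂ => Complex.log (w / ex α₀)) (z2 y) :=
          d1.comp (z2 y) (contDiffAt_id.div_const _)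
        have d3 : ContDiffAt ℝ ∞ (fun w : ℂ => (Complex.log (w / ex α₀)).im) (z2 y) :=
          Complex.imCLM.contDiff.contDiffAt.comp _ d2
        exact contDiffAt_const.add (d3.div_const _)
      exact ContMDiffAt.comp (g := fun w : ℂ => α₀ + (Complex.log (w / ex α₀)).im / (2 * Real.pi)) y
        d.contMDiffAt z2_smooth.contMDiffAt
    exact h1.prodMk_space h2
  · have hn : ∀ᶠ q : ℂ × ℝ in 𝓝 (z₀, α₀), |q.2 - α₀| < 1 / 2 := by
      have hc : Continuous fun q : ℂ × ℝ => |q.2 - α₀| := (continuous_snd.sub continuous_const).abs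
      have h0 : |((z₀, α₀) : ℂ × ℝ).2 - α₀| < 1 / 2 := by simp
      exact hc.continuousAt.eventually_lt continuousAt_const h0
    filter_upwards [hn] with q hq
    have hr := Real.sqrt_pos.2 (hpos q)
    have hc := BVc_c (hpos q)
    simp only [hg]
    rw [hc.1, hc.2]
    apply Prod.ext
    · change q.1 / ((Real.sqrt (‖q.1‖ ^ 2 + ‖ex q.2‖ ^ 2) : ℝ) : ℂ) /
        ((‖ex q.2 / ((Real.sqrt (‖q.1‖ ^ 2 + ‖ex q.2‖ ^ 2) : ℝ) : ℂ)‖ : ℝ) : ℂ) = q.1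
      set r := Real.sqrt (‖q.1‖ ^ 2 + ‖ex q.2‖ ^ 2) with hr_def
      have hrc : (r : ℂ) ≠ 0 := by exact_mod_cast hr.ne'
      rw [norm_div, BVc_ex_norm, Complex.norm_real, Real.norm_of_nonneg hr.le]
      push_cast
      field_simp
    · exact BVc_arg hr hq
  · filter_upwards [hsl] with y hy
    have hne : z2 y ≠ 0 := by
      intro h
      rw [h, zero_div] at hy
      exact Complex.slitPlane_ne_zero hy rfl
    have hn : 0 < ‖z2 y‖ := norm_pos_iff.2 hne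
    have hnc : ((‖z2 y‖ : ℝ) : ℂ) ≠ 0 := by exact_mod_cast hn.ne'
    have h1 : ex (α₀ + (Complex.log (z2 y / ex α₀)).im / (2 * Real.pi)) = z2 y / ((‖z2 y‖ : ℝ) : ℂ) := by
      rw [RSG.ex_add, Complex.log_im]
      have h2 := RSG.ex_arg (p := z2 y / ex α₀)
      rw [norm_div, BVc_ex_norm, div_one] at h2
      have h3 := RSG.ex_ne α₀
      rw [eq_div_iff hnc]
      have h4 : ex (Complex.arg (z2 y / ex α₀) / (2 * Real.pi)) * ((‖z2 y‖ : ℝ) : ℂ) = z2 y / ex α₀ := by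
        rw [mul_comm]
        exact h2
      rw [mul_assoc, h4]
      field_simp
    simp only [hg]
    rw [h1]
    have h5 := pS3_scale (r := ‖z2 y‖) hn (z1 y / ((‖z2 y‖ : ℝ) : ℂ)) (z2 y / ((‖z2 y‖ : ℝ) : ℂ))
    rw [mul_div_cancel₀ _ hnc, mul_div_cancel₀ _ hnc, BVc_self] at h5
    exact h5.symm

/-- the swap of the coordinates of `S3` -/
noncomputable def BVc_sw (y : S3) : S3 := pS3 (z2 y) (z1 y)

theorem BVc_sq (y : S3) : 0 < ‖z2 y‖ ^ 2 + ‖z1 y‖ ^ 2 := by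
  by_contra h
  have h1 : ‖z2 y‖ ^ 2 + ‖z1 y‖ ^ 2 = 0 := le_antisymm (not_lt.1 h) (by positivity)
  have h2 : ‖z2 y‖ = 0 := by nlinarith [sq_nonneg ‖z1 y‖, sq_nonneg ‖z2 y‖]
  have h3 : ‖z1 y‖ = 0 := by nlinarith [sq_nonneg ‖z1 y‖, sq_nonneg ‖z2 y‖]
  have h4 : z2 y = 0 := norm_eq_zero.1 h2
  have h5 : z1 y = 0 := norm_eq_zero.1 h3
  have hy : ‖(y.1 : E4)‖ = 1 := by
    have := y.2
    rwa [mem_sphere_zero_iff_norm] at this
  have e0 : y.1 0 = 0 := congrArg Complex.re h5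
  have e1 : y.1 1 = 0 := congrArg Complex.im h5
  have e2 : y.1 2 = 0 := congrArg Complex.re h4
  have e3 : y.1 3 = 0 := congrArg Complex.im h4
  have h6 : (y.1 : E4) = 0 := by
    ext i
    fin_cases i
    · exact e0
    · exact e1
    · exact e2
    · exact e3
  rw [h6, norm_zero] at hy
  exact zero_ne_one hy

theorem BVc_sw_smooth (y : S3) : ContMDiffAt (𝓡 3) (𝓡 3) ∞ BVc_sw y :=
  RSG.pS3_smooth z2_smooth.contMDiffAt z1_smooth.contMDiffAt (BVc_sq y)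

theorem BVc_sw_p {a b : ℂ} (h : 0 < ‖a‖ ^ 2 + ‖b‖ ^ 2) : BVc_sw (pS3 a b) = pS3 b a := by
  have hr0 : 0 < Real.sqrt (‖a‖ ^ 2 + ‖b‖ ^ 2) := Real.sqrt_pos.2 h
  unfold BVc_sw
  rw [(BVc_c h).1, (BVc_c h).2]
  set r := Real.sqrt (‖a‖ ^ 2 + ‖b‖ ^ 2) with hr
  have hrc : (r : ℂ) ≠ 0 := by exact_mod_cast hr0.ne'
  have := pS3_scale hr0 (b / r) (a / r)
  rw [mul_div_cancel₀ _ hrc, mul_div_cancel₀ _ hrc] at this
  exact this.symm

theorem BVc_sw_sw (y : S3) : BVc_sw (BVc_sw y) = y := by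
  have h : BVc_sw y = pS3 (z2 y) (z1 y) := rfl
  rw [h, BVc_sw_p (BVc_sq y), BVc_self]

theorem BVc_sw_ld (y : S3) : IsLocalDiffeomorphAt (𝓡 3) (𝓡 3) ∞ BVc_sw y :=
  RSG.ld_two (g := BVc_sw) (Eventually.of_forall BVc_sw_smooth) (Eventually.of_forall BVc_sw_smooth)
    (Eventually.of_forall BVc_sw_sw) (Eventually.of_forall BVc_sw_sw)

theorem BVc_Q' (q : ℂ × ℝ) :
    IsLocalDiffeomorphAt 𝓘(ℝ, ℂ × ℝ) (𝓡 3) ∞ (fun q : ℂ × ℝ => pS3 (ex q.2) q.1) q := by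
  have h := IsLocalDiffeomorphAt.comp (hf := BVc_Q q) (g := BVc_sw) (hg := BVc_sw_ld _)
  have e : BVc_sw ∘ (fun q : ℂ × ℝ => pS3 q.1 (ex q.2)) = fun q : ℂ × ℝ => pS3 (ex q.2) q.1 := by
    funext q
    change BVc_sw (pS3 q.1 (ex q.2)) = _
    rw [BVc_sw_p]
    rw [BVc_ex_norm]
    positivity
  rw [e] at h
  exact h

/-- the linear change of coordinates: `(z, Y, t) ↦ (z ex (c t), a t + g Y, b t + g' Y)` -/
noncomputable def BVc_L (c a b g g' : ℤ) (h : g * b - g' * a = 1) : ((ℂ × ℝ) × ℝ) ≃ ((ℂ × ℝ) × ℝ) where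
  toFun q := ((q.1.1 * ex (c * q.2), a * q.2 + g * q.1.2), b * q.2 + g' * q.1.2)
  invFun p := ((p.1.1 * ex (-(c * (-g' * p.1.2 + g * p.2))), b * p.1.2 - a * p.2), -g' * p.1.2 + g * p.2)
  left_inv := by
    rintro ⟨⟨z, Y⟩, t⟩
    have h' : (g : ℝ) * b - g' * a = 1 := by exact_mod_cast h
    have e1 : -(g' : ℝ) * (a * t + g * Y) + g * (b * t + g' * Y) = t := by
      linear_combination t * h'
    have e2 : (b : ℝ) * (a * t + g * Y) - a * (b * t + g' * Y) = Y := by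
      linear_combination Y * h'
    simp only [e1, e2]
    rw [mul_assoc, ← RSG.ex_add, add_neg_cancel, RSG.ex_zero, mul_one]
  right_inv := by
    rintro ⟨⟨z, u⟩, s⟩
    have h' : (g : ℝ) * b - g' * a = 1 := by exact_mod_cast h
    have e1 : (a : ℝ) * (-g' * u + g * s) + g * (b * u - a * s) = u := by
      linear_combination u * h'
    have e2 : (b : ℝ) * (-g' * u + g * s) + g' * (b * u - a * s) = s := by
      linear_combination s * h'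
    simp only [e1, e2]
    rw [mul_assoc, ← RSG.ex_add, neg_add_cancel, RSG.ex_zero, mul_one]

theorem BVc_L_ld (c a b g g' : ℤ) (h : g * b - g' * a = 1) (q : (ℂ × ℝ) × ℝ) :
    IsLocalDiffeomorphAt 𝓘(ℝ, (ℂ × ℝ) × ℝ) 𝓘(ℝ, (ℂ × ℝ) × ℝ) ∞ (BVc_L c a b g g' h) q := by
  refine CSG.ld_of_perm ?_ ?_ q
  · have h1 : ContDiff ℝ ∞ fun q : (ℂ × ℝ) × ℝ => ex (c * q.2) :=
      RSG.ex_smooth.comp (contDiff_const.mul contDiff_snd)
    refine ContDiff.prodMk (ContDiff.prodMk (contDiff_fst.fst.mul h1) ?_) ?_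
    · exact (contDiff_const.mul contDiff_snd).add (contDiff_const.mul contDiff_fst.snd)
    · exact (contDiff_const.mul contDiff_snd).add (contDiff_const.mul contDiff_fst.snd)
  · have h0 : ContDiff ℝ ∞ fun p : (ℂ × ℝ) × ℝ => -(g' : ℝ) * p.1.2 + g * p.2 :=
      (contDiff_const.mul contDiff_fst.snd).add (contDiff_const.mul contDiff_snd)
    have h1 : ContDiff ℝ ∞ fun p : (ℂ × ℝ) × ℝ => ex (-(c * (-(g' : ℝ) * p.1.2 + g * p.2))) :=
      RSG.ex_smooth.comp (contDiff_const.mul h0).neg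
    refine ContDiff.prodMk (ContDiff.prodMk (contDiff_fst.fst.mul h1) ?_) h0
    exact (contDiff_const.mul contDiff_fst.snd).sub (contDiff_const.mul contDiff_snd)

theorem BVc_W (q : (ℂ × ℝ) × ℝ) : IsLocalDiffeomorphAt 𝓘(ℝ, (ℂ × ℝ) × ℝ) ISP ∞
    (fun q : (ℂ × ℝ) × ℝ => ((pS3 q.1.1 (ex q.1.2), Circle.exp (2 * Real.pi * q.2)) : SP)) q := by
  have h := RSG.ld_prodMap (BVc_Q q.1) (circle_ld q.2)
  rw [← modelWithCornersSelf_prod, chartedSpaceSelf_prod] at h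
  exact h

theorem BVc_W' (q : (ℂ × ℝ) × ℝ) : IsLocalDiffeomorphAt 𝓘(ℝ, (ℂ × ℝ) × ℝ) ISP ∞
    (fun q : (ℂ × ℝ) × ℝ => ((pS3 (ex q.1.2) q.1.1, Circle.exp (2 * Real.pi * q.2)) : SP)) q := by
  have h := RSG.ld_prodMap (BVc_Q' q.1) (circle_ld q.2)
  rw [← modelWithCornersSelf_prod, chartedSpaceSelf_prod] at h
  exact h

theorem BVc_neg (q : (ℂ × ℝ) × ℝ) : IsLocalDiffeomorphAt 𝓘(ℝ, (ℂ × ℝ) × ℝ) 𝓘(ℝ, (ℂ × ℝ) × ℝ) ∞
    (fun q : (ℂ × ℝ) × ℝ => ((-q.1.1, q.1.2), q.2)) q := by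
  refine CSG.ld_of_perm (f := ⟨fun q : (ℂ × ℝ) × ℝ => ((-q.1.1, q.1.2), q.2),
    fun q : (ℂ × ℝ) × ℝ => ((-q.1.1, q.1.2), q.2), fun q => by simp, fun q => by simp⟩) ?_ ?_ q
  · exact (contDiff_fst.fst.neg.prodMk contDiff_fst.snd).prodMk contDiff_snd
  · exact (contDiff_fst.fst.neg.prodMk contDiff_fst.snd).prodMk contDiff_snd

theorem BVc_add_int {x : ℝ} {k : ℤ} {y : ℝ} (h : y = x + k) : ex y = ex x := by
  rw [h, RSG.ex_add_int]

theorem VC1_chart {v : ℤ × ℤ × ℤ} {g₂ g₃ : ℤ} (h : g₂ * v.2.2 - g₃ * v.2.1 = 1) :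
    EChart ISP (gact v) Lam1 {x : ℂ × ℝ | ‖x.1‖ < 1 / 3} (VC1 v g₂ g₃) where
  opn := isOpen_lt (continuous_norm.comp continuous_fst) continuous_const
  inv := by
    rintro x hx m ⟨hm, -⟩
    change ‖x.1 + m.1‖ < 1 / 3
    rw [hm, add_zero]
    exact hx
  per := by
    rintro ⟨z, Y⟩ t m ⟨hm, i, hi⟩
    unfold VC1
    simp only [Prod.fst_add, Prod.snd_add, hm, hi, add_zero]
    have h1 : (v.2.1 : ℝ) * t + g₂ * (Y + i) = (v.2.1 * t + g₂ * Y) + ((g₂ * i : ℤ) : ℝ) := by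
      push_cast
      ring
    have h2 : (v.2.2 : ℝ) * t + g₃ * (Y + i) = (v.2.2 * t + g₃ * Y) + ((g₃ * i : ℤ) : ℝ) := by
      push_cast
      ring
    rw [h1, h2, RSG.ex_add_int, BVc_circ']
  equiv := by
    rintro ⟨z, Y⟩ t
    have hp : 0 < ‖z * ex (v.1 * 0)‖ ^ 2 + ‖ex (v.2.1 * 0 + g₂ * Y)‖ ^ 2 := by
      rw [BVc_ex_norm]
      positivity
    have hc := BVc_c hp
    have hr := Real.sqrt_pos.2 hp
    unfold gact VC1
    simp only
    rw [hc.1, hc.2]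
    set r := Real.sqrt (‖z * ex (v.1 * 0)‖ ^ 2 + ‖ex (v.2.1 * 0 + g₂ * Y)‖ ^ 2) with hr_def
    have hrc : (r : ℂ) ≠ 0 := by exact_mod_cast hr.ne'
    apply Prod.ext
    · change pS3 (z * ex (v.1 * t)) (ex (v.2.1 * t + g₂ * Y)) = pS3 (ex (v.1 * t) * (z * ex (v.1 * 0) / r))
        (ex (v.2.1 * t) * (ex (v.2.1 * 0 + g₂ * Y) / r))
      have h1 := pS3_scale hr (ex (v.1 * t) * (z * ex (v.1 * 0) / r))
        (ex (v.2.1 * t) * (ex (v.2.1 * 0 + g₂ * Y) / r))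
      rw [← h1]
      congr 1
      · rw [mul_zero, RSG.ex_zero]
        field_simp
      · rw [mul_zero, zero_add, RSG.ex_add]
        field_simp
    · change Circle.exp (2 * Real.pi * (v.2.2 * t + g₃ * Y)) =
        Circle.exp (2 * Real.pi * (v.2.2 * t)) * Circle.exp (2 * Real.pi * (v.2.2 * 0 + g₃ * Y))
      rw [← Circle.exp_add]
      congr 1
      ring
  loc := by
    rintro x t -
    have h1 := BVc_L_ld v.1 v.2.1 v.2.2 g₂ g₃ h (x, t)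
    exact IsLocalDiffeomorphAt.comp (hf := h1)
      (g := fun q : (ℂ × ℝ) × ℝ => ((pS3 q.1.1 (ex q.1.2), Circle.exp (2 * Real.pi * q.2)) : SP))
      (hg := BVc_W _)
  inj := by
    rintro ⟨z, Y⟩ t ⟨z', Y'⟩ t' - - he
    have he1 : pS3 (z * ex (v.1 * t)) (ex (v.2.1 * t + g₂ * Y)) =
        pS3 (z' * ex (v.1 * t')) (ex (v.2.1 * t' + g₂ * Y')) := congrArg Prod.fst he
    have he2 : Circle.exp (2 * Real.pi * (v.2.2 * t + g₃ * Y)) =
        Circle.exp (2 * Real.pi * (v.2.2 * t' + g₃ * Y')) := congrArg Prod.snd he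
    obtain ⟨hz, hα⟩ := BVc_eq he1
    obtain ⟨m, hm⟩ := RSG.ex_eq_iff.1 hα
    obtain ⟨k, hk⟩ := BVc_circ he2
    have h' : (g₂ : ℝ) * v.2.2 - g₃ * v.2.1 = 1 := by exact_mod_cast h
    have e1 : t' = t + ((-g₃ * m + g₂ * k : ℤ) : ℝ) := by
      push_cast
      linear_combination (-(g₃ : ℝ)) * hm + (g₂ : ℝ) * hk - (t' - t) * h'
    have e2 : Y' = Y + ((v.2.2 * m - v.2.1 * k : ℤ) : ℝ) := by
      push_cast
      linear_combination (v.2.2 : ℝ) * hm - (v.2.1 : ℝ) * hk - (Y' - Y) * h'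
    have e3 : ex (v.1 * t') = ex (v.1 * t) := by
      apply BVc_add_int (k := v.1 * (-g₃ * m + g₂ * k))
      rw [e1]
      push_cast
      ring
    rw [e3] at hz
    have hz' : z = z' := mul_right_cancel₀ (RSG.ex_ne _) hz
    refine ⟨⟨(0, ((v.2.2 * m - v.2.1 * k : ℤ) : ℝ)), ⟨rfl, _, rfl⟩, ?_⟩, _, e1⟩
    rw [Prod.mk_add_mk, add_zero, ← e2, hz']

theorem VC2_chart {v : ℤ × ℤ × ℤ} {g₁ g₃ : ℤ} (h : g₁ * v.2.2 - g₃ * v.1 = 1) :
    EChart ISP (gact v) Lam1 {x : ℂ × ℝ | ‖x.1‖ < 1 / 3} (VC2 v g₁ g₃) where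
  opn := isOpen_lt (continuous_norm.comp continuous_fst) continuous_const
  inv := by
    rintro x hx m ⟨hm, -⟩
    change ‖x.1 + m.1‖ < 1 / 3
    rw [hm, add_zero]
    exact hx
  per := by
    rintro ⟨z, Y⟩ t m ⟨hm, i, hi⟩
    unfold VC2
    simp only [Prod.fst_add, Prod.snd_add, hm, hi, add_zero]
    have h1 : (v.1 : ℝ) * t + g₁ * (Y + i) = (v.1 * t + g₁ * Y) + ((g₁ * i : ℤ) : ℝ) := by
      push_cast
      ring
    have h2 : (v.2.2 : ℝ) * t + g₃ * (Y + i) = (v.2.2 * t + g₃ * Y) + ((g₃ * i : ℤ) : ℝ) := by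
      push_cast
      ring
    rw [h1, h2, RSG.ex_add_int, BVc_circ']
  equiv := by
    rintro ⟨z, Y⟩ t
    have hp : 0 < ‖ex (v.1 * 0 + g₁ * Y)‖ ^ 2 + ‖-z * ex (v.2.1 * 0)‖ ^ 2 := by
      rw [BVc_ex_norm]
      positivity
    have hc := BVc_c hp
    have hr := Real.sqrt_pos.2 hp
    unfold gact VC2
    simp only
    rw [hc.1, hc.2]
    set r := Real.sqrt (‖ex (v.1 * 0 + g₁ * Y)‖ ^ 2 + ‖-z * ex (v.2.1 * 0)‖ ^ 2) with hr_def
    have hrc : (r : ℂ) ≠ 0 := by exact_mod_cast hr.ne'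
    apply Prod.ext
    · change pS3 (ex (v.1 * t + g₁ * Y)) (-z * ex (v.2.1 * t)) =
        pS3 (ex (v.1 * t) * (ex (v.1 * 0 + g₁ * Y) / r)) (ex (v.2.1 * t) * (-z * ex (v.2.1 * 0) / r))
      have h1 := pS3_scale hr (ex (v.1 * t) * (ex (v.1 * 0 + g₁ * Y) / r))
        (ex (v.2.1 * t) * (-z * ex (v.2.1 * 0) / r))
      rw [← h1]
      congr 1
      · rw [mul_zero, zero_add, RSG.ex_add]
        field_simp
      · rw [mul_zero, RSG.ex_zero]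
        field_simp
    · change Circle.exp (2 * Real.pi * (v.2.2 * t + g₃ * Y)) =
        Circle.exp (2 * Real.pi * (v.2.2 * t)) * Circle.exp (2 * Real.pi * (v.2.2 * 0 + g₃ * Y))
      rw [← Circle.exp_add]
      congr 1
      ring
  loc := by
    rintro x t -
    have h0 := BVc_neg (x, t)
    have h1 := IsLocalDiffeomorphAt.comp (hf := h0) (g := BVc_L v.2.1 v.1 v.2.2 g₁ g₃ h)
      (hg := BVc_L_ld v.2.1 v.1 v.2.2 g₁ g₃ h _)
    exact IsLocalDiffeomorphAt.comp (hf := h1)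
      (g := fun q : (ℂ × ℝ) × ℝ => ((pS3 (ex q.1.2) q.1.1, Circle.exp (2 * Real.pi * q.2)) : SP))
      (hg := BVc_W' _)
  inj := by
    rintro ⟨z, Y⟩ t ⟨z', Y'⟩ t' - - he
    have he1 : pS3 (ex (v.1 * t + g₁ * Y)) (-z * ex (v.2.1 * t)) =
        pS3 (ex (v.1 * t' + g₁ * Y')) (-z' * ex (v.2.1 * t')) := congrArg Prod.fst he
    have he2 : Circle.exp (2 * Real.pi * (v.2.2 * t + g₃ * Y)) =
        Circle.exp (2 * Real.pi * (v.2.2 * t' + g₃ * Y')) := congrArg Prod.snd he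
    obtain ⟨hz, hα⟩ := BVc_eq' he1
    obtain ⟨m, hm⟩ := RSG.ex_eq_iff.1 hα
    obtain ⟨k, hk⟩ := BVc_circ he2
    have h' : (g₁ : ℝ) * v.2.2 - g₃ * v.1 = 1 := by exact_mod_cast h
    have e1 : t' = t + ((-g₃ * m + g₁ * k : ℤ) : ℝ) := by
      push_cast
      linear_combination (-(g₃ : ℝ)) * hm + (g₁ : ℝ) * hk - (t' - t) * h'
    have e2 : Y' = Y + ((v.2.2 * m - v.1 * k : ℤ) : ℝ) := by
      push_cast
      linear_combination (v.2.2 : ℝ) * hm - (v.1 : ℝ) * hk - (Y' - Y) * h'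
    have e3 : ex (v.2.1 * t') = ex (v.2.1 * t) := by
      apply BVc_add_int (k := v.2.1 * (-g₃ * m + g₁ * k))
      rw [e1]
      push_cast
      ring
    rw [e3] at hz
    have hz' : z = z' := neg_injective (mul_right_cancel₀ (RSG.ex_ne _) hz)
    refine ⟨⟨(0, ((v.2.2 * m - v.1 * k : ℤ) : ℝ)), ⟨rfl, _, rfl⟩, ?_⟩, _, e1⟩
    rw [Prod.mk_add_mk, add_zero, ← e2, hz']

/-- `|z1| / |z2|` in the charts -/
theorem VC_ratio (v : ℤ × ℤ × ℤ) (g g' : ℤ) (z : ℂ) (Y t : ℝ) :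
    ‖z1 (VC1 v g g' ((z, Y), t)).1‖ = ‖z‖ * ‖z2 (VC1 v g g' ((z, Y), t)).1‖ ∧ z2 (VC1 v g g' ((z, Y), t)).1 ≠ 0 ∧
    ‖z2 (VC2 v g g' ((z, Y), t)).1‖ = ‖z‖ * ‖z1 (VC2 v g g' ((z, Y), t)).1‖ ∧ z1 (VC2 v g g' ((z, Y), t)).1 ≠ 0 := by
  have hp : 0 < ‖z * ex (v.1 * t)‖ ^ 2 + ‖ex (v.2.1 * t + g * Y)‖ ^ 2 := by
    rw [BVc_ex_norm (_ + _)]
    positivity
  have hp' : 0 < ‖ex (v.1 * t + g * Y)‖ ^ 2 + ‖-z * ex (v.2.1 * t)‖ ^ 2 := by
    rw [BVc_ex_norm (_ + _)]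
    positivity
  have hc := BVc_c hp
  have hc' := BVc_c hp'
  have hr := Real.sqrt_pos.2 hp
  have hr' := Real.sqrt_pos.2 hp'
  unfold VC1 VC2
  simp only
  rw [hc.1, hc.2, hc'.1, hc'.2]
  refine ⟨?_, ?_, ?_, ?_⟩
  · rw [norm_div, norm_div, norm_mul, BVc_ex_norm, BVc_ex_norm]
    ring
  · refine div_ne_zero (RSG.ex_ne _) ?_
    exact_mod_cast hr.ne'
  · rw [norm_div, norm_div, norm_mul, norm_neg, BVc_ex_norm, BVc_ex_norm]
    ring
  · refine div_ne_zero (RSG.ex_ne _) ?_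
    exact_mod_cast hr'.ne'

/-- coordinates of `gE` -/
theorem BVc_gE {ρ : ℝ} (h : 0 < prf ρ ^ 2 + prf (1 - ρ) ^ 2) (x : ℝ × ℝ × ℝ) :
    ∃ r : ℝ, 0 < r ∧ z1 (gE ρ x).1 = prf ρ * ex x.1 / r ∧ z2 (gE ρ x).1 = prf (1 - ρ) * ex x.2.1 / r := by
  have hp : 0 < ‖(prf ρ : ℂ) * ex x.1‖ ^ 2 + ‖(prf (1 - ρ) : ℂ) * ex x.2.1‖ ^ 2 := by
    rw [norm_mul, norm_mul, BVc_ex_norm, BVc_ex_norm, mul_one, mul_one, Complex.norm_real,
      Complex.norm_real, Real.norm_eq_abs, Real.norm_eq_abs, sq_abs, sq_abs]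
    exact h
  have hc := BVc_c hp
  exact ⟨_, Real.sqrt_pos.2 hp, hc.1, hc.2⟩

/-- `|z1| / |z2|` for `gE` -/
theorem gE_ratio {ρ : ℝ} (h0 : 0 < ρ) (h1 : ρ < 1) (x : ℝ × ℝ × ℝ) :
    ρ * ‖z2 (gE ρ x).1‖ ≤ ‖z1 (gE ρ x).1‖ ∧ (1 - ρ) * ‖z1 (gE ρ x).1‖ ≤ ‖z2 (gE ρ x).1‖ ∧
    z1 (gE ρ x).1 ≠ 0 ∧ z2 (gE ρ x).1 ≠ 0 := by
  have hp := (prf_pos h0).1
  have hq := (prf_pos (x := 1 - ρ) (by linarith)).1
  obtain ⟨r, hr, e1, e2⟩ := BVc_gE (ρ := ρ) (by positivity) x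
  obtain ⟨k1, k2⟩ := prf_ratio h0 h1
  rw [le_div_iff₀ hq] at k1
  rw [le_div_iff₀ hp] at k2
  rw [e1, e2]
  have hrc : (r : ℂ) ≠ 0 := by exact_mod_cast hr.ne'
  refine ⟨?_, ?_, ?_, ?_⟩
  · rw [norm_div, norm_div, norm_mul, norm_mul, BVc_ex_norm, BVc_ex_norm, mul_one, mul_one,
      Complex.norm_real, Complex.norm_real, Complex.norm_real, Real.norm_of_nonneg hp.le,
      Real.norm_of_nonneg hq.le, Real.norm_of_nonneg hr.le, ← mul_div_assoc]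
    exact div_le_div_of_nonneg_right k1 hr.le
  · rw [norm_div, norm_div, norm_mul, norm_mul, BVc_ex_norm, BVc_ex_norm, mul_one, mul_one,
      Complex.norm_real, Complex.norm_real, Complex.norm_real, Real.norm_of_nonneg hp.le,
      Real.norm_of_nonneg hq.le, Real.norm_of_nonneg hr.le, ← mul_div_assoc]
    exact div_le_div_of_nonneg_right k2 hr.le
  · refine div_ne_zero (mul_ne_zero ?_ (RSG.ex_ne _)) hrc
    exact_mod_cast hp.ne'
  · refine div_ne_zero (mul_ne_zero ?_ (RSG.ex_ne _)) hrc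
    exact_mod_cast hq.ne'

theorem BVc_prf0 : prf 0 = 0 := prf_low (by norm_num)

theorem BVc_prf1 : prf 1 = 1 := prf_high (by norm_num)

theorem gE_one (x : ℝ × ℝ × ℝ) : z2 (gE 1 x).1 = 0 ∧ z1 (gE 0 x).1 = 0 := by
  constructor
  · obtain ⟨r, -, -, e2⟩ := BVc_gE (ρ := 1) (by rw [BVc_prf1]; positivity) x
    rw [e2, sub_self, BVc_prf0]
    simp
  · obtain ⟨r, -, e1, -⟩ := BVc_gE (ρ := 0) (by rw [sub_zero, BVc_prf1]; positivity) x
    rw [e1, BVc_prf0]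
    simp

/-- polar coordinates near the cores -/
theorem gE_VC1 {ρ : ℝ} (h0 : 0 ≤ ρ) (h1 : ρ ≤ 1 / 3) (x : ℝ) (v : ℤ × ℤ × ℤ) (g g' : ℤ) (m : ℤ × ℤ × ℤ) :
    gE ρ (addZ (x, 0, 0) m) = VC1 v g g' ((ρ * ex x, 0), 0) := by
  have _ := h0
  rw [gE_per]
  unfold gE VC1
  simp only
  rw [prf_low h1, prf_high (by linarith : 2 / 3 ≤ 1 - ρ)]
  simp [RSG.ex_zero]

theorem gE_VC2 {ρ : ℝ} (h0 : 0 ≤ ρ) (h1 : ρ ≤ 1 / 3) (x : ℝ) (v : ℤ × ℤ × ℤ) (g g' : ℤ) (m : ℤ × ℤ × ℤ) :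
    gE (1 - ρ) (addZ (0, x, 0) m) = VC2 v g g' ((-(ρ * ex x), 0), 0) := by
  have _ := h0
  rw [gE_per]
  unfold gE VC2
  simp only
  rw [sub_sub_cancel, prf_low h1, prf_high (by linarith : 2 / 3 ≤ 1 - ρ)]
  simp [RSG.ex_zero]

theorem gK_per (w : ℝ → ℝ × ℝ × ℝ) (l : ℝ) : gK w (l + 1) = gK w l := by
  have h : l + 1 - (round (l + 1) : ℝ) = l - round l := by
    rw [round_add_one]
    push_cast
    ring
  unfold gK
  rw [h]

theorem gK_pos (w : ℝ → ℝ × ℝ × ℝ) {l : ℝ} (h0 : 0 ≤ l) (h1 : l < 1 / 2) : gK w l = gE (2 * l) (w (2 * l)) := by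
  have h : round l = 0 := by
    rw [round_eq_zero_iff]
    exact ⟨by linarith, h1⟩
  unfold gK
  rw [h, Int.cast_zero, sub_zero, if_pos h0]

theorem gK_neg (w : ℝ → ℝ × ℝ × ℝ) {l : ℝ} (h0 : -(1 / 2) ≤ l) (h1 : l < 0) : gK w l = gE (-2 * l) (0, 0, 0) := by
  have h : round l = 0 := by
    rw [round_eq_zero_iff]
    exact ⟨h0, by linarith⟩
  unfold gK
  rw [h, Int.cast_zero, sub_zero, if_neg (not_le.2 h1)]

theorem BVc_add0 (x : ℝ × ℝ × ℝ) : addZ x (0, 0, 0) = x := by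
  unfold addZ
  simp

theorem gK_zero {v n₀ n₁ : ℤ × ℤ × ℤ} {w : ℝ → ℝ × ℝ × ℝ} (hw : GPath v n₀ n₁ w) {ε : ℝ} (h6 : ε ≤ 1 / 6)
    (hε : ∀ ρ ≤ 2 * ε, w ρ = (1 / 2 + (n₀.1 : ℝ), (n₀.2.1 : ℝ), (n₀.2.2 : ℝ))) (g g' : ℤ) {l : ℝ} (hl : |l| ≤ ε) :
    gK w l = VC1 v g g' ((((-2 * l : ℝ) : ℂ), 0), 0) := by
  have _ := hw
  have hl' := abs_le.1 hl
  rcases le_or_gt 0 l with h | h
  · rw [gK_pos w h (by linarith), hε (2 * l) (by linarith)]
    have e : ((1 / 2 + (n₀.1 : ℝ), (n₀.2.1 : ℝ), (n₀.2.2 : ℝ)) : ℝ × ℝ × ℝ) = addZ (1 / 2, 0, 0) n₀ := by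
      unfold addZ
      simp
    rw [e, gE_VC1 (by linarith) (by linarith) (1 / 2) v g g' n₀, RSG.ex_half]
    congr 3
    push_cast
    ring
  · rw [gK_neg w (by linarith) h, ← BVc_add0 (0, 0, 0), gE_VC1 (by linarith) (by linarith) 0 v g g' (0, 0, 0),
      RSG.ex_zero, mul_one]

theorem gK_half {v n₀ n₁ : ℤ × ℤ × ℤ} {w : ℝ → ℝ × ℝ × ℝ} (hw : GPath v n₀ n₁ w) {ε : ℝ} (h6 : ε ≤ 1 / 6)
    (hε : ∀ ρ, 1 - 2 * ε ≤ ρ → w ρ = ((n₁.1 : ℝ), 1 / 2 + (n₁.2.1 : ℝ), (n₁.2.2 : ℝ))) (g g' : ℤ) {l : ℝ} (hl : |l| ≤ ε) :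
    gK w (1 / 2 + l) = VC2 v g g' ((((-2 * l : ℝ) : ℂ), 0), 0) := by
  have _ := hw
  have hl' := abs_le.1 hl
  rcases le_or_gt 0 l with h | h
  · have e0 : gK w (1 / 2 + l) = gK w (-(1 / 2) + l) := by
      rw [← gK_per w (-(1 / 2) + l)]
      congr 1
      ring
    have e1 : -2 * (-(1 / 2) + l) = 1 - 2 * l := by ring
    rw [e0, gK_neg w (by linarith) (by linarith), e1, ← BVc_add0 (0, 0, 0),
      gE_VC2 (by linarith) (by linarith) 0 v g g' (0, 0, 0), RSG.ex_zero, mul_one]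
    congr 3
    push_cast
    ring
  · have e1 : 2 * (1 / 2 + l) = 1 - (-2 * l) := by ring
    rw [gK_pos w (by linarith) (by linarith), hε (2 * (1 / 2 + l)) (by linarith)]
    have e : (((n₁.1 : ℝ), 1 / 2 + (n₁.2.1 : ℝ), (n₁.2.2 : ℝ)) : ℝ × ℝ × ℝ) = addZ (0, 1 / 2, 0) n₁ := by
      unfold addZ
      simp
    rw [e, e1, gE_VC2 (by linarith) (by linarith) (1 / 2) v g g' n₁, RSG.ex_half]
    congr 3
    push_cast
    ring

theorem BVc_cont {a b : ℝ → ℂ} {c : ℝ → ℝ} {l : ℝ} (ha : ContinuousAt a l) (hb : ContinuousAt b l)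
    (hc : ContinuousAt c l) (h0 : 0 < ‖a l‖ ^ 2 + ‖b l‖ ^ 2) :
    ContinuousAt (fun l => ((pS3 (a l) (b l), Circle.exp (c l)) : SP)) l := by
  have h1 : ContMDiffAt 𝓘(ℝ, ℂ × ℂ) (𝓡 3) ∞ (fun q : ℂ × ℂ => pS3 q.1 q.2) (a l, b l) :=
    RSG.pS3_smooth contDiff_fst.contMDiff.contMDiffAt contDiff_snd.contMDiff.contMDiffAt h0
  have h2 : ContinuousAt (fun l => pS3 (a l) (b l)) l :=
    ContinuousAt.comp (g := fun q : ℂ × ℂ => pS3 q.1 q.2) (f := fun l => (a l, b l)) (x := l)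
      h1.continuousAt (ha.prodMk hb)
  exact h2.prodMk (Circle.exp.continuous.continuousAt.comp hc)

theorem BVc_gE_cont {ρ : ℝ → ℝ} {x : ℝ → ℝ × ℝ × ℝ} {l : ℝ} (hρ : ContinuousAt ρ l) (hx : ContinuousAt x l)
    (h0 : 0 < prf (ρ l) ^ 2 + prf (1 - ρ l) ^ 2) : ContinuousAt (fun l => gE (ρ l) (x l)) l := by
  have hpc : Continuous prf := prf_smooth.continuous
  have hec : Continuous ex := RSG.ex_smooth.continuous
  have h1 : ContinuousAt (fun l => (prf (ρ l) : ℂ) * ex (x l).1) l :=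
    (Complex.continuous_ofReal.continuousAt.comp (hpc.continuousAt.comp hρ)).mul
      (hec.continuousAt.comp hx.fst)
  have h2 : ContinuousAt (fun l => (prf (1 - ρ l) : ℂ) * ex (x l).2.1) l :=
    (Complex.continuous_ofReal.continuousAt.comp (hpc.continuousAt.comp (continuousAt_const.sub hρ))).mul
      (hec.continuousAt.comp hx.snd.fst)
  have h3 : ContinuousAt (fun l => 2 * Real.pi * (x l).2.2) l := continuousAt_const.mul hx.snd.snd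
  refine BVc_cont h1 h2 h3 ?_
  rw [norm_mul, norm_mul, BVc_ex_norm, BVc_ex_norm, mul_one, mul_one, Complex.norm_real,
    Complex.norm_real, Real.norm_eq_abs, Real.norm_eq_abs, sq_abs, sq_abs]
  exact h0

theorem gK_cont {v n₀ n₁ : ℤ × ℤ × ℤ} {w : ℝ → ℝ × ℝ × ℝ} (hw : GPath v n₀ n₁ w) : Continuous (gK w) := by
  obtain ⟨ε₁, hε₁, hs⟩ := hw.start
  obtain ⟨ε₂, hε₂, ht⟩ := hw.stop
  set ε := min (min (ε₁ / 2) (ε₂ / 2)) (1 / 6) with hε_def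
  have hε : 0 < ε := lt_min (lt_min (by positivity) (by positivity)) (by norm_num)
  have hεa : ε ≤ ε₁ / 2 := (min_le_left _ _).trans (min_le_left _ _)
  have hεb : ε ≤ ε₂ / 2 := (min_le_left _ _).trans (min_le_right _ _)
  have h6 : ε ≤ 1 / 6 := min_le_right _ _
  have hs' : ∀ ρ ≤ 2 * ε, w ρ = (1 / 2 + (n₀.1 : ℝ), (n₀.2.1 : ℝ), (n₀.2.2 : ℝ)) :=
    fun ρ hρ => hs ρ (by linarith)
  have ht' : ∀ ρ, 1 - 2 * ε ≤ ρ → w ρ = ((n₁.1 : ℝ), 1 / 2 + (n₁.2.1 : ℝ), (n₁.2.2 : ℝ)) :=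
    fun ρ hρ => ht ρ (by linarith)
  have hper : ∀ (m : ℤ) (l : ℝ), gK w (l + m) = gK w l := by
    intro m l
    have hp : Function.Periodic (gK w) 1 := gK_per w
    have := hp.int_mul m l
    simpa using this
  have hwc : Continuous w := hw.smooth.continuous
  have hc0 : ∀ l, |l| < ε → ContinuousAt (gK w) l := by
    intro l hl
    have hev : gK w =ᶠ[𝓝 l] fun y => ((pS3 (((-2 * y : ℝ) : ℂ) * 1) 1, Circle.exp 0) : SP) := by
      have : ∀ᶠ y in 𝓝 l, |y| < ε := continuous_abs.continuousAt.eventually_lt continuousAt_const hl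
      filter_upwards [this] with y hy
      rw [gK_zero hw h6 hs' 0 0 hy.le]
      unfold VC1
      simp [RSG.ex_zero]
    refine ContinuousAt.congr ?_ hev.symm
    refine BVc_cont ?_ continuousAt_const continuousAt_const ?_
    · exact ((Complex.continuous_ofReal.comp (continuous_const.mul continuous_id)).mul
        continuous_const).continuousAt
    · rw [norm_one]
      positivity
  have hc1 : ∀ l, |l| < ε → ContinuousAt (gK w) (1 / 2 + l) := by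
    intro l hl
    have hev : gK w =ᶠ[𝓝 (1 / 2 + l)] fun y =>
        ((pS3 1 (-((-2 * (y - 1 / 2) : ℝ) : ℂ)), Circle.exp 0) : SP) := by
      have hc : Continuous fun y : ℝ => |y - 1 / 2| := (continuous_id.sub continuous_const).abs
      have : ∀ᶠ y in 𝓝 (1 / 2 + l), |y - 1 / 2| < ε :=
        hc.continuousAt.eventually_lt continuousAt_const (by rw [add_sub_cancel_left]; exact hl)
      filter_upwards [this] with y hy
      have e := gK_half hw h6 ht' 0 0 hy.le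
      rw [add_sub_cancel] at e
      rw [e]
      unfold VC2
      simp [RSG.ex_zero]
    refine ContinuousAt.congr ?_ hev.symm
    refine BVc_cont continuousAt_const ?_ continuousAt_const ?_
    · exact (Complex.continuous_ofReal.comp
        (continuous_const.mul (continuous_id.sub continuous_const))).neg.continuousAt
    · rw [norm_one]
      positivity
  have hc2 : ∀ l, 0 < l → l < 1 / 2 → ContinuousAt (gK w) l := by
    intro l h1 h2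
    have hev : gK w =ᶠ[𝓝 l] fun y => gE (2 * y) (w (2 * y)) := by
      filter_upwards [Ioo_mem_nhds h1 h2] with y hy
      exact gK_pos w hy.1.le hy.2
    refine ContinuousAt.congr ?_ hev.symm
    refine BVc_gE_cont (ρ := fun y => 2 * y) (x := fun y => w (2 * y)) (continuous_const.mul continuous_id).continuousAt
      (hwc.comp (continuous_const.mul continuous_id)).continuousAt ?_
    have := (prf_pos (x := 2 * l) (by linarith)).1
    positivity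
  have hc3 : ∀ l, -(1 / 2) < l → l < 0 → ContinuousAt (gK w) l := by
    intro l h1 h2
    have hev : gK w =ᶠ[𝓝 l] fun y => gE (-2 * y) (0, 0, 0) := by
      filter_upwards [Ioo_mem_nhds h1 h2] with y hy
      exact gK_neg w hy.1.le hy.2
    refine ContinuousAt.congr ?_ hev.symm
    refine BVc_gE_cont (ρ := fun y => -2 * y) (x := fun _ => (0, 0, 0)) (continuous_const.mul continuous_id).continuousAt
      continuousAt_const ?_
    have := (prf_pos (x := -2 * l) (by linarith)).1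
    positivity
  rw [continuous_iff_continuousAt]
  intro l
  set m := round l with hm
  have hm1 : |l - m| ≤ 1 / 2 := abs_sub_round l
  have hm2 := abs_le.1 hm1
  have hx : ContinuousAt (gK w) (l - m) := by
    rcases lt_trichotomy (l - m) 0 with h | h | h
    · rcases eq_or_lt_of_le hm2.1 with h' | h'
      · have h3 := hc1 0 (by rw [abs_zero]; exact hε)
        rw [add_zero] at h3
        have e : gK w = gK w ∘ fun y => y + 1 := by
          funext y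
          exact (gK_per w y).symm
        rw [e, ← h']
        refine ContinuousAt.comp ?_ (continuous_id.add continuous_const).continuousAt
        have e3 : -(1 / 2 : ℝ) + 1 = 1 / 2 := by norm_num
        change ContinuousAt (gK w) (-(1 / 2) + 1)
        rw [e3]
        exact h3
      · exact hc3 _ h' h
    · exact hc0 _ (by rw [h, abs_zero]; exact hε)
    · rcases eq_or_lt_of_le hm2.2 with h' | h'
      · have h3 := hc1 0 (by rw [abs_zero]; exact hε)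
        rw [add_zero] at h3
        rw [h']
        exact h3
      · exact hc2 _ h h'
  have e : gK w = gK w ∘ fun y => y - m := by
    funext y
    have := hper m (y - m)
    rw [sub_add_cancel] at this
    exact this
  rw [e]
  exact ContinuousAt.comp hx (continuous_id.sub continuous_const).continuousAt

end Pool.Agent.BAS
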