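import Pool.Agent.PTH.GDefs
import Pool.Agent.RSG.StdM

/-!
# BAS/Defs: the base case, definitions

`P = S3 × S1`, `ω = (p, q, r)`, `p, q` coprime and nonzero, `v = e₃ - n ω`; the knot is the curve
`K l = (pS3 (ex (p l)) (ex (q l)), exp (r l))` (over a torus knot of `S3`), and `c = v + n ω = e₃` is the direction of
the circle which is surgered.

* `tf p q` : function on `S3` whose zero set is the torus knot, homogeneous of weights `(p, q)`.
* `TKnot p q κ` : good thick torus knot.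
* `nq`, `inv3` : Euclidean norm squared and inversion of `V = ℝ × ℂ`; `st : S3 → V` stereographic projection from
  `(0, -1)`; `sti`, `sti'` inverse stereographic projections from the poles `(0, -1)` and `(0, 1)`.
* `FC z` (`|FC z| = |fh z|`): with `X = Xof z` one has `sti X = (2 |c1| c2, FC)`.
* `cone T B` : the map of `S4` induced by a map `T` of `V` which is linear (`= B`) far away.
-/

open scoped Manifold ContDiff
open Complex (I)

namespace Pool.Agent.BAS

open Pool.Agent.RSG (E4 S3 S4 pS3 pS4 ex c1 c2 ht fh Thick)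
open Pool.Agent.PTH (SP ISP z1 z2 gE gact)

/-- power with exponent `k ∈ Z`, smooth: `z ^ k` for `k ≥ 0`, `(conj z) ^ (-k)` for `k < 0` -/
noncomputable def pw (z : ℂ) (k : ℤ) : ℂ :=
  if 0 ≤ k then z ^ k.toNat else ((starRingEnd ℂ) z) ^ (-k).toNat

/-- its zero set in `S3` is the torus knot `(ex (p l), ex (q l)) / √2` -/
noncomputable def tf (p q : ℤ) (y : S3) : ℂ :=
  pw ((Real.sqrt 2 : ℝ) * z1 y) q - pw ((Real.sqrt 2 : ℝ) * z2 y) p

/-- a good thick torus knot -/
structure TKnot (p q : ℤ) (κ : ℝ × ℂ → S3) : Prop where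
  thick : Thick κ
  core : ∀ l, κ (l, 0) = pS3 (ex (p * l)) (ex (q * l))
  rot : ∀ (l θ : ℝ) (v : ℂ), κ (l + θ, v) = pS3 (ex (p * θ) * z1 (κ (l, v))) (ex (q * θ) * z2 (κ (l, v)))
  val : ∃ δ : ℝ, 0 < δ ∧ ∀ (l : ℝ) (v : ℂ), ‖v‖ < 1 → tf p q (κ (l, v)) = δ * ex (p * q * l) * v

/-! ## the vector space `V = ℝ × ℂ` -/

abbrev V := ℝ × ℂ

/-- square of the Euclidean norm -/
noncomputable def nq (X : V) : ℝ := X.1 ^ 2 + ‖X.2‖ ^ 2

/-- inversion -/
noncomputable def inv3 (X : V) : V := (nq X)⁻¹ • X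

/-- stereographic projection from the pole `(0, -1)` -/
noncomputable def st (y : S3) : V := ((z2 y).im / (1 + (z2 y).re), z1 y / (1 + (z2 y).re : ℝ))

/-- inverse of `st` : `(2 X.2, (1 - |X|²) + 2 i X.1) / (1 + |X|²)` -/
noncomputable def sti (X : V) : S3 := pS3 (2 * X.2) ⟨1 - nq X, 2 * X.1⟩

/-- inverse stereographic projection from the pole `(0, 1)` : `sti' 0 = (0, -1)`, `sti' y = sti (inv3 y)` for `y ≠ 0` -/
noncomputable def sti' (y : V) : S3 := pS3 (2 * y.2) ⟨nq y - 1, 2 * y.1⟩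

/-- the pole `(0, -1)` -/
noncomputable def pole : S3 := pS3 0 (-1)

/-! ## the sphere `S4` -/

/-- `V × S1 → S4 - {c1 = 0}` : the point `(w, X) / |(w, X)|`  (`c1 = w / √(1 + |X|²)`) -/
noncomputable def spc (X : V) (w : ℂ) : S4 := pS4 w X.2 X.1

/-- first component of the inverse of `spc` -/
noncomputable def Xof (z : S4) : V := (ht z / ‖c1 z‖, c2 z / ‖c1 z‖)

/-- `|FC z| = |fh z|` -/
noncomputable def FC (z : S4) : ℂ := ⟨2 * ‖c1 z‖ ^ 2 - 1, 2 * ht z * ‖c1 z‖⟩

open Classical in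
/-- The map of `S4` induced by `T : V → V`, `T = B` linear far away. -/
noncomputable def cone (T : V → V) (B : V ≃L[ℝ] V) (z : S4) : S4 :=
  if c1 z = 0 then pS4 0 (B (ht z, c2 z)).2 (B (ht z, c2 z)).1
  else spc (T (Xof z)) (c1 z / ‖c1 z‖)

/-- `c1` is multiplied by `(fh / |fh|)^k` -/
noncomputable def rR (k : ℤ) (z : S4) : S4 := pS4 (c1 z * (fh z / ‖fh z‖) ^ k) (c2 z) (ht z)

end Pool.Agent.BAS
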